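import Pool.Agent.Lib.MP_107652_al.One.SpecB

/-!
# MP_107652_al, One: functions constant along the edges of a graph and of its component graph
-/

set_option autoImplicit false

open Finset

namespace WGOne

open WGirth

/-- an element of `Cst` of a saturated subgraph is constant on the odd components -/
private theorem CstEq_const {V S : Type} (Λ : LGraph S) (comp : S → V) (hc : CMap Λ comp)
    (P : V → Prop) (ψ : {s // P (comp s)} → ℂ) (hψ : ψ ∈ Cst (sub Λ (fun s => P (comp s))))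
    (s s' : S) (h : SameC Λ s s') (hs : P (comp s)) (hs' : P (comp s')) :
    ψ ⟨s, hs⟩ = ψ ⟨s', hs'⟩ := by
  obtain ⟨p⟩ := h
  induction p with
  | nil => rfl
  | @cons a b c hab q ih =>
    have hcb : comp a = comp b := (hc.iff a b).mpr hab.reachable
    have hb : P (comp b) := hcb ▸ hs
    have h1 : ψ ⟨a, hs⟩ = ψ ⟨b, hb⟩ := mem_Cst.mp hψ ⟨a, hs⟩ ⟨b, hb⟩ hab.1
    exact h1.trans (ih hb hs')

/-- composition with `comp` -/
private def CstEq_map {V S : Type} (Γ : LGraph V) (Λ : LGraph S) (comp : S → V)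
    (hadj : ∀ v w, Γ.graph.Adj v w ↔ v ≠ w ∧ ∃ s t, comp s = v ∧ comp t = w ∧ Λ.graph.Adj s t)
    (P : V → Prop) : Cst (sub Γ P) →ₗ[ℂ] Cst (sub Λ (fun s => P (comp s))) where
  toFun φ := ⟨fun s => φ.1 ⟨comp s.1, s.2⟩, by
    intro s t hst
    by_cases h : comp s.1 = comp t.1
    · have h2 : (⟨comp s.1, s.2⟩ : {v // P v}) = ⟨comp t.1, t.2⟩ := Subtype.ext h
      change φ.1 ⟨comp s.1, s.2⟩ = φ.1 ⟨comp t.1, t.2⟩
      rw [h2]
    · exact φ.2 ⟨comp s.1, s.2⟩ ⟨comp t.1, t.2⟩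
        ((hadj _ _).mpr ⟨h, s.1, t.1, rfl, rfl, hst⟩)⟩
  map_add' _ _ := rfl
  map_smul' _ _ := rfl

theorem cstEq : CstEq := by
  intro V S Γ Λ comp hc hadj P
  have hinj : Function.Injective (CstEq_map Γ Λ comp hadj P) := by
    intro φ φ' h
    apply Subtype.ext
    funext v
    obtain ⟨v, hv⟩ := v
    obtain ⟨s, rfl⟩ := hc.surj v
    exact congrFun (congrArg Subtype.val h) ⟨s, hv⟩
  have hsurj : Function.Surjective (CstEq_map Γ Λ comp hadj P) := by
    rintro ⟨ψ, hψ⟩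
    have hr : ∀ v : {v // P v}, P (comp (Function.surjInv hc.surj v.1)) := fun v => by
      rw [Function.surjInv_eq hc.surj]
      exact v.2
    have hkey : ∀ (s : S) (hs : P (comp s)) (v : {v // P v}), comp s = v.1 →
        ψ ⟨Function.surjInv hc.surj v.1, hr v⟩ = ψ ⟨s, hs⟩ := fun s hs v h =>
      CstEq_const Λ comp hc P ψ hψ _ _
        ((hc.iff _ _).mp ((Function.surjInv_eq hc.surj v.1).trans h.symm)) _ _
    refine ⟨⟨fun v => ψ ⟨Function.surjInv hc.surj v.1, hr v⟩, ?_⟩, ?_⟩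
    · intro v w hvw
      obtain ⟨_, s, t, hs, ht, hst⟩ := (hadj v.1 w.1).mp hvw
      have h1 : P (comp s) := hs ▸ v.2
      have h2 : P (comp t) := ht ▸ w.2
      have h3 := hkey s h1 v hs
      have h4 := hkey t h2 w ht
      have h5 : ψ ⟨s, h1⟩ = ψ ⟨t, h2⟩ := mem_Cst.mp hψ ⟨s, h1⟩ ⟨t, h2⟩ hst
      exact h3.trans (h5.trans h4.symm)
    · apply Subtype.ext
      funext s
      exact hkey s.1 s.2 ⟨comp s.1, s.2⟩ rfl
  exact (LinearEquiv.ofBijective (CstEq_map Γ Λ comp hadj P) ⟨hinj, hsurj⟩).finrank_eq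

end WGOne
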