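import Pool.Agent.Lib.MP_107652_al.One.SpecB

/-!
# MP_107652_al, THEOREM E, module Kill
-/

set_option autoImplicit false

open Finset

namespace WGOne

open WGirth

private lemma Kill_edge {S : Type} (Λ : LGraph S) (z : S → ℂˣ) (b : S → ℂ) (hb : b ∈ Sol Λ z)
    (s t : S) (h : (oddGraph Λ).Adj s t) (hz : z s = 1) : b s = b t := by
  have h1 := mem_Sol.mp hb s t h.1
  unfold RelE at h1
  rw [if_neg h.2, hz, Units.val_one, neg_one_geom_sum, if_neg h.2, one_mul] at h1
  exact sub_eq_zero.mp h1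

private lemma Kill_walk {S : Type} (Λ : LGraph S) (z : S → ℂˣ) (b : S → ℂ) (hb : b ∈ Sol Λ z)
    {s s' : S} (w : (oddGraph Λ).Walk s s') (hz : ∀ t, SameC Λ s t → z t = 1) : b s = b s' := by
  induction w with
  | nil => rfl
  | cons h w ih =>
    have h1 := Kill_edge Λ z b hb _ _ h (hz _ (SimpleGraph.Reachable.refl _))
    rw [h1]
    refine ih fun t ht => hz t ?_
    exact (SimpleGraph.Adj.reachable h).trans ht

theorem kill : NrmE → Kill := by
  intro hN S Λ z b hb
  refine ⟨?_, ?_⟩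
  · intro s t hst he hz ht
    have h1 := mem_Sol.mp hb s t hst
    unfold RelE at h1
    rw [if_pos he, hz, Units.val_one] at h1
    have h2 : 2 ≤ Λ.label s(s, t) := Λ.two_le _ ((SimpleGraph.mem_edgeSet _).mpr hst)
    have h3 : 1 ≤ Λ.label s(s, t) / 2 := by omega
    have h4 := hN.1 (1 : ℂ) (z t : ℂ) _ h3 (by rwa [norm_one, one_mul])
    have h5 := (mul_eq_zero.mp h1).resolve_left h4
    rw [sub_self, zero_mul, sub_zero] at h5
    refine (mul_eq_zero.mp h5).resolve_left fun h6 => ht ?_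
    have h7 : (z t : ℂ) = 1 := (sub_eq_zero.mp h6).symm
    rw [h7, norm_one]
  · intro s s' h hz
    obtain ⟨w⟩ := h
    exact Kill_walk Λ z b hb w hz

end WGOne
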