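import Pool.Agent.Lib.MP_107652_al.One.SpecB

/-!
# MP_107652_al, THEOREM E, part B: geometric sums of numbers of norm not 1
-/

set_option autoImplicit false

open Finset

namespace WGOne

open WGirth

private theorem NrmE_aux (x : ℂ) (k : ℕ) (hk : 1 ≤ k) (h : ∑ i ∈ range k, x ^ i = 0) :
    ‖x‖ = 1 := by
  have h1 : x ^ k = 1 := by
    have h2 := geom_sum_mul x k
    rw [h, zero_mul] at h2
    exact (sub_eq_zero.mp h2.symm)
  have h3 : ‖x‖ ^ k = 1 := by
    rw [← norm_pow, h1, norm_one]
  exact (pow_eq_one_iff_of_nonneg (norm_nonneg x) (by omega)).mp h3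

/-- **NrmE.** Geometric sums of numbers of norm different from one do not vanish. -/
theorem nrmE : NrmE := by
  refine ⟨fun a c k hk hn h => ?_, fun a m hm hn h => ?_⟩
  · have h1 := NrmE_aux (a * c) k hk h
    rw [norm_mul] at h1
    exact hn h1
  · have h1 := NrmE_aux (-a) m hm h
    rw [norm_neg] at h1
    exact hn h1

end WGOne
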