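import Pool.Agent.Lib.MP_107652_al.One.SpecB

/-!
# MP_107652_al, THEOREM E, part B: the dimension of the space of cocycles for a generic character
-/

set_option autoImplicit false

open Finset

namespace WGOne

open WGirth

/-- For an edge the relation for `(1 - z s) φ s` says that `φ s = φ t`. -/
private theorem SolGen_edge (hN : NrmE) {S : Type} (Λ : LGraph S) (z : S → ℂˣ)
    (h1 : ∀ s, z s ≠ 1) (h2 : ∀ s t, (oddGraph Λ).Adj s t → z s = z t ∧ ‖(z s : ℂ)‖ ≠ 1)
    (h3 : ∀ s t, Λ.graph.Adj s t → Even (Λ.label s(s, t)) → ‖(z s : ℂ)‖ * ‖(z t : ℂ)‖ ≠ 1)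
    (f : S → ℂ) (s t : S) (hst : Λ.graph.Adj s t) :
    RelE (Λ.label s(s, t)) (z s) (z t) ((1 - (z s : ℂ)) * f s) ((1 - (z t : ℂ)) * f t) ↔
      f s = f t := by
  have hne : ∀ s, (1 - (z s : ℂ)) ≠ 0 := by
    intro s h
    apply h1 s
    apply Units.ext
    rw [Units.val_one]
    linear_combination -h
  have hlab : 2 ≤ Λ.label s(s, t) := Λ.two_le _ ((SimpleGraph.mem_edgeSet _).mpr hst)
  unfold RelE
  split_ifs with hm
  · have hE := hN.1 (z s : ℂ) (z t : ℂ) (Λ.label s(s, t) / 2) (by omega) (h3 s t hst hm)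
    constructor
    · intro h
      have h4 := (mul_eq_zero.mp h).resolve_left hE
      have h5 : (1 - (z t : ℂ)) * ((1 - (z s : ℂ)) * (f s - f t)) = 0 := by
        linear_combination h4
      have h6 := (mul_eq_zero.mp ((mul_eq_zero.mp h5).resolve_left (hne t))).resolve_left (hne s)
      exact sub_eq_zero.mp h6
    · intro h
      rw [h]
      ring
  · obtain ⟨hz, hn⟩ := h2 s t ⟨hst, hm⟩
    have hE := hN.2 (z s : ℂ) (Λ.label s(s, t)) (by omega) hn
    constructor
    · intro h
      have h4 := (mul_eq_zero.mp h).resolve_left hE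
      rw [← hz] at h4
      have h5 : (1 - (z s : ℂ)) * (f s - f t) = 0 := by
        linear_combination h4
      exact sub_eq_zero.mp ((mul_eq_zero.mp h5).resolve_left (hne s))
    · intro h
      rw [← hz, h]
      ring

theorem solGen : NrmE → SolGen := by
  intro hN S Λ z h1 h2 h3
  have hne : ∀ s, (1 - (z s : ℂ)) ≠ 0 := by
    intro s h
    apply h1 s
    apply Units.ext
    rw [Units.val_one]
    linear_combination -h
  symm
  let F : Cst Λ →ₗ[ℂ] Sol Λ z :=
    { toFun := fun f => ⟨fun s => (1 - (z s : ℂ)) * f.1 s, by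
        intro s t hst
        exact (SolGen_edge hN Λ z h1 h2 h3 f.1 s t hst).mpr (f.2 s t hst)⟩
      map_add' := by
        intro f g
        apply Subtype.ext
        funext s
        show (1 - (z s : ℂ)) * (f.1 s + g.1 s) = (1 - (z s : ℂ)) * f.1 s + (1 - (z s : ℂ)) * g.1 s
        ring
      map_smul' := by
        intro c f
        apply Subtype.ext
        funext s
        show (1 - (z s : ℂ)) * (c * f.1 s) = c * ((1 - (z s : ℂ)) * f.1 s)
        ring }
  have hF : Function.Bijective F := by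
    constructor
    · intro f g hfg
      apply Subtype.ext
      funext s
      have h4 : (1 - (z s : ℂ)) * f.1 s = (1 - (z s : ℂ)) * g.1 s := congrFun (congrArg Subtype.val hfg) s
      exact mul_left_cancel₀ (hne s) h4
    · intro b
      have h5 : ∀ s, (1 - (z s : ℂ)) * ((1 - (z s : ℂ))⁻¹ * b.1 s) = b.1 s := by
        intro s
        rw [← mul_assoc, mul_inv_cancel₀ (hne s), one_mul]
      refine ⟨⟨fun s => (1 - (z s : ℂ))⁻¹ * b.1 s, ?_⟩, ?_⟩
      · intro s t hst
        apply (SolGen_edge hN Λ z h1 h2 h3 (fun s => (1 - (z s : ℂ))⁻¹ * b.1 s) s t hst).mp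
        show RelE _ _ _ ((1 - (z s : ℂ)) * ((1 - (z s : ℂ))⁻¹ * b.1 s))
          ((1 - (z t : ℂ)) * ((1 - (z t : ℂ))⁻¹ * b.1 t))
        rw [h5 s, h5 t]
        exact b.2 s t hst
      · apply Subtype.ext
        funext s
        exact h5 s
  exact LinearEquiv.finrank_eq (LinearEquiv.ofBijective F hF)

end WGOne
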