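import Pool.Agent.Lib.MP_107652_al.One.SpecB

/-!
# MP_107652_al, One: direct sum decomposition of the space of cocycles
-/

set_option autoImplicit false

open Finset

namespace WGOne

open WGirth

private theorem SolSplit_right (m : ℕ) (hm : Even m) (a c x y : ℂ) (hc : c = 1) (hy : y = 0) :
    RelE m a c x y := by
  unfold RelE
  rw [if_pos hm, hc, hy]
  ring

private theorem SolSplit_left (m : ℕ) (hm : Even m) (a c x y : ℂ) (ha : a = 1) (hx : x = 0) :
    RelE m a c x y := by
  unfold RelE
  rw [if_pos hm, ha, hx]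
  ring

private theorem SolSplit_zero (m : ℕ) (a c x y : ℂ) (hx : x = 0) (hy : y = 0) :
    RelE m a c x y := by
  unfold RelE
  rw [hx, hy]
  split_ifs <;> ring

/-- restriction of a cocycle -/
private def SolSplit_res {S : Type} (Λ : LGraph S) (z : S → ℂˣ) (P : S → Prop) :
    Sol Λ z →ₗ[ℂ] Sol (sub Λ P) (fun s => z s.1) where
  toFun b := ⟨fun s => b.1 s.1, by
    rw [mem_Sol]
    intro s t hst
    exact (mem_Sol.1 b.2) s.1 t.1 hst⟩
  map_add' b b' := rfl
  map_smul' c b := rfl

private theorem SolSplit_res_apply {S : Type} (Λ : LGraph S) (z : S → ℂˣ) (P : S → Prop)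
    (b : Sol Λ z) (s : {s // P s}) : (SolSplit_res Λ z P b).1 s = b.1 s.1 := rfl

theorem solSplit : SolSplit := by
  intro S _ Λ z P Q h1 h2 h3 h4 h5
  classical
  have heq : Function.Bijective ((SolSplit_res Λ z P).prod (SolSplit_res Λ z Q)) := by
    constructor
    · rw [injective_iff_map_eq_zero]
      intro b hb
      have hb1 : SolSplit_res Λ z P b = 0 := congrArg Prod.fst hb
      have hb2 : SolSplit_res Λ z Q b = 0 := congrArg Prod.snd hb
      refine Subtype.ext (funext fun s => ?_)
      by_cases hP : P s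
      · have := congrFun (congrArg Subtype.val hb1) ⟨s, hP⟩
        exact this
      · by_cases hQ : Q s
        · have := congrFun (congrArg Subtype.val hb2) ⟨s, hQ⟩
          exact this
        · exact h5 b.1 b.2 s hP hQ
    · rintro ⟨b1, b2⟩
      let b : S → ℂ := fun s => if hP : P s then b1.1 ⟨s, hP⟩ else
        if hQ : Q s then b2.1 ⟨s, hQ⟩ else 0
      have hbP : ∀ s (hP : P s), b s = b1.1 ⟨s, hP⟩ := fun s hP => dif_pos hP
      have hbQ : ∀ s (hQ : Q s), b s = b2.1 ⟨s, hQ⟩ := by
        intro s hQ
        have hP : ¬ P s := fun hP => h1 s ⟨hP, hQ⟩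
        simp only [b, dif_neg hP, dif_pos hQ]
      have hb0 : ∀ s, ¬ P s → ¬ Q s → b s = 0 := by
        intro s hP hQ
        simp only [b, dif_neg hP, dif_neg hQ]
      have hz : ∀ s, ¬ P s → ¬ Q s → (z s : ℂ) = 1 := by
        intro s hP hQ
        rw [h4 s hP hQ]
        rfl
      have hev : ∀ s t, Λ.graph.Adj s t → ((P s ↔ P t) → (Q s ↔ Q t) → False) →
          Even (Λ.label s(s, t)) := by
        intro s t hst hf
        by_contra hodd
        obtain ⟨hp, hq⟩ := h3 s t ⟨hst, hodd⟩
        exact hf hp hq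
      have hb : b ∈ Sol Λ z := by
        rw [mem_Sol]
        intro s t hst
        by_cases hPs : P s
        · by_cases hPt : P t
          · rw [hbP s hPs, hbP t hPt]
            exact (mem_Sol.1 b1.2) ⟨s, hPs⟩ ⟨t, hPt⟩ hst
          · by_cases hQt : Q t
            · exact absurd hst (h2 s t hPs hQt)
            · exact SolSplit_right _ (hev s t hst fun hp _ => hPt (hp.1 hPs)) _ _ _ _
                (hz t hPt hQt) (hb0 t hPt hQt)
        · by_cases hQs : Q s
          · by_cases hPt : P t
            · exact absurd hst.symm (h2 t s hPt hQs)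
            · by_cases hQt : Q t
              · rw [hbQ s hQs, hbQ t hQt]
                exact (mem_Sol.1 b2.2) ⟨s, hQs⟩ ⟨t, hQt⟩ hst
              · exact SolSplit_right _ (hev s t hst fun _ hq => hQt (hq.1 hQs)) _ _ _ _
                  (hz t hPt hQt) (hb0 t hPt hQt)
          · by_cases hPt : P t
            · exact SolSplit_left _ (hev s t hst fun hp _ => hPs (hp.2 hPt)) _ _ _ _
                (hz s hPs hQs) (hb0 s hPs hQs)
            · by_cases hQt : Q t
              · exact SolSplit_left _ (hev s t hst fun _ hq => hQs (hq.2 hQt)) _ _ _ _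
                  (hz s hPs hQs) (hb0 s hPs hQs)
              · exact SolSplit_zero _ _ _ _ _ (hb0 s hPs hQs) (hb0 t hPt hQt)
      refine ⟨⟨b, hb⟩, Prod.ext (Subtype.ext (funext fun s => ?_))
        (Subtype.ext (funext fun s => ?_))⟩
      · exact hbP s.1 s.2
      · exact hbQ s.1 s.2
  rw [(LinearEquiv.ofBijective _ heq).finrank_eq, Module.finrank_prod]

end WGOne
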