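import Pool.Agent.Lib.MP_107652_al.One.SpecA

/-!
# MP_107652_al, One, module OddEq: odd relations in commutative groups
-/

set_option autoImplicit false

open Finset

namespace WGOne

open WGirth

private theorem OddEq_one {A : Type} [CommGroup A] {a b : A} {m : ℕ} (hm : ¬ Even m)
    (h : alt m a b = alt m b a) : a = b := by
  obtain ⟨k, rfl⟩ := Nat.not_even_iff_odd.mp hm
  have h1 : ∀ x y : A, alt (2 * k + 1) x y = x * (y * x) ^ k := fun x y => by
    show x * alt (2 * k) y x = x * (y * x) ^ k
    rw [alt_two_mul]
  rw [h1, h1, mul_comm a b] at h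
  exact mul_right_cancel h

theorem oddEq : OddEq := by
  refine ⟨fun A _ a b m hm h => OddEq_one hm h, ?_⟩
  intro A _ S Λ f s t hst
  obtain ⟨w⟩ := hst
  induction w with
  | nil => rfl
  | cons h _ ih =>
    rename_i u v w' _
    refine Eq.trans ?_ ih
    have h2 := congrArg f (gen_relO Λ h.1)
    rw [map_alt, map_alt] at h2
    exact OddEq_one h.2 h2

end WGOne
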