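import Pool.Agent.Lib.MP_107652_al.One.SpecB

/-!
# MP_107652_al, One: (AltRel) relation of two affine maps as a linear condition
-/

set_option autoImplicit false

open Finset

namespace WGOne

open WGirth WGTwin

/-- two affine maps with the same linear part -/
private theorem AltRel_same (m : ℕ) (g h : Aff) (e : g.a = h.a) :
    (alt m g h).a = g.a ^ m ∧ (alt m h g).a = g.a ^ m ∧
      (alt m g h).b - (alt m h g).b = (∑ i ∈ range m, (-(g.a : ℂ)) ^ i) * (g.b - h.b) := by
  induction m with
  | zero => simp [alt]
  | succ m ih =>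
    obtain ⟨h1, h2, h3⟩ := ih
    refine ⟨?_, ?_, ?_⟩
    · show g.a * (alt m h g).a = _
      rw [h2, pow_succ']
    · show h.a * (alt m g h).a = _
      rw [h1, ← e, pow_succ']
    · show (g.b + g.a * (alt m h g).b) - (h.b + h.a * (alt m g h).b) = _
      rw [← e, Finset.sum_range_succ']
      have e2 : ∑ i ∈ range m, (-(g.a : ℂ)) ^ (i + 1) = -(g.a : ℂ) * ∑ i ∈ range m, (-(g.a : ℂ)) ^ i := by
        rw [Finset.mul_sum]
        refine Finset.sum_congr rfl fun i _ => ?_
        ring
      rw [e2, pow_zero]
      linear_combination -(g.a : ℂ) * h3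

theorem altRel : AltRel := by
  intro m g h hm
  unfold RelE
  by_cases hev : Even m
  · rw [if_pos hev]
    obtain ⟨k, hk⟩ := hev.two_dvd
    subst hk
    rw [alt_two_mul, alt_two_mul, Aff.pow_eq, Aff.pow_eq, Nat.mul_div_cancel_left k (by norm_num)]
    have ha : (g * h).a = (h * g).a := mul_comm _ _
    rw [ha]
    have hb : (g * h).b = g.b + g.a * h.b := rfl
    have hb' : (h * g).b = h.b + h.a * g.b := rfl
    have ha' : ((h * g).a : ℂ) = (g.a : ℂ) * h.a := by
      show ((h.a * g.a : ℂˣ) : ℂ) = _
      rw [Units.val_mul, mul_comm]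
    rw [Aff.ext_iff]
    simp only [true_and, hb, hb', ha']
    constructor
    · intro hh
      linear_combination hh
    · intro hh
      linear_combination hh
  · rw [if_neg hev]
    have e : g.a = h.a := hm.resolve_left hev
    obtain ⟨h1, h2, h3⟩ := AltRel_same m g h e
    rw [Aff.ext_iff, h1, h2, ← h3, sub_eq_zero]
    simp

end WGOne
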