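import Pool.Agent.Lib.MP_107652_al.One.SpecB

/-!
# MP_107652_al, One: affine representations and the space of cocycles
-/

set_option autoImplicit false

open Finset

namespace WGOne

open WGirth

theorem repSol : AltRel → RepSol := by
  intro hA S Λ z hz b
  rw [mem_Sol]
  refine forall_congr' fun s => forall_congr' fun t => imp_congr_right fun hst => ?_
  refine hA (Λ.label s(s, t)) (af z b s) (af z b t) ?_
  by_cases hm : Even (Λ.label s(s, t))
  · exact Or.inl hm
  · exact Or.inr (hz s t ⟨hst, hm⟩)

end WGOne
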