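import Pool.Agent.Lib.MP_107652_al.One.Defs

/-!
# The cone theorem: definitions and first lemmas
-/

set_option autoImplicit false

namespace WGOne

open WGirth

variable {S V : Type}

/-- `n` is `0`, `1` or `-1`. -/
def T3 (n : ℤ) : Prop := n = 0 ∨ n = 1 ∨ n = -1

/-- The relation of an edge with label `m` holds for affine maps with the linear parts `a`, `b` and
different fixed points (`a = b` if `m` is odd). -/
def Dg (m : ℕ) (a b : ℂˣ) : Prop :=
  (Even m ∧ a * b ≠ 1 ∧ (a * b) ^ (m / 2) = 1) ∨ (¬ Even m ∧ a ≠ -1 ∧ (-a) ^ m = 1)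

/-- `comp` maps the vertices of `Λ` to their odd components. -/
structure Cs (Λ : LGraph S) (comp : S → V) : Prop where
  surj : Function.Surjective comp
  odd_in : ∀ s t, Λ.graph.Adj s t → comp s = comp t → ¬ Even (Λ.label s(s, t))
  even_out : ∀ s t, Λ.graph.Adj s t → comp s ≠ comp t → Even (Λ.label s(s, t))
  conn : ∀ (P : S → Prop) (s t : S), comp s = comp t → P s → ¬ P t →
    ∃ a b, Λ.graph.Adj a b ∧ comp a = comp s ∧ comp b = comp s ∧ P a ∧ ¬ P b

/-- The component `q` is adjacent to all other components. -/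
def CoL (Λ : LGraph S) (comp : S → V) (q : V) : Prop :=
  ∀ i, i ≠ q → ∃ s t, comp s = q ∧ comp t = i ∧ Λ.graph.Adj s t

/-- A colouring of the vertices with `z ≠ 1`: both colours are used (`q` has the colour `P`), and the
bichromatic edges are degenerate. -/
structure Col (Λ : LGraph S) (comp : S → V) (z : V → ℂˣ) (q : V) (P : S → Prop) : Prop where
  own : ∀ s, comp s = q → P s
  ex : ∃ t, ¬ P t ∧ z (comp t) ≠ 1
  mono : ∀ s t, comp s = comp t → ‖(z (comp s) : ℂ)‖ ≠ 1 → P s → P t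
  deg : ∀ s t, Λ.graph.Adj s t → P s → ¬ P t → z (comp s) ≠ 1 → z (comp t) ≠ 1 →
    Dg (Λ.label s(s, t)) (z (comp s)) (z (comp t))
  nrm : ∀ s t, Λ.graph.Adj s t → P s → ¬ P t → z (comp s) ≠ 1 → z (comp t) ≠ 1 →
    ‖(z (comp s) : ℂ)‖ * ‖(z (comp t) : ℂ)‖ = 1

/-- `p` is an odd prime and `ω` has order `p`. -/
structure Om (p : ℕ) (ω : ℂˣ) : Prop where
  prime : p.Prime
  ne2 : p ≠ 2
  ord : orderOf ω = p

/-- the units 2 and 3 -/
noncomputable def u2 : ℂˣ := Units.mk0 2 two_ne_zero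
noncomputable def u3 : ℂˣ := Units.mk0 3 three_ne_zero

/-- An admissible colouring of the component `C`: not constant, all bichromatic edges have a label
divisible by `p`. -/
structure Adm (Λ : LGraph S) (comp : S → V) (C : V) (p : ℕ) (c : S → Prop) : Prop where
  ex1 : ∃ s, comp s = C ∧ c s
  ex2 : ∃ s, comp s = C ∧ ¬ c s
  dvd : ∀ s t, Λ.graph.Adj s t → comp s = C → comp t = C → c s → ¬ c t → p ∣ Λ.label s(s, t)

/-- Every cone `q ≠ C` has edges to both colours of every admissible colouring. -/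
def HII (Γ : LGraph V) (Λ : LGraph S) (comp : S → V) (C : V) (p : ℕ) : Prop :=
  ∀ c : S → Prop, Adm Λ comp C p c → ∀ q, Cone Γ q → q ≠ C →
    (∃ s t, Λ.graph.Adj s t ∧ comp s = C ∧ comp t = q ∧ c s) ∧
    (∃ s t, Λ.graph.Adj s t ∧ comp s = C ∧ comp t = q ∧ ¬ c s)

/-- `o` is not a cone and there is an edge between `C` and `o` with a label divisible by `4 p`. -/
def HC (Γ : LGraph V) (Λ : LGraph S) (comp : S → V) (C : V) (p : ℕ) (o : V) : Prop :=
  ¬ Cone Γ o ∧ ∃ s t, Λ.graph.Adj s t ∧ comp s = C ∧ comp t = o ∧ 4 * p ∣ Λ.label s(s, t)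

/-- Good sets of elements of `HC`: the colours of the neighbours in `C` of adjacent elements agree. -/
structure GA (Γ : LGraph V) (Λ : LGraph S) (comp : S → V) (C : V) (p : ℕ) (c : S → Prop)
    (A : Finset V) : Prop where
  hc : ∀ a ∈ A, HC Γ Λ comp C p a
  col : ∀ a ∈ A, ∀ a' ∈ A, Γ.graph.Adj a a' → ∀ s t s' t', Λ.graph.Adj s t → Λ.graph.Adj s' t' →
    comp s = C → comp s' = C → comp t = a → comp t' = a' → (c s ↔ c s')

open scoped Classical in
/-- The character `C ↦ -ω`, `a ↦ 3` for `a ∈ A`, `1` elsewhere. -/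
noncomputable def chA (C : V) (A : Finset V) (ω : ℂˣ) : V → ℂˣ :=
  fun i => if i = C then -ω else if i ∈ A then u3 else 1

open scoped Classical in
/-- The character `C ↦ -ω`, `q1 ↦ 2`, `1` elsewhere. -/
noncomputable def ch1 (C q1 : V) (ω : ℂˣ) : V → ℂˣ :=
  fun i => if i = C then -ω else if i = q1 then u2 else 1

/-- The image of `ch1 C q1 ω`. -/
noncomputable def yc (M : Matrix V V ℤ) (C q1 : V) (ω : ℂˣ) : V → ℂˣ :=
  fun v => (-ω) ^ M C v * u2 ^ M q1 v

/-- The shape of a colouring (`S1`, `S2`) of the character `yc M C q1 ω` of `Γ`. -/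
structure YData (Γ : LGraph V) (M : Matrix V V ℤ) (C q1 : V) (p : ℕ) (ω : ℂˣ) (μ : ℤ)
    (S1 S2 : V → Prop) : Prop where
  mu : μ = 1 ∨ μ = -1
  cov : ∀ v, yc M C q1 ω v ≠ 1 ↔ S1 v ∨ S2 v
  disj : ∀ v, S1 v → ¬ S2 v
  ex1 : ∃ v, Cone Γ v ∧ S1 v
  ex2 : ∃ v, S2 v
  e1 : ∀ v, Cone Γ v → S1 v → M q1 v = μ
  e2 : ∀ v, S2 v → M q1 v = -μ
  e0 : ∀ v, ¬ S1 v → ¬ S2 v → M q1 v = 0 ∧ (2 * p : ℤ) ∣ M C v
  deg : ∀ v w, Γ.graph.Adj v w → S1 v → S2 w →
    yc M C q1 ω v * yc M C q1 ω w ≠ 1 ∧ (yc M C q1 ω v * yc M C q1 ω w) ^ half Γ v w = 1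

/-- Combinatorial data of Case A. -/
structure HD {X ι : Type} [DecidableEq X] (P1 P2 : Finset X) (I : Finset ι) (C : ι)
    (f : ι → X → ℤ) (g : X → ℤ) (p : ℕ) : Prop where
  prime : p.Prime
  ne2 : p ≠ 2
  disj : Disjoint P1 P2
  mem : C ∈ I
  zero : ∀ i ∈ I, ∑ v ∈ P1 ∪ P2, f i v = 0
  sub : ∀ i ∈ I, ∀ U1 ⊆ P1, ∀ U2 ⊆ P2, U1.Nonempty → U2.Nonempty →
    T3 (∑ v ∈ U1, f i v + ∑ v ∈ U2, f i v)
  gi : ∀ i ∈ I, i ≠ C → (2 * p : ℤ) ∣ ∑ v ∈ P1 ∪ P2, g v * f i v
  gC : (2 * p : ℤ) ∣ ∑ v ∈ P1 ∪ P2, g v * f C v - 1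
  gen : ∀ κ : X → ℤ, (∀ i ∈ I, ∑ v ∈ P1 ∪ P2, κ v * f i v = 0) →
    ∀ a ∈ P1 ∪ P2, ∀ b ∈ P1 ∪ P2, κ a = κ b
  ne : ∀ a ∈ P1, ∀ b ∈ P2, ¬ (2 * p : ℤ) ∣ g a - g b

/-! ### First lemmas -/

theorem csG {Γ : LGraph V} (h : IsEven Γ) : Cs Γ (id : V → V) where
  surj := Function.surjective_id
  odd_in _ _ hst h1 := absurd h1 hst.ne
  even_out s t hst _ := h s t hst
  conn P _ _ h1 h2 h3 := absurd ((congrArg P h1).mp h2) h3

theorem coG {Γ : LGraph V} {q : V} (h : Cone Γ q) : CoL Γ (id : V → V) q :=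
  fun i hi => ⟨q, i, rfl, rfl, h i hi⟩

theorem norm_u2 (n : ℤ) : ‖((u2 ^ n : ℂˣ) : ℂ)‖ = (2 : ℝ) ^ n := by
  rw [Units.val_zpow_eq_zpow_val, norm_zpow]
  norm_num [u2]

theorem norm_u3 (n : ℤ) : ‖((u3 ^ n : ℂˣ) : ℂ)‖ = (3 : ℝ) ^ n := by
  rw [Units.val_zpow_eq_zpow_val, norm_zpow]
  norm_num [u3]

theorem two_zpow {n : ℤ} : (2 : ℝ) ^ n = 1 ↔ n = 0 := by
  rw [zpow_eq_one_iff_right₀ (by norm_num) (by norm_num)]

/-- unique factorisation -/
theorem two_three {a b : ℤ} (h : (2 : ℝ) ^ a * 3 ^ b = 1) : a = 0 ∧ b = 0 := by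
  have key : ∀ m n : ℕ, (2 : ℕ) ^ m = 3 ^ n → m = 0 ∧ n = 0 := by
    intro m n hmn
    rcases Nat.eq_zero_or_pos m with rfl | hm
    · refine ⟨rfl, ?_⟩
      by_contra hn
      have : 1 < 3 ^ n := Nat.one_lt_pow hn (by norm_num)
      omega
    · exfalso
      have h1 : 2 ∣ 3 ^ n := hmn ▸ dvd_pow_self 2 (by omega)
      have h2 := (Nat.prime_two.dvd_of_dvd_pow h1)
      omega
  have key2 : ∀ m n : ℕ, (2 : ℕ) ^ m * 3 ^ n = 1 → m = 0 ∧ n = 0 := by
    intro m n hmn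
    have h1 := Nat.eq_one_of_mul_eq_one_right hmn
    have h2 := Nat.eq_one_of_mul_eq_one_left hmn
    rw [Nat.pow_eq_one] at h1 h2
    omega
  rcases Int.eq_nat_or_neg a with ⟨m, rfl | rfl⟩ <;> rcases Int.eq_nat_or_neg b with ⟨n, rfl | rfl⟩
  · rw [zpow_natCast, zpow_natCast] at h
    have := key2 m n (by exact_mod_cast h)
    omega
  · rw [zpow_natCast, zpow_neg, zpow_natCast, ← div_eq_mul_inv, div_eq_one_iff_eq (by positivity)] at h
    have := key m n (by exact_mod_cast h)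
    omega
  · rw [zpow_neg, zpow_natCast, zpow_natCast, ← div_eq_inv_mul, div_eq_one_iff_eq (by positivity)] at h
    have := key m n (by exact_mod_cast h.symm)
    omega
  · rw [zpow_neg, zpow_neg, zpow_natCast, zpow_natCast, ← mul_inv, inv_eq_one] at h
    have := key2 m n (by exact_mod_cast h)
    omega

namespace Om

variable {p : ℕ} {ω : ℂˣ}

theorem three_le (h : Om p ω) : 3 ≤ p := by
  have h1 := h.prime.two_le
  have h2 := h.ne2
  omega

theorem odd (h : Om p ω) : ¬ Even p := by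
  intro h1
  exact h.ne2 ((Nat.Prime.even_iff h.prime).mp h1)

theorem pow_eq_one (h : Om p ω) {n : ℕ} : ω ^ n = 1 ↔ p ∣ n := by
  rw [← orderOf_dvd_iff_pow_eq_one, h.ord]

theorem ord_neg (h : Om p ω) : orderOf (-ω) = 2 * p := by
  have h1 : orderOf (-1 : ℂˣ) = 2 := by
    have h2 : (-1 : ℂˣ) ≠ 1 := by
      intro h3
      have h4 := congrArg Units.val h3
      norm_num at h4
    exact orderOf_eq_prime (by simp) h2
  have h2 : -ω = (-1) * ω := by simp
  rw [h2, (Commute.all _ _).orderOf_mul_eq_mul_orderOf_of_coprime, h1, h.ord]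
  rw [h1, h.ord]
  rw [Nat.coprime_two_left]
  exact Nat.not_even_iff_odd.mp h.odd

theorem neg_zpow (h : Om p ω) {n : ℤ} : (-ω) ^ n = 1 ↔ (2 * p : ℤ) ∣ n := by
  rw [← orderOf_dvd_iff_zpow_eq_one, h.ord_neg]
  push_cast
  rfl

theorem neg_pow (h : Om p ω) {n : ℕ} : (-ω) ^ n = 1 ↔ 2 * p ∣ n := by
  rw [← orderOf_dvd_iff_pow_eq_one, h.ord_neg]

theorem ne_one (h : Om p ω) : ω ≠ 1 := by
  intro h1
  have h2 := h.ord
  rw [h1, orderOf_one] at h2
  have := h.three_le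
  omega

theorem neg_ne_one (h : Om p ω) : -ω ≠ 1 := by
  intro h1
  have h2 := h.ord_neg
  rw [h1, orderOf_one] at h2
  have := h.three_le
  omega

theorem norm (h : Om p ω) : ‖(ω : ℂ)‖ = 1 := by
  have h1 : ω ^ p = 1 := h.pow_eq_one.mpr dvd_rfl
  have h2 : (ω : ℂ) ^ p = 1 := by
    have := congrArg Units.val h1
    simpa using this
  exact Complex.norm_eq_one_of_pow_eq_one h2 h.prime.ne_zero

theorem norm_neg (h : Om p ω) : ‖((-ω : ℂˣ) : ℂ)‖ = 1 := by
  rw [Units.val_neg, _root_.norm_neg, h.norm]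

/-- degenerate odd edges for `-ω` -/
theorem dg_odd (h : Om p ω) {m : ℕ} (hm : ¬ Even m) (b : ℂˣ) : Dg m (-ω) b ↔ p ∣ m := by
  unfold Dg
  have h1 : -ω ≠ -1 := fun h2 => h.ne_one (neg_injective h2)
  rw [neg_neg, h.pow_eq_one]
  constructor
  · rintro (⟨h2, -⟩ | ⟨-, -, h2⟩)
    · exact absurd h2 hm
    · exact h2
  · intro h2
    exact Or.inr ⟨hm, h1, h2⟩

/-- powers of `-ω` with an even label -/
theorem four_dvd (h : Om p ω) {m : ℕ} (hm : Even m) : (-ω) ^ (m / 2) = 1 ↔ 4 * p ∣ m := by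
  rw [h.neg_pow]
  obtain ⟨k, rfl⟩ := hm
  have h1 : (k + k) / 2 = k := by omega
  rw [h1]
  constructor
  · rintro ⟨c, rfl⟩
    exact ⟨c, by ring⟩
  · rintro ⟨c, hc⟩
    refine ⟨c, ?_⟩
    have : 2 * k = 2 * (2 * p * c) := by
      calc 2 * k = k + k := by ring
        _ = 4 * p * c := hc
        _ = 2 * (2 * p * c) := by ring
    omega

end Om

/-- The norm of a degenerate pair. -/
theorem Dg.norm {m : ℕ} {a b : ℂˣ} (h : Dg m a b) (hm : 2 ≤ m) (hab : ¬ Even m → a = b) :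
    ‖(a : ℂ)‖ * ‖(b : ℂ)‖ = 1 := by
  rcases h with ⟨-, -, h1⟩ | ⟨h0, -, h1⟩
  · have h2 : ((a : ℂ) * b) ^ (m / 2) = 1 := by
      have := congrArg Units.val h1
      simpa using this
    rw [← norm_mul]
    exact Complex.norm_eq_one_of_pow_eq_one h2 (by omega)
  · have h2 : (-(a : ℂ)) ^ m = 1 := by
      have := congrArg Units.val h1
      simpa using this
    have h3 := Complex.norm_eq_one_of_pow_eq_one h2 (by omega)
    rw [_root_.norm_neg] at h3
    rw [← hab h0, h3, mul_one]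

/-! ### Characters and matrices -/

section pw

variable [Fintype V]

theorem norm_pw (M : Matrix V V ℤ) (z : V → ℂˣ) (v : V) :
    ‖((pw M z v : ℂˣ) : ℂ)‖ = ∏ i, ‖(z i : ℂ)‖ ^ M i v := by
  unfold pw
  rw [Units.coe_prod, norm_prod]
  refine Finset.prod_congr rfl fun i _ => ?_
  rw [Units.val_zpow_eq_zpow_val, norm_zpow]

theorem pw_mul (M : Matrix V V ℤ) (y z : V → ℂˣ) (v : V) :
    pw M (fun i => y i * z i) v = pw M y v * pw M z v := by
  unfold pw
  rw [← Finset.prod_mul_distrib]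
  exact Finset.prod_congr rfl fun i _ => mul_zpow _ _ _

theorem zpow_fsum {ι : Type} (s : Finset ι) (a : ℂˣ) (f : ι → ℤ) :
    a ^ (∑ i ∈ s, f i) = ∏ i ∈ s, a ^ f i := by
  classical
  induction s using Finset.induction_on with
  | empty => simp
  | insert i s hi ih => rw [Finset.sum_insert hi, Finset.prod_insert hi, zpow_add, ih]

theorem rzpow_fsum {ι : Type} (s : Finset ι) (a : ℝ) (ha : a ≠ 0) (f : ι → ℤ) :
    a ^ (∑ i ∈ s, f i) = ∏ i ∈ s, a ^ f i := by
  classical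
  induction s using Finset.induction_on with
  | empty => simp
  | insert i s hi ih => rw [Finset.sum_insert hi, Finset.prod_insert hi, zpow_add₀ ha, ih]

theorem pw_zpow (M : Matrix V V ℤ) (a : ℂˣ) (d : V → ℤ) (v : V) :
    pw M (fun i => a ^ d i) v = a ^ ∑ i, d i * M i v := by
  unfold pw
  rw [zpow_fsum]
  exact Finset.prod_congr rfl fun i _ => (zpow_mul _ _ _).symm

theorem pw_one (M : Matrix V V ℤ) : pw M (1 : V → ℂˣ) = 1 := by
  funext v
  unfold pw
  simp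

theorem pw_pw [DecidableEq V] (A B : Matrix V V ℤ) (h : A * B = 1) (z : V → ℂˣ) :
    pw B (pw A z) = z := by
  funext i
  unfold pw
  have h1 : ∀ v, (∏ j, z j ^ A j v) ^ B v i = ∏ j, z j ^ (A j v * B v i) := by
    intro v
    rw [← Finset.prod_zpow]
    exact Finset.prod_congr rfl fun j _ => (zpow_mul _ _ _).symm
  simp only [h1]
  rw [Finset.prod_comm]
  have h2 : ∀ j, ∏ v, z j ^ (A j v * B v i) = z j ^ ((1 : Matrix V V ℤ) j i) := by
    intro j
    rw [← zpow_fsum, ← h, Matrix.mul_apply]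
  simp only [h2]
  rw [Finset.prod_eq_single i]
  · rw [Matrix.one_apply_eq, zpow_one]
  · intro j _ hj
    rw [Matrix.one_apply_ne hj, zpow_zero]
  · intro hi
    exact absurd (Finset.mem_univ i) hi

end pw

namespace ConeData

variable [Fintype V] [DecidableEq V] {Γ : LGraph V} {Λ : LGraph S} {comp : S → V}
  {M N : Matrix V V ℤ} {C : V}

theorem cs (D : ConeData Γ Λ comp M N C) : Cs Λ comp := ⟨D.surj, D.odd_in, D.even_out, D.conn⟩

theorem coL (D : ConeData Γ Λ comp M N C) {q : V} (h : Cone Γ q) : CoL Λ comp q :=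
  fun i hi => D.adj_ex q i (h i hi)

theorem sumMN (D : ConeData Γ Λ comp M N C) (i j : V) :
    ∑ v, M i v * N v j = if i = j then 1 else 0 := by
  rw [← Matrix.mul_apply, D.MN, Matrix.one_apply]

theorem sumNM (D : ConeData Γ Λ comp M N C) (v w : V) :
    ∑ i, N v i * M i w = if v = w then 1 else 0 := by
  rw [← Matrix.mul_apply, D.NM, Matrix.one_apply]

/-- the inverse is block triangular too -/
theorem Noq (D : ConeData Γ Λ comp M N C) {o q : V} (ho : ¬ Cone Γ o) (hq : Cone Γ q) :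
    N o q = 0 := by
  classical
  have hsum : ∀ (x : {v : V // ¬ Cone Γ v}) (F : V → ℤ), (∀ v, Cone Γ v → F v = 0) →
      ∑ y : {v : V // ¬ Cone Γ v}, F y = ∑ v, F v := by
    intro x F hF
    rw [← Fintype.sum_subtype_add_sum_subtype (fun v => Cone Γ v) F]
    rw [Finset.sum_eq_zero (f := fun y : {v : V // Cone Γ v} => F y) (fun y _ => hF y y.2), zero_add]
  obtain ⟨M', hM'⟩ : ∃ M' : Matrix {v : V // ¬ Cone Γ v} {v : V // ¬ Cone Γ v} ℤ,
      M' = M.submatrix Subtype.val Subtype.val := ⟨_, rfl⟩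
  obtain ⟨N', hN'⟩ : ∃ N' : Matrix {v : V // ¬ Cone Γ v} {v : V // ¬ Cone Γ v} ℤ,
      N' = N.submatrix Subtype.val Subtype.val := ⟨_, rfl⟩
  have h1 : M' * N' = 1 := by
    ext x y
    rw [Matrix.mul_apply, Matrix.one_apply]
    have h2 := hsum x (fun v => M x v * N v y) fun v hv => by rw [D.Moq x v x.2 hv, zero_mul]
    have h3 := D.sumMN x y
    rw [hM', hN']
    simp only [Matrix.submatrix_apply]
    rw [h2, h3]
    simp only [Subtype.ext_iff]
  have h4 : N' * M' = 1 := mul_eq_one_comm.mp h1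
  obtain ⟨w, hw⟩ : ∃ w : {v : V // ¬ Cone Γ v} → ℤ, w = fun x => N x.1 q := ⟨_, rfl⟩
  have h5 : M'.mulVec w = 0 := by
    funext x
    rw [Matrix.mulVec, dotProduct, hM', hw]
    simp only [Matrix.submatrix_apply, Pi.zero_apply]
    rw [hsum x (fun v => M x v * N v q) fun v hv => by rw [D.Moq x v x.2 hv, zero_mul], D.sumMN,
      if_neg]
    rintro rfl
    exact x.2 hq
  have h6 : w = 0 := by
    have : N'.mulVec (M'.mulVec w) = 0 := by rw [h5, Matrix.mulVec_zero]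
    rwa [Matrix.mulVec_mulVec, h4, Matrix.one_mulVec] at this
  have h7 := congrFun h6 ⟨o, ho⟩
  rw [hw] at h7
  exact h7

/-- expansion of a vector in the rows of `M` -/
theorem expand (D : ConeData Γ Λ comp M N C) (κ : V → ℤ) (w : V) :
    κ w = ∑ i, (∑ v, κ v * N v i) * M i w := by
  simp only [Finset.sum_mul]
  rw [Finset.sum_comm]
  have h1 : ∀ v, ∑ i, κ v * N v i * M i w = κ v * if v = w then 1 else 0 := by
    intro v
    rw [← D.sumNM v w, Finset.mul_sum]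
    exact Finset.sum_congr rfl fun i _ => mul_assoc _ _ _
  simp only [h1, mul_ite, mul_one, mul_zero]
  rw [Finset.sum_ite_eq' Finset.univ w κ, if_pos (Finset.mem_univ w)]

/-- a vector whose coordinates at the cones different from `q1` vanish is a multiple of the row `q1` on
the cones -/
theorem orth (D : ConeData Γ Λ comp M N C) (q1 : V) (κ : V → ℤ)
    (h : ∀ i, Cone Γ i → i ≠ q1 → ∑ v, κ v * N v i = 0) (w : V) (hw : Cone Γ w) :
    κ w = (∑ v, κ v * N v q1) * M q1 w := by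
  rw [D.expand κ w, Finset.sum_eq_single q1]
  · intro i _ hi
    by_cases h1 : Cone Γ i
    · rw [h i h1 hi, zero_mul]
    · rw [D.Moq i w h1 hw, mul_zero]
  · intro h1
    exact absurd (Finset.mem_univ q1) h1

/-- a vector all of whose coordinates at the cones are divisible by `g` is divisible by `g` on the
cones -/
theorem dvd_of (D : ConeData Γ Λ comp M N C) (g : ℤ) (κ : V → ℤ)
    (h : ∀ i, Cone Γ i → g ∣ ∑ v, κ v * N v i) (w : V) (hw : Cone Γ w) : g ∣ κ w := by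
  rw [D.expand κ w]
  refine Finset.dvd_sum fun i _ => ?_
  by_cases h1 : Cone Γ i
  · exact (h i h1).mul_right _
  · rw [D.Moq i w h1 hw, mul_zero]
    exact dvd_zero g

theorem pwNM (D : ConeData Γ Λ comp M N C) (z : V → ℂˣ) : pw N (pw M z) = z := pw_pw M N D.MN z

theorem pwMN (D : ConeData Γ Λ comp M N C) (y : V → ℂˣ) : pw M (pw N y) = y := pw_pw N M D.NM y

theorem toG (D : ConeData Γ Λ comp M N C) {z : V → ℂˣ} (hz : z ≠ 1)
    (h : NA Λ (fun s => z (comp s))) : NA Γ (pw M z) ∧ pw M z ≠ 1 := by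
  refine ⟨(D.na z hz).mp h, fun h1 => hz ?_⟩
  rw [← D.pwNM z, h1, pw_one]

theorem toL (D : ConeData Γ Λ comp M N C) {y : V → ℂˣ} (hy : y ≠ 1) (h : NA Γ y) :
    NA Λ (fun s => pw N y (comp s)) ∧ pw N y ≠ 1 := by
  have h1 : pw N y ≠ 1 := fun h1 => hy (by rw [← D.pwMN y, h1, pw_one])
  refine ⟨(D.na (pw N y) h1).mpr ?_, h1⟩
  rw [D.pwMN y]
  exact h

/-- at the cones `pw M z` only depends on the values of `z` at the cones -/
theorem pwM_congr (D : ConeData Γ Λ comp M N C) {z z' : V → ℂˣ} (h : ∀ i, Cone Γ i → z i = z' i)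
    {v : V} (hv : Cone Γ v) : pw M z v = pw M z' v := by
  unfold pw
  refine Finset.prod_congr rfl fun i _ => ?_
  by_cases h1 : Cone Γ i
  · rw [h i h1]
  · rw [D.Moq i v h1 hv, zpow_zero, zpow_zero]

/-- at the cones `pw N y` only depends on the values of `y` at the cones -/
theorem pwN_congr (D : ConeData Γ Λ comp M N C) {y y' : V → ℂˣ} (h : ∀ v, Cone Γ v → y v = y' v)
    {i : V} (hi : Cone Γ i) : pw N y i = pw N y' i := by
  unfold pw
  refine Finset.prod_congr rfl fun v _ => ?_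
  by_cases h1 : Cone Γ v
  · rw [h v h1]
  · rw [D.Noq h1 hi, zpow_zero, zpow_zero]

theorem norm_pwN (D : ConeData Γ Λ comp M N C) {y : V → ℂˣ} {e : V → ℤ}
    (h : ∀ v, Cone Γ v → ‖(y v : ℂ)‖ = (2 : ℝ) ^ e v) {i : V} (hi : Cone Γ i) :
    ‖((pw N y i : ℂˣ) : ℂ)‖ = (2 : ℝ) ^ ∑ v, e v * N v i := by
  rw [norm_pw, rzpow_fsum _ _ two_ne_zero]
  refine Finset.prod_congr rfl fun v _ => ?_
  by_cases h1 : Cone Γ v
  · rw [h v h1, zpow_mul]
  · rw [D.Noq h1 hi, mul_zero, zpow_zero, zpow_zero]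

theorem pw_ch1 (D : ConeData Γ Λ comp M N C) {q1 : V} (h : q1 ≠ C) (ω : ℂˣ) :
    pw M (ch1 C q1 ω) = yc M C q1 ω := by
  have _ := D
  funext v
  have h1 : ch1 C q1 ω = fun i => (-ω) ^ (if i = C then (1 : ℤ) else 0) *
      u2 ^ (if i = q1 then (1 : ℤ) else 0) := by
    funext i
    unfold ch1
    by_cases h2 : i = C
    · have h3 : i ≠ q1 := fun h3 => h (h3.symm.trans h2)
      simp [h2, Ne.symm h]
    · by_cases h3 : i = q1
      · simp [h3, h]
      · simp [h2, h3]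
  rw [h1, pw_mul, pw_zpow, pw_zpow]
  unfold yc
  simp

end ConeData

end WGOne
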