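import Pool.Agent.Lib.MP_107652_al.One.SpecB

set_option autoImplicit false

open Finset

namespace WGOne

open WGirth WGTwin

private theorem Blk_facts {V : Type} (Γ : LGraph V) (C c : V) (hU : ¬ InU Γ C c)
    (hG : ¬ InG Γ C c) : Γ.graph.Adj c C ∧ ∃ g, Γ.graph.Adj c g ∧ InG Γ C g := by
  have hcC : c ≠ C := by
    rintro rfl
    exact hU (inU_self Γ c)
  have hadj : Γ.graph.Adj c C := by
    by_contra h
    exact hG ⟨hcC, h⟩
  refine ⟨hadj, ?_⟩
  by_contra hno
  apply hU
  refine ⟨Or.inr hadj, fun w hw => ?_⟩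
  by_contra h
  push Not at h
  exact hno ⟨w, hw, h.1, h.2⟩

theorem blk : Blk := by
  intro V Γ C X hX
  refine ⟨?_, ?_, fun c h1 h2 => Blk_facts Γ C c h1 h2, ?_⟩
  · intro c r h1 h2 h3
    by_contra hne
    have D := hX c r hne
    obtain ⟨hcC, g, hcg, hg⟩ := Blk_facts Γ C c h1 h2
    rcases h3 with h3 | h3
    · rcases D g hcg with h | h
      · subst h
        exact not_UG Γ C g ⟨h3, hg⟩
      · rcases h3.2 g h.symm with h' | h'
        · exact hg.1 h'
        · exact hg.2 h'
    · rcases D C hcC with h | h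
      · exact h3.1 h.symm
      · exact h3.2 h.symm
  · rintro ⟨y, hyC, hy⟩ c r hc hr
    by_contra hne
    have D := hX c r hne
    rcases hc.1 with h | h
    · subst h
      rcases D y hyC.symm with h | h
      · subst h
        exact hr.2 hyC
      · rcases hy.2 r h with h' | h'
        · exact hr.1 h'
        · exact hr.2 h'
    · rcases D C h with h | h
      · exact hr.1 h.symm
      · exact hr.2 h.symm
  · intro u g hu hg hadj
    rcases hu.2 g hadj with h | h
    · exact hg.1 h
    · exact hg.2 h

end WGOne
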