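import Pool.Agent.Lib.MP_107652_al.One.SpecA

set_option autoImplicit false

open Finset

namespace WGOne

open WGirth

private theorem AltInv_conj {G : Type} [Group G] (u v : G) (hu : u * u = 1) (hv : v * v = 1)
    (m : ℕ) : v * (u * v) ^ m = ((u * v) ^ m)⁻¹ * v := by
  have h1 : v * (u * v) * v⁻¹ = (u * v)⁻¹ := by
    have hu' : u⁻¹ = u := inv_eq_of_mul_eq_one_left hu
    have hv' : v⁻¹ = v := inv_eq_of_mul_eq_one_left hv
    rw [mul_inv_rev, hu', hv']
    calc v * (u * v) * v = v * u * (v * v) := by group
      _ = v * u := by rw [hv, mul_one]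
  have h2 : v * (u * v) ^ m * v⁻¹ = ((u * v) ^ m)⁻¹ := by
    rw [← conj_pow, h1, inv_pow]
  calc v * (u * v) ^ m = v * (u * v) ^ m * v⁻¹ * v := by group
    _ = ((u * v) ^ m)⁻¹ * v := by rw [h2]

theorem altInv : AltInv := by
  have key : ∀ (m : ℕ) (G : Type) [Group G] (u v : G), u * u = 1 → v * v = 1 →
      alt m u v = (u * v) ^ m * alt m v u := by
    intro m
    induction m with
    | zero => intro G _ u v _ _; simp [alt]
    | succ m ih =>
      intro G _ u v hu hv
      have h1 : alt (m + 1) u v = u * alt m v u := rfl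
      have h2 : alt (m + 1) v u = v * alt m u v := rfl
      rw [h1, h2, ih G u v hu hv]
      have h3 := AltInv_conj u v hu hv m
      calc u * alt m v u = u * (v * v) * alt m v u := by rw [hv, mul_one]
        _ = (u * v) * v * alt m v u := by group
        _ = (u * v) * ((u * v) ^ m * ((u * v) ^ m)⁻¹ * v) * alt m v u := by
            rw [mul_inv_cancel, one_mul]
        _ = (u * v) ^ (m + 1) * (((u * v) ^ m)⁻¹ * v) * alt m v u := by
            rw [pow_succ']; group
        _ = (u * v) ^ (m + 1) * (v * (u * v) ^ m) * alt m v u := by rw [h3]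
        _ = (u * v) ^ (m + 1) * (v * ((u * v) ^ m * alt m v u)) := by group
  intro G _ u v hu hv m
  exact key m G u v hu hv

end WGOne
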