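import Pool.Agent.Lib.MP_107652_al.One.SpecA

/-!
# MP_107652_al, One: elements of a Clifford algebra satisfying the relations up to signs
-/

set_option autoImplicit false

open Finset

namespace WGOne

open WGirth

private theorem CliffEx_choose {S : Type} (Λ : LGraph S) (ε : Sym2 S → ℂˣ)
    (hε : ∀ e ∈ Λ.graph.edgeSet, ε e = 1 ∨ ε e = -1)
    (hε2 : ∀ e ∈ Λ.graph.edgeSet, Λ.label e = 2 → ε e = -1) :
    ∃ j : Sym2 S → ℕ, ∀ e ∈ Λ.graph.edgeSet, 0 < j e ∧ j e < Λ.label e ∧
      (-1 : ℂˣ) ^ (Λ.label e + j e) = ε e := by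
  classical
  refine ⟨fun e => if ε e = (-1) ^ (Λ.label e + 1) then 1 else 2, fun e he => ?_⟩
  have h2 := Λ.two_le e he
  by_cases h : ε e = (-1) ^ (Λ.label e + 1)
  · simp only [h, if_true]
    exact ⟨one_pos, by omega, trivial⟩
  · simp only [h, if_false]
    have h3 : Λ.label e ≠ 2 := by
      intro h3
      apply h
      rw [hε2 e he h3, h3]
      norm_num
    refine ⟨two_pos, by omega, ?_⟩
    rw [pow_succ, pow_succ] at *
    rcases neg_one_pow_eq_or ℂˣ (Λ.label e) with h4 | h4 <;> rcases hε e he with h5 | h5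
    · rw [h4, h5]; simp
    · exact absurd (by rw [h4, h5, one_mul]) h
    · exact absurd (by rw [h4, h5]; simp) h
    · rw [h4, h5]; simp

private theorem CliffEx_ring {A : Type} [Ring A] [Algebra ℂ A] (a b : A) (c : ℝ) (d : ℂ)
    (ha : a * a = 1) (hb : b * b = 1) (hd : d = -((2 * c : ℝ) : ℂ))
    (hab : a * b + b * a = algebraMap ℂ A d) :
    (a * b) * (a * b) + ((2 * c : ℝ) : ℂ) • (a * b) + 1 = 0 := by
  have h1 : (a * b) * (a * b + b * a) = d • (a * b) := by
    rw [hab, Algebra.smul_def, Algebra.commutes]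
  have h2 : (a * b) * (b * a) = 1 := by
    rw [mul_assoc, ← mul_assoc b b a, hb, one_mul, ha]
  rw [mul_add, h2, hd, neg_smul] at h1
  have h3 : (a * b) * (a * b) + ((2 * c : ℝ) : ℂ) • (a * b) + 1 =
      (a * b) * (a * b) + 1 + ((2 * c : ℝ) : ℂ) • (a * b) := by
    abel
  rw [h3, h1, neg_add_cancel]

/-- **CliffEx**: there are elements of a central extension which satisfy the relations of `Λ` up to the
signs `ε`. -/
theorem cliffEx : CliffRel → AltInv → CliffEx := by
  intro hrel hinv S _ _ Λ ε hε hε2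
  classical
  obtain ⟨j, hj⟩ := CliffEx_choose Λ ε hε hε2
  let cs : Sym2 S → ℝ := fun e => Real.cos (Real.pi * (j e : ℝ) / (Λ.label e : ℝ))
  let B : Matrix S S ℂ := fun s t => if s = t then 1 else
    if Λ.graph.Adj s t then -((cs s(s, t) : ℝ) : ℂ) else 0
  let Q : QuadraticForm ℂ (S → ℂ) := LinearMap.BilinMap.toQuadraticMap (Matrix.toBilin' B)
  have hQ : ∀ s, Q (Pi.single s 1) = 1 := by
    intro s
    change Matrix.toBilin' B (Pi.single s 1) (Pi.single s 1) = 1
    rw [Matrix.toBilin'_single]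
    simp [B]
  have hP : ∀ s t, QuadraticMap.polar Q (Pi.single s 1) (Pi.single t 1) = B s t + B t s := by
    intro s t
    change QuadraticMap.polar (LinearMap.BilinMap.toQuadraticMap (Matrix.toBilin' B)) _ _ = _
    rw [LinearMap.BilinMap.polar_toQuadraticMap, Matrix.toBilin'_single, Matrix.toBilin'_single]
  let a : S → CliffordAlgebra Q := fun s => CliffordAlgebra.ι Q (Pi.single s 1)
  have ha : ∀ s, a s * a s = 1 := by
    intro s
    change CliffordAlgebra.ι Q (Pi.single s 1) * CliffordAlgebra.ι Q (Pi.single s 1) = 1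
    rw [CliffordAlgebra.ι_sq_scalar, hQ, map_one]
  have hab : ∀ s t, a s * a t + a t * a s = algebraMap ℂ _ (B s t + B t s) := by
    intro s t
    rw [← hP]
    exact CliffordAlgebra.ι_mul_ι_add_swap _ _
  have : Invertible (2 : ℂ) := invertibleOfNonzero two_ne_zero
  have : Nontrivial (CliffordAlgebra Q) := inferInstance
  let u : S → (CliffordAlgebra Q)ˣ := fun s => ⟨a s, a s, ha s, ha s⟩
  have hu : ∀ s, u s * u s = 1 := fun s => Units.ext (ha s)
  let X : CExt :=
    { E := (CliffordAlgebra Q)ˣ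
      ζ := Units.map (algebraMap ℂ (CliffordAlgebra Q)).toMonoidHom
      cen := fun c g => Units.ext (Algebra.commutes (c : ℂ) (g : CliffordAlgebra Q))
      inj := by
        intro c d h
        apply Units.ext
        have h1 := congrArg Units.val h
        exact (algebraMap ℂ (CliffordAlgebra Q)).injective h1 }
  refine ⟨X, u, fun s t hst => ?_⟩
  have he : s(s, t) ∈ Λ.graph.edgeSet := hst
  obtain ⟨h0, h1, h2⟩ := hj _ he
  have hBst : B s t + B t s = -((2 * cs s(s, t) : ℝ) : ℂ) := by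
    have e1 : B s t = -((cs s(s, t) : ℝ) : ℂ) := by
      simp only [B, if_neg hst.ne, if_pos hst]
    have e2 : B t s = -((cs s(s, t) : ℝ) : ℂ) := by
      simp only [B, if_neg hst.ne.symm, if_pos hst.symm]
      rw [Sym2.eq_swap]
    rw [e1, e2]
    push_cast
    ring
  have h3 := CliffEx_ring (a s) (a t) (cs s(s, t)) _ (ha s) (ha t) hBst (hab s t)
  have h4 := hrel (CliffordAlgebra Q) (a s * a t) (Λ.label s(s, t)) (j s(s, t)) h0 h1 h3
  have h5 : (u s * u t) ^ Λ.label s(s, t) = X.ζ (ε s(s, t)) := by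
    apply Units.ext
    change (a s * a t) ^ Λ.label s(s, t) =
      algebraMap ℂ (CliffordAlgebra Q) ((ε s(s, t) : ℂˣ) : ℂ)
    rw [h4, ← h2]
    simp
  have h6 := hinv (CliffordAlgebra Q)ˣ (u s) (u t) (hu s) (hu t) (Λ.label s(s, t))
  rw [h5] at h6
  exact h6

end WGOne
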