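import Pool.Agent.Lib.MP_107652_al.One.SpecA

/-!
# A quadratic relation in a complex algebra gives `X ^ m = (-1) ^ (m + j)`
-/

set_option autoImplicit false

open Finset

namespace WGOne

open Polynomial in
/-- The two numbers `-exp(iα)`, `-exp(-iα)`. -/
private theorem CliffRel_pow (m j : ℕ) (hm : 0 < m) :
    (-Complex.exp (Complex.I * (Real.pi * j / m))) ^ m = (-1) ^ (m + j) ∧
    (-Complex.exp (-(Complex.I * (Real.pi * j / m)))) ^ m = (-1) ^ (m + j) := by
  have hm' : (m : ℂ) ≠ 0 := by exact_mod_cast hm.ne'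
  have h1 : Complex.exp (Complex.I * (Real.pi * j / m)) ^ m = (-1) ^ j := by
    rw [← Complex.exp_nat_mul]
    have e : (m : ℂ) * (Complex.I * (Real.pi * j / m)) = (j : ℂ) * (Real.pi * Complex.I) := by
      field_simp
    rw [e, Complex.exp_nat_mul, Complex.exp_pi_mul_I]
  have h2 : Complex.exp (-(Complex.I * (Real.pi * j / m))) ^ m = (-1) ^ j := by
    rw [Complex.exp_neg, inv_pow, h1, ← inv_pow]
    norm_num
  constructor
  · rw [neg_pow, h1, pow_add]
  · rw [neg_pow, h2, pow_add]

open Polynomial in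
/-- **CliffRel.** -/
theorem cliffRel : CliffRel := by
  intro R _ _ X m j hj hjm hX
  have hm : 0 < m := by omega
  have hm' : (0 : ℝ) < m := by exact_mod_cast hm
  obtain ⟨p1, p2⟩ := CliffRel_pow m j hm
  set α : ℝ := Real.pi * j / m with hα
  have hα0 : 0 < α := by
    have : (0 : ℝ) < j := by exact_mod_cast hj
    positivity
  have hα1 : α < Real.pi := by
    rw [hα, div_lt_iff₀ hm']
    have : (j : ℝ) < m := by exact_mod_cast hjm
    exact mul_lt_mul_of_pos_left this Real.pi_pos
  have hs : 0 < Real.sin α := Real.sin_pos_of_pos_of_lt_pi hα0 hα1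
  have hc : (Real.pi * j / m : ℂ) = ((α : ℝ) : ℂ) := by
    rw [hα]; push_cast; ring
  rw [hc] at p1 p2
  set r1 : ℂ := -Complex.exp (Complex.I * α) with hr1
  set r2 : ℂ := -Complex.exp (-(Complex.I * α)) with hr2
  have hsum : r1 + r2 = -((2 * Real.cos α : ℝ) : ℂ) := by
    have := Complex.two_cos (α : ℂ)
    rw [hr1, hr2]
    push_cast
    rw [this, mul_comm Complex.I]
    ring_nf
  have hprod : r1 * r2 = 1 := by
    rw [hr1, hr2, neg_mul_neg, ← Complex.exp_add]
    simp
  have hne : r1 - r2 ≠ 0 := by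
    have h := Complex.two_sin (α : ℂ)
    intro h0
    have h3 : Complex.exp (Complex.I * α) = Complex.exp (-(Complex.I * α)) := by
      rw [hr1, hr2] at h0
      linear_combination -h0
    have h4 : 2 * Complex.sin (α : ℂ) = 0 := by
      rw [h]
      rw [show -(α : ℂ) * Complex.I = -(Complex.I * α) by ring,
        show (α : ℂ) * Complex.I = Complex.I * α by ring, h3]
      ring
    have h5 : ((Real.sin α : ℝ) : ℂ) = 0 := by
      rw [Complex.ofReal_sin]
      simpa using h4
    exact hs.ne' (by exact_mod_cast h5)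
  have d1 : (Polynomial.X - C r1 : ℂ[X]) ∣ Polynomial.X ^ m - C ((-1) ^ (m + j)) := by
    rw [dvd_iff_isRoot]
    simp [p1]
  have d2 : (Polynomial.X - C r2 : ℂ[X]) ∣ Polynomial.X ^ m - C ((-1) ^ (m + j)) := by
    rw [dvd_iff_isRoot]
    simp [p2]
  have hcop : IsCoprime (Polynomial.X - C r1 : ℂ[X]) (Polynomial.X - C r2) :=
    isCoprime_X_sub_C_of_isUnit_sub (isUnit_iff_ne_zero.mpr hne)
  obtain ⟨q, hq⟩ := hcop.mul_dvd d1 d2
  have h0 : aeval X ((Polynomial.X - C r1) * (Polynomial.X - C r2) : ℂ[X]) = 0 := by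
    have e : ((Polynomial.X - C r1) * (Polynomial.X - C r2) : ℂ[X]) =
        Polynomial.X * Polynomial.X + C ((2 * Real.cos α : ℝ) : ℂ) * Polynomial.X + 1 := by
      have e1 : C ((2 * Real.cos α : ℝ) : ℂ) = -(C r1 + C r2) := by
        rw [← C_add, hsum, C_neg, neg_neg]
      have e2 : (C r1 : ℂ[X]) * C r2 = 1 := by rw [← C_mul, hprod, C_1]
      rw [e1]
      linear_combination e2
    rw [e]
    rw [map_add, map_add, map_mul, map_mul, aeval_X, aeval_C, map_one, ← Algebra.smul_def]
    exact hX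
  have h6 : aeval X (Polynomial.X ^ m - C ((-1) ^ (m + j)) : ℂ[X]) = 0 := by
    rw [hq, map_mul, h0, zero_mul]
  rw [map_sub, map_pow, aeval_X, aeval_C, map_pow, map_neg, map_one] at h6
  exact sub_eq_zero.mp h6

end WGOne
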