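import Pool.Agent.Lib.MP_107652_al.One.SpecB

/-!
# MP_107652_al, project E: generic real numbers
-/

set_option autoImplicit false

open Finset

namespace WGOne

open WGirth

open Polynomial in
private theorem GenNum_poly {ι : Type} [Fintype ι] (o : ι → ℕ) (ho : Function.Injective o)
    (a : ι → ℤ) (ha : a ≠ 0) (κ : ℝ) :
    (∑ i, C (a i : ℝ) * X ^ (o i + 1) + C κ : ℝ[X]) ≠ 0 := by
  classical
  obtain ⟨i, hi⟩ := Function.ne_iff.1 ha
  intro h
  have hc := congrArg (fun p : ℝ[X] => p.coeff (o i + 1)) h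
  simp only [coeff_add, finset_sum_coeff, coeff_C_mul, coeff_X_pow, coeff_zero] at hc
  rw [Finset.sum_eq_single i] at hc
  · rw [coeff_C] at hc
    simp at hc
    exact hi (by simpa using hc)
  · intro j _ hj
    rw [if_neg, mul_zero]
    intro e
    exact hj (ho (by omega))
  · intro hn
    exact absurd (Finset.mem_univ i) hn

/-- **GenNum.** -/
theorem genNum : GenNum := by
  classical
  intro ι J _ _ a κ ha
  have : Fintype J := Fintype.ofFinite J
  let e := Fintype.equivFin ι
  let o : ι → ℕ := fun i => (e i).val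
  have ho : Function.Injective o := fun i j h => e.injective (Fin.ext h)
  have hP : (∏ j : J, (∑ i, Polynomial.C (a j i : ℝ) * Polynomial.X ^ (o i + 1) +
      Polynomial.C (κ j) : Polynomial ℝ)) ≠ 0 :=
    Finset.prod_ne_zero_iff.2 fun j _ => GenNum_poly o ho (a j) (ha j) (κ j)
  obtain ⟨x, hx⟩ : ∃ x : ℝ, (∏ j : J, (∑ i, Polynomial.C (a j i : ℝ) * Polynomial.X ^ (o i + 1) +
      Polynomial.C (κ j) : Polynomial ℝ)).eval x ≠ 0 := by
    by_contra hcon
    push Not at hcon
    exact hP (Polynomial.funext fun x => by rw [hcon x, Polynomial.eval_zero])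
  refine ⟨fun i => x ^ (o i + 1), fun j => ?_⟩
  rw [Polynomial.eval_prod] at hx
  have := Finset.prod_ne_zero_iff.1 hx j (Finset.mem_univ j)
  simpa [Polynomial.eval_finset_sum] using this

end WGOne
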