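import Pool.Agent.Lib.MP_107652_al.One.BaseB

/-!
# MP_107652_al, THEOREM E, part B: component graph, matrices, cocycles, reduction to a cone.
Statements with complete proofs in the docstrings

Definitions: BaseA.lean, BaseB.lean, Defs.lean (same folder), `Dom` (domination) in
`WGTwin` (Twin/Spec.lean): `Dom Γ v w` says that every neighbour of `v` is `w` or a neighbour of `w`.
The theorems `WGTwin.degLe`, `WGTwin.permEx`, `WGTwin.domTr`, `WGTwin.domN`, `WGTwin.heisGen` are proved in the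
files of the folder Twin and may be imported.
-/

set_option autoImplicit false

open Finset

namespace WGOne

open WGirth WGTwin

/-! ## The component graph -/

/-- **CgLab.** The label of an edge of the component graph is the label of every edge between the two
components. Proof. If the label of `s, t` were odd then `s, t` would be adjacent in `oddGraph Λ`, so
`SameC s t`, so `comp s = comp t`. For the label: unfold `cg`, `cgLabel`; the condition holds (`⟨(s, t), _⟩`), let
`p` be the chosen pair: `p.1, p.2` are adjacent, `s(comp p.1, comp p.2) = s(comp s, comp t)`. By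
`Sym2.eq_iff` either `comp p.1 = comp s`, `comp p.2 = comp t`, or exchanged; in the second case replace `p` by
`(p.2, p.1)` (`Sym2.eq_swap`). So `SameC s p.1`, `SameC t p.2`. If `Λ.label s(s, t) ≠ 2` then `Nice.un` gives
`p.1 = s`, `p.2 = t`. If `Λ.label s(s, t) = 2` and `Λ.label s(p.1, p.2) ≠ 2`, then `Nice.un` with exchanged roles
gives `s = p.1`, `t = p.2`: contradiction. -/
def CgLab : Prop := ∀ (S I : Type) (Λ : LGraph S) (comp : S → I), Nice Λ → CMap Λ comp →
  ∀ s t, Λ.graph.Adj s t → comp s ≠ comp t →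
    Even (Λ.label s(s, t)) ∧ (cg Λ comp).label s(comp s, comp t) = Λ.label s(s, t)

/-- **CgHom.** Proof (from CgLab). Even: an edge `i, j` of `cg` is `comp s, comp t` for an edge `s, t`. The
homomorphism: `exists_homO` with `g s = gen (comp s)`. For an edge `s, t` with `comp s = comp t` both sides
are equal. Otherwise `comp s`, `comp t` are adjacent in `cg` and the relation is `gen_relO` for `cg` with the
label given by CgLab. -/
def CgHom : Prop := ∀ (S I : Type) (Λ : LGraph S) (comp : S → I), Nice Λ → CMap Λ comp →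
  IsEven (cg Λ comp) ∧
    ∃ p : Artin Λ →* Artin (cg Λ comp), ∀ s, p (gen Λ s) = gen (cg Λ comp) (comp s)

/-- **PreEx0.** Proof (from CgHom, OddEq, CgLab and the theorems `WGirth.expHom` (ExpHom.lean),
`WGTwin.heisGen` (Twin/HeisGen.lean)). Let `Λ' = cg Λ comp` (even), `p` from CgHom, `x`, `y` the exponent
homomorphisms of `Artin Γ`, `Artin Λ'` (`expHom`), `r : W → S` a section of `comp` (`Function.surjInv`).
`M i v = toAdd (y i (p (φ (gen v))))`, `N v i = toAdd (x v (φ.symm (gen (r i))))`; by OddEq (second part, for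
`(x v).comp φ.symm`) `N v (comp s) = toAdd (x v (φ.symm (gen s)))` for all `s`.
(E1) the second claim: `f` and `f'.comp p`, where `f' : Artin Λ' →* A` has `f' (gen i) = z i` (`exists_hom`,
`A` commutative), agree on the generators, so are equal (`hom_ext`); `expHom` for `f'` at `p (φ (gen v))`.
(E2) for `f : Artin Γ →* A` and `s : S`: `f (φ.symm (gen s)) = ∏ v, f (gen v) ^ N v (comp s)` (`expHom` for
`f`). `nm`: (E1) for `f = (x v).comp φ.symm`, `z i = ofAdd (N v i)`: `x v (gen w) = ∏ i, ofAdd (N v i) ^ M i w`.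
`mn`: (E2) for `f = (y i).comp (p.comp φ)` and `s = r j`: `y i (gen j) = ∏ v, ofAdd (M i v) ^ N v j`.
`heisM0`: for `a, b` adjacent let `g = p (φ (gen a))`, `h = p (φ (gen b))`, `K = half Γ a b ≥ 1`;
`(g h)^K = (h g)^K` by `gen_rel`. `heisGen` for `Λ'` and the non adjacent pair `i ≠ j` holds for ALL `n`, so
`K * det` is divisible by every `n`, so it is zero (`n = natAbs + 1`), cancel `K`. `heisN0`: `i, j` adjacent in
`Λ'`: `i = comp s`, `j = comp t`, `s, t` adjacent, even label `2 k` (CgLab), `k ≥ 1`, and `gen_relO` with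
`alt_two_mul` gives `(gen s * gen t)^k = (gen t * gen s)^k`; `heisGen` for `Γ` with `g = φ.symm (gen s)`,
`h = φ.symm (gen t)`. -/
def PreEx0 : Prop := ∀ (V S W : Type) [Fintype V] [DecidableEq V] [Fintype W] [DecidableEq W]
  (Γ : LGraph V) (Λ : LGraph S) (comp : S → W), IsEven Γ → Nice Λ → CMap Λ comp →
  ∀ φ : Artin Γ ≃* Artin Λ, ∃ (M : W → V → ℤ) (N : V → W → ℤ), Pre0 Γ (cg Λ comp) M N ∧
    ∀ (A : Type) [CommGroup A] (f : Artin Λ →* A) (z : W → A), (∀ s, f (gen Λ s) = z (comp s)) →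
      ∀ v, f (φ (gen Γ v)) = ∏ i, z i ^ M i v

/-- **DomM0.** Proof: copy Twin/DomM.lean with `Pre0` instead of `Pre` (only the fields `nm`, `mn`, `heisM0`,
`heisN0` are used there). -/
def DomM0 : Prop := ∀ (V W : Type) [Fintype V] [Fintype W] [DecidableEq V] [DecidableEq W]
  (Γ : LGraph V) (Λ : LGraph W) (M : W → V → ℤ) (N : V → W → ℤ), Pre0 Γ Λ M N →
  ∀ σ : V ≃ W, (∀ v, M (σ v) v ≠ 0) →
  (∀ v, Nat.card {w // w = v ∨ Γ.graph.Adj v w} = Nat.card {j // j = σ v ∨ Λ.graph.Adj (σ v) j}) ∧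
  ∀ v l, M l v ≠ 0 → Dom Λ (σ v) l

/-- **AdjIso0.** Proof: copy Twin/AdjIso.lean with `Pre0` instead of `Pre` (only `nm`, `heisM0` are used). -/
def AdjIso0 : Prop := ∀ (V W : Type) [Fintype V] [Fintype W] [DecidableEq V] [DecidableEq W]
  (Γ : LGraph V) (Λ : LGraph W) (M : W → V → ℤ) (N : V → W → ℤ), Pre0 Γ Λ M N →
  ∀ σ : V ≃ W, (∀ v, M (σ v) v ≠ 0) →
  (∀ v, Nat.card {w // w = v ∨ Γ.graph.Adj v w} = Nat.card {j // j = σ v ∨ Λ.graph.Adj (σ v) j}) →
  (∀ v l, M l v ≠ 0 → Dom Λ (σ v) l) → (∀ v l, N v l ≠ 0 → Dom Λ l (σ v)) →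
  ∀ a b, Γ.graph.Adj a b ↔ Λ.graph.Adj (σ a) (σ b)

/-! ## Cocycles -/

/-- **AltRel.** Proof. Even `m = 2 k`: `alt_two_mul`, `Aff.pow_eq`; the linear parts of `g h` and `h g` agree,
the difference of the translation parts of the powers is
`(∑ j < k, (g.a h.a)^j) * ((g h).b - (h g).b)`, `(g h).b - (h g).b = (1 - h.a) g.b - (1 - g.a) h.b`. If `g.a = h.a = a`: for all
`m` (also even) `(alt m g h).a = a^m` and `(alt m g h).b - (alt m h g).b = (∑ i < m, (-a)^i) * (g.b - h.b)`, by
induction from `alt (m+1) g h = g * alt m h g` (`Finset.sum_range_succ'` or `geom`-type identity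
`∑ i < m+1, (-a)^i = 1 - a * ∑ i < m, (-a)^i`). `Aff.ext`. -/
def AltRel : Prop := ∀ (m : ℕ) (g h : Aff), (Even m ∨ g.a = h.a) →
  (alt m g h = alt m h g ↔ RelE m g.a h.a g.b h.b)

/-- **RepSol.** Proof (from AltRel). For an edge `s, t` the two conditions agree by AltRel for `af z b s`,
`af z b t`; if the label is odd then `s, t` are adjacent in `oddGraph Λ`, so `z s = z t`. -/
def RepSol : Prop := ∀ (S : Type) (Λ : LGraph S) (z : S → ℂˣ),
  (∀ s t, (oddGraph Λ).Adj s t → z s = z t) → ∀ b : S → ℂ, (Rep Λ z b ↔ b ∈ Sol Λ z)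

/-- **SolEq.** The dimension of the space of cocycles is an invariant. Proof (from RepSol, OddEq). For a
group `G` and `χ : G →* ℂˣ` let `Z G χ : Submodule ℂ (G → ℂ)` be the set of `β` with
`β (g * h) = β g + χ g * β h`. (1) For an LGraph `Λ` and `χ : Artin Λ →* ℂˣ` the map `β ↦ (s ↦ β (gen s))` is a
linear equivalence `Z (Artin Λ) χ ≃ Sol Λ (fun s => χ (gen s))`. Here `z s = χ (gen s)` is constant along
odd edges (OddEq). For `β ∈ Z` the map `g ↦ ⟨χ g, β g⟩` is a homomorphism `F_β : Artin Λ →* Aff`; by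
`gen_relO`, `map_alt` its values on the generators satisfy `Rep`, so (RepSol) the values are in `Sol`.
Injective: if `β` vanishes on the generators, `F_β` and `F_0` agree on them, so `F_β = F_0` (`hom_ext`) and
`β = 0`. Surjective: for `b ∈ Sol`, `Rep Λ z b` and `exists_homO` give `f : Artin Λ →* Aff` with
`f (gen s) = ⟨z s, b s⟩`; `Aff.lin.comp f = χ` (`hom_ext`), and `β g = (f g).b` is in `Z`. Use
`LinearEquiv.ofBijective`. (2) `β ↦ β ∘ φ` is a linear equivalence `Z (Artin Λ) χ ≃ Z (Artin Γ) (χ.comp φ)`.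
Use (1) for `Γ` and `Λ`, `LinearEquiv.finrank_eq`. -/
def SolEq : Prop := ∀ (V S : Type) (Γ : LGraph V) (Λ : LGraph S) (φ : Artin Γ ≃* Artin Λ)
  (χ : Artin Λ →* ℂˣ), Module.finrank ℂ (Sol Γ (fun v => χ (φ (gen Γ v)))) =
    Module.finrank ℂ (Sol Λ (fun s => χ (gen Λ s)))

/-- **SolTwo.** Proof (from RepSol). `w s = 1 - z s` is a nonzero element of `Sol Λ z` (even label:
`(1 - z t) (1 - z s) - (1 - z s) (1 - z t) = 0`; odd label: `z s = z t`). `Cob z b` says `b = c • w`. So
`NA Λ z` (with RepSol) says that some `b ∈ Sol` is not in the span of `w`. If such `b` exists then `w, b` are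
linearly independent in `Sol` (`LinearIndependent.pair_iff`), so the dimension is at least 2
(`LinearIndependent.fintype_card_le_finrank`; `Sol` is finite-dimensional as a subspace of `S → ℂ`). If not, the
dimension is `1` (`finrank_span_singleton`, or `finrank_le_one`). -/
def SolTwo : Prop := ∀ (S : Type) [Finite S] (Λ : LGraph S) (z : S → ℂˣ),
  (∀ s t, (oddGraph Λ).Adj s t → z s = z t) → z ≠ 1 →
  (NA Λ z ↔ 2 ≤ Module.finrank ℂ (Sol Λ z))

/-- **SolSplit.** Proof. The map `b ↦ (b ∘ val, b ∘ val)` is a linear equivalence from `Sol Λ z` to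
`Sol (sub Λ P) _ × Sol (sub Λ Q) _` (`Module.finrank_prod`). Inverse: `(b₁, b₂) ↦ b` with `b s = b₁ s` on `P`,
`b₂ s` on `Q`, `0` elsewhere. `b ∈ Sol Λ z`: an edge inside `P` or inside `Q`: clear (`sub_label`); no edges
between `P` and `Q`; an edge between two vertices outside: both values are zero; an edge between `s ∈ P` and
`t` outside: the label is even (odd edges do not leave `P`), `z t = 1`, `b t = 0`, so
`(1 - z t) b s - (1 - z s) b t = 0` (same for `Q` and for exchanged roles). The composition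
`Sol Λ z → product → Sol Λ z` is the identity because elements of `Sol Λ z` vanish outside `P ∪ Q`. -/
def SolSplit : Prop := ∀ (S : Type) [Finite S] (Λ : LGraph S) (z : S → ℂˣ) (P Q : S → Prop),
  (∀ s, ¬ (P s ∧ Q s)) → (∀ s t, P s → Q t → ¬ Λ.graph.Adj s t) →
  (∀ s t, (oddGraph Λ).Adj s t → ((P s ↔ P t) ∧ (Q s ↔ Q t))) →
  (∀ s, ¬ P s → ¬ Q s → z s = 1) → (∀ b ∈ Sol Λ z, ∀ s, ¬ P s → ¬ Q s → b s = 0) →
  Module.finrank ℂ (Sol Λ z) =
    Module.finrank ℂ (Sol (sub Λ P) (fun s => z s.1)) +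
    Module.finrank ℂ (Sol (sub Λ Q) (fun s => z s.1))

/-- **NrmE.** Proof. If a geometric sum `∑ i < k, x^i` vanishes then `x ^ k = 1` (`geom_sum_mul`), so
`‖x‖ = 1` (`k ≥ 1`). Apply this to `x = a c` and to `x = -a`. -/
def NrmE : Prop := (∀ (a c : ℂ) (k : ℕ), 1 ≤ k → ‖a‖ * ‖c‖ ≠ 1 → ∑ i ∈ range k, (a * c) ^ i ≠ 0) ∧
  ∀ (a : ℂ) (m : ℕ), 1 ≤ m → ‖a‖ ≠ 1 → ∑ i ∈ range m, (-a) ^ i ≠ 0

/-- **SolGen.** Dimension for a generic character. Proof (from NrmE). The linear equivalence
`Cst Λ ≃ Sol Λ z`, `φ ↦ (s ↦ (1 - z s) φ s)` (`1 - z s ≠ 0`). For an even edge with label `2 k`: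
`E * ((1 - z t) (1 - z s) φ s - (1 - z s) (1 - z t) φ t) = 0` with `E = ∑ i < k, (z s z t)^i ≠ 0` (NrmE) is
equivalent to `φ s = φ t`. For an odd edge `z s = z t` and `E * (1 - z s) * (φ s - φ t) = 0` with
`E = ∑ i < m, (- z s)^i ≠ 0`: the same. -/
def SolGen : Prop := ∀ (S : Type) (Λ : LGraph S) (z : S → ℂˣ),
  (∀ s, z s ≠ 1) → (∀ s t, (oddGraph Λ).Adj s t → z s = z t ∧ ‖(z s : ℂ)‖ ≠ 1) →
  (∀ s t, Λ.graph.Adj s t → Even (Λ.label s(s, t)) → ‖(z s : ℂ)‖ * ‖(z t : ℂ)‖ ≠ 1) →
  Module.finrank ℂ (Sol Λ z) = Module.finrank ℂ (Cst Λ)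

/-- **CstEq.** Proof. The linear equivalence `Cst (sub Γ P) ≃ Cst (sub Λ (P ∘ comp))`, `φ ↦ φ ∘ comp`. Well
defined: for an edge `s, t` of `Λ` either `comp s = comp t` or `comp s`, `comp t` are adjacent in `Γ`. Inverse: for
`ψ` and `v` with `P v` put `φ v = ψ s` for some `s` with `comp s = v` (surjectivity). It does not depend on `s`:
if `comp s = comp s'` then `SameC s s'`, and along a path of odd edges all vertices have the same value of
`comp` (each step: adjacent in `oddGraph`, so `SameC`), so stay in `P ∘ comp`, and `ψ` is constant along the edges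
(induction on `Walk` or `Reachable`/`Relation.ReflTransGen`). `φ ∈ Cst`: an edge `v, w` of `Γ` comes from an
edge `s, t` of `Λ`. -/
def CstEq : Prop := ∀ (V S : Type) (Γ : LGraph V) (Λ : LGraph S) (comp : S → V), CMap Λ comp →
  (∀ v w, Γ.graph.Adj v w ↔ v ≠ w ∧ ∃ s t, comp s = v ∧ comp t = w ∧ Λ.graph.Adj s t) →
  ∀ P : V → Prop, Module.finrank ℂ (Cst (sub Γ P)) =
    Module.finrank ℂ (Cst (sub Λ (fun s => P (comp s))))

/-- **Piece2.** The component of an odd edge has a character (a root of unity `c₀` on all its vertices)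
with at least two independent cocycles. Proof. Let `m ≥ 3` be the odd label of `s0, t0`,
`ω = exp(2πi/m)`, `c₀ = -ω`; `c₀ ≠ 1` because `m` is odd (`ω ≠ -1`: `ω^m = 1`), `‖c₀‖ = 1`. Let `c` be the
colouring from `Nice.br`. The functions `1` and `b s = if c s then 1 else 0` are in
`Sol (sub Λ _) (fun _ => c₀)`: all edges of the component have odd label (`Nice.ev`); for an edge different
from `s(s0, t0)` the values of `b` at both ends agree; for `s(s0, t0)` (in both orders) the factor is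
`∑ i < m, (-c₀)^i = ∑ i < m, ω^i = 0` (`IsPrimitiveRoot.geom_sum_eq_zero`). They are linearly
independent (`c s0 ≠ c t0`, both `s0`, `t0` are in the component), so the dimension is at least 2. -/
def Piece2 : Prop := ∀ (V S : Type) [Finite S] (Λ : LGraph S) (comp : S → V), Nice Λ →
  CMap Λ comp → ∀ s0 t0, (oddGraph Λ).Adj s0 t0 → ∃ c₀ : ℂˣ, c₀ ≠ 1 ∧ ‖(c₀ : ℂ)‖ = 1 ∧
    2 ≤ Module.finrank ℂ (Sol (sub Λ (fun s => comp s = comp s0)) (fun _ => c₀))

/-- **Kill.** Proof. (1) The label is `2 k`, `k ≥ 1`; RelE gives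
`(∑ i < k, (z s z t)^i) * ((1 - z t) b s - (1 - z s) b t) = 0` with `z s = 1`; the sum is not zero (NrmE), so
`(1 - z t) b s = 0` and `z t ≠ 1`. (2) For an odd edge with `z s = 1`: the factor
`∑ i < m, (-1)^i = 1` (`m` odd; `Odd.neg_one_pow`, `Finset.sum_range` induction or `geom_sum`), so `b s = b t`. Path
induction; all vertices of the path are in the same odd component. -/
def Kill : Prop := ∀ (S : Type) (Λ : LGraph S) (z : S → ℂˣ) (b : S → ℂ), b ∈ Sol Λ z →
  (∀ s t, Λ.graph.Adj s t → Even (Λ.label s(s, t)) → z s = 1 → ‖(z t : ℂ)‖ ≠ 1 → b s = 0) ∧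
  ∀ s s', SameC Λ s s' → (∀ t, SameC Λ s t → z t = 1) → b s = b s'

/-! ## Generic numbers, block structure -/

/-- **GenNum.** Proof. Choose an injective function `o : ι → ℕ` (`Fintype.equivFin`) and take
`t i = x ^ (o i + 1)`; for every `j` the polynomial `P j = ∑ i, C (a j i) * X ^ (o i + 1) + C (κ j)` is not zero
(some coefficient `a j i ≠ 0` at degree `o i + 1`), so the product `∏ j, P j` is not zero and some real `x` is
not a root (`Polynomial.exists_eval_ne_zero_of_natDegree_lt_card` or: finitely many roots, `ℝ` is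
infinite). -/
def GenNum : Prop := ∀ (ι J : Type) [Fintype ι] [Finite J] (a : J → ι → ℤ) (κ : J → ℝ),
  (∀ j, a j ≠ 0) → ∃ t : ι → ℝ, ∀ j, ∑ i, (a j i : ℝ) * t i + κ j ≠ 0

/-- **Blk.** Block structure. Here `X` is `M` or `N`; `R` is the set of the vertices outside `InU` and `InG`:
they are adjacent to `C` and have a neighbour in `InG`. Proof. (1) Let `c ∈ R`: `c` is adjacent to `C` (not
`InG`, and `c ≠ C` because `InU Γ C C`), and there is `g` adjacent to `c` with `InG g` (because `InU` fails). If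
`X r c ≠ 0` then `Dom c r`: `C = r` or `C ~ r`, and `g = r` or `g ~ r`. So `r` is not `InG`. If `InU r`: `g = r` is
excluded (`InU r` gives `r = C` or `r ~ C`), `g ~ r` gives `g = C` or `g ~ C`: contradiction. So `r ∈ R`.
(2) Let `y ~ C`, `InU y`, `InU c`, `InG r`, `X r c ≠ 0`: `Dom c r`. If `c = C`: `y = r` (then `r ~ C`: excluded) or
`y ~ r`, and `InU y` gives `r = C` or `r ~ C`: excluded. If `c ~ C`: `C = r` or `C ~ r`: excluded.
(3) The facts on `R`: as in (1). -/
def Blk : Prop := ∀ (V : Type) (Γ : LGraph V) (C : V) (X : V → V → ℤ),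
  (∀ c r, X r c ≠ 0 → Dom Γ c r) →
  (∀ c r, ¬ InU Γ C c → ¬ InG Γ C c → (InU Γ C r ∨ InG Γ C r) → X r c = 0) ∧
  ((∃ y, Γ.graph.Adj y C ∧ InU Γ C y) → ∀ c r, InU Γ C c → InG Γ C r → X r c = 0) ∧
  (∀ c, ¬ InU Γ C c → ¬ InG Γ C c → Γ.graph.Adj c C ∧ ∃ g, Γ.graph.Adj c g ∧ InG Γ C g) ∧
  ∀ u g, InU Γ C u → InG Γ C g → ¬ Γ.graph.Adj u g

/-- **DatEx.** Proof (from NiceEx, PreEx0, DomM0, AdjIso0, SolEq, OddEq and the theorems
`WGTwin.permEx`, `WGTwin.domTr`, `WGTwin.domN`). `Nice Λ` from NiceEx. `W = (oddGraph Λ).ConnectedComponent`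
(finite), `comp0 s` the component of `s`: `CMap Λ comp0`. PreEx0: `M0`, `N0`. PermEx: `σ : V ≃ W` with
`M0 (σ v) v ≠ 0`. DomM0: `M0 l v ≠ 0 → Dom Λ' (σ v) l`, and the numbers. DomN:
`N0 v l ≠ 0 → Dom Λ' l (σ v)`. AdjIso0: `v ~ w ↔ σ v ~ σ w` in `Λ' = cg Λ comp0`. Put `comp = σ.symm ∘ comp0`,
`M v w = M0 (σ v) w`, `N v w = N0 v (σ w)`. `MN`, `NM`: reindex `mn`, `nm` (`Equiv.sum_comp`). `domM`, `domN`: `Dom Γ`
corresponds to `Dom Λ'` under `σ`. `adj`: unfold `cg`. `chr`: for `z : V → ℂˣ` let `χ : Artin Λ →* ℂˣ` with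
`χ (gen s) = z (comp s)` (`exists_homO`; in the commutative group `ℂˣ` a relation of even length holds always,
`alt_two_mul` and `mul_comm`, and for an odd edge `comp s = comp t`). The last claim of PreEx0 for `f = χ`,
`z ∘ σ.symm` gives `χ (φ (gen v)) = ∏ i, z (σ.symm i) ^ M0 i v = pw M z v`; SolEq. -/
def DatEx : Prop := ∀ (V S : Type) [Fintype V] [DecidableEq V] [Fintype S] [DecidableEq S]
  (Γ : LGraph V) (Λ : LGraph S), IsEven Γ → ∀ (_ : Artin Γ ≃* Artin Λ),
  ∃ (comp : S → V) (M N : Matrix V V ℤ), Dat Γ Λ comp M N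

/-! ## Reduction to a cone -/

/-- **NoK.** An odd component `C` has a neighbour `y` with `InU y`. Proof (from Piece2, SolSplit, SolGen,
CstEq, Kill, GenNum, Blk). Suppose not: then `InU u` only for `u = C`. Write `R` for the set of the
vertices which are neither `C` nor `InG`; they are adjacent to `C` and have a neighbour in `InG` (Blk (3)).
Facts on `M`, `N` (all from `domM`, `domN`, `MN`, `NM`; write `G` for `InG`). (0) `M i v = 0` and `N i v = 0` for
`v ∈ R`, `i ∉ R` (Blk (1)). (i) `v ~ w` in `G`: some `i ∈ G` has `M i v + M i w ≠ 0`. Otherwise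
`1 = ∑ i, N v i (M i v + M i w)` gives `i` with `N v i ≠ 0`, `M i v + M i w ≠ 0`, so `i ∉ G`, `i ∉ R` ((0): `N v i ≠ 0`,
`v ∉ R`), so `i = C`; then `M C v ≠ 0` or `M C w ≠ 0`; `M C v ≠ 0` gives `Dom v C`, so `w = C` or `w ~ C`: contradiction;
the same for `w`. (ii) If `v ∈ G` and `M i v = 0` for all `i ∈ G`, then `N v C * M C v = 1` (the sum `∑ i, N v i M i v = 1`
has only the term `i = C`). (iii) every `r ∈ R` is adjacent to some `x ∈ G ∪ {C}` with `M i x ≠ 0` for some
`i ∈ G`: let `g ∈ G`, `g ~ r`. If `g` does not work then `M · g` vanishes on `G`, so by (ii) `N g C ≠ 0`. If `C` does not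
work either, `M i C = 0` for `i ∈ G`; `0 = ∑ i, N g i M i C = N g C * M C C` gives `M C C = 0`, and
`1 = ∑ i, N C i M i C` has a nonzero term, `i ∈ R`, but `N C i = 0` by (0): contradiction. So `C` works.
Now let `c₀` from Piece2 (edge `s0, t0`, `comp s0 = C`). By GenNum choose real numbers `t i` (`i : V`; only `i ∈ G` are
used) such that, with `z i = exp (t i)` for `i ∈ G`, `z C = c₀`, `z r = 1` for `r ∈ R` (so
`log ‖pw M z v‖ = ∑ i ∈ G, M i v t i`): `t i ≠ 0` and `t i + t j ≠ 0` for `i, j ∈ G` (for `i = j` this is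
`2 t i ≠ 0`), `∑ i ∈ G, (M i v + M i w) t i ≠ 0` for adjacent `v, w ∈ G` ((i)), and `∑ i ∈ G, M i v t i ≠ 0` whenever `M i v ≠ 0`
for some `i ∈ G` (take `a j i = 0` for `i ∉ G`).
`Λ` side: SolSplit with `P s ↔ comp s = C`, `Q s ↔ comp s ∈ G`: the vertices outside have `comp s ∈ R`, `z = 1`, and
`b s = 0` for `b ∈ Sol`: the component has an edge to a vertex with `comp` in `G` (by `adj`; even label; norm `≠ 1`),
Kill (1) and (2). The dimension is `≥ 2` (Piece2) `+` that of `Sol (sub Λ Q)`, which is `finrank (Cst (sub Λ Q))`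
(SolGen: `z s ≠ 1`, norms `≠ 1`, products of norms `≠ 1`).
`Γ` side (`y = pw M z`): SolSplit with `P v ↔ v = C`, `Q v ↔ v ∈ G` (no odd edges): `y v = 1` for `v ∈ R` ((0) and
`z = 1` on `R`); `b v = 0` for `b ∈ Sol`, `v ∈ R`: by (iii) `v` is adjacent to `x` with `‖y x‖ ≠ 1`, Kill (1). The dimension is
that of `Sol (sub Γ (· = C))`, a space of functions on a one point set, so `≤ 1`, plus that of `Sol (sub Γ Q)`, which
is `finrank (Cst (sub Γ Q))` (SolGen: `y v ≠ 1`: if some `M i v ≠ 0`, `i ∈ G`, its norm is not `1`; otherwise by (ii)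
`M C v = ± 1` and `y v = c₀ ^ (± 1) ≠ 1`, because `M i v` for `i ∈ R` only contributes `1`; products of norms of adjacent
vertices are `≠ 1`). CstEq: the two `Cst` dimensions agree. `chr z` says that the two totals are equal:
contradiction. -/
def NoK : Prop := ∀ (V S : Type) [Fintype V] [DecidableEq V] [Fintype S] [DecidableEq S]
  (Γ : LGraph V) (Λ : LGraph S) (comp : S → V) (M N : Matrix V V ℤ), Dat Γ Λ comp M N →
  ∀ s0 t0, (oddGraph Λ).Adj s0 t0 → ∃ y, Γ.graph.Adj y (comp s0) ∧ InU Γ (comp s0) y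

/-- **Red.** Proof (from SolSplit, SolGen, CstEq, Kill, GenNum, Blk). Write `U`, `G`, `R` for `InU`, `InG` and
the remaining vertices. By Blk: `X r c = 0` for `c ∈ R`, `r ∉ R`, and for `c ∈ U`, `r ∈ G`, where `X` is `M` or `N`.
First two claims: for `i, j ∈ U`, `δ_ij = ∑ v, M i v N v j`, and the terms with `v ∈ R` vanish (`M i v = 0`) and those with
`v ∈ G` vanish (`N v j = 0`); a sum over the subtype (`Finset.sum_subtype` or `Fintype.sum_subtype_add_sum_subtype`);
the same for `N * M`. Third claim: let `z : {v // U v} → ℂˣ`. For `x, v ∈ G`: `∑ i ∈ G, N x i M i v = δ_xv` (terms with `i ∈ R`: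
`N x i = 0`; `i ∈ U`: `N x i = 0`), so for `v ≠ w` in `G` the vector `(M i v + M i w)_{i ∈ G}` is not zero, and
`(M i v)_{i ∈ G}` is not zero. By GenNum choose `t i` such that with `z' i = z i` on `U`, `1` on `R`, `exp (t i)` on `G`, and
`y = pw M z'` (so `log ‖y v‖ = ∑ i ∈ G, M i v t i + κ v`, `κ v = ∑ i ∈ U, M i v log ‖z i‖`): `t i ≠ 0`, `t i + t j ≠ 0` (`i, j ∈ G`),
`log ‖y v‖ ≠ 0` for `v ∈ G`, `log ‖y v‖ + log ‖y w‖ ≠ 0` for `v ≠ w` in `G`. `Λ` side: SolSplit with `P = U ∘ comp`,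
`Q = G ∘ comp`: vertices outside have `z' = 1` and are killed (the component is adjacent to a component in `G`; Kill (1) and
(2)); the second summand is `finrank (Cst (sub Λ Q))` by SolGen. `Γ` side: SolSplit with `P = U`, `Q = G`: for `v ∈ R`
`y v = 1`, and `v` is killed by a neighbour in `G`; on `U`: `y v = ∏ i ∈ U, z i ^ M i v`, which is `pw M' z` for the
submatrix; second summand `finrank (Cst (sub Γ Q))` by SolGen. CstEq and `chr z'` give the claim (cancel). -/
def Red : Prop := ∀ (V S : Type) [Fintype V] [DecidableEq V] [Fintype S] [DecidableEq S]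
  (Γ : LGraph V) (Λ : LGraph S) (comp : S → V) (M N : Matrix V V ℤ), Dat Γ Λ comp M N →
  ∀ C : V, (∃ y, Γ.graph.Adj y C ∧ InU Γ C y) → ∀ [Fintype {v // InU Γ C v}],
  (M.submatrix Subtype.val Subtype.val : Matrix {v // InU Γ C v} {v // InU Γ C v} ℤ) *
    N.submatrix Subtype.val Subtype.val = 1 ∧
  (N.submatrix Subtype.val Subtype.val : Matrix {v // InU Γ C v} {v // InU Γ C v} ℤ) *
    M.submatrix Subtype.val Subtype.val = 1 ∧
  ∀ z : {v // InU Γ C v} → ℂˣ,
    Module.finrank ℂ (Sol (sub Γ (InU Γ C)) (pw (M.submatrix Subtype.val Subtype.val) z)) =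
    Module.finrank ℂ (Sol (sub Λ (fun s => InU Γ C (comp s))) (fun s => z ⟨comp s.1, s.2⟩))

/-- **ConeEx.** Proof (from Red, SolTwo, NoK). `Min` says that the star of `C = comp s0` is not larger than
that of the component of any odd edge. NoK gives `y`; put `Γ' = sub Γ (InU Γ C)`,
`Λ' = sub Λ (fun s => InU Γ C (comp s))`, `comp' s = ⟨comp s.1, s.2⟩`, `C' = ⟨C, inU_self⟩`, the submatrices of `M`, `N`. The
fields of `ConeData` (Defs.lean): `even`: labels are the same. `odd_in`: `comp s = comp t` gives `SameC`, so the label is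
not even (`Nice.ev`). `even_out`: an odd edge gives `SameC`, so `comp s = comp t`. `adj_out`, `adj_ex`: `Dat.adj`. `heavy`:
`Nice.un` (label `≥ 3`, so `≠ 2`). `conn`: `SameC s t` gives a path of odd edges from `s` to `t` in `Λ`; all its vertices have
the same `comp`, so are in `Λ'`; somewhere `P` changes from true to false (induction on the walk). `single`: let
`u = comp s` be not a cone of `Γ'`: `u ∈ U`, and some `w ∈ U`, `w ≠ u`, is not adjacent to `u`. So `u ≠ C` (`C` is adjacent to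
all of `U`, `InU.1`), `w = C` or `w ~ C`, and `w ≠ C` as `u ~ C`. The star of `u` is contained in that of `C` (`InU.2`,
`u ~ C`), and `w` is in the star of `C` but not in that of `u`: strictly smaller. If `s ≠ t` with `comp s = comp t = u` then
some odd edge starts at `s` (first edge of the path), contradiction to `Min`. `coneC`: `InU.1`. `bridge`: `Nice.br` for
`s0, t0`, `P s ↔ c s = c s0`; an edge `a, b` in the component of `C` with `P a`, `¬ P b` is odd (`Nice.ev`) and equal to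
`s(s0, t0)`; `a = t0`, `b = s0` is excluded because `P t0` is false. `MN`, `NM`: Red. `Moq`: `q` a cone of `Γ'`, `M o q ≠ 0`,
so `Dom Γ q o`: every `w ∈ U`, `w ≠ q`, is adjacent to `q`, so `w = o` or `w ~ o`; and `o ~ q` or `o = q`: so `o` is a cone.
`na`: SolTwo for `Λ'` and `Γ'` (`z ≠ 1` gives `z ∘ comp' ≠ 1` and, as `M'` is invertible, `pw M' z ≠ 1`: from
`pw M' z = 1` we get `z i = ∏ v, (pw M' z v) ^ N' v i = 1`), and the third claim of Red. -/
def ConeEx : Prop := ∀ (V S : Type) [Fintype V] [DecidableEq V] [Fintype S] [DecidableEq S]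
  (Γ : LGraph V) (Λ : LGraph S) (comp : S → V) (M N : Matrix V V ℤ), Dat Γ Λ comp M N →
  ∀ s0 t0, (oddGraph Λ).Adj s0 t0 →
  (∀ s t, (oddGraph Λ).Adj s t → Nat.card {w // w = comp s0 ∨ Γ.graph.Adj (comp s0) w} ≤
    Nat.card {w // w = comp s ∨ Γ.graph.Adj (comp s) w}) →
  ∀ [Fintype {v // InU Γ (comp s0) v}],
  ∃ (comp' : {s // InU Γ (comp s0) (comp s)} → {v // InU Γ (comp s0) v})
    (M' N' : Matrix {v // InU Γ (comp s0) v} {v // InU Γ (comp s0) v} ℤ)
    (C' : {v // InU Γ (comp s0) v}),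
    ConeData (sub Γ (InU Γ (comp s0))) (sub Λ (fun s => InU Γ (comp s0) (comp s))) comp' M' N' C'

/-- The cone theorem (Part C). -/
def ConeThm : Prop := ∀ (S V : Type) [Fintype V] [DecidableEq V] (Γ : LGraph V) (Λ : LGraph S)
  (comp : S → V) (M N : Matrix V V ℤ) (C : V), ConeData Γ Λ comp M N C → False

/-- **EvenInv.** Proof. If `Λ` is not even, some pair is adjacent in `oddGraph Λ`; choose one, `s0, t0`, with
the least number `Nat.card {w // w = comp s0 ∨ Adj (comp s0) w}` (`Dat` from DatEx). ConeEx and ConeThm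
(instances by `classical`). -/
def EvenInv : Prop := ∀ (V S : Type) [Fintype V] [DecidableEq V] [Fintype S] [DecidableEq S]
  (Γ : LGraph V) (Λ : LGraph S), IsEven Γ → ∀ (_ : Artin Γ ≃* Artin Λ), IsEven Λ

end WGOne
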