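import Pool.Agent.Lib.MP_107652_al.One.SpecB

/-!
# MP_107652_al, One: (AdjIso0) the permutation is an isomorphism of the underlying graphs, with `Pre0`
-/

set_option autoImplicit false

open Finset

namespace WGOne

open WGirth WGTwin

private theorem AdjIso0_forward {V W : Type} [Fintype V] [Fintype W] [DecidableEq V] [DecidableEq W]
    (Γ : LGraph V) (Λ : LGraph W) (M : W → V → ℤ) (N : V → W → ℤ) (hp : Pre0 Γ Λ M N)
    (σ : V ≃ W) (hσ : ∀ v, M (σ v) v ≠ 0) (hM : ∀ v l, M l v ≠ 0 → Dom Λ (σ v) l)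
    (hN : ∀ v l, N v l ≠ 0 → Dom Λ l (σ v)) (a b : V) (hab : Γ.graph.Adj a b) :
    Λ.graph.Adj (σ a) (σ b) := by
  by_contra hno
  have hne : a ≠ b := hab.ne
  have hij : σ a ≠ σ b := fun e => hne (σ.injective e)
  have h1 := hp.heisM0 a b hab (σ a) (σ b) hij hno
  have h2 : M (σ a) a * M (σ b) b ≠ 0 := mul_ne_zero (hσ a) (hσ b)
  have h3 : M (σ b) a * M (σ a) b ≠ 0 := by
    intro h4
    rw [h4, sub_zero] at h1
    exact h2 h1
  have hja : M (σ b) a ≠ 0 := left_ne_zero_of_mul h3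
  have hib : M (σ a) b ≠ 0 := right_ne_zero_of_mul h3
  have dij : Dom Λ (σ a) (σ b) := hM a _ hja
  have hsum : ∑ l, N a l * (M (σ a) b * M l a - M (σ a) a * M l b) = M (σ a) b := by
    have e1 : ∑ l, N a l * (M (σ a) b * M l a - M (σ a) a * M l b) =
        M (σ a) b * (∑ l, N a l * M l a) - M (σ a) a * ∑ l, N a l * M l b := by
      rw [Finset.mul_sum, Finset.mul_sum, ← Finset.sum_sub_distrib]
      refine Finset.sum_congr rfl fun l _ => ?_
      ring
    rw [e1, hp.nm, hp.nm, if_pos rfl, if_neg hne]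
    ring
  have hex : ∃ l ∈ (univ : Finset W), N a l * (M (σ a) b * M l a - M (σ a) a * M l b) ≠ 0 := by
    apply Finset.exists_ne_zero_of_sum_ne_zero
    rw [hsum]
    exact hib
  obtain ⟨l, -, hl⟩ := hex
  have hNl : N a l ≠ 0 := left_ne_zero_of_mul hl
  have hcl : M (σ a) b * M l a - M (σ a) a * M l b ≠ 0 := right_ne_zero_of_mul hl
  have dli : Dom Λ l (σ a) := hN a l hNl
  have hil : σ a ≠ l := by
    rintro rfl
    apply hcl
    ring
  have hnadj : ¬ Λ.graph.Adj (σ a) l := by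
    intro hadj
    rcases dij l hadj with e | e
    · rw [e] at hadj
      exact hno hadj
    · rcases dli (σ b) e with e' | e'
      · exact hij e'.symm
      · exact hno e'.symm
  have h5 := hp.heisM0 a b hab (σ a) l hil hnadj
  apply hcl
  linear_combination -h5

theorem adjIso0 : AdjIso0 := by
  intro V W _ _ _ _ Γ Λ M N hp σ hσ hcard hM hN a b
  have hf := AdjIso0_forward Γ Λ M N hp σ hσ hM hN
  refine ⟨hf a b, fun hadj => ?_⟩
  obtain ⟨f, hfd⟩ : ∃ f : {w // w = a ∨ Γ.graph.Adj a w} →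
      {j // j = σ a ∨ Λ.graph.Adj (σ a) j}, ∀ w, (f w : W) = σ w :=
    ⟨fun w => ⟨σ w, w.2.imp (fun e => congrArg σ e) (fun e => hf a w e)⟩, fun _ => rfl⟩
  have hinj : Function.Injective f := by
    intro w w' hw
    apply Subtype.ext
    apply σ.injective
    rw [← hfd, ← hfd, hw]
  have hbij := hinj.bijective_of_nat_card_le (hcard a).ge
  obtain ⟨w, hw⟩ := hbij.2 ⟨σ b, Or.inr hadj⟩
  have h1 : σ (w : V) = σ b := by rw [← hfd, hw]
  have h2 : (w : V) = b := σ.injective h1
  rcases w.2 with h3 | h3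
  · exfalso
    rw [h2] at h3
    rw [h3] at hadj
    exact hadj.ne rfl
  · rwa [h2] at h3

end WGOne
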