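import Pool.Agent.Lib.MP_107652_al.One.SpecA

set_option autoImplicit false

open Finset

namespace WGOne

open WGirth

private theorem AltScal_step (X : CExt) (g A : X.E) (a d : ℂˣ) :
    g * X.ζ a * (A * X.ζ d) = g * A * X.ζ (a * d) := by
  rw [map_mul, mul_assoc g, ← mul_assoc (X.ζ a), X.cen a A, mul_assoc A, ← mul_assoc g]

theorem altScal : AltScal := by
  intro X g h a c l
  induction l generalizing g h a c with
  | zero =>
    constructor
    · simp [alt]
    · simp [alt]
  | succ l ih =>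
    have he : ∀ (g h : X.E) (a c : ℂˣ), alt (2 * (l + 1)) (g * X.ζ a) (h * X.ζ c) =
        alt (2 * (l + 1)) g h * X.ζ (a ^ (l + 1) * c ^ (l + 1)) := by
      intro g h a c
      have e1 : 2 * (l + 1) = (2 * l + 1) + 1 := by ring
      rw [e1]
      change g * X.ζ a * alt (2 * l + 1) (h * X.ζ c) (g * X.ζ a) =
        g * alt (2 * l + 1) h g * X.ζ (a ^ (l + 1) * c ^ (l + 1))
      rw [(ih h g c a).2, AltScal_step]
      congr 2
      rw [pow_succ' a l, mul_assoc, mul_comm (c ^ (l + 1))]
    refine ⟨he g h a c, ?_⟩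
    change g * X.ζ a * alt (2 * (l + 1)) (h * X.ζ c) (g * X.ζ a) =
      g * alt (2 * (l + 1)) h g * X.ζ (a ^ (l + 1 + 1) * c ^ (l + 1))
    rw [he h g c a, AltScal_step]
    congr 2
    rw [pow_succ' a (l + 1), mul_assoc, mul_comm (c ^ (l + 1))]

end WGOne
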