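import Pool.Agent.Lib.MP_107652_al.One.SpecB

/-!
# MP_107652_al, One, module CgHom: homomorphism to the Artin group of the component graph
-/

set_option autoImplicit false

open Finset

namespace WGOne

open WGirth

theorem cgHom : CgLab → CgHom := by
  intro hL S I Λ comp hN hC
  constructor
  · rintro i j ⟨hne, s, t, hs, ht, hst⟩
    subst hs ht
    have h1 := hL S I Λ comp hN hC s t hst hne
    rw [h1.2]
    exact h1.1
  · refine exists_homO Λ (fun s => gen (cg Λ comp) (comp s)) ?_
    intro s t hst
    show alt (Λ.label s(s, t)) (gen (cg Λ comp) (comp s)) (gen (cg Λ comp) (comp t)) =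
      alt (Λ.label s(s, t)) (gen (cg Λ comp) (comp t)) (gen (cg Λ comp) (comp s))
    by_cases h : comp s = comp t
    · rw [h]
    · have h1 := hL S I Λ comp hN hC s t hst h
      have h2 := gen_relO (cg Λ comp) (s := comp s) (t := comp t) ⟨h, s, t, rfl, rfl, hst⟩
      rw [h1.2] at h2
      exact h2

end WGOne
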