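import Pool.Agent.Lib.MP_107652_al.One.SpecC

/-!
# MP_107652_al, One, module AltO: odd relations of two affine maps
-/

set_option autoImplicit false

open Finset

namespace WGOne

open WGirth

/-- two affine maps with the same linear part -/
private theorem AltO_same (m : ℕ) (g h : Aff) (e : g.a = h.a) :
    (alt m g h).a = g.a ^ m ∧ (alt m h g).a = g.a ^ m ∧
      (alt m g h).b - (alt m h g).b = (∑ i ∈ range m, (-(g.a : ℂ)) ^ i) * (g.b - h.b) := by
  induction m with
  | zero => simp [alt]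
  | succ m ih =>
    obtain ⟨h1, h2, h3⟩ := ih
    refine ⟨?_, ?_, ?_⟩
    · show g.a * (alt m h g).a = _
      rw [h2, pow_succ']
    · show h.a * (alt m g h).a = _
      rw [h1, ← e, pow_succ']
    · show (g.b + g.a * (alt m h g).b) - (h.b + h.a * (alt m g h).b) = _
      rw [← e, Finset.sum_range_succ']
      have e2 : ∑ i ∈ range m, (-(g.a : ℂ)) ^ (i + 1) =
          -(g.a : ℂ) * ∑ i ∈ range m, (-(g.a : ℂ)) ^ i := by
        rw [Finset.mul_sum]
        refine Finset.sum_congr rfl fun i _ => ?_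
        ring
      rw [e2, pow_zero]
      linear_combination -(g.a : ℂ) * h3

/-- the geometric sum of `-a` with an odd number of terms -/
private theorem AltO_geom (r : ℕ) (a : ℂˣ) :
    (∑ i ∈ range (2 * r + 1), (-(a : ℂ)) ^ i) = 0 ↔ a ≠ -1 ∧ (-a) ^ (2 * r + 1) = 1 := by
  have hU : (-a) ^ (2 * r + 1) = 1 ↔ (-(a : ℂ)) ^ (2 * r + 1) = 1 := by
    rw [Units.ext_iff]
    simp
  have h4 := geom_sum_mul (-(a : ℂ)) (2 * r + 1)
  rw [hU]
  constructor
  · intro h0
    rw [h0, zero_mul] at h4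
    refine ⟨?_, (sub_eq_zero.mp h4.symm)⟩
    rintro rfl
    rw [Units.val_neg, Units.val_one, neg_neg] at h0
    simp only [one_pow, Finset.sum_const, Finset.card_range, nsmul_eq_mul, mul_one] at h0
    have h5 : ((2 * r + 1 : ℕ) : ℂ) ≠ 0 := Nat.cast_ne_zero.mpr (by omega)
    exact h5 h0
  · rintro ⟨h1, h2⟩
    rw [h2, sub_self, mul_eq_zero] at h4
    rcases h4 with h4 | h4
    · exact h4
    · exfalso
      apply h1
      rw [Units.ext_iff, Units.val_neg, Units.val_one]
      linear_combination -h4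

theorem pAltO : S_AltO := by
  intro r g h e
  obtain ⟨h1, h2, h3⟩ := AltO_same (2 * r + 1) g h e
  rw [Aff.ext_iff, h1, h2, ← AltO_geom r g.a]
  simp only [true_and]
  rw [← sub_eq_zero, h3, mul_eq_zero, or_comm]
  refine or_congr ?_ Iff.rfl
  rw [sub_eq_zero, Aff.ext_iff]
  exact ⟨fun hb => ⟨e, hb⟩, fun hh => hh.2⟩

end WGOne
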