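import Pool.Agent.Lib.MP_107652_al.One.SpecC

/-!
# Analysis of representations
-/

set_option autoImplicit false

namespace WGOne

open WGirth

private theorem Ana_edge (hE : S_AltE) (hO : S_AltO) {m : ℕ} (hm : 2 ≤ m) (g h : Aff)
    (ho : ¬ Even m → g.a = h.a) :
    alt m g h = alt m h g ↔
      ((Even m ∧ g * h = h * g) ∨ (¬ Even m ∧ g = h)) ∨ Dg m g.a h.a := by
  by_cases he : Even m
  · obtain ⟨k, hk⟩ := he
    have hk2 : m = 2 * k := by omega
    have hk3 : m / 2 = k := by omega
    have he : Even m := ⟨k, hk⟩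
    have h1 := hE k g h (by omega)
    rw [← hk2] at h1
    rw [h1]
    unfold Dg
    rw [hk3]
    simp only [he, true_and, not_true_eq_false, false_and, or_false]
  · have ha := ho he
    obtain ⟨r, hr⟩ := Nat.not_even_iff_odd.mp he
    have h1 := hO r g h ha
    rw [← hr] at h1
    rw [h1]
    unfold Dg
    simp only [he, false_and, false_or, not_false_eq_true, true_and]

private theorem Ana_ne {a : ℂˣ} (h : a ≠ 1) : (1 - (a : ℂ)) ≠ 0 := by
  intro h1
  apply h
  ext
  rw [Units.val_one]
  exact (sub_eq_zero.mp h1).symm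

theorem pAna : S_AltE → S_AltO → S_Ana := by
  classical
  intro hE hO S V Λ comp z hcs hz hNA
  obtain ⟨b, hR, hC⟩ := hNA
  obtain ⟨v0, hv0⟩ : ∃ v, z v ≠ 1 := by
    by_contra h
    apply hz
    funext v
    by_contra h1
    exact h ⟨v, h1⟩
  obtain ⟨s0, rfl⟩ := hcs.surj v0
  have hodd : ∀ s t, Λ.graph.Adj s t → ¬ Even (Λ.label s(s, t)) → comp s = comp t :=
    fun s t hst h => by_contra fun h1 => h (hcs.even_out s t hst h1)
  -- the relations
  have hrel : ∀ s t, Λ.graph.Adj s t →
      ((Even (Λ.label s(s, t)) ∧ (1 - (z (comp s) : ℂ)) * b t = (1 - (z (comp t) : ℂ)) * b s) ∨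
        (¬ Even (Λ.label s(s, t)) ∧ b s = b t)) ∨
        Dg (Λ.label s(s, t)) (z (comp s)) (z (comp t)) := by
    intro s t hst
    have h1 := hR s t hst
    rw [Ana_edge hE hO (Λ.two_le _ hst) _ _
      (fun h => congrArg z (hodd s t hst h))] at h1
    rcases h1 with (⟨h2, h3⟩ | ⟨h2, h3⟩) | h2
    · left
      left
      rw [Aff.commute_iff] at h3
      exact ⟨h2, h3⟩
    · left
      right
      exact ⟨h2, congrArg Aff.b h3⟩
    · right
      exact h2
  obtain ⟨fx, hfx⟩ : ∃ fx : S → ℂ, fx = fun s => b s / (1 - (z (comp s) : ℂ)) := ⟨_, rfl⟩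
  have hfb : ∀ s, z (comp s) ≠ 1 → b s = (1 - (z (comp s) : ℂ)) * fx s := by
    intro s h
    rw [hfx]
    exact (mul_div_cancel₀ (b s) (Ana_ne h)).symm
  by_cases hcase : ∃ t, fx t ≠ fx s0 ∧ z (comp t) ≠ 1
  · left
    refine ⟨fun s => fx s = fx s0, ⟨s0, rfl, hv0⟩, hcase, ?_⟩
    intro s t hst hPs hPt hzs hzt
    rcases hrel s t hst with (⟨h2, h3⟩ | ⟨h2, h3⟩) | h2
    · exfalso
      apply hPt
      rw [hfb s hzs, hfb t hzt] at h3
      have h4 : ((1 - (z (comp s) : ℂ)) * (1 - (z (comp t) : ℂ))) * fx t =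
          ((1 - (z (comp s) : ℂ)) * (1 - (z (comp t) : ℂ))) * fx s := by
        linear_combination h3
      have h5 := mul_left_cancel₀ (mul_ne_zero (Ana_ne hzs) (Ana_ne hzt)) h4
      exact h5.trans hPs
    · exfalso
      apply hPt
      have h4 := hodd s t hst h2
      rw [hfb s hzs, hfb t hzt, ← h4] at h3
      have h5 := mul_left_cancel₀ (Ana_ne hzs) h3
      exact h5.symm.trans hPs
    · exact h2
  · right
    have hall : ∀ t, z (comp t) ≠ 1 → b t = (1 - (z (comp t) : ℂ)) * fx s0 := by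
      intro t ht
      have h1 : fx t = fx s0 := by
        by_contra h2
        exact hcase ⟨t, h2, ht⟩
      rw [← h1]
      exact hfb t ht
    obtain ⟨u, hu⟩ : ∃ u, b u ≠ (1 - (z (comp u) : ℂ)) * fx s0 := by
      by_contra h
      apply hC
      refine ⟨fx s0, fun s => ?_⟩
      by_contra h1
      exact h ⟨s, h1⟩
    have hzu : z (comp u) = 1 := by
      by_contra h
      exact hu (hall u h)
    have hbu : b u ≠ 0 := by
      intro h
      apply hu
      rw [h, hzu]
      simp
    have hconst : ∀ u', comp u = comp u' → b u' = b u := by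
      intro u' hu'
      by_contra hne
      obtain ⟨x, y, hxy, hx, hy, hbx, hby⟩ := hcs.conn (fun x => b x = b u) u u' hu' rfl hne
      have h1 := hcs.odd_in x y hxy (hx.trans hy.symm)
      rcases hrel x y hxy with (⟨h2, h3⟩ | ⟨h2, h3⟩) | h2
      · exact h1 h2
      · exact hby (h3.symm.trans hbx)
      · rcases h2 with ⟨h3, -⟩ | ⟨-, -, h3⟩
        · exact h1 h3
        · rw [hx, hzu, Odd.neg_one_pow (Nat.not_even_iff_odd.mp h1)] at h3
          have h4 := congrArg Units.val h3
          norm_num at h4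
    refine ⟨u, hzu, ?_⟩
    intro s t hst hs ht
    have hne : comp s ≠ comp t := by
      intro h
      apply ht
      rw [← h, hs, hzu]
    have he := hcs.even_out s t hst hne
    rcases hrel s t hst with (⟨h2, h3⟩ | ⟨h2, h3⟩) | h2
    · exfalso
      rw [hs, hzu, Units.val_one, sub_self, zero_mul, hconst s hs.symm] at h3
      rcases mul_eq_zero.mp h3.symm with h4 | h4
      · exact Ana_ne ht h4
      · exact hbu h4
    · exact absurd he h2
    · rcases h2 with ⟨-, -, h3⟩ | ⟨h3, -⟩
      · rw [hs, hzu, one_mul] at h3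
        exact h3
      · exact absurd he h3

end WGOne
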