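import Pool.Agent.Lib.MP_107652_al.One.SpecC

/-!
# The cone theorem: Case B, the two rows of `M`
-/

set_option autoImplicit false

namespace WGOne

open WGirth

namespace BColAux

variable {S V : Type} [Fintype V] [DecidableEq V] {Γ : LGraph V} {Λ : LGraph S} {comp : S → V}
  {M N : Matrix V V ℤ} {C : V}

/-- sums over all vertices of a function supported in a finite set -/
theorem sum_ind (A : Finset V) (κ F : V → ℤ) :
    ∑ v, (if v ∈ A then κ v else 0) * F v = ∑ v ∈ A, κ v * F v := by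
  have h1 : ∀ v, (if v ∈ A then κ v else 0) * F v = if v ∈ A then κ v * F v else 0 := by
    intro v
    split_ifs with h
    · rfl
    · exact zero_mul _
  simp only [h1]
  rw [Finset.sum_ite_mem, Finset.univ_inter]

/-- a set whose column sums at the cones are `e [i = C]` is read off from the row `C` -/
theorem row (D : ConeData Γ Λ comp M N C) (A : Finset V) (e : ℤ)
    (h : ∀ i, Cone Γ i → ∑ v ∈ A, N v i = if i = C then e else 0) (w : V) (hw : Cone Γ w) :
    (if w ∈ A then (1 : ℤ) else 0) = e * M C w := by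
  have h1 : (if w ∈ A then (1 : ℤ) else 0) =
      ∑ i, (∑ v, (if v ∈ A then (1 : ℤ) else 0) * N v i) * M i w :=
    D.expand (fun v => if v ∈ A then (1 : ℤ) else 0) w
  rw [h1, Finset.sum_eq_single C]
  · rw [sum_ind A (fun _ => 1) (fun v => N v C)]
    simp only [one_mul]
    rw [h C D.coneC, if_pos rfl]
  · intro i _ hi
    rw [sum_ind A (fun _ => 1) (fun v => N v i)]
    simp only [one_mul]
    by_cases h2 : Cone Γ i
    · rw [h i h2, if_neg hi, zero_mul]
    · rw [D.Moq i w h2 hw, mul_zero]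
  · intro h2
    exact absurd (Finset.mem_univ C) h2

end BColAux

theorem pBCol : S_BSub → S_Two → S_Cls → S_BCol := by
  classical
  intro hBSub hTwo hCls S V _ _ Γ Λ comp M N C q1 p ω μ S1 S2 D hω hq1 hq1C Y hS2
  -- the set `P1`
  obtain ⟨P1, hP1⟩ : ∃ P1 : Finset V, ∀ v, v ∈ P1 ↔ Cone Γ v ∧ S1 v :=
    ⟨Finset.univ.filter (fun v => Cone Γ v ∧ S1 v), fun v => by simp⟩
  obtain ⟨I, hI⟩ : ∃ I : Finset V, ∀ i, i ∈ I ↔ Cone Γ i ∧ i ≠ q1 :=
    ⟨Finset.univ.filter (fun i => Cone Γ i ∧ i ≠ q1), fun v => by simp⟩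
  have hμ2 : μ * μ = 1 := by
    rcases Y.mu with h | h <;> rw [h] <;> norm_num
  have hin : ∀ v ∈ P1, M q1 v = μ := fun v hv => Y.e1 v ((hP1 v).mp hv).1 ((hP1 v).mp hv).2
  have hout : ∀ v, Cone Γ v → v ∉ P1 → M q1 v = 0 ∧ (2 * p : ℤ) ∣ M C v := by
    intro v hv hv1
    exact Y.e0 v (fun h => hv1 ((hP1 v).mpr ⟨hv, h⟩)) (hS2 v hv)
  -- column sums over `P1`
  have hsum : ∀ i, Cone Γ i → ∑ v ∈ P1, N v i = if i = q1 then μ else 0 := by
    intro i hi
    have h1 := D.sumMN q1 i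
    have h2 : ∀ v, M q1 v * N v i = (if v ∈ P1 then μ else 0) * N v i := by
      intro v
      by_cases h3 : Cone Γ v
      · split_ifs with h4
        · rw [hin v h4]
        · rw [(hout v h3 h4).1]
      · rw [D.Noq h3 hi, mul_zero, mul_zero]
    simp only [h2] at h1
    rw [BColAux.sum_ind P1 (fun _ => μ) (fun v => N v i), ← Finset.mul_sum] at h1
    have h5 : ∑ v ∈ P1, N v i = μ * (μ * ∑ v ∈ P1, N v i) := by
      rw [← mul_assoc, hμ2, one_mul]
    rw [h5, h1]
    by_cases h6 : i = q1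
    · rw [if_pos h6, if_pos h6.symm, mul_one]
    · rw [if_neg h6, if_neg (Ne.symm h6), mul_zero]
  have hsumC : ∀ i, Cone Γ i →
      (2 * p : ℤ) ∣ ∑ v ∈ P1, M C v * N v i - if C = i then 1 else 0 := by
    intro i hi
    rw [← D.sumMN C i, ← BColAux.sum_ind P1 (fun v => M C v) (fun v => N v i),
      ← Finset.sum_sub_distrib]
    refine Finset.dvd_sum fun v _ => ?_
    by_cases h3 : Cone Γ v
    · split_ifs with h4
      · rw [sub_self]
        exact dvd_zero _
      · rw [zero_mul, zero_sub, dvd_neg]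
        exact (hout v h3 h4).2.mul_right _
    · rw [D.Noq h3 hi, mul_zero, mul_zero, sub_self]
      exact dvd_zero _
  have hCI : C ∈ I := (hI C).mpr ⟨D.coneC, fun h => hq1C h.symm⟩
  have hT3 : ∀ U ⊆ P1, ∀ i, Cone Γ i → T3 (∑ v ∈ U, N v i) := by
    intro U hU
    exact hBSub S V Γ Λ comp M N C q1 p ω μ S1 S2 D hω Y hS2 U (fun v hv => (hP1 v).mp (hU hv))
  have hp3 := hω.three_le
  obtain ⟨a, ha, b, hb, hab, hba, hcl, hz, hC⟩ := hTwo V V P1 I C (fun i v => N v i)
    (fun v => M C v) (2 * p : ℤ) (by omega) hCI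
    (fun i hi U hU => hT3 U hU i ((hI i).mp hi).1)
    (fun i hi => by
      rw [hsum i ((hI i).mp hi).1, if_neg ((hI i).mp hi).2])
    (fun i hi hiC => by
      have h1 := hsumC i ((hI i).mp hi).1
      rw [if_neg (Ne.symm hiC), sub_zero] at h1
      exact h1)
    (by
      have h1 := hsumC C D.coneC
      rw [if_pos rfl] at h1
      exact h1)
    (fun κ hκ => by
      have h1 : ∀ w, Cone Γ w → (if w ∈ P1 then κ w else 0) =
          (∑ v, (if v ∈ P1 then κ v else 0) * N v q1) * M q1 w :=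
        D.orth q1 (fun v => if v ∈ P1 then κ v else 0) (fun i hi hi1 => by
          rw [BColAux.sum_ind P1 κ (fun v => N v i)]
          exact hκ i ((hI i).mpr ⟨hi, hi1⟩))
      intro x hx y hy
      have hx1 := h1 x ((hP1 x).mp hx).1
      have hy1 := h1 y ((hP1 y).mp hy).1
      rw [if_pos hx, hin x hx] at hx1
      rw [if_pos hy, hin y hy] at hy1
      rw [hx1, hy1])
  -- the two classes
  obtain ⟨α, hα⟩ : ∃ α : Finset V, α = P1.filter (fun v => (2 * p : ℤ) ∣ M C v - M C a) := ⟨_, rfl⟩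
  obtain ⟨β, hβ⟩ : ∃ β : Finset V, β = P1.filter (fun v => ¬ (2 * p : ℤ) ∣ M C v - M C a) :=
    ⟨_, rfl⟩
  rw [← hα] at hC
  simp only [← hα] at hz
  have hαm : ∀ v, v ∈ α ↔ v ∈ P1 ∧ (2 * p : ℤ) ∣ M C v - M C a := by
    intro v
    rw [hα, Finset.mem_filter]
  have hβm : ∀ v, v ∈ β ↔ v ∈ P1 ∧ ¬ (2 * p : ℤ) ∣ M C v - M C a := by
    intro v
    rw [hβ, Finset.mem_filter]
  have hαβ : ∀ i, ∑ v ∈ α, N v i + ∑ v ∈ β, N v i = ∑ v ∈ P1, N v i := by
    intro i
    rw [hα, hβ]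
    exact Finset.sum_filter_add_sum_filter_not P1 _ _
  have haα : a ∈ α := (hαm a).mpr ⟨ha, by rw [sub_self]; exact dvd_zero _⟩
  have hbβ : b ∈ β := by
    refine (hβm b).mpr ⟨hb, fun h1 => ?_⟩
    have h2 : (2 * p : ℤ) ∣ 1 := by
      have h3 := dvd_sub h1 hba
      have h4 : M C b - M C a - (M C b - M C a - 1) = 1 := by ring
      rwa [h4] at h3
    have h3 := Int.le_of_dvd one_pos h2
    omega
  have hcol2 : ∀ v ∈ β, (2 * p : ℤ) ∣ M C v - M C b := fun v hv =>
    (hcl v ((hβm v).mp hv).1).resolve_left ((hβm v).mp hv).2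
  have hCq : C ≠ q1 := fun h => hq1C h.symm
  have hβC : ∑ v ∈ β, N v C = 1 := by
    have h1 := hαβ C
    rw [hC, hsum C D.coneC, if_neg hCq] at h1
    linarith
  have hβz : ∀ i, Cone Γ i → i ≠ q1 → i ≠ C → ∑ v ∈ β, N v i = 0 := by
    intro i hi h1 h2
    have h3 := hαβ i
    rw [hz i ((hI i).mpr ⟨hi, h1⟩) h2, hsum i hi, if_neg h1] at h3
    linarith
  have hαq := hT3 α (fun v hv => ((hαm v).mp hv).1) q1 hq1
  have hβq := hT3 β (fun v hv => ((hβm v).mp hv).1) q1 hq1
  have hq := hαβ q1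
  rw [hsum q1 hq1, if_pos rfl] at hq
  have hc1 : ∑ v ∈ α, N v q1 ≠ 1 := by
    intro h1
    refine hCls S V Γ Λ comp M N C q1 p ω μ S1 S2 α (M C a) (-1) D hω hq1 hq1C Y hS2 ⟨a, haα⟩
      (fun v hv => (hP1 v).mp ((hαm v).mp hv).1) (fun v hv => ((hαm v).mp hv).2) (Or.inr rfl) ?_
    intro i hi
    by_cases h2 : i = C
    · rw [h2, hC, if_pos rfl, if_neg hCq]
      norm_num
    · by_cases h3 : i = q1
      · rw [h3, h1, if_neg hq1C, if_pos rfl]
        norm_num
      · rw [hz i ((hI i).mpr ⟨hi, h3⟩) h2, if_neg h2, if_neg h3]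
        norm_num
  have hc2 : ∑ v ∈ β, N v q1 ≠ -1 := by
    intro h1
    refine hCls S V Γ Λ comp M N C q1 p ω μ S1 S2 β (M C b) 1 D hω hq1 hq1C Y hS2 ⟨b, hbβ⟩
      (fun v hv => (hP1 v).mp ((hβm v).mp hv).1) hcol2 (Or.inl rfl) ?_
    intro i hi
    by_cases h2 : i = C
    · rw [h2, hβC, if_pos rfl, if_neg hCq]
      norm_num
    · by_cases h3 : i = q1
      · rw [h3, h1, if_neg hq1C, if_pos rfl]
        norm_num
      · rw [hβz i hi h3 h2, if_neg h2, if_neg h3]
        norm_num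
  have hcase : (μ = 1 ∧ ∑ v ∈ α, N v q1 = 0) ∨ (μ = -1 ∧ ∑ v ∈ β, N v q1 = 0) := by
    rcases Y.mu with h | h <;> rcases hαq with h1 | h1 | h1 <;> rcases hβq with h2 | h2 | h2 <;>
      first
        | exact absurd h1 hc1
        | exact absurd h2 hc2
        | exact Or.inl ⟨h, h1⟩
        | exact Or.inr ⟨h, h2⟩
        | (exfalso; rw [h1, h2, h] at hq; norm_num at hq)
  intro w hw
  rcases hcase with ⟨hμ, h0⟩ | ⟨hμ, h0⟩
  · -- first case
    have h1 := BColAux.row D α (-1) (fun i hi => by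
      by_cases h2 : i = C
      · rw [h2, hC, if_pos rfl]
      · rw [if_neg h2]
        by_cases h3 : i = q1
        · rw [h3, h0]
        · exact hz i ((hI i).mpr ⟨hi, h3⟩) h2) w hw
    by_cases h2 : w ∈ α
    · rw [if_pos h2] at h1
      have h3 := hin w ((hαm w).mp h2).1
      right; right
      refine ⟨?_, h3⟩
      rw [hμ]
      linarith
    · rw [if_neg h2] at h1
      have h4 : M C w = 0 := by linarith
      by_cases h3 : w ∈ P1
      · exact Or.inr (Or.inl ⟨h4, hin w h3⟩)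
      · exact Or.inl ⟨h4, (hout w hw h3).1⟩
  · -- second case
    have h1 := BColAux.row D β 1 (fun i hi => by
      by_cases h2 : i = C
      · rw [h2, hβC, if_pos rfl]
      · rw [if_neg h2]
        by_cases h3 : i = q1
        · rw [h3, h0]
        · exact hβz i hi h3 h2) w hw
    by_cases h2 : w ∈ β
    · rw [if_pos h2] at h1
      have h3 := hin w ((hβm w).mp h2).1
      right; right
      refine ⟨?_, h3⟩
      rw [hμ]
      linarith
    · rw [if_neg h2] at h1
      have h4 : M C w = 0 := by linarith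
      by_cases h3 : w ∈ P1
      · exact Or.inr (Or.inl ⟨h4, hin w h3⟩)
      · exact Or.inl ⟨h4, (hout w hw h3).1⟩

end WGOne
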