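import Pool.Agent.Lib.MP_107652_al.One.SpecC

/-!
# The cone theorem, Case B: subset sums (module BSub)
-/

set_option autoImplicit false

namespace WGOne

open WGirth

private theorem bsub_norm_yc {V : Type} (M : Matrix V V ℤ) (C q1 : V) {p : ℕ} {ω : ℂˣ} (hω : Om p ω) (v : V) :
    ‖((yc M C q1 ω v : ℂˣ) : ℂ)‖ = (2 : ℝ) ^ M q1 v := by
  unfold yc
  rw [Units.val_mul, norm_mul, norm_u2, Units.val_zpow_eq_zpow_val, norm_zpow, hω.norm_neg, one_zpow, one_mul]

theorem pBSub : S_Con → S_Dc → S_BSub := by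
  classical
  intro hCon hDc S V _ _ Γ Λ comp M N C q1 p ω μ S1 S2 D hω hY hS2 U hU i hi
  rcases U.eq_empty_or_nonempty with rfl | ⟨u0, hu0⟩
  · exact Or.inl (by simp)
  obtain ⟨y, hy⟩ : ∃ y : V → ℂˣ, y = yc M C q1 ω := ⟨_, rfl⟩
  obtain ⟨y', hy'⟩ : ∃ y' : V → ℂˣ, y' = fun v => if v ∈ U ∨ S2 v then y v else 1 := ⟨_, rfl⟩
  have hcov : ∀ v, y v ≠ 1 ↔ S1 v ∨ S2 v := by
    intro v
    rw [hy]
    exact hY.cov v
  have hU' : ∀ v ∈ U, ¬ S2 v := fun v hv => hS2 v (hU v hv).1
  have y1 : ∀ v, v ∈ U → y' v = y v := by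
    intro v hv
    rw [hy']
    exact if_pos (Or.inl hv)
  have y2 : ∀ v, S2 v → y' v = y v := by
    intro v hv
    rw [hy']
    exact if_pos (Or.inr hv)
  have y3 : ∀ v, v ∉ U → ¬ S2 v → y' v = 1 := by
    intro v hv hv2
    rw [hy']
    exact if_neg (fun h => h.elim hv hv2)
  have hNA : NA Γ y' := by
    have h1 := hCon V V Γ (id : V → V) y' (fun v => ¬ S2 v)
      (fun s t hst _ => D.even s t hst)
      ⟨u0, hU' u0 hu0, by
        change y' u0 ≠ 1
        rw [y1 u0 hu0]
        exact (hcov u0).mpr (Or.inl (hU u0 hu0).2)⟩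
      (by
        obtain ⟨t, ht⟩ := hY.ex2
        refine ⟨t, fun h => h ht, ?_⟩
        change y' t ≠ 1
        rw [y2 t ht]
        exact (hcov t).mpr (Or.inr ht))
      (by
        intro s t hst hs ht hys hyt
        have ht2 : S2 t := not_not.mp ht
        have hsU : s ∈ U := by
          by_contra h
          exact hys (y3 s h hs)
        have h2 := hY.deg s t hst (hU s hsU).2 ht2
        change Dg (Γ.label s(s, t)) (y' s) (y' t)
        rw [y1 s hsU, y2 t ht2, hy]
        exact Or.inl ⟨D.even s t hst, h2.1, h2.2⟩)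
    exact h1
  have h3 := hDc S V Γ Λ comp M N C y' (fun v => if v ∈ U then μ else 0) D hNA
    (by
      intro v hv
      by_cases h : v ∈ U
      · rw [y1 v h, hy, bsub_norm_yc M C q1 hω v, hY.e1 v hv (hU v h).2]
        simp only [h, if_true]
      · rw [y3 v h (hS2 v hv)]
        simp [h])
    (by
      intro v _
      by_cases h : v ∈ U
      · simp only [h, if_true]
        exact Or.inr hY.mu
      · simp only [h, if_false]
        exact Or.inl rfl) i hi
  have h4 : ∑ v, (if v ∈ U then μ else 0) * N v i = μ * ∑ v ∈ U, N v i := by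
    rw [Finset.mul_sum, ← Finset.sum_filter_add_sum_filter_not Finset.univ (fun v => v ∈ U)]
    rw [Finset.sum_eq_zero (s := Finset.univ.filter (fun v => ¬ v ∈ U)), add_zero]
    · have h5 : Finset.univ.filter (fun v => v ∈ U) = U := by
        ext v
        simp
      rw [h5]
      refine Finset.sum_congr rfl fun v hv => ?_
      rw [if_pos hv]
    · intro v hv
      have : v ∉ U := (Finset.mem_filter.mp hv).2
      rw [if_neg this, zero_mul]
  simp only [h4] at h3
  rcases hY.mu with h | h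
  · rw [h, one_mul] at h3
    exact h3
  · rw [h] at h3
    rcases h3 with h3 | h3 | h3
    · exact Or.inl (by omega)
    · exact Or.inr (Or.inr (by omega))
    · exact Or.inr (Or.inl (by omega))

end WGOne
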