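import Pool.Agent.Lib.MP_107652_al.One.SpecC

/-!
# The cone theorem: Case B, the excluded class
-/

set_option autoImplicit false

namespace WGOne

open WGirth

namespace ClsAux

open scoped Classical in
/-- the restriction of `y` to `σ` and `S2` -/
noncomputable def yr {V : Type} (y : V → ℂˣ) (σ : Finset V) (S2 : V → Prop) : V → ℂˣ :=
  fun v => if v ∈ σ ∨ S2 v then y v else 1

theorem yr_pos {V : Type} {y : V → ℂˣ} {σ : Finset V} {S2 : V → Prop} {v : V}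
    (h : v ∈ σ ∨ S2 v) : yr y σ S2 v = y v := if_pos h

theorem yr_neg {V : Type} {y : V → ℂˣ} {σ : Finset V} {S2 : V → Prop} {v : V}
    (h : ¬ (v ∈ σ ∨ S2 v)) : yr y σ S2 v = 1 := if_neg h

theorem yr_ne {V : Type} {y : V → ℂˣ} {σ : Finset V} {S2 : V → Prop} {v : V}
    (h : yr y σ S2 v ≠ 1) : v ∈ σ ∨ S2 v := by
  by_contra h1
  exact h (yr_neg h1)

/-- the character `yr` has representations on `Γ` -/
theorem na_yr (hCon : S_Con) {V : Type} [Fintype V] [DecidableEq V] {Γ : LGraph V}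
    {M : Matrix V V ℤ} {C q1 : V} {p : ℕ} {ω : ℂˣ} {μ : ℤ} {S1 S2 : V → Prop} {σ : Finset V}
    (hev : IsEven Γ) (Y : YData Γ M C q1 p ω μ S1 S2) (hσ : σ.Nonempty)
    (h1 : ∀ v ∈ σ, S1 v) : NA Γ (yr (yc M C q1 ω) σ S2) := by
  refine hCon V V Γ (id : V → V) (yr (yc M C q1 ω) σ S2) (fun v => ¬ S2 v)
    (fun s t hst _ => hev s t hst) ?_ ?_ ?_
  · obtain ⟨v, hv⟩ := hσ
    refine ⟨v, Y.disj v (h1 v hv), ?_⟩
    show yr (yc M C q1 ω) σ S2 v ≠ 1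
    rw [yr_pos (Or.inl hv)]
    exact (Y.cov v).mpr (Or.inl (h1 v hv))
  · obtain ⟨v, hv⟩ := Y.ex2
    refine ⟨v, fun h => h hv, ?_⟩
    show yr (yc M C q1 ω) σ S2 v ≠ 1
    rw [yr_pos (Or.inr hv)]
    exact (Y.cov v).mpr (Or.inr hv)
  · intro s t hst hs ht hys _
    have ht2 : S2 t := not_not.mp ht
    have hsσ : s ∈ σ := (yr_ne hys).resolve_right hs
    have h2 := Y.deg s t hst (h1 s hsσ) ht2
    show Dg (Γ.label s(s, t)) (yr (yc M C q1 ω) σ S2 s) (yr (yc M C q1 ω) σ S2 t)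
    rw [yr_pos (Or.inl hsσ), yr_pos (Or.inr ht2)]
    exact Or.inl ⟨hev s t hst, h2.1, h2.2⟩

/-- the value of `yc` on `σ` -/
theorem yc_val {V : Type} {Γ : LGraph V} [Fintype V]
    {M : Matrix V V ℤ} {C q1 : V} {p : ℕ} {ω : ℂˣ} {μ : ℤ} {S1 S2 : V → Prop}
    (O : Om p ω) (Y : YData Γ M C q1 p ω μ S1 S2) {v : V} {τ : ℤ} (hv : Cone Γ v) (h1 : S1 v)
    (hτ : (2 * p : ℤ) ∣ M C v - τ) : yc M C q1 ω v = (-ω) ^ τ * u2 ^ μ := by
  have h2 : (-ω) ^ (M C v - τ) = 1 := O.neg_zpow.mpr hτ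
  rw [zpow_sub, mul_inv_eq_one] at h2
  unfold yc
  rw [h2, Y.e1 v hv h1]

theorem norm_eta {p : ℕ} {ω : ℂˣ} (O : Om p ω) (τ μ : ℤ) :
    ‖(((-ω) ^ τ * u2 ^ μ : ℂˣ) : ℂ)‖ = (2 : ℝ) ^ μ := by
  rw [Units.val_mul, norm_mul, norm_u2, Units.val_zpow_eq_zpow_val, norm_zpow, O.norm_neg,
    one_zpow, one_mul]

open scoped Classical in
/-- the values of `pw N (yr y σ S2)` at the cones -/
theorem pw_yr {S V : Type} [Fintype V] [DecidableEq V] {Γ : LGraph V} {Λ : LGraph S}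
    {comp : S → V} {M N : Matrix V V ℤ} {C : V} (D : ConeData Γ Λ comp M N C)
    {y : V → ℂˣ} {σ : Finset V} {S2 : V → Prop} {η : ℂˣ} (hS2 : ∀ v, Cone Γ v → ¬ S2 v)
    (hy : ∀ v ∈ σ, y v = η) {i : V} (hi : Cone Γ i) :
    pw N (yr y σ S2) i = η ^ ∑ v ∈ σ, N v i := by
  have h1 : ∀ v, Cone Γ v → yr y σ S2 v = (fun v => η ^ (if v ∈ σ then (1 : ℤ) else 0)) v := by
    intro v hv
    by_cases h2 : v ∈ σ
    · rw [yr_pos (Or.inl h2), hy v h2]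
      simp only [if_pos h2, zpow_one]
    · rw [yr_neg (fun h3 => h3.elim h2 (hS2 v hv))]
      simp only [if_neg h2, zpow_zero]
  rw [D.pwN_congr h1 hi, pw_zpow]
  congr 1
  simp only [ite_mul, one_mul, zero_mul]
  rw [← Finset.sum_filter]
  refine Finset.sum_congr ?_ fun _ _ => rfl
  ext v
  simp

end ClsAux

open ClsAux in
theorem pCls : S_Con → S_Mv → S_Cls := by
  intro hCon hMv S V _ _ Γ Λ comp M N C q1 p ω μ S1 S2 σ τ ε D O hq1 hqC Y hS2 hne hσ hτ hε hsum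
  obtain ⟨y', hy'⟩ : ∃ y' : V → ℂˣ, y' = yr (yc M C q1 ω) σ S2 := ⟨_, rfl⟩
  obtain ⟨η, hη⟩ : ∃ η : ℂˣ, η = (-ω) ^ τ * u2 ^ μ := ⟨_, rfl⟩
  have hNA : NA Γ y' := by
    rw [hy']
    exact na_yr hCon D.even Y hne fun v hv => (hσ v hv).2
  have hval : ∀ v ∈ σ, yc M C q1 ω v = η := fun v hv => by
    rw [hη]
    exact yc_val O Y (hσ v hv).1 (hσ v hv).2 (hτ v hv)
  have hy1 : y' ≠ 1 := by
    obtain ⟨v, hv⟩ := hne
    intro h1
    have h2 := congrFun h1 v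
    rw [hy', yr_pos (Or.inl hv)] at h2
    exact (Y.cov v).mpr (Or.inl (hσ v hv).2) h2
  obtain ⟨hNAL, -⟩ := D.toL hy1 hNA
  obtain ⟨z, hz⟩ : ∃ z : V → ℂˣ, z = pw N y' := ⟨_, rfl⟩
  rw [← hz] at hNAL
  have hzi : ∀ i, Cone Γ i → z i = η ^ (ε * ((if i = C then 1 else 0) - (if i = q1 then 1 else 0))) := by
    intro i hi
    rw [hz, hy', pw_yr D hS2 hval hi, hsum i hi]
  have hzC : z C = η ^ ε := by
    rw [hzi C D.coneC, if_pos rfl, if_neg (Ne.symm hqC), sub_zero, mul_one]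
  have hzq : z q1 = η ^ (-ε) := by
    rw [hzi q1 hq1, if_pos rfl, if_neg hqC, zero_sub, mul_neg, mul_one]
  have hmul : z C * z q1 = 1 := by
    rw [hzC, hzq, ← zpow_add, add_neg_cancel, zpow_zero]
  have hnη : ‖(η : ℂ)‖ = (2 : ℝ) ^ μ := by
    rw [hη]
    exact norm_eta O τ μ
  have hnC : ‖(z C : ℂ)‖ ≠ 1 := by
    rw [hzC, Units.val_zpow_eq_zpow_val, norm_zpow, hnη, ← zpow_mul]
    intro h1
    have h2 := two_zpow.mp h1
    rcases Y.mu with h3 | h3 <;> rcases hε with h4 | h4 <;> rw [h3, h4] at h2 <;> norm_num at h2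
  have hnmul : ‖(z C : ℂ)‖ * ‖(z q1 : ℂ)‖ = 1 := by
    rw [← norm_mul, ← Units.val_mul, hmul, Units.val_one, norm_one]
  have hnq : ‖(z q1 : ℂ)‖ ≠ 1 := by
    intro h1
    rw [h1, mul_one] at hnmul
    exact hnC hnmul
  have hne1 : ∀ i, ‖(z i : ℂ)‖ ≠ 1 → z i ≠ 1 := by
    intro i h1 h2
    rw [h2, Units.val_one, norm_one] at h1
    exact h1 rfl
  obtain ⟨P, hP⟩ := hMv S V Λ comp z C D.cs (D.coL D.coneC) hnC hNAL
  -- the fibre of `q1` has the colour `P`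
  have hPq : ∀ s, comp s = q1 → P s := by
    intro s hs
    by_contra hns
    obtain ⟨a, b, ha, hb, hab⟩ := D.coL D.coneC q1 hqC
    have hnb : ¬ P b := fun h1 => hns (hP.mono b s (by rw [hb, hs]) (by rw [hb]; exact hnq) h1)
    have h1 := hP.deg a b hab (hP.own a ha) hnb (by rw [ha]; exact hne1 C hnC)
      (by rw [hb]; exact hne1 q1 hnq)
    have hev := D.even_out a b hab (by rw [ha, hb]; exact Ne.symm hqC)
    rw [ha, hb] at h1
    rcases h1 with ⟨-, h2, -⟩ | ⟨h2, -⟩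
    · exact h2 hmul
    · exact h2 hev
  obtain ⟨t0, ht0, hzt⟩ := hP.ex
  have hjC : comp t0 ≠ C := fun h => ht0 (hP.own t0 h)
  have hjq : comp t0 ≠ q1 := fun h => ht0 (hPq t0 h)
  have hjn : ¬ Cone Γ (comp t0) := by
    intro h
    apply hzt
    rw [hzi _ h, if_neg hjC, if_neg hjq, sub_zero, mul_zero, zpow_zero]
  have hedge : ∀ q, Cone Γ q → comp t0 ≠ q → (∀ s, comp s = q → P s) → z q ≠ 1 →
      ‖(z q : ℂ)‖ * ‖(z (comp t0) : ℂ)‖ = 1 := by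
    intro q hq hne2 hPs hzq1
    obtain ⟨a, b, ha, hb, hab⟩ := D.coL hq (comp t0) hne2
    have hbt : b = t0 := D.single b t0 hb (by rw [hb]; exact hjn)
    rw [hbt] at hab
    have h1 := hP.nrm a t0 hab (hPs a ha) ht0 (by rw [ha]; exact hzq1) hzt
    rw [ha] at h1
    exact h1
  have e1 := hedge C D.coneC hjC hP.own (hne1 C hnC)
  have e2 := hedge q1 hq1 hjq hPq (hne1 q1 hnq)
  have h0 : ‖(z (comp t0) : ℂ)‖ ≠ 0 := by
    intro h1
    rw [h1, mul_zero] at e1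
    exact zero_ne_one e1
  have h3 : ‖(z C : ℂ)‖ = ‖(z q1 : ℂ)‖ := mul_right_cancel₀ h0 (e1.trans e2.symm)
  rw [← h3] at hnmul
  have h4 : (0 : ℝ) ≤ ‖(z C : ℂ)‖ := norm_nonneg _
  have h5 : ‖(z C : ℂ)‖ = 1 := by nlinarith
  exact hnC h5

end WGOne
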