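import Pool.Agent.Lib.MP_107652_al.One.SpecC

/-!
# Construction of representations from colourings
-/

set_option autoImplicit false

namespace WGOne

open WGirth

private theorem Con_edge (hE : S_AltE) (hO : S_AltO) {m : ℕ} (hm : 2 ≤ m) (g h : Aff)
    (ho : ¬ Even m → g.a = h.a) :
    alt m g h = alt m h g ↔
      ((Even m ∧ g * h = h * g) ∨ (¬ Even m ∧ g = h)) ∨ Dg m g.a h.a := by
  by_cases he : Even m
  · obtain ⟨k, hk⟩ := he
    have hk2 : m = 2 * k := by omega
    have hk3 : m / 2 = k := by omega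
    have he : Even m := ⟨k, hk⟩
    have h1 := hE k g h (by omega)
    rw [← hk2] at h1
    rw [h1]
    unfold Dg
    rw [hk3]
    simp only [he, true_and, not_true_eq_false, false_and, or_false]
  · have ha := ho he
    obtain ⟨r, hr⟩ := Nat.not_even_iff_odd.mp he
    have h1 := hO r g h ha
    rw [← hr] at h1
    rw [h1]
    unfold Dg
    simp only [he, false_and, false_or, not_false_eq_true, true_and]

private theorem Con_same {m : ℕ} {a a' : ℂˣ} {b b' : ℂ} (ho : ¬ Even m → a = a') (c : ℂ)
    (h1 : b = (1 - (a : ℂ)) * c) (h2 : b' = (1 - (a' : ℂ)) * c) :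
    (Even m ∧ (⟨a, b⟩ : Aff) * ⟨a', b'⟩ = ⟨a', b'⟩ * ⟨a, b⟩) ∨
      (¬ Even m ∧ (⟨a, b⟩ : Aff) = ⟨a', b'⟩) := by
  by_cases he : Even m
  · left
    refine ⟨he, ?_⟩
    rw [Aff.commute_iff]
    simp only
    rw [h1, h2]
    ring
  · right
    refine ⟨he, ?_⟩
    have ha := ho he
    subst ha
    rw [h1, h2]

theorem pCon : S_AltE → S_AltO → S_Con := by
  classical
  intro hE hO S V Λ comp z P heven hs hT hdeg
  obtain ⟨s0, hs0, hzs0⟩ := hs
  obtain ⟨t0, ht0, hzt0⟩ := hT
  obtain ⟨b, hb⟩ : ∃ b : S → ℂ, b = fun s => if P s then 0 else 1 - (z (comp s) : ℂ) := ⟨_, rfl⟩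
  have hbP : ∀ s, P s → b s = (1 - (z (comp s) : ℂ)) * 0 := by
    intro s h
    rw [hb]
    simp [h]
  have hbN : ∀ s, ¬ P s → b s = (1 - (z (comp s) : ℂ)) * 1 := by
    intro s h
    rw [hb]
    simp [h]
  have hb1 : ∀ s, z (comp s) = 1 → ∀ c : ℂ, b s = (1 - (z (comp s) : ℂ)) * c := by
    intro s h c
    by_cases h1 : P s
    · rw [hbP s h1, h]
      simp
    · rw [hbN s h1, h]
      simp
  refine ⟨b, ?_, ?_⟩
  · intro s t hst
    have hm : 2 ≤ Λ.label s(s, t) := Λ.two_le _ hst
    have hodd : ¬ Even (Λ.label s(s, t)) → z (comp s) = z (comp t) := fun h => by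
      rw [by_contra fun h1 => h (heven s t hst h1)]
    rw [Con_edge hE hO hm _ _ hodd]
    by_cases hzs : z (comp s) = 1
    · left
      by_cases hPt : P t
      · exact Con_same hodd 0 (hb1 s hzs 0) (hbP t hPt)
      · exact Con_same hodd 1 (hb1 s hzs 1) (hbN t hPt)
    by_cases hzt : z (comp t) = 1
    · left
      by_cases hPs : P s
      · exact Con_same hodd 0 (hbP s hPs) (hb1 t hzt 0)
      · exact Con_same hodd 1 (hbN s hPs) (hb1 t hzt 1)
    by_cases hPs : P s
    · by_cases hPt : P t
      · left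
        exact Con_same hodd 0 (hbP s hPs) (hbP t hPt)
      · right
        exact hdeg s t hst hPs hPt hzs hzt
    · by_cases hPt : P t
      · right
        have h1 := hdeg t s hst.symm hPt hPs hzt hzs
        rw [Sym2.eq_swap] at h1
        rcases h1 with ⟨h2, h3, h4⟩ | ⟨h2, h3, h4⟩
        · left
          refine ⟨h2, ?_, ?_⟩
          · rw [mul_comm]
            exact h3
          · rw [mul_comm]
            exact h4
        · right
          have h5 := hodd h2
          refine ⟨h2, ?_, ?_⟩
          · show z (comp s) ≠ -1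
            rw [h5]
            exact h3
          · show (-z (comp s)) ^ _ = 1
            rw [h5]
            exact h4
      · left
        exact Con_same hodd 1 (hbN s hPs) (hbN t hPt)
  · rintro ⟨c, hc⟩
    have hne : ∀ s, z (comp s) ≠ 1 → (1 - (z (comp s) : ℂ)) ≠ 0 := by
      intro s h h1
      apply h
      ext
      rw [Units.val_one]
      exact (sub_eq_zero.mp h1).symm
    have h1 := hc s0
    rw [hbP s0 hs0] at h1
    have h2 := mul_left_cancel₀ (hne s0 hzs0) h1
    have h3 := hc t0
    rw [hbN t0 ht0] at h3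
    have h4 := mul_left_cancel₀ (hne t0 hzt0) h3
    rw [← h2] at h4
    exact one_ne_zero h4

end WGOne
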