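import Pool.Agent.Lib.MP_107652_al.One.SpecC

/-!
# Claim D
-/

set_option autoImplicit false

namespace WGOne

open WGirth

theorem pDc : S_Mv → S_Pr → S_Dc := by
  intro hMv hPr S V _ _ Γ Λ comp M N C y e D hNA hny he
  obtain ⟨d, hd⟩ : ∃ d : V → ℤ, ∀ i, d i = ∑ v, e v * N v i := ⟨_, fun _ => rfl⟩
  by_cases hall : ∀ v, Cone Γ v → e v = 0
  · -- all exponents vanish
    intro i hi
    left
    refine Finset.sum_eq_zero fun v _ => ?_
    by_cases h1 : Cone Γ v
    · rw [hall v h1, zero_mul]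
    · rw [D.Noq h1 hi, mul_zero]
  push Not at hall
  obtain ⟨w, hw, hew⟩ := hall
  have hy1 : y ≠ 1 := by
    intro h1
    have h2 := hny w hw
    rw [h1, Pi.one_apply, Units.val_one, norm_one] at h2
    exact hew (two_zpow.mp h2.symm)
  obtain ⟨hzNA, -⟩ := D.toL hy1 hNA
  obtain ⟨z, hz⟩ : ∃ z : V → ℂˣ, z = pw N y := ⟨_, rfl⟩
  rw [← hz] at hzNA
  have hnz : ∀ i, Cone Γ i → ‖(z i : ℂ)‖ = (2 : ℝ) ^ d i := by
    intro i hi
    rw [hz, D.norm_pwN hny hi, hd i]
  have hne : ∀ i, Cone Γ i → d i ≠ 0 → ‖(z i : ℂ)‖ ≠ 1 := by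
    intro i hi h1 h2
    rw [hnz i hi] at h2
    exact h1 (two_zpow.mp h2)
  have hz1 : ∀ i, ‖(z i : ℂ)‖ ≠ 1 → z i ≠ 1 := by
    intro i h1 h2
    apply h1
    rw [h2, Units.val_one, norm_one]
  -- divisibility
  have hdvd : ∀ g : ℤ, (∀ i, Cone Γ i → g ∣ d i) → g = 1 ∨ g = -1 := by
    intro g hg
    have h1 : g ∣ e w := D.dvd_of g e (fun i hi => by rw [← hd i]; exact hg i hi) w hw
    apply Int.isUnit_iff.mp
    apply isUnit_of_dvd_one
    rcases he w hw with h2 | h2 | h2
    · exact absurd h2 hew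
    · rw [← h2]
      exact h1
    · rw [h2] at h1
      exact (dvd_neg.mp h1)
  obtain ⟨q, hq, hdq⟩ : ∃ q, Cone Γ q ∧ d q ≠ 0 := by
    by_contra hc
    push Not at hc
    have h1 := hdvd 0 fun i hi => by rw [hc i hi]
    omega
  obtain ⟨P, hP⟩ := hMv S V Λ comp z q D.cs (D.coL hq) (hne q hq hdq) hzNA
  have hfib : ∀ s t, comp s = comp t → ‖(z (comp s) : ℂ)‖ ≠ 1 → (P s ↔ P t) := by
    intro s t h1 h2
    constructor
    · exact hP.mono s t h1 h2
    · exact hP.mono t s h1.symm (by rw [← h1]; exact h2)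
  -- the norm relation between two fibres
  have key : ∀ q', Cone Γ q' → d q' = 0 ∨ d q' = d q ∨ d q' = -d q := by
    by_cases hi : ∃ t0, ¬ P t0 ∧ z (comp t0) ≠ 1 ∧
        (¬ Cone Γ (comp t0) ∨ ‖(z (comp t0) : ℂ)‖ ≠ 1)
    · obtain ⟨t0, hPt0, hzt0, ht0⟩ := hi
      have hj : ∀ t, comp t = comp t0 → ¬ P t := by
        intro t ht hPt
        rcases ht0 with h1 | h1
        · have h2 := D.single t t0 ht (by rw [ht]; exact h1)
          exact hPt0 (h2 ▸ hPt)
        · exact hPt0 (hP.mono t t0 ht (by rw [ht]; exact h1) hPt)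
      have hrel : ∀ q', Cone Γ q' → ‖(z q' : ℂ)‖ ≠ 1 → (∀ s, comp s = q' → P s) →
          ‖(z q' : ℂ)‖ * ‖(z (comp t0) : ℂ)‖ = 1 := by
        intro q' hq' hn hPq'
        have h1 : comp t0 ≠ q' := fun h2 => hPt0 (hPq' t0 h2)
        obtain ⟨s, t, hs, ht, hst⟩ := D.coL hq' (comp t0) h1
        have h3 := hP.nrm s t hst (hPq' s hs) (hj t ht) (by rw [hs]; exact hz1 q' hn)
          (by rw [ht]; exact hzt0)
        rw [hs, ht] at h3
        exact h3
      have hrq := hrel q hq (hne q hq hdq) hP.own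
      intro q' hq'
      by_cases hdq' : d q' = 0
      · exact Or.inl hdq'
      right
      have hn' := hne q' hq' hdq'
      by_cases hex : ∃ s, comp s = q' ∧ P s
      · left
        obtain ⟨s, hs, hPs⟩ := hex
        have h1 : ∀ t, comp t = q' → P t := by
          intro t ht
          exact hP.mono s t (hs.trans ht.symm) (by rw [hs]; exact hn') hPs
        have h2 := hrel q' hq' hn' h1
        have h3 : ‖(z (comp t0) : ℂ)‖ ≠ 0 := by
          intro h4
          rw [h4, mul_zero] at h2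
          exact zero_ne_one h2
        have h4 : ‖(z q' : ℂ)‖ = ‖(z q : ℂ)‖ := mul_right_cancel₀ h3 (h2.trans hrq.symm)
        rw [hnz q' hq', hnz q hq] at h4
        exact zpow_right_injective₀ (by norm_num) (by norm_num) h4
      · right
        push Not at hex
        have h1 : q' ≠ q := by
          intro h1
          obtain ⟨s, hs⟩ := D.surj q'
          exact hex s hs (hP.own s (hs.trans h1))
        obtain ⟨s, t, hs, ht, hst⟩ := D.coL hq q' h1
        have h3 := hP.nrm s t hst (hP.own s hs) (hex t ht)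
          (by rw [hs]; exact hz1 q (hne q hq hdq)) (by rw [ht]; exact hz1 q' hn')
        rw [hs, ht, hnz q hq, hnz q' hq', ← zpow_add₀ two_ne_zero, two_zpow] at h3
        omega
    · push Not at hi
      obtain ⟨t0, hPt0, hzt0⟩ := hP.ex
      have hj := hi t0 hPt0 hzt0
      -- every fibre over a cone with norm different from one has the colour `P`
      have hall : ∀ q', Cone Γ q' → ‖(z q' : ℂ)‖ ≠ 1 → ∀ s, comp s = q' → P s := by
        intro q' hq' hn s hs
        by_contra h1
        have h2 := (hi s h1 (by rw [hs]; exact hz1 q' hn)).2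
        rw [hs] at h2
        exact hn h2
      have hedge : ∀ q', Cone Γ q' → ‖(z q' : ℂ)‖ ≠ 1 → ∀ s t, Λ.graph.Adj s t →
          comp s = q' → comp t = comp t0 → P t := by
        intro q' hq' hn s t hst hs ht
        by_contra h1
        have h2 := hP.nrm s t hst (hall q' hq' hn s hs) h1 (by rw [hs]; exact hz1 q' hn)
          (by rw [ht]; exact hzt0)
        rw [hs, ht, hj.2, mul_one] at h2
        exact hn h2
      have hqj : ∀ q', ‖(z q' : ℂ)‖ ≠ 1 → q' ≠ comp t0 := by
        intro q' hn h1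
        rw [h1] at hn
        exact hn hj.2
      intro q' hq'
      by_cases hqq : q' = q
      · right
        left
        rw [hqq]
      left
      by_contra hdq'
      have hn' := hne q' hq' hdq'
      have hn := hne q hq hdq
      obtain ⟨s1, t1, hs1, ht1, hst1⟩ := D.coL hq (comp t0) (hqj q hn).symm
      refine hPr S V Γ Λ comp M N C (comp t0) q q' (z (comp t0)) P D hq hq' (hqj q hn) (hqj q' hn')
        (Ne.symm hqq) hzt0 hj.2 ⟨t1, ht1, hedge q hq hn s1 t1 hst1 hs1 ht1⟩ ⟨t0, rfl, hPt0⟩ ?_ ?_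
      · intro s t hst hs ht hPs hPt
        have h1 := hP.deg s t hst hPs hPt (by rw [hs]; exact hzt0) (by rw [ht]; exact hzt0)
        rw [hs, ht] at h1
        exact h1
      · intro s t hst hs ht
        rcases hs with hs | hs
        · exact hedge q hq hn s t hst hs ht
        · exact hedge q' hq' hn' s t hst hs ht
  have hunit := hdvd (d q) fun i hi => by
    rcases key i hi with h1 | h1 | h1
    · rw [h1]
      exact dvd_zero _
    · rw [h1]
    · rw [h1]
      exact dvd_neg.mpr dvd_rfl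
  intro i hi
  rw [← hd i]
  unfold T3
  rcases key i hi with h1 | h1 | h1 <;> omega

end WGOne
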