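import Pool.Agent.Lib.MP_107652_al.One.SpecC

/-!
# The cone theorem, Case B: the end
-/

set_option autoImplicit false

namespace WGOne

open WGirth

namespace EndBAux

theorem u2_val : ‖(u2 : ℂ)‖ = 2 := by
  have h := norm_u2 1
  rw [zpow_one, zpow_one] at h
  exact h

theorem u2_ne_one : u2 ≠ 1 := by
  intro h
  have h1 := u2_val
  rw [h, Units.val_one, norm_one] at h1
  norm_num at h1

theorem mu_sq {μ : ℤ} (h : μ = 1 ∨ μ = -1) : μ * μ = 1 := by
  rcases h with rfl | rfl <;> norm_num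

variable {V : Type}

open scoped Classical in
/-- minus the characteristic function of the cones of the third kind -/
noncomputable def ee (Γ : LGraph V) (M : Matrix V V ℤ) (C q1 : V) (μ : ℤ) (v : V) : ℤ :=
  if Cone Γ v ∧ M C v = -μ ∧ M q1 v = μ then -1 else 0

/-- the value of the character at the cones of the third kind -/
noncomputable def eta (ω : ℂˣ) (μ : ℤ) : ℂˣ := (-ω) ^ (-μ) * u2 ^ μ

/-- the character of `Γ` -/
noncomputable def yy (Γ : LGraph V) (M : Matrix V V ℤ) (C q1 : V) (ω : ℂˣ) (μ : ℤ) (v : V) : ℂˣ :=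
  yc M C q1 ω v * eta ω μ ^ ee Γ M C q1 μ v

theorem yy_tau {Γ : LGraph V} {M : Matrix V V ℤ} {C q1 : V} {ω : ℂˣ} {μ : ℤ} {v : V}
    (h : Cone Γ v ∧ M C v = -μ ∧ M q1 v = μ) : yy Γ M C q1 ω μ v = 1 := by
  unfold yy ee yc eta
  rw [if_pos h, h.2.1, h.2.2, zpow_neg_one, mul_inv_cancel]

theorem yy_not {Γ : LGraph V} {M : Matrix V V ℤ} {C q1 : V} {ω : ℂˣ} {μ : ℤ} {v : V}
    (h : ¬ (Cone Γ v ∧ M C v = -μ ∧ M q1 v = μ)) : yy Γ M C q1 ω μ v = yc M C q1 ω v := by
  unfold yy ee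
  rw [if_neg h, zpow_zero, mul_one]

theorem yy_ne {Γ : LGraph V} {M : Matrix V V ℤ} {C q1 : V} {ω : ℂˣ} {μ : ℤ} {v : V}
    (h : yy Γ M C q1 ω μ v ≠ 1) : yy Γ M C q1 ω μ v = yc M C q1 ω v :=
  yy_not fun h1 => h (yy_tau h1)

theorem norm_eta {p : ℕ} {ω : ℂˣ} (hO : Om p ω) (μ n : ℤ) :
    ‖((eta ω μ ^ n : ℂˣ) : ℂ)‖ = (2 : ℝ) ^ (μ * n) := by
  unfold eta
  rw [mul_zpow, ← zpow_mul, ← zpow_mul, Units.val_mul, norm_mul, norm_u2,
    Units.val_zpow_eq_zpow_val, norm_zpow, hO.norm_neg, one_zpow, one_mul]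

end EndBAux

open EndBAux in
theorem pEndB : S_Con → S_Mv → S_XY → S_EndB := by
  intro hCon hMv hXY S V _ _ Γ Λ comp M N C q1 p ω μ S1 S2 D hO hq1 hqC hY hS2 hc
  classical
  have hμ := hY.mu
  have hμ2 : μ * μ = 1 := mu_sq hμ
  have hμ0 : μ ≠ 0 := by rcases hμ with rfl | rfl <;> norm_num
  -- a cone of the second kind
  obtain ⟨v2, hv2, hv2C, hv2q⟩ : ∃ v, Cone Γ v ∧ M C v = 0 ∧ M q1 v = μ := by
    by_contra hno
    have h1 : ∀ v, (M C v + M q1 v) * N v C = 0 := by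
      intro v
      by_cases hv : Cone Γ v
      · rcases hc v hv with h | h | h
        · rw [h.1, h.2, add_zero, zero_mul]
        · exact absurd ⟨v, hv, h.1, h.2⟩ hno
        · rw [h.1, h.2, neg_add_cancel, zero_mul]
      · rw [D.Noq hv D.coneC, mul_zero]
    have h2 : ∑ v, (M C v + M q1 v) * N v C = 1 := by
      simp only [add_mul, Finset.sum_add_distrib]
      rw [D.sumMN, D.sumMN, if_pos rfl, if_neg hqC, add_zero]
    rw [Finset.sum_eq_zero fun v _ => h1 v] at h2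
    exact absurd h2 (by norm_num)
  have hyv2 : yy Γ M C q1 ω μ v2 ≠ 1 := by
    rw [yy_not (fun h => by
      rw [hv2C] at h
      exact hμ0 (by linarith [h.2.1]))]
    unfold yc
    rw [hv2C, hv2q, zpow_zero, one_mul]
    intro h
    have h1 := norm_u2 μ
    rw [h, Units.val_one, norm_one] at h1
    exact hμ0 (two_zpow.1 h1.symm)
  -- the representation of the Artin group of Γ
  have hNA : NA Γ (yy Γ M C q1 ω μ) := by
    refine hCon V V Γ id (yy Γ M C q1 ω μ) (fun v => ¬ S2 v) ?_ ⟨v2, hS2 v2 hv2, hyv2⟩ ?_ ?_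
    · intro s t hst _
      exact D.even s t hst
    · obtain ⟨t, ht⟩ := hY.ex2
      refine ⟨t, fun h => h ht, ?_⟩
      change yy Γ M C q1 ω μ t ≠ 1
      rw [yy_not fun h => hS2 t h.1 ht]
      exact (hY.cov t).2 (Or.inr ht)
    · intro s t hst hs ht hys hyt
      change yy Γ M C q1 ω μ s ≠ 1 at hys
      change yy Γ M C q1 ω μ t ≠ 1 at hyt
      change Dg (Γ.label s(s, t)) (yy Γ M C q1 ω μ s) (yy Γ M C q1 ω μ t)
      have ht' : S2 t := not_not.1 ht
      have e1 := yy_ne hys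
      have e2 := yy_ne hyt
      rw [e1] at hys
      have hs1 : S1 s := ((hY.cov s).1 hys).resolve_right hs
      rw [e1, e2]
      have h1 := hY.deg s t hst hs1 ht'
      exact Or.inl ⟨D.even s t hst, h1.1, h1.2⟩
  have hy1 : yy Γ M C q1 ω μ ≠ 1 := fun h => hyv2 (congrFun h v2)
  obtain ⟨hNL, -⟩ := D.toL hy1 hNA
  -- the character of Λ
  obtain ⟨E, hE⟩ : ∃ E : V → ℤ, E = fun i => ∑ v, ee Γ M C q1 μ v * N v i := ⟨_, rfl⟩
  obtain ⟨z, hz⟩ : ∃ z : V → ℂˣ, z = pw N (yy Γ M C q1 ω μ) := ⟨_, rfl⟩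
  have hzi : ∀ i, z i = ch1 C q1 ω i * eta ω μ ^ E i := by
    intro i
    have h1 : yy Γ M C q1 ω μ = fun v => pw M (ch1 C q1 ω) v * (fun v => eta ω μ ^ ee Γ M C q1 μ v) v := by
      funext v
      rw [D.pw_ch1 hqC]
      rfl
    rw [hz, h1, pw_mul, D.pwNM, pw_zpow, hE]
  have hEc : ∀ i, Cone Γ i → μ * E i = if C = i then 1 else 0 := by
    intro i hi
    rw [← D.sumMN C i, hE]
    simp only [Finset.mul_sum]
    refine Finset.sum_congr rfl fun v _ => ?_
    by_cases hv : Cone Γ v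
    · unfold ee
      rcases hc v hv with h | h | h
      · rw [if_neg (fun h1 => hμ0 (by rw [h.1] at h1; linarith [h1.2.1])), h.1]
        ring
      · rw [if_neg (fun h1 => hμ0 (by rw [h.1] at h1; linarith [h1.2.1])), h.1]
        ring
      · rw [if_pos ⟨hv, h.1, h.2⟩, h.1]
        ring
    · rw [D.Noq hv hi]
      ring
  have hzC : z C = u2 := by
    have h1 := hEc C D.coneC
    rw [if_pos rfl] at h1
    have h2 : E C = μ := by
      calc E C = (μ * μ) * E C := by rw [hμ2, one_mul]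
        _ = μ * (μ * E C) := by ring
        _ = μ := by rw [h1, mul_one]
    have h3 : -μ * μ = -1 := by linarith
    rw [hzi, h2]
    unfold ch1 eta
    rw [if_pos rfl, mul_zpow, ← zpow_mul, ← zpow_mul, h3, hμ2, zpow_neg_one, zpow_one,
      ← mul_assoc, mul_inv_cancel, one_mul]
  have hE0 : ∀ i, Cone Γ i → i ≠ C → E i = 0 := by
    intro i hi hiC
    have h1 := hEc i hi
    rw [if_neg (Ne.symm hiC)] at h1
    exact (mul_eq_zero.1 h1).resolve_left hμ0
  have hzq : z q1 = u2 := by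
    rw [hzi, hE0 q1 hq1 hqC, zpow_zero, mul_one]
    unfold ch1
    rw [if_neg hqC, if_pos rfl]
  have hz1 : ∀ i, Cone Γ i → i ≠ C → i ≠ q1 → z i = 1 := by
    intro i hi hiC hiq
    rw [hzi, hE0 i hi hiC, zpow_zero, mul_one]
    unfold ch1
    rw [if_neg hiC, if_neg hiq]
  have hzn : ∀ i, ¬ Cone Γ i → z i = eta ω μ ^ E i := by
    intro i hi
    rw [hzi]
    unfold ch1
    rw [if_neg (fun h : i = C => hi (by rw [h]; exact D.coneC)),
      if_neg (fun h : i = q1 => hi (by rw [h]; exact hq1)), one_mul]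
  rw [← hz] at hNL
  -- the colouring
  obtain ⟨P, hP⟩ := hMv S V Λ comp z C D.cs (D.coL D.coneC) (by
    rw [hzC, u2_val]
    norm_num) hNL
  have hPq : ∀ t, comp t = q1 → P t := by
    intro t ht
    by_contra hPt
    obtain ⟨s, t', hs, ht', hst⟩ := D.coL D.coneC q1 hqC
    have hPs : P s := hP.own s hs
    have hPt' : ¬ P t' := fun h => hPt (hP.mono t' t (ht'.trans ht.symm) (by
      rw [ht', hzq, u2_val]
      norm_num) h)
    have h1 := hP.nrm s t' hst hPs hPt' (by rw [hs, hzC]; exact u2_ne_one)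
      (by rw [ht', hzq]; exact u2_ne_one)
    rw [hs, ht', hzC, hzq, u2_val] at h1
    norm_num at h1
  obtain ⟨t0, ht0, hzt0⟩ := hP.ex
  have hj : ¬ Cone Γ (comp t0) := by
    intro hj
    by_cases h1 : comp t0 = C
    · exact ht0 (hP.own t0 h1)
    · by_cases h2 : comp t0 = q1
      · exact ht0 (hPq t0 h2)
      · exact hzt0 (hz1 _ hj h1 h2)
  have key : ∀ q, Cone Γ q → z q = u2 → (∀ t, comp t = q → P t) →
      ∃ s t, Λ.graph.Adj s t ∧ comp s = q ∧ comp t = comp t0 ∧ 4 * p ∣ Λ.label s(s, t) := by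
    intro q hq hzq' hPq'
    have hne : comp t0 ≠ q := fun h => hj (h ▸ hq)
    obtain ⟨s, t, hs, ht, hst⟩ := D.coL hq (comp t0) hne
    have htt : t = t0 := D.single t t0 ht (ht ▸ hj)
    have hPs : P s := hPq' s hs
    have hPt : ¬ P t := htt ▸ ht0
    have hzs : z (comp s) ≠ 1 := by rw [hs, hzq']; exact u2_ne_one
    have hzt : z (comp t) ≠ 1 := htt ▸ hzt0
    have h1 := hP.nrm s t hst hPs hPt hzs hzt
    rw [hs, hzq', u2_val, ht, hzn _ hj, norm_eta hO] at h1
    have h2 : (2 : ℝ) ^ (1 + μ * E (comp t0)) = 1 := by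
      rw [zpow_add₀ two_ne_zero, zpow_one]
      exact h1
    have h3 : 1 + μ * E (comp t0) = 0 := two_zpow.1 h2
    have h4 : E (comp t0) = -μ := by
      calc E (comp t0) = (μ * μ) * E (comp t0) := by rw [hμ2, one_mul]
        _ = μ * (μ * E (comp t0)) := by ring
        _ = μ * (-1) := by rw [show μ * E (comp t0) = -1 by linarith]
        _ = -μ := by ring
    have h5 : z q * z (comp t0) = -ω := by
      have h51 : -μ * -μ = 1 := by linarith
      have h52 : μ * -μ = -1 := by linarith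
      rw [hzq', hzn _ hj, h4]
      unfold eta
      rw [mul_zpow, ← zpow_mul, ← zpow_mul, h51, h52, zpow_neg_one, zpow_one,
        mul_left_comm, mul_inv_cancel, mul_one]
    have hne2 : comp s ≠ comp t := by
      rw [hs, ht]
      exact Ne.symm hne
    have hev := D.even_out s t hst hne2
    have h6 := hP.deg s t hst hPs hPt hzs hzt
    rw [hs, ht] at h6
    refine ⟨s, t, hst, hs, ht, ?_⟩
    rcases h6 with ⟨-, -, h7⟩ | ⟨h7, -, -⟩
    · rw [h5] at h7
      exact (hO.four_dvd hev).1 h7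
    · exact absurd hev h7
  exact hXY S V Γ Λ comp M N C q1 (comp t0) p ω μ D hO hq1 hqC hμ hc hj
    (key C D.coneC hzC hP.own) (key q1 hq1 hzq hPq)

end WGOne
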