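import Pool.Agent.Lib.MP_107652_al.One.SpecC

/-!
# The cone theorem: the final assembly
-/

set_option autoImplicit false

namespace WGOne

open WGirth

namespace FinCAux

/-- a root of unity of order `p` -/
theorem exists_om {p : ℕ} (hp : p.Prime) (h2 : p ≠ 2) : ∃ ω : ℂˣ, Om p ω := by
  have h1 := Complex.isPrimitiveRoot_exp p hp.ne_zero
  have h3 : IsPrimitiveRoot (Units.mk0 _ (Complex.exp_ne_zero (2 * Real.pi * Complex.I / p))) p := by
    rw [← IsPrimitiveRoot.coe_units_iff, Units.val_mk0]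
    exact h1
  exact ⟨_, hp, h2, h3.eq_orderOf.symm⟩

end FinCAux

open FinCAux in
theorem pFinC : S_StA → S_StB → S_FinC := by
  classical
  intro hStA hStB S V _ _ Γ Λ comp M N C D
  obtain ⟨P, s0, t0, hadj, hs0, ht0, hPs, hPt, huniq⟩ := D.bridge
  have hodd := D.odd_in s0 t0 hadj (hs0.trans ht0.symm)
  have h2 : 2 ≤ Λ.label s(s0, t0) := Λ.two_le _ hadj
  obtain ⟨p, hpdef⟩ : ∃ p, p = (Λ.label s(s0, t0)).minFac := ⟨_, rfl⟩
  have hp : p.Prime := by
    rw [hpdef]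
    exact Nat.minFac_prime (by omega)
  have hpm : p ∣ Λ.label s(s0, t0) := by
    rw [hpdef]
    exact Nat.minFac_dvd _
  have hp2 : p ≠ 2 := by
    rintro rfl
    exact hodd (even_iff_two_dvd.2 hpm)
  obtain ⟨ω, hΩ⟩ := exists_om hp hp2
  have hadm : Adm Λ comp C p P := by
    refine ⟨⟨s0, hs0, hPs⟩, ⟨t0, ht0, hPt⟩, ?_⟩
    intro s t hst hs ht hP1 hP2
    obtain ⟨rfl, rfl⟩ := huniq s t hst hs ht hP1 hP2
    exact hpm
  have hB := hStB S V Γ Λ comp M N C p ω P D hΩ hadm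
  unfold HII at hB
  push Not at hB
  obtain ⟨c, hc, q, hq, hqC, hno⟩ := hB
  by_cases h3 : ∃ s t, Λ.graph.Adj s t ∧ comp s = C ∧ comp t = q ∧ c s
  · exact hStA S V Γ Λ comp M N C q p ω c D hΩ hc hq hqC (hno h3)
  · refine hStA S V Γ Λ comp M N C q p ω (fun s => ¬ c s) D hΩ ?_ hq hqC ?_
    · obtain ⟨s1, hs1, hcs1⟩ := hc.ex1
      refine ⟨hc.ex2, ⟨s1, hs1, not_not.2 hcs1⟩, ?_⟩
      intro s t hst hs ht h4 h5
      have h6 := hc.dvd t s hst.symm ht hs (not_not.1 h5) h4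
      rwa [Sym2.eq_swap] at h6
    · intro s t h4 h5 h6 h7
      exact h3 ⟨s, t, h4, h5, h6, h7⟩

end WGOne
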