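import Pool.Agent.Lib.MP_107652_al.One.SpecC

/-!
# The cone theorem, Case A: the squared character
-/

set_option autoImplicit false

namespace WGOne

open WGirth

namespace FourAAux

theorem u2_val : ‖(u2 : ℂ)‖ = 2 := by
  have h := norm_u2 1
  rw [zpow_one, zpow_one] at h
  exact h

theorem u2_ne_one : u2 ≠ 1 := by
  intro h
  have h1 := u2_val
  rw [h, Units.val_one, norm_one] at h1
  norm_num at h1

theorem neg_one_ne : (-1 : ℂˣ) ≠ 1 := by
  intro h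
  have h1 := congrArg Units.val h
  norm_num at h1

/-- the value `(-ω)^(2 a) 2^b` -/
noncomputable def vl (ω : ℂˣ) (a b : ℤ) : ℂˣ := (-ω) ^ (2 * a) * u2 ^ b

theorem norm_vl {p : ℕ} {ω : ℂˣ} (hO : Om p ω) (a b : ℤ) :
    ‖((vl ω a b : ℂˣ) : ℂ)‖ = (2 : ℝ) ^ b := by
  unfold vl
  rw [Units.val_mul, norm_mul, norm_u2, Units.val_zpow_eq_zpow_val, norm_zpow, hO.norm_neg,
    one_zpow, one_mul]

theorem vl_ne {p : ℕ} {ω : ℂˣ} (hO : Om p ω) (a : ℤ) {b : ℤ} (hb : b ≠ 0) : vl ω a b ≠ 1 := by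
  intro h
  have h1 := norm_vl hO a b
  rw [h, Units.val_one, norm_one] at h1
  exact hb (two_zpow.1 h1.symm)

theorem vl_mul (ω : ℂˣ) (a a' μ : ℤ) : vl ω a μ * vl ω a' (-μ) = ((-ω) ^ (a + a')) ^ 2 := by
  unfold vl
  rw [mul_mul_mul_comm, ← zpow_add, ← zpow_add, add_neg_cancel, zpow_zero, mul_one, ← zpow_natCast,
    ← zpow_mul]
  congr 1
  push_cast
  ring

variable {V : Type}

open scoped Classical in
/-- the character of `Γ` -/
noncomputable def yy (Γ : LGraph V) (M : Matrix V V ℤ) (C q1 : V) (ω : ℂˣ) (S1 S2 : V → Prop)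
    (v : V) : ℂˣ :=
  if Cone Γ v ∧ (S1 v ∨ S2 v) then vl ω (M C v) (M q1 v) else 1

theorem yy_pos {Γ : LGraph V} {M : Matrix V V ℤ} {C q1 : V} {ω : ℂˣ} {S1 S2 : V → Prop} {v : V}
    (h : Cone Γ v ∧ (S1 v ∨ S2 v)) : yy Γ M C q1 ω S1 S2 v = vl ω (M C v) (M q1 v) := by
  unfold yy
  rw [if_pos h]

theorem yy_ne {Γ : LGraph V} {M : Matrix V V ℤ} {C q1 : V} {ω : ℂˣ} {S1 S2 : V → Prop} {v : V}
    (h : yy Γ M C q1 ω S1 S2 v ≠ 1) : Cone Γ v ∧ (S1 v ∨ S2 v) := by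
  by_contra h1
  apply h
  unfold yy
  rw [if_neg h1]

end FourAAux

open FourAAux in
theorem pFourA : S_Con → S_Mv → S_FourA := by
  intro hCon hMv S V _ _ Γ Λ comp M N C q1 p ω μ S1 S2 D hO hq1 hqC hY hex hno
  classical
  have hμ0 : μ ≠ 0 := by rcases hY.mu with rfl | rfl <;> norm_num
  obtain ⟨v1, hv1, hv1S⟩ := hY.ex1
  obtain ⟨v2, hv2, hv2S⟩ := hex
  have hy1 : yy Γ M C q1 ω S1 S2 v1 ≠ 1 := by
    rw [yy_pos ⟨hv1, Or.inl hv1S⟩, hY.e1 v1 hv1 hv1S]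
    exact vl_ne hO _ hμ0
  have hy2 : yy Γ M C q1 ω S1 S2 v2 ≠ 1 := by
    rw [yy_pos ⟨hv2, Or.inr hv2S⟩, hY.e2 v2 hv2S]
    exact vl_ne hO _ (neg_ne_zero.2 hμ0)
  have hNA : NA Γ (yy Γ M C q1 ω S1 S2) := by
    refine hCon V V Γ id (yy Γ M C q1 ω S1 S2) S1 (fun s t hst _ => D.even s t hst)
      ⟨v1, hv1S, hy1⟩ ⟨v2, fun h => hY.disj v2 h hv2S, hy2⟩ ?_
    intro s t hst hs ht hys hyt
    change yy Γ M C q1 ω S1 S2 s ≠ 1 at hys
    change yy Γ M C q1 ω S1 S2 t ≠ 1 at hyt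
    change Dg (Γ.label s(s, t)) (yy Γ M C q1 ω S1 S2 s) (yy Γ M C q1 ω S1 S2 t)
    have h1 := yy_ne hys
    have h2 := yy_ne hyt
    have h3 : S2 t := h2.2.resolve_left ht
    rw [yy_pos h1, yy_pos h2, hY.e1 s h1.1 hs, hY.e2 t h3]
    obtain ⟨h4, h5⟩ := hY.deg s t hst hs h3
    have h6 : yc M C q1 ω s * yc M C q1 ω t = (-ω) ^ (M C s + M C t) := by
      unfold yc
      rw [hY.e1 s h1.1 hs, hY.e2 t h3, mul_mul_mul_comm, ← zpow_add, ← zpow_add, add_neg_cancel,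
        zpow_zero, mul_one]
    rw [h6] at h4 h5
    refine Or.inl ⟨D.even s t hst, ?_, ?_⟩
    · intro h7
      rw [vl_mul] at h7
      have h8 : (-ω) ^ ((M C s + M C t) * 2) = 1 := by
        rw [zpow_mul]
        exact h7
      rw [hO.neg_zpow] at h8
      rw [ne_eq, hO.neg_zpow] at h4
      have h9 := hno s t h1.1 h2.1 hs h3
      obtain ⟨k, hk⟩ := h8
      have h10 : M C s + M C t = p * k := by linarith
      rcases Int.even_or_odd' k with ⟨l, hl | hl⟩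
      · exact h4 ⟨l, by rw [h10, hl]; ring⟩
      · exact h9 ⟨l, by rw [h10, hl]; ring⟩
    · rw [vl_mul, ← pow_mul, mul_comm 2, pow_mul]
      have h7 : ((-ω) ^ (M C s + M C t)) ^ (Γ.label s(s, t) / 2) = 1 := h5
      rw [h7, one_pow]
  have hyne : yy Γ M C q1 ω S1 S2 ≠ 1 := fun h => hy1 (congrFun h v1)
  obtain ⟨hNL, -⟩ := D.toL hyne hNA
  obtain ⟨z, hz⟩ : ∃ z : V → ℂˣ, z = pw N (yy Γ M C q1 ω S1 S2) := ⟨_, rfl⟩
  have hzi : ∀ i, Cone Γ i → z i = vl ω (if C = i then 1 else 0) (if q1 = i then 1 else 0) := by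
    intro i hi
    have h1 : z i = pw N (fun v => vl ω (M C v) (M q1 v)) i := by
      rw [hz]
      refine D.pwN_congr (fun v hv => ?_) hi
      by_cases h : S1 v ∨ S2 v
      · exact yy_pos ⟨hv, h⟩
      · obtain ⟨h2, h3⟩ := hY.e0 v (fun h' => h (Or.inl h')) fun h' => h (Or.inr h')
        have h4 : yy Γ M C q1 ω S1 S2 v = 1 := by
          unfold yy
          rw [if_neg fun h' => h h'.2]
        rw [h4, h2]
        unfold vl
        rw [zpow_zero, mul_one]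
        exact (hO.neg_zpow.2 (h3.mul_left 2)).symm
    rw [h1]
    have h2 : (fun v => vl ω (M C v) (M q1 v)) = fun v =>
        (fun v => ((-ω) ^ (2 : ℤ)) ^ M C v) v * (fun v => u2 ^ M q1 v) v := by
      funext v
      unfold vl
      rw [zpow_mul]
    rw [h2, pw_mul, pw_zpow, pw_zpow, D.sumMN, D.sumMN]
    unfold vl
    rw [zpow_mul]
  have hzC : z C = ω ^ 2 := by
    rw [hzi C D.coneC, if_pos rfl, if_neg hqC]
    unfold vl
    rw [zpow_zero, mul_one, mul_one]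
    have h : ((-ω) ^ (2 : ℤ)) = (-ω) ^ 2 := by norm_cast
    rw [h, neg_sq]
  have hzq : z q1 = u2 := by
    rw [hzi q1 hq1, if_neg (Ne.symm hqC), if_pos rfl]
    unfold vl
    rw [mul_zero, zpow_zero, one_mul, zpow_one]
  have hz1 : ∀ i, Cone Γ i → i ≠ C → i ≠ q1 → z i = 1 := by
    intro i hi h1 h2
    rw [hzi i hi, if_neg (Ne.symm h1), if_neg (Ne.symm h2)]
    unfold vl
    rw [mul_zero, zpow_zero, zpow_zero, mul_one]
  rw [← hz] at hNL
  have hωp : ω ^ p = 1 := hO.pow_eq_one.2 dvd_rfl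
  have hω2 : ω ^ 2 ≠ 1 := by
    rw [ne_eq, hO.pow_eq_one]
    intro h
    have h1 := Nat.le_of_dvd (by norm_num) h
    have h2 := hO.three_le
    omega
  have hω2n : ‖((ω ^ 2 : ℂˣ) : ℂ)‖ = 1 := by
    rw [Units.val_pow_eq_pow_val, norm_pow, hO.norm, one_pow]
  obtain ⟨P, hP⟩ := hMv S V Λ comp z q1 D.cs (D.coL hq1) (by
    rw [hzq, u2_val]
    norm_num) hNL
  -- the fibre of C has one colour
  have hone : ∀ s t, comp s = C → comp t = C → P s → P t := by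
    intro s t hs ht hPs
    by_contra hPt
    obtain ⟨a, b, hab, ha, hb, hPa, hPb⟩ := D.conn P s t (hs.trans ht.symm) hPs hPt
    have ha' : comp a = C := ha.trans hs
    have hb' : comp b = C := hb.trans hs
    have hodd := D.odd_in a b hab (ha'.trans hb'.symm)
    have h1 := hP.deg a b hab hPa hPb (by rw [ha', hzC]; exact hω2) (by rw [hb', hzC]; exact hω2)
    rw [ha', hb', hzC] at h1
    rcases h1 with ⟨h2, -, -⟩ | ⟨-, -, h2⟩
    · exact hodd h2
    · have h3 : Odd (Λ.label s(a, b)) := Nat.not_even_iff_odd.1 hodd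
      rw [h3.neg_pow] at h2
      have h4 : (ω ^ 2) ^ (Λ.label s(a, b)) = -1 := by
        rw [← h2, neg_neg]
      have h5 : ((ω ^ 2) ^ (Λ.label s(a, b))) ^ p = 1 := by
        rw [← pow_mul, ← pow_mul, mul_comm 2, mul_right_comm, mul_comm _ p, pow_mul, hωp, one_pow]
      rw [h4, (Nat.not_even_iff_odd.1 hO.odd).neg_one_pow] at h5
      exact neg_one_ne h5
  have hPC : ∀ s, comp s = C → P s := by
    intro s hs
    by_contra hPs
    obtain ⟨s', t', hs', ht', hst⟩ := D.coL hq1 C (Ne.symm hqC)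
    have h1 : ¬ P t' := fun h => hPs (hone t' s ht' hs h)
    have h2 := hP.nrm s' t' hst (hP.own s' hs') h1 (by rw [hs', hzq]; exact u2_ne_one)
      (by rw [ht', hzC]; exact hω2)
    rw [hs', ht', hzC, hzq, u2_val, hω2n] at h2
    norm_num at h2
  obtain ⟨t0, ht0, hzt0⟩ := hP.ex
  have hj : ¬ Cone Γ (comp t0) := by
    intro hj
    by_cases h1 : comp t0 = C
    · exact ht0 (hPC t0 h1)
    · by_cases h2 : comp t0 = q1
      · exact ht0 (hP.own t0 h2)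
      · exact hzt0 (hz1 _ hj h1 h2)
  have key : ∀ q, Cone Γ q → z q ≠ 1 → (∀ t, comp t = q → P t) →
      ‖(z q : ℂ)‖ * ‖(z (comp t0) : ℂ)‖ = 1 := by
    intro q hq hzq' hPq'
    have hne : comp t0 ≠ q := fun h => hj (h ▸ hq)
    obtain ⟨s, t, hs, ht, hst⟩ := D.coL hq (comp t0) hne
    have htt : t = t0 := D.single t t0 ht (ht ▸ hj)
    have h1 := hP.nrm s t hst (hPq' s hs) (htt ▸ ht0) (by rw [hs]; exact hzq') (htt ▸ hzt0)
    rw [hs, ht] at h1
    exact h1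
  have k1 := key C D.coneC (by rw [hzC]; exact hω2) hPC
  have k2 := key q1 hq1 (by rw [hzq]; exact u2_ne_one) hP.own
  rw [hzC, hω2n, one_mul] at k1
  rw [hzq, u2_val, k1] at k2
  norm_num at k2

end WGOne
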