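import Pool.Agent.Lib.MP_107652_al.One.SpecC

/-!
# Assembly of the combinatorics of Case A
-/

set_option autoImplicit false

namespace WGOne

open WGirth

namespace HAllAux

variable {X ι : Type} [DecidableEq X] {P1 P2 : Finset X} {I : Finset ι} {C : ι}
  {f : ι → X → ℤ} {g : X → ℤ} {p : ℕ}

/-- `HD` is symmetric in the two sets. -/
theorem symm (h : HD P1 P2 I C f g p) : HD P2 P1 I C f g p where
  prime := h.prime
  ne2 := h.ne2
  disj := h.disj.symm
  mem := h.mem
  zero := by
    intro i hi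
    rw [Finset.union_comm]
    exact h.zero i hi
  sub := by
    intro i hi U1 h1 U2 h2 n1 n2
    rw [add_comm]
    exact h.sub i hi U2 h2 U1 h1 n2 n1
  gi := by
    intro i hi hC
    rw [Finset.union_comm]
    exact h.gi i hi hC
  gC := by
    rw [Finset.union_comm]
    exact h.gC
  gen := by
    intro κ hκ
    rw [Finset.union_comm] at hκ ⊢
    exact h.gen κ hκ
  ne := by
    intro a ha b hb hd
    apply h.ne b hb a ha
    have : g b - g a = -(g a - g b) := by ring
    rw [this, dvd_neg]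
    exact hd

theorem three_le (h : HD P1 P2 I C f g p) : 3 ≤ p := by
  have h1 := h.prime.two_le
  have h2 := h.ne2
  omega

/-- a set with at most two elements containing `a` -/
theorem small {P : Finset X} {a : X} (ha : a ∈ P) (h : ¬ 3 ≤ P.card) :
    P = {a} ∨ ∃ a', a ≠ a' ∧ P = {a, a'} := by
  have h0 : 0 < P.card := Finset.card_pos.mpr ⟨a, ha⟩
  rcases (show P.card = 1 ∨ P.card = 2 by omega) with h1 | h1
  · obtain ⟨x, rfl⟩ := Finset.card_eq_one.mp h1
    rw [Finset.mem_singleton] at ha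
    exact Or.inl (by rw [ha])
  · obtain ⟨x, y, hxy, rfl⟩ := Finset.card_eq_two.mp h1
    rw [Finset.mem_insert, Finset.mem_singleton] at ha
    rcases ha with rfl | rfl
    · exact Or.inr ⟨y, hxy, rfl⟩
    · exact Or.inr ⟨x, hxy.symm, Finset.pair_comm _ _⟩

/-- one of the two sets has at least three elements -/
theorem big (h2 : S_Two) (hB : S_HBig) (h : HD P1 P2 I C f g p) (hc : 3 ≤ P1.card ∨ 3 ≤ P2.card)
    {a b : X} (ha : a ∈ P1) (hb : b ∈ P2) : ¬ (2 * p : ℤ) ∣ g a - g b - p := by
  have hp : (3 : ℤ) ≤ p := by exact_mod_cast three_le h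
  have hT := hB X ι P1 P2 I C f g p h ⟨a, ha⟩ ⟨b, hb⟩ hc
  obtain ⟨x, -, y, -, -, hxy, hcl, -, -⟩ := h2 X ι (P1 ∪ P2) I C f g (2 * p : ℤ) (by omega) h.mem
    hT h.zero h.gi h.gC h.gen
  have hne := h.ne a ha b hb
  intro hd
  have h4 := hcl a (Finset.mem_union_left _ ha)
  have h5 := hcl b (Finset.mem_union_right _ hb)
  rcases h4 with h4 | h4 <;> rcases h5 with h5 | h5
  · apply hne
    have : g a - g b = (g a - g x) - (g b - g x) := by ring
    rw [this]
    exact dvd_sub h4 h5
  · have h6 : (2 * p : ℤ) ∣ (p : ℤ) + 1 := by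
      have : (p : ℤ) + 1 = (g a - g x) - (g b - g y) - (g y - g x - 1) - (g a - g b - p) := by ring
      rw [this]
      exact dvd_sub (dvd_sub (dvd_sub h4 h5) hxy) hd
    have h7 := Int.le_of_dvd (by omega) h6
    omega
  · have h6 : (2 * p : ℤ) ∣ (p : ℤ) - 1 := by
      have : (p : ℤ) - 1 = (g a - g y) - (g b - g x) + (g y - g x - 1) - (g a - g b - p) := by ring
      rw [this]
      exact dvd_sub (dvd_add (dvd_sub h4 h5) hxy) hd
    have h7 := Int.le_of_dvd (by omega) h6
    omega
  · apply hne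
    have : g a - g b = (g a - g y) - (g b - g y) := by ring
    rw [this]
    exact dvd_sub h4 h5

end HAllAux

open HAllAux in
theorem pHAll : S_Two → S_HBig → S_Haa → S_Hab → S_Hbb → S_HAll := by
  intro h2 hB haa hab hbb X ι _ P1 P2 I C f g p h a ha b hb
  by_cases hc : 3 ≤ P1.card ∨ 3 ≤ P2.card
  · exact big h2 hB h hc ha hb
  rw [not_or] at hc
  rcases small ha hc.1 with rfl | ⟨a', haa', rfl⟩ <;> rcases small hb hc.2 with rfl | ⟨b', hbb', rfl⟩
  · exact haa X ι a b I C f g p h
  · exact hab X ι a b b' I C f g p hbb' h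
  · have h1 := hab X ι b a a' I C f g p haa' (symm h)
    intro hd
    apply h1
    have h3 : g b - g a - (p : ℤ) = -(g a - g b - p) - 2 * p := by ring
    rw [h3]
    exact dvd_sub ((dvd_neg).mpr hd) dvd_rfl
  · exact hbb X ι a a' b b' I C f g p haa' hbb' h

end WGOne
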