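import Pool.Agent.Lib.MP_107652_al.One.SpecC

/-!
# The cone theorem, Case A: the combinatorial data
-/

set_option autoImplicit false

namespace WGOne

open WGirth

namespace HDxAux

variable {S V : Type} [Fintype V] [DecidableEq V] {Γ : LGraph V} {Λ : LGraph S} {comp : S → V}
  {M N : Matrix V V ℤ} {C : V}

/-- A sum against `N v i`, `i` a cone, restricted to a set containing the support on the cones. -/
theorem sum_on (D : ConeData Γ Λ comp M N C) (P : Finset V) (F : V → ℤ) {i : V}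
    (hi : Cone Γ i) (hF : ∀ v, Cone Γ v → v ∉ P → F v = 0) :
    ∑ v, F v * N v i = ∑ v ∈ P, F v * N v i := by
  symm
  refine Finset.sum_subset (Finset.subset_univ P) fun v _ hv => ?_
  by_cases h1 : Cone Γ v
  · rw [hF v h1 hv, zero_mul]
  · rw [D.Noq h1 hi, mul_zero]

/-- The same modulo `m`. -/
theorem sum_mod (D : ConeData Γ Λ comp M N C) (m : ℤ) (P : Finset V) (F : V → ℤ) {i : V}
    (hi : Cone Γ i) (hF : ∀ v, Cone Γ v → v ∉ P → m ∣ F v) :
    m ∣ ∑ v ∈ P, F v * N v i - ∑ v, F v * N v i := by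
  have h0 : ∑ v, F v * N v i = ∑ v ∈ P, F v * N v i + ∑ v ∈ Finset.univ \ P, F v * N v i := by
    rw [add_comm]
    exact (Finset.sum_sdiff (Finset.subset_univ P)).symm
  rw [h0]
  have h1 : m ∣ ∑ v ∈ Finset.univ \ P, F v * N v i := by
    refine Finset.dvd_sum fun v hv => ?_
    rw [Finset.mem_sdiff] at hv
    by_cases h1 : Cone Γ v
    · exact (hF v h1 hv.2).mul_right _
    · rw [D.Noq h1 hi, mul_zero]
      exact dvd_zero m
  obtain ⟨c, hc⟩ := h1
  exact ⟨-c, by rw [hc]; ring⟩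

theorem T3_neg {n : ℤ} (h : T3 n) : T3 (-n) := by
  unfold T3 at *
  omega

theorem T3_mu {μ n : ℤ} (hμ : μ = 1 ∨ μ = -1) (h : T3 (μ * n)) : T3 n := by
  rcases hμ with rfl | rfl
  · simpa using h
  · have := T3_neg h
    simpa using this

end HDxAux

open HDxAux

theorem pHDx : S_Con → S_Dc → S_HDx := by
  intro hCon hDc S V _ _ Γ Λ comp M N C q1 p ω μ S1 S2 P1 P2 I D hO hq1 hqC hY hP1 hP2 hI
  have hn1 : ∀ v, v ∈ P2 → v ∉ P1 := fun v hv hv1 =>
    hY.disj v ((hP1 v).mp hv1).2 ((hP2 v).mp hv).2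
  have hnc : ∀ v, Cone Γ v → v ∉ P1 ∪ P2 → ¬ S1 v ∧ ¬ S2 v := by
    intro v hv hv1
    rw [Finset.mem_union, not_or, hP1, hP2] at hv1
    exact ⟨fun h => hv1.1 ⟨hv, h⟩, fun h => hv1.2 ⟨hv, h⟩⟩
  have hmu1 : ∀ v, v ∈ P1 → M q1 v = μ := fun v hv => hY.e1 v ((hP1 v).mp hv).1 ((hP1 v).mp hv).2
  have hmu2 : ∀ v, v ∈ P2 → M q1 v = -μ := fun v hv => hY.e2 v ((hP2 v).mp hv).2
  have hμ0 : μ ≠ 0 := by
    rcases hY.mu with h | h <;> rw [h] <;> norm_num
  have hsq : ∀ i v, (if v ∈ P1 then M C v else -M C v) * (if v ∈ P1 then N v i else -N v i) =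
      M C v * N v i := by
    intro i v
    by_cases h : v ∈ P1
    · rw [if_pos h, if_pos h]
    · rw [if_neg h, if_neg h, neg_mul_neg]
  refine
    { prime := hO.prime
      ne2 := hO.ne2
      disj := ?_
      mem := (hI C).mpr ⟨D.coneC, fun h => hqC h.symm⟩
      zero := ?_
      sub := ?_
      gi := ?_
      gC := ?_
      gen := ?_
      ne := ?_ }
  · rw [Finset.disjoint_right]
    exact hn1
  · -- zero
    intro i hi
    obtain ⟨hci, hiq⟩ := (hI i).mp hi
    have h1 : μ * ∑ v ∈ P1 ∪ P2, (if v ∈ P1 then N v i else -N v i) = 0 := by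
      have h2 : ∑ v, M q1 v * N v i = ∑ v ∈ P1 ∪ P2, M q1 v * N v i :=
        sum_on D (P1 ∪ P2) (fun v => M q1 v) hci
          (fun v hv hv1 => (hY.e0 v (hnc v hv hv1).1 (hnc v hv hv1).2).1)
      rw [D.sumMN, if_neg (fun h => hiq h.symm)] at h2
      rw [h2, Finset.mul_sum]
      refine Finset.sum_congr rfl fun v hv => ?_
      by_cases h3 : v ∈ P1
      · rw [if_pos h3, hmu1 v h3]
      · have h4 : v ∈ P2 := (Finset.mem_union.mp hv).resolve_left h3
        rw [if_neg h3, hmu2 v h4]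
        ring
    exact (mul_eq_zero.mp h1).resolve_left hμ0
  · -- sub
    intro i hi U1 hU1 U2 hU2 hne1 hne2
    obtain ⟨hci, hiq⟩ := (hI i).mp hi
    have hs1 : ∀ v, v ∈ U1 → S1 v := fun v hv => ((hP1 v).mp (hU1 hv)).2
    have hs2 : ∀ v, v ∈ U2 → S2 v := fun v hv => ((hP2 v).mp (hU2 hv)).2
    have hU : ∀ v, v ∈ U2 → v ∉ U1 := fun v hv hv1 => hn1 v (hU2 hv) (hU1 hv1)
    obtain ⟨y, hy⟩ : ∃ y : V → ℂˣ, ∀ v, y v = if v ∈ U1 ∪ U2 then yc M C q1 ω v else 1 :=
      ⟨_, fun _ => rfl⟩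
    have hyU : ∀ v, v ∈ U1 ∪ U2 → y v = yc M C q1 ω v := fun v hv => by rw [hy, if_pos hv]
    have hyn : ∀ v, y v ≠ 1 → v ∈ U1 ∪ U2 := by
      intro v hv
      by_contra h
      exact hv (by rw [hy, if_neg h])
    have hNA : NA Γ y := by
      refine hCon V V Γ id y S1 (fun s t hst _ => D.even s t hst) ?_ ?_ ?_
      · obtain ⟨s, hs⟩ := hne1
        refine ⟨s, hs1 s hs, ?_⟩
        rw [id, hyU s (Finset.mem_union_left _ hs)]
        exact (hY.cov s).mpr (Or.inl (hs1 s hs))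
      · obtain ⟨t, ht⟩ := hne2
        refine ⟨t, fun h => hY.disj t h (hs2 t ht), ?_⟩
        rw [id, hyU t (Finset.mem_union_right _ ht)]
        exact (hY.cov t).mpr (Or.inr (hs2 t ht))
      · intro s t hst h1 h2 h3 h4
        rw [id] at h3 h4
        have h5 := hyn s h3
        have h6 := hyn t h4
        have h7 : S2 t := by
          rcases Finset.mem_union.mp h6 with h | h
          · exact absurd (hs1 t h) h2
          · exact hs2 t h
        have h8 := hY.deg s t hst h1 h7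
        rw [id, id, hyU s h5, hyU t h6]
        exact Or.inl ⟨D.even s t hst, h8.1, h8.2⟩
    obtain ⟨e, he⟩ : ∃ e : V → ℤ, ∀ v, e v = if v ∈ U1 then μ else if v ∈ U2 then -μ else 0 :=
      ⟨_, fun _ => rfl⟩
    have hnorm : ∀ v, ‖(yc M C q1 ω v : ℂ)‖ = (2 : ℝ) ^ M q1 v := by
      intro v
      unfold yc
      rw [Units.val_mul, norm_mul, norm_u2, Units.val_zpow_eq_zpow_val, norm_zpow, hO.norm_neg,
        one_zpow, one_mul]
    have hT : T3 μ := by
      rcases hY.mu with h | h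
      · exact Or.inr (Or.inl h)
      · exact Or.inr (Or.inr h)
    have h9 := hDc S V Γ Λ comp M N C y e D hNA (by
      intro v _
      rw [he]
      by_cases h1 : v ∈ U1
      · rw [if_pos h1, hyU v (Finset.mem_union_left _ h1), hnorm, hmu1 v (hU1 h1)]
      · by_cases h2 : v ∈ U2
        · rw [if_neg h1, if_pos h2, hyU v (Finset.mem_union_right _ h2), hnorm, hmu2 v (hU2 h2)]
        · rw [if_neg h1, if_neg h2, hy, if_neg (by
            rw [Finset.mem_union, not_or]
            exact ⟨h1, h2⟩)]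
          simp) (by
      intro v _
      rw [he]
      by_cases h1 : v ∈ U1
      · rw [if_pos h1]
        exact hT
      · by_cases h2 : v ∈ U2
        · rw [if_neg h1, if_pos h2]
          exact T3_neg hT
        · rw [if_neg h1, if_neg h2]
          exact Or.inl rfl) i hci
    have h10 : ∑ v, e v * N v i = μ * (∑ v ∈ U1, N v i + ∑ v ∈ U2, -N v i) := by
      have h11 : ∀ v, e v * N v i = (if v ∈ U1 then μ * N v i else 0) +
          (if v ∈ U2 then μ * -N v i else 0) := by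
        intro v
        rw [he]
        by_cases h1 : v ∈ U1
        · have h2 : v ∉ U2 := fun h => hU v h h1
          rw [if_pos h1, if_pos h1, if_neg h2, add_zero]
        · by_cases h2 : v ∈ U2
          · rw [if_neg h1, if_neg h1, if_pos h2, if_pos h2]
            ring
          · rw [if_neg h1, if_neg h1, if_neg h2, if_neg h2]
            ring
      rw [Finset.sum_congr rfl fun v _ => h11 v, Finset.sum_add_distrib, ← Finset.sum_filter,
        ← Finset.sum_filter, Finset.filter_mem_eq_inter, Finset.filter_mem_eq_inter,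
        Finset.univ_inter, Finset.univ_inter, mul_add, Finset.mul_sum, Finset.mul_sum]
    rw [h10] at h9
    have h12 := T3_mu hY.mu h9
    have h13 : ∑ v ∈ U1, (if v ∈ P1 then N v i else -N v i) = ∑ v ∈ U1, N v i :=
      Finset.sum_congr rfl fun v hv => by rw [if_pos (hU1 hv)]
    have h14 : ∑ v ∈ U2, (if v ∈ P1 then N v i else -N v i) = ∑ v ∈ U2, -N v i :=
      Finset.sum_congr rfl fun v hv => by rw [if_neg (hn1 v (hU2 hv))]
    simp only [h13, h14]
    exact h12
  · -- gi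
    intro i hi hiC
    obtain ⟨hci, -⟩ := (hI i).mp hi
    simp only [hsq i]
    have h1 : (2 * p : ℤ) ∣ ∑ v ∈ P1 ∪ P2, M C v * N v i - ∑ v, M C v * N v i :=
      sum_mod D (2 * p) (P1 ∪ P2) (fun v => M C v) hci
        (fun v hv hv1 => (hY.e0 v (hnc v hv hv1).1 (hnc v hv hv1).2).2)
    rwa [D.sumMN, if_neg (fun h => hiC h.symm), sub_zero] at h1
  · -- gC
    simp only [hsq C]
    have h1 : (2 * p : ℤ) ∣ ∑ v ∈ P1 ∪ P2, M C v * N v C - ∑ v, M C v * N v C :=
      sum_mod D (2 * p) (P1 ∪ P2) (fun v => M C v) D.coneC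
        (fun v hv hv1 => (hY.e0 v (hnc v hv hv1).1 (hnc v hv hv1).2).2)
    rwa [D.sumMN, if_pos rfl] at h1
  · -- gen
    intro κ hκ
    obtain ⟨κ', hκ'⟩ : ∃ κ' : V → ℤ, ∀ v, κ' v = if v ∈ P1 then κ v else if v ∈ P2 then -κ v else 0 :=
      ⟨_, fun _ => rfl⟩
    have h1 : ∀ i, Cone Γ i → i ≠ q1 → ∑ v, κ' v * N v i = 0 := by
      intro i hci hiq
      rw [sum_on D (P1 ∪ P2) κ' hci (fun v _ hv1 => by
        rw [Finset.mem_union, not_or] at hv1
        rw [hκ', if_neg hv1.1, if_neg hv1.2]), ← hκ i ((hI i).mpr ⟨hci, hiq⟩)]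
      refine Finset.sum_congr rfl fun v hv => ?_
      rw [hκ']
      by_cases h3 : v ∈ P1
      · rw [if_pos h3, if_pos h3]
      · have h4 : v ∈ P2 := (Finset.mem_union.mp hv).resolve_left h3
        rw [if_neg h3, if_pos h4, if_neg h3]
        ring
    have h2 : ∀ a ∈ P1 ∪ P2, κ a = (∑ v, κ' v * N v q1) * μ := by
      intro a ha
      rcases Finset.mem_union.mp ha with h | h
      · have h3 := D.orth q1 κ' h1 a ((hP1 a).mp h).1
        rwa [hκ', if_pos h, hmu1 a h] at h3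
      · have h3 := D.orth q1 κ' h1 a ((hP2 a).mp h).1
        rw [hκ', if_neg (hn1 a h), if_pos h, hmu2 a h] at h3
        linarith
    intro a ha b hb
    rw [h2 a ha, h2 b hb]
  · -- ne
    intro a ha b hb
    rw [if_pos ha, if_neg (hn1 b hb), sub_neg_eq_add]
    intro h1
    have hab : b ≠ a := fun h => hn1 b hb (h ▸ ha)
    have h2 := (hY.deg a b (((hP1 a).mp ha).1 b hab) ((hP1 a).mp ha).2 ((hP2 b).mp hb).2).1
    refine h2 ?_
    have h3 : (-ω) ^ (M C a + M C b) = 1 := hO.neg_zpow.mpr h1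
    unfold yc
    rw [hmu1 a ha, hmu2 b hb]
    calc (-ω) ^ M C a * u2 ^ μ * ((-ω) ^ M C b * u2 ^ (-μ))
        = ((-ω) ^ M C a * (-ω) ^ M C b) * (u2 ^ μ * u2 ^ (-μ)) := by
          rw [mul_mul_mul_comm]
      _ = 1 := by
          rw [← zpow_add, ← zpow_add, h3, add_neg_cancel, zpow_zero, mul_one]

end WGOne
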