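import Pool.Agent.Lib.MP_107652_al.One.SpecC

set_option autoImplicit false

namespace WGOne

open WGirth

theorem pHaa : S_Haa := by
  intro X ι _ a b I C f g p h hd
  have hab : a ≠ b := by
    intro hab
    have h1 := h.disj
    rw [hab] at h1
    simp at h1
  have hz := h.zero C h.mem
  have hg := h.gC
  have hu : ({a} ∪ {b} : Finset X) = {a, b} := rfl
  rw [hu, Finset.sum_pair hab] at hz hg
  have hfb : f C b = - f C a := by linarith
  rw [hfb] at hg
  have hp1 : (p : ℤ) ∣ g a - g b := by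
    obtain ⟨k, hk⟩ := hd
    exact ⟨2 * k + 1, by linarith⟩
  have hp2 : (p : ℤ) ∣ 1 := by
    obtain ⟨k, hk⟩ := hg
    obtain ⟨m, hm⟩ := hp1
    refine ⟨m * f C a - 2 * k, ?_⟩
    have h3 : g a * f C a + g b * (- f C a) = (g a - g b) * f C a := by ring
    rw [h3, hm] at hk
    linarith
  have h4 : p ∣ 1 := by exact_mod_cast hp2
  exact h.prime.one_lt.ne' (Nat.dvd_one.mp h4)

end WGOne
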