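import Pool.Agent.Lib.MP_107652_al.One.SpecC

/-!
# Hab: divisibility, three elements
-/

set_option autoImplicit false

namespace WGOne

open WGirth

namespace HabAux

theorem t3_dvd {p : ℕ} (hp : 2 ≤ p) {x : ℤ} (hx : T3 x) (h : (p : ℤ) ∣ x) : x = 0 := by
  rcases hx with h1 | h1 | h1
  · exact h1
  · exfalso
    rw [h1] at h
    have h2 := Int.le_of_dvd one_pos h
    omega
  · exfalso
    rw [h1, dvd_neg] at h
    have h2 := Int.le_of_dvd one_pos h
    omega

theorem t3_neg {x : ℤ} (hx : T3 (-x)) : T3 x := by
  unfold T3 at *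
  omega

end HabAux

open HabAux in
theorem pHab : S_Hab := by
  intro X ι _ a b b' I C f g p hbb H h
  have hd := H.disj
  rw [Finset.disjoint_singleton_left, Finset.mem_insert, Finset.mem_singleton, not_or] at hd
  obtain ⟨hab, hab'⟩ := hd
  have hsum : ∀ F : X → ℤ, ∑ v ∈ ({a} ∪ {b, b'} : Finset X), F v = F a + F b + F b' := by
    intro F
    rw [Finset.sum_union H.disj, Finset.sum_singleton, Finset.sum_pair hbb]
    ring
  have hp2 := H.prime.two_le
  have hpZ : Prime (p : ℤ) := Nat.prime_iff_prime_int.mp H.prime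
  obtain ⟨c, hc⟩ := h
  have hz : ∀ i ∈ I, f i a + f i b + f i b' = 0 := by
    intro i hi
    have := H.zero i hi
    rwa [hsum] at this
  have hs1 : ∀ i ∈ I, T3 (f i b') := by
    intro i hi
    have h1 := H.sub i hi {a} (Finset.Subset.refl _) {b} (by simp) (Finset.singleton_nonempty _)
      (Finset.singleton_nonempty _)
    rw [Finset.sum_singleton, Finset.sum_singleton] at h1
    apply t3_neg
    have h2 := hz i hi
    have h3 : - f i b' = f i a + f i b := by linarith
    rw [h3]
    exact h1
  have hs2 : ∀ i ∈ I, T3 (f i b) := by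
    intro i hi
    have h1 := H.sub i hi {a} (Finset.Subset.refl _) {b'} (by simp) (Finset.singleton_nonempty _)
      (Finset.singleton_nonempty _)
    rw [Finset.sum_singleton, Finset.sum_singleton] at h1
    apply t3_neg
    have h2 := hz i hi
    have h3 : - f i b = f i a + f i b' := by linarith
    rw [h3]
    exact h1
  -- the element C
  have hC : (p : ℤ) ∣ f C b' * (g b' - g a) - 1 := by
    have h1 := H.gC
    rw [hsum] at h1
    obtain ⟨d, hd⟩ := h1
    have h2 := hz C H.mem
    refine ⟨2 * d + (2 * c + 1) * f C b, ?_⟩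
    have h3 : f C a = - f C b - f C b' := by linarith
    rw [h3] at hd
    have h4 : g b = g a - p - 2 * p * c := by linarith
    rw [h4] at hd
    linear_combination hd
  have hfC : f C b' ≠ 0 := by
    intro h1
    rw [h1, zero_mul, zero_sub, dvd_neg] at hC
    have h2 := Int.le_of_dvd one_pos hC
    omega
  have hng : ¬ (p : ℤ) ∣ g b' - g a := by
    intro h1
    have h2 : (p : ℤ) ∣ 1 := by
      have h3 := dvd_sub (h1.mul_left (f C b')) hC
      have h4 : f C b' * (g b' - g a) - (f C b' * (g b' - g a) - 1) = 1 := by ring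
      rwa [h4] at h3
    have h3 := Int.le_of_dvd one_pos h2
    omega
  -- the other elements
  have hO : ∀ i ∈ I, i ≠ C → f i b' = 0 ∧ f i b = 0 := by
    intro i hi hiC
    have h1 := H.gi i hi hiC
    rw [hsum] at h1
    obtain ⟨d, hd⟩ := h1
    have h2 := hz i hi
    have h3 : f i a = - f i b - f i b' := by linarith
    have h4 : g b = g a - p - 2 * p * c := by linarith
    rw [h3, h4] at hd
    have h5 : (p : ℤ) ∣ f i b' * (g b' - g a) := by
      refine ⟨2 * d + (2 * c + 1) * f i b, ?_⟩
      linear_combination hd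
    have h6 : f i b' = 0 := by
      rcases hpZ.dvd_or_dvd h5 with h7 | h7
      · exact t3_dvd hp2 (hs1 i hi) h7
      · exact absurd h7 hng
    refine ⟨h6, ?_⟩
    rw [h6] at hd
    have hp0 : (p : ℤ) ≠ 0 := hpZ.ne_zero
    have h7 : - ((2 * c + 1) * f i b) = 2 * d := by
      apply mul_left_cancel₀ hp0
      linear_combination hd
    have h8 : (2 : ℤ) ∣ (2 * c + 1) * f i b := by
      rw [← dvd_neg, h7]
      exact dvd_mul_right 2 d
    have h9 : (2 : ℤ) ∣ f i b := by
      have h10 : (2 * c + 1) * f i b = 2 * (c * f i b) + f i b := by ring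
      rw [h10] at h8
      exact (dvd_add_right (dvd_mul_right 2 _)).mp h8
    rcases hs2 i hi with h11 | h11 | h11 <;> omega
  -- the vector κ
  have hk := H.gen (fun v => if v = b then f C b' else if v = b' then - f C b else 0) (by
    intro i hi
    rw [hsum]
    simp only [if_true, if_neg hab, if_neg hab', if_neg hbb.symm]
    by_cases hiC : i = C
    · rw [hiC]
      ring
    · obtain ⟨h1, h2⟩ := hO i hi hiC
      rw [h1, h2]
      ring) a (by simp) b (by simp)
  simp only [if_true, if_neg hab, if_neg hab'] at hk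
  exact hfC hk.symm

end WGOne
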