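import Pool.Agent.Lib.MP_107652_al.One.SpecC

/-!
# Hbb: divisibility, four elements
-/

set_option autoImplicit false

namespace WGOne

open WGirth

namespace HbbAux

/-- `±1` times a number -/
theorem dvd_pm {m t y : ℤ} (ht : t = 1 ∨ t = -1) (h : m ∣ y * t) : m ∣ y := by
  rcases ht with rfl | rfl
  · rwa [mul_one] at h
  · rwa [mul_neg, mul_one, dvd_neg] at h

theorem t3_neg {x : ℤ} (hx : T3 (-x)) : T3 x := by
  unfold T3 at *
  omega

/-- the possible values on the four elements -/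
theorem cls {x1 x2 x3 x4 : ℤ} (h1 : T3 x1) (h2 : T3 x2) (h3 : T3 x3) (h4 : T3 x4)
    (h13 : T3 (x1 + x3)) (h14 : T3 (x1 + x4)) (h23 : T3 (x2 + x3)) (h24 : T3 (x2 + x4))
    (h : x1 + x2 + x3 + x4 = 0) :
    (x1 = 0 ∧ x2 = 0 ∧ x3 = 0 ∧ x4 = 0) ∨
    ((x1 = 1 ∨ x1 = -1) ∧ x2 = -x1 ∧ x3 = 0 ∧ x4 = 0) ∨
    ((x3 = 1 ∨ x3 = -1) ∧ x4 = -x3 ∧ x1 = 0 ∧ x2 = 0) ∨
    ((x1 = 1 ∨ x1 = -1) ∧ x2 = x1 ∧ x3 = -x1 ∧ x4 = -x1) ∨
    ((x1 = 1 ∨ x1 = -1) ∧ x2 = 0 ∧ x3 = -x1 ∧ x4 = 0) ∨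
    ((x1 = 1 ∨ x1 = -1) ∧ x2 = 0 ∧ x3 = 0 ∧ x4 = -x1) ∨
    ((x2 = 1 ∨ x2 = -1) ∧ x1 = 0 ∧ x3 = -x2 ∧ x4 = 0) ∨
    ((x2 = 1 ∨ x2 = -1) ∧ x1 = 0 ∧ x3 = 0 ∧ x4 = -x2) := by
  unfold T3 at *
  have e4 : x4 = -x1 - x2 - x3 := by linarith
  subst e4
  rcases h1 with rfl | rfl | rfl <;> rcases h2 with rfl | rfl | rfl <;>
    rcases h3 with rfl | rfl | rfl <;> omega

end HbbAux

open HbbAux in
theorem pHbb : S_Hbb := by
  intro X ι _ a a' b b' I C f g p haa hbb H h
  have hd := H.disj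
  rw [Finset.disjoint_insert_left, Finset.disjoint_singleton_left, Finset.mem_insert,
    Finset.mem_singleton, Finset.mem_insert, Finset.mem_singleton, not_or, not_or] at hd
  obtain ⟨⟨hab, hab'⟩, ha'b, ha'b'⟩ := hd
  have hsum : ∀ F : X → ℤ, ∑ v ∈ ({a, a'} ∪ {b, b'} : Finset X), F v =
      F a + F a' + F b + F b' := by
    intro F
    rw [Finset.sum_union H.disj, Finset.sum_pair haa, Finset.sum_pair hbb]
    ring
  have hp2 := H.prime.two_le
  have hz : ∀ i ∈ I, f i a + f i a' + f i b + f i b' = 0 := by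
    intro i hi
    have := H.zero i hi
    rwa [hsum] at this
  have mA : ({a} : Finset X) ⊆ {a, a'} := by simp
  have mA' : ({a'} : Finset X) ⊆ {a, a'} := by simp
  have mB : ({b} : Finset X) ⊆ {b, b'} := by simp
  have mB' : ({b'} : Finset X) ⊆ {b, b'} := by simp
  have nA : ({a, a'} : Finset X).Nonempty := Finset.insert_nonempty _ _
  have nB : ({b, b'} : Finset X).Nonempty := Finset.insert_nonempty _ _
  have ns : ∀ x : X, ({x} : Finset X).Nonempty := fun x => Finset.singleton_nonempty x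
  have hcl : ∀ i ∈ I, (f i a = 0 ∧ f i a' = 0 ∧ f i b = 0 ∧ f i b' = 0) ∨
    ((f i a = 1 ∨ f i a = -1) ∧ f i a' = -f i a ∧ f i b = 0 ∧ f i b' = 0) ∨
    ((f i b = 1 ∨ f i b = -1) ∧ f i b' = -f i b ∧ f i a = 0 ∧ f i a' = 0) ∨
    ((f i a = 1 ∨ f i a = -1) ∧ f i a' = f i a ∧ f i b = -f i a ∧ f i b' = -f i a) ∨
    ((f i a = 1 ∨ f i a = -1) ∧ f i a' = 0 ∧ f i b = -f i a ∧ f i b' = 0) ∨
    ((f i a = 1 ∨ f i a = -1) ∧ f i a' = 0 ∧ f i b = 0 ∧ f i b' = -f i a) ∨
    ((f i a' = 1 ∨ f i a' = -1) ∧ f i a = 0 ∧ f i b = -f i a' ∧ f i b' = 0) ∨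
    ((f i a' = 1 ∨ f i a' = -1) ∧ f i a = 0 ∧ f i b = 0 ∧ f i b' = -f i a') := by
    intro i hi
    have h0 := hz i hi
    have e1 := H.sub i hi {a} mA {b} mB (ns a) (ns b)
    have e2 := H.sub i hi {a} mA {b'} mB' (ns a) (ns b')
    have e3 := H.sub i hi {a'} mA' {b} mB (ns a') (ns b)
    have e4 := H.sub i hi {a'} mA' {b'} mB' (ns a') (ns b')
    have e5 := H.sub i hi {a, a'} (Finset.Subset.refl _) {b} mB nA (ns b)
    have e6 := H.sub i hi {a, a'} (Finset.Subset.refl _) {b'} mB' nA (ns b')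
    have e7 := H.sub i hi {a} mA {b, b'} (Finset.Subset.refl _) (ns a) nB
    have e8 := H.sub i hi {a'} mA' {b, b'} (Finset.Subset.refl _) (ns a') nB
    rw [Finset.sum_singleton, Finset.sum_singleton] at e1 e2 e3 e4
    rw [Finset.sum_pair haa, Finset.sum_singleton] at e5 e6
    rw [Finset.sum_pair hbb, Finset.sum_singleton] at e7 e8
    have r5 : f i a + f i a' + f i b = -f i b' := by linarith
    have r6 : f i a + f i a' + f i b' = -f i b := by linarith
    have r7 : f i a + (f i b + f i b') = -f i a' := by linarith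
    have r8 : f i a' + (f i b + f i b') = -f i a := by linarith
    rw [r5] at e5
    rw [r6] at e6
    rw [r7] at e7
    rw [r8] at e8
    exact cls (t3_neg e8) (t3_neg e7) (t3_neg e6) (t3_neg e5) e1 e2 e3 e4 h0
  obtain ⟨c, hc⟩ := h
  -- all values equal modulo `p` is impossible
  have key : (p : ℤ) ∣ g a' - g a → (p : ℤ) ∣ g b' - g a → False := by
    intro h1 h2
    have h3 := H.gC
    rw [hsum] at h3
    have h4 : (p : ℤ) ∣ g b - g a := ⟨-(2 * c) - 1, by linear_combination -hc⟩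
    have h5 := hz C H.mem
    have h6 : (p : ℤ) ∣ g a * f C a + g a' * f C a' + g b * f C b + g b' * f C b' := by
      have h7 := dvd_add (dvd_add (h1.mul_right (f C a')) (h4.mul_right (f C b)))
        (h2.mul_right (f C b'))
      have h8 : (g a' - g a) * f C a' + (g b - g a) * f C b + (g b' - g a) * f C b' =
          g a * f C a + g a' * f C a' + g b * f C b + g b' * f C b' := by
        linear_combination (-g a) * h5
      rwa [h8] at h7
    have h9 : (p : ℤ) ∣ 1 := by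
      have h10 := dvd_sub h6 (dvd_trans (dvd_mul_left (p : ℤ) 2) h3)
      have h11 : g a * f C a + g a' * f C a' + g b * f C b + g b' * f C b' -
          (g a * f C a + g a' * f C a' + g b * f C b + g b' * f C b' - 1) = 1 := by ring
      rwa [h11] at h10
    have h12 := Int.le_of_dvd one_pos h9
    omega
  have hpp : (p : ℤ) ∣ 2 * p := dvd_mul_left _ _
  -- the three types
  have hA : ∀ i ∈ I, i ≠ C → (f i a = 0 ∧ f i a' = 0 ∧ f i b = 0 ∧ f i b' = 0) ∨
      ((2 * p : ℤ) ∣ g a - g a' ∧ f i a' = -f i a ∧ f i b = 0 ∧ f i b' = 0) ∨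
      ((2 * p : ℤ) ∣ g b - g b' ∧ f i b' = -f i b ∧ f i a = 0 ∧ f i a' = 0) ∨
      ((2 * p : ℤ) ∣ g a + g a' - g b - g b' ∧ f i a' = f i a ∧ f i b = -f i a ∧
        f i b' = -f i a) := by
    intro i hi hiC
    have h1 := H.gi i hi hiC
    rw [hsum] at h1
    rcases hcl i hi with h2 | ⟨h2, h3, h4, h5⟩ | ⟨h2, h3, h4, h5⟩ | ⟨h2, h3, h4, h5⟩ |
      ⟨h2, h3, h4, h5⟩ | ⟨h2, h3, h4, h5⟩ | ⟨h2, h3, h4, h5⟩ | ⟨h2, h3, h4, h5⟩
    · exact Or.inl h2
    · refine Or.inr (Or.inl ⟨dvd_pm h2 ?_, h3, h4, h5⟩)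
      rw [h3, h4, h5] at h1
      have h6 : g a * f i a + g a' * -f i a + g b * 0 + g b' * 0 = (g a - g a') * f i a := by ring
      rwa [h6] at h1
    · refine Or.inr (Or.inr (Or.inl ⟨dvd_pm h2 ?_, h3, h4, h5⟩))
      rw [h3, h4, h5] at h1
      have h6 : g a * 0 + g a' * 0 + g b * f i b + g b' * -f i b = (g b - g b') * f i b := by ring
      rwa [h6] at h1
    · refine Or.inr (Or.inr (Or.inr ⟨dvd_pm h2 ?_, h3, h4, h5⟩))
      rw [h3, h4, h5] at h1
      have h6 : g a * f i a + g a' * f i a + g b * -f i a + g b' * -f i a =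
        (g a + g a' - g b - g b') * f i a := by ring
      rwa [h6] at h1
    · refine absurd (dvd_pm h2 ?_) (H.ne a (by simp) b (by simp))
      rw [h3, h4, h5] at h1
      have h6 : g a * f i a + g a' * 0 + g b * -f i a + g b' * 0 = (g a - g b) * f i a := by ring
      rwa [h6] at h1
    · refine absurd (dvd_pm h2 ?_) (H.ne a (by simp) b' (by simp))
      rw [h3, h4, h5] at h1
      have h6 : g a * f i a + g a' * 0 + g b * 0 + g b' * -f i a = (g a - g b') * f i a := by ring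
      rwa [h6] at h1
    · refine absurd (dvd_pm h2 ?_) (H.ne a' (by simp) b (by simp))
      rw [h3, h4, h5] at h1
      have h6 : g a * 0 + g a' * f i a' + g b * -f i a' + g b' * 0 = (g a' - g b) * f i a' := by
        ring
      rwa [h6] at h1
    · refine absurd (dvd_pm h2 ?_) (H.ne a' (by simp) b' (by simp))
      rw [h3, h4, h5] at h1
      have h6 : g a * 0 + g a' * f i a' + g b * 0 + g b' * -f i a' = (g a' - g b') * f i a' := by
        ring
      rwa [h6] at h1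
  have memA : a ∈ ({a, a'} ∪ {b, b'} : Finset X) := by simp
  have memA' : a' ∈ ({a, a'} ∪ {b, b'} : Finset X) := by simp
  have memB : b ∈ ({a, a'} ∪ {b, b'} : Finset X) := by simp
  have memB' : b' ∈ ({a, a'} ∪ {b, b'} : Finset X) := by simp
  -- a vector given by its four values
  have hK : ∀ k1 k2 k3 k4 : ℤ,
      (∀ i ∈ I, k1 * f i a + k2 * f i a' + k3 * f i b + k4 * f i b' = 0) →
      k1 = k2 ∧ k1 = k3 ∧ k1 = k4 := by
    intro k1 k2 k3 k4 hk
    obtain ⟨F, v1, v2, v3, v4⟩ : ∃ F : X → ℤ, F a = k1 ∧ F a' = k2 ∧ F b = k3 ∧ F b' = k4 :=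
      ⟨fun v => if v = a then k1 else if v = a' then k2 else if v = b then k3 else k4,
        by simp, by simp [haa.symm], by simp [Ne.symm hab, Ne.symm ha'b],
        by simp [Ne.symm hab', Ne.symm ha'b', hbb.symm]⟩
    have hg := H.gen F (by
        intro i hi
        rw [hsum, v1, v2, v3, v4]
        exact hk i hi)
    have g1 := hg a memA a' memA'
    have g2 := hg a memA b memB
    have g3 := hg a memA b' memB'
    rw [v1] at g1 g2 g3
    rw [v2] at g1
    rw [v3] at g2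
    rw [v4] at g3
    exact ⟨g1, g2, g3⟩
  by_cases tA : (2 * p : ℤ) ∣ g a - g a'
  · have pA : (p : ℤ) ∣ g a' - g a := by
      have := dvd_trans hpp tA
      rwa [← dvd_neg, neg_sub] at this
    by_cases tB : (2 * p : ℤ) ∣ g b - g b'
    · obtain ⟨d, hd⟩ := tB
      exact key pA ⟨-(2 * c) - 1 - 2 * d, by linear_combination -hc - hd⟩
    by_cases tD : (2 * p : ℤ) ∣ g a + g a' - g b - g b'
    · obtain ⟨d, hd⟩ := tD
      obtain ⟨e, he⟩ := pA
      exact key ⟨e, he⟩ ⟨-(2 * d) + e + 2 * c + 1, by linear_combination -hd + he + hc⟩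
    -- only type A
    have hT : ∀ i ∈ I, i ≠ C → f i b = 0 ∧ f i b' = 0 := by
      intro i hi hiC
      rcases hA i hi hiC with h1 | h1 | h1 | h1
      · exact ⟨h1.2.2.1, h1.2.2.2⟩
      · exact ⟨h1.2.2.1, h1.2.2.2⟩
      · exact absurd h1.1 tB
      · exact absurd h1.1 tD
    have h1 := hK 0 0 (f C b') (-f C b) (by
      intro i hi
      by_cases hiC : i = C
      · rw [hiC]; ring
      · obtain ⟨h2, h3⟩ := hT i hi hiC
        rw [h2, h3]; ring)
    have h2 := hK 0 0 1 0 (by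
      intro i hi
      by_cases hiC : i = C
      · rw [hiC]; linarith [h1.2.2]
      · rw [(hT i hi hiC).1]; ring)
    omega
  by_cases tB : (2 * p : ℤ) ∣ g b - g b'
  · by_cases tD : (2 * p : ℤ) ∣ g a + g a' - g b - g b'
    · obtain ⟨d, hd⟩ := tB
      obtain ⟨e, he⟩ := tD
      exact key ⟨2 * e - 2 * d - 2 * (2 * c + 1), by linear_combination he - hd - 2 * hc⟩
        ⟨-(2 * c) - 1 - 2 * d, by linear_combination -hc - hd⟩
    -- only type B
    have hT : ∀ i ∈ I, i ≠ C → f i a = 0 ∧ f i a' = 0 := by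
      intro i hi hiC
      rcases hA i hi hiC with h1 | h1 | h1 | h1
      · exact ⟨h1.1, h1.2.1⟩
      · exact absurd h1.1 tA
      · exact ⟨h1.2.2.1, h1.2.2.2⟩
      · exact absurd h1.1 tD
    have h1 := hK (f C a') (-f C a) 0 0 (by
      intro i hi
      by_cases hiC : i = C
      · rw [hiC]; ring
      · obtain ⟨h2, h3⟩ := hT i hi hiC
        rw [h2, h3]; ring)
    have h2 := hK 1 0 0 0 (by
      intro i hi
      by_cases hiC : i = C
      · rw [hiC]; linarith [h1.1, h1.2.1]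
      · rw [(hT i hi hiC).1]; ring)
    omega
  -- only type D
  have hT : ∀ i ∈ I, i ≠ C → f i a' = f i a ∧ f i b = -f i a ∧ f i b' = -f i a := by
    intro i hi hiC
    rcases hA i hi hiC with h1 | h1 | h1 | h1
    · obtain ⟨h2, h3, h4, h5⟩ := h1
      rw [h2, h3, h4, h5]
      simp
    · exact absurd h1.1 tA
    · exact absurd h1.1 tB
    · exact h1.2
  have h1 := hK (f C b - f C b') (f C b' - f C b) (f C a' - f C a) (f C a - f C a') (by
    intro i hi
    by_cases hiC : i = C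
    · rw [hiC]; ring
    · obtain ⟨h2, h3, h4⟩ := hT i hi hiC
      rw [h2, h3, h4]; ring)
  have h2 := hK 1 (-1) 0 0 (by
    intro i hi
    by_cases hiC : i = C
    · rw [hiC]; linarith [h1.1, h1.2.1, h1.2.2]
    · obtain ⟨h2, h3, h4⟩ := hT i hi hiC
      rw [h2]; ring)
  omega

end WGOne
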