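import Pool.Agent.Lib.MP_107652_al.One.SpecC

/-!
# Colourings with a moving cone
-/

set_option autoImplicit false

namespace WGOne

open WGirth

namespace MvAux

theorem dg_symm {m : ℕ} {a b : ℂˣ} (h : Dg m a b) (hab : ¬ Even m → a = b) : Dg m b a := by
  rcases h with ⟨h0, h1, h2⟩ | ⟨h0, h1, h2⟩
  · refine Or.inl ⟨h0, ?_, ?_⟩
    · rwa [mul_comm]
    · rwa [mul_comm]
  · rw [hab h0] at h1 h2
    exact Or.inr ⟨h0, h1, h2⟩

theorem one_of_sq {x : ℝ} (hx : 0 ≤ x) (h : x * x = 1) : x = 1 := by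
  rcases mul_self_eq_one_iff.mp h with h1 | h1
  · exact h1
  · rw [h1] at hx
    norm_num at hx

end MvAux

open MvAux in
theorem pMv : S_Ana → S_Mv := by
  intro hAna S V Λ comp z q hcs hco hq hna
  have one_norm : ∀ w : V, ‖(z w : ℂ)‖ ≠ 1 → z w ≠ 1 := by
    intro w hw h
    apply hw
    rw [h]
    simp
  have hz : z ≠ 1 := by
    rintro rfl
    exact one_norm q hq rfl
  have hzq : z q ≠ 1 := one_norm q hq
  have two : ∀ s t, Λ.graph.Adj s t → 2 ≤ Λ.label s(s, t) := fun s t h => Λ.two_le _ h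
  rcases hAna S V Λ comp z hcs hz hna with ⟨P, ⟨s1, hs1, hs1'⟩, ⟨t1, ht1, ht1'⟩, hP⟩ | ⟨u, hu, hU⟩
  · have hodd : ∀ s t, Λ.graph.Adj s t → ¬ Even (Λ.label s(s, t)) → z (comp s) = z (comp t) := by
      intro s t hst h0
      by_contra hne
      exact h0 (hcs.even_out s t hst fun h => hne (by rw [h]))
    have nrm : ∀ s t, Λ.graph.Adj s t → P s → ¬ P t → z (comp s) ≠ 1 → z (comp t) ≠ 1 →
        ‖(z (comp s) : ℂ)‖ * ‖(z (comp t) : ℂ)‖ = 1 := by
      intro s t hst h1 h2 h3 h4
      exact Dg.norm (hP s t hst h1 h2 h3 h4) (two s t hst) (hodd s t hst)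
    have key : ∀ s t, comp s = comp t → ‖(z (comp s) : ℂ)‖ ≠ 1 → P s → P t := by
      intro s t hst hn hs
      by_contra ht
      obtain ⟨a, b, hab, ha, hb, hPa, hPb⟩ := hcs.conn P s t hst hs ht
      have hza := one_norm _ hn
      have h1 := nrm a b hab hPa hPb (by rw [ha]; exact hza) (by rw [hb]; exact hza)
      rw [ha, hb] at h1
      exact hn (one_of_sq (norm_nonneg _) h1)
    obtain ⟨s0, hs0⟩ := hcs.surj q
    by_cases hP0 : P s0
    · refine ⟨P, ?_, ⟨t1, ht1, ht1'⟩, key, hP, nrm⟩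
      intro s hs
      exact key s0 s (by rw [hs0, hs]) (by rw [hs0]; exact hq) hP0
    · refine ⟨fun s => ¬ P s, ?_, ⟨s1, not_not.mpr hs1, hs1'⟩, ?_, ?_, ?_⟩
      · intro s hs hPs
        exact hP0 (key s s0 (by rw [hs0, hs]) (by rw [hs]; exact hq) hPs)
      · intro s t hst hn hs ht
        exact hs (key t s hst.symm (by rw [← hst]; exact hn) ht)
      · intro s t hst h1 h2 h3 h4
        have h5 := hP t s hst.symm (not_not.mp h2) h1 h4 h3
        have h6 : Λ.label s(t, s) = Λ.label s(s, t) := by rw [Sym2.eq_swap]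
        rw [h6] at h5
        exact dg_symm h5 fun h0 => (hodd s t hst h0).symm
      · intro s t hst h1 h2 h3 h4
        rw [mul_comm]
        exact nrm t s hst.symm (not_not.mp h2) h1 h4 h3
  · exfalso
    have hne : comp u ≠ q := by
      intro h
      apply hzq
      rw [← h]
      exact hu
    obtain ⟨s, t, hs, ht, hst⟩ := hco (comp u) hne
    have h1 := hU t s hst.symm ht (by rw [hs]; exact hzq)
    rw [hs] at h1
    have h2 : (z q : ℂ) ^ (Λ.label s(t, s) / 2) = 1 := by
      have := congrArg Units.val h1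
      simpa using this
    have h3 := two t s hst.symm
    exact hq (Complex.norm_eq_one_of_pow_eq_one h2 (by omega))

end WGOne
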