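import Pool.Agent.Lib.MP_107652_al.One.SpecC

/-!
# Perturbation of a character
-/

set_option autoImplicit false

namespace WGOne

open WGirth

namespace PertAux

theorem mul_u2 {a : ℂˣ} (h : ‖(a : ℂ)‖ * 2 ≠ 1) : a * u2 ^ (1 : ℤ) ≠ 1 := by
  intro h1
  apply h
  have h2 := congrArg (fun x : ℂˣ => ‖(x : ℂ)‖) h1
  simp only [Units.val_mul, norm_mul, norm_u2, Units.val_one, norm_one] at h2
  rw [zpow_one] at h2
  exact h2

theorem mul_u2_neg {a : ℂˣ} (h : ‖(a : ℂ)‖ ≠ 2) : a * u2 ^ (-1 : ℤ) ≠ 1 := by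
  intro h1
  apply h
  have h2 := congrArg (fun x : ℂˣ => ‖(x : ℂ)‖) h1
  simp only [Units.val_mul, norm_mul, norm_u2, Units.val_one, norm_one] at h2
  rw [zpow_neg, zpow_one] at h2
  have h3 : ‖(a : ℂ)‖ = ‖(a : ℂ)‖ * (2 : ℝ)⁻¹ * 2 := by ring
  rw [h3, h2, one_mul]

theorem prod_eq (a b : ℂˣ) : a * u2 ^ (1 : ℤ) * (b * u2 ^ (-1 : ℤ)) = a * b := by
  rw [zpow_one, zpow_neg, zpow_one]
  rw [mul_mul_mul_comm, mul_inv_cancel, mul_one]

theorem ne_one {a : ℂˣ} (h : ‖(a : ℂ)‖ * 2 ≠ 1 ∧ ‖(a : ℂ)‖ ≠ 2) (ha : a ≠ 1) {d : ℤ}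
    (hd : d = 1 ∨ d = -1 ∨ d = 0) : a * u2 ^ d ≠ 1 := by
  rcases hd with rfl | rfl | rfl
  · exact mul_u2 h.1
  · exact mul_u2_neg h.2
  · rwa [zpow_zero, mul_one]

end PertAux

open PertAux in
theorem pPert : S_Con → S_Ana → S_Pert := by
  classical
  intro hCon hAna V Γ y v0 hev hNA hcone hy0 hnorm
  have hy1 : y ≠ 1 := by
    intro h
    apply hy0
    rw [h]
    rfl
  rcases hAna V V Γ id y (csG hev) hy1 hNA with ⟨P, ⟨s1, hs1, hs1'⟩, ⟨s2, hs2, hs2'⟩, hdeg⟩ | ⟨u, hu, hdeg⟩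
  · -- first alternative
    simp only [id_eq] at hs1' hs2' hdeg
    obtain ⟨d, hd⟩ : ∃ d : V → ℤ, d = fun v =>
        if P v ∧ y v ≠ 1 ∧ ∃ w, Γ.graph.Adj v w ∧ ¬ P w ∧ y w ≠ 1 then 1
        else if ¬ P v ∧ y v ≠ 1 then -1 else 0 := ⟨_, rfl⟩
    have hd1 : ∀ v w, P v → y v ≠ 1 → Γ.graph.Adj v w → ¬ P w → y w ≠ 1 → d v = 1 := by
      intro v w h1 h2 h3 h4 h5
      rw [hd]
      exact if_pos ⟨h1, h2, w, h3, h4, h5⟩
    have hd2 : ∀ v, ¬ P v → y v ≠ 1 → d v = -1 := by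
      intro v h1 h2
      rw [hd]
      simp only
      rw [if_neg (fun h => h1 h.1), if_pos ⟨h1, h2⟩]
    have hd3 : ∀ v, d v = 1 ∨ d v = -1 ∨ d v = 0 := by
      intro v
      rw [hd]
      simp only
      split_ifs
      · exact Or.inl rfl
      · exact Or.inr (Or.inl rfl)
      · exact Or.inr (Or.inr rfl)
    have hd4 : ∀ v, y v = 1 → d v = 0 := by
      intro v h1
      rw [hd]
      simp only
      rw [if_neg (fun h => h.2.1 h1), if_neg (fun h => h.2 h1)]
    have hne : ∀ v, y v ≠ 1 → y v * u2 ^ d v ≠ 1 := fun v h => ne_one (hnorm v) h (hd3 v)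
    have hne' : ∀ v, y v * u2 ^ d v ≠ 1 → y v ≠ 1 := by
      intro v h h1
      apply h
      rw [hd4 v h1, h1, zpow_zero, mul_one]
    refine ⟨d, ?_, ?_⟩
    · by_cases h : P v0
      · have h1 : s2 ≠ v0 := by
          intro h1
          apply hs2
          rw [h1]
          exact h
        rw [hd1 v0 s2 h hy0 (hcone s2 h1) hs2 hs2']
        norm_num
      · rw [hd2 v0 h hy0]
        norm_num
    · refine hCon V V Γ id (fun v => y v * u2 ^ d v) P (fun s t hst _ => hev s t hst)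
        ⟨s1, hs1, hne s1 hs1'⟩ ⟨s2, hs2, hne s2 hs2'⟩ ?_
      intro s t hst hPs hPt hys hyt
      simp only [id_eq] at hys hyt ⊢
      have h1 := hne' s hys
      have h2 := hne' t hyt
      rw [hd1 s t hPs h1 hst hPt h2, hd2 t hPt h2]
      rcases hdeg s t hst hPs hPt h1 h2 with ⟨h3, h4, h5⟩ | ⟨h3, -⟩
      · refine Or.inl ⟨h3, ?_, ?_⟩
        · rw [prod_eq]
          exact h4
        · rw [prod_eq]
          exact h5
      · exact absurd (hev s t hst) h3
  · -- second alternative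
    simp only [id_eq] at hu hdeg
    obtain ⟨d, hd⟩ : ∃ d : V → ℤ, d = fun v =>
        if v = u then 1 else if Γ.graph.Adj u v ∧ y v ≠ 1 then -1 else 0 := ⟨_, rfl⟩
    have hd1 : d u = 1 := by
      rw [hd]
      exact if_pos rfl
    have hd2 : ∀ v, v ≠ u → Γ.graph.Adj u v → y v ≠ 1 → d v = -1 := by
      intro v h1 h2 h3
      rw [hd]
      simp only
      rw [if_neg h1, if_pos ⟨h2, h3⟩]
    have hd4 : ∀ v, v ≠ u → y v = 1 → d v = 0 := by
      intro v h0 h1
      rw [hd]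
      simp only
      rw [if_neg h0, if_neg (fun h => h.2 h1)]
    have hv0 : v0 ≠ u := by
      intro h
      apply hy0
      rw [h]
      exact hu
    have hadj : Γ.graph.Adj u v0 := (hcone u hv0.symm).symm
    have hdv0 := hd2 v0 hv0 hadj hy0
    refine ⟨d, ?_, ?_⟩
    · rw [hdv0]
      norm_num
    · refine hCon V V Γ id (fun v => y v * u2 ^ d v) (fun v => v = u) (fun s t hst _ => hev s t hst)
        ⟨u, rfl, ?_⟩ ⟨v0, hv0, ?_⟩ ?_
      · simp only [id_eq]
        rw [hd1]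
        exact mul_u2 (hnorm u).1
      · simp only [id_eq]
        exact ne_one (hnorm v0) hy0 (Or.inr (Or.inl hdv0))
      · intro s t hst hs ht hys hyt
        simp only [id_eq] at hys hyt ⊢
        subst hs
        have h2 : y t ≠ 1 := by
          intro h
          apply hyt
          rw [hd4 t ht h, h, zpow_zero, mul_one]
        rw [hd1, hd2 t ht hst h2]
        refine Or.inl ⟨hev s t hst, ?_, ?_⟩
        · rw [prod_eq, hu, one_mul]
          exact h2
        · rw [prod_eq, hu, one_mul]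
          exact hdeg s t hst rfl h2

end WGOne
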