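import Pool.Agent.Lib.MP_107652_al.One.SpecC

set_option autoImplicit false

namespace WGOne

open WGirth

namespace PrAux

/-- The character `j ↦ ζ`, `q ↦ 2`, `q' ↦ 3`, `1` elsewhere. -/
noncomputable def zz {V : Type} [DecidableEq V] (j q q' : V) (ζ : ℂˣ) : V → ℂˣ :=
  fun i => if i = j then ζ else if i = q then u2 else if i = q' then u3 else 1

theorem norm_two : ‖((u2 : ℂˣ) : ℂ)‖ = 2 := by
  have := norm_u2 1
  rwa [zpow_one, zpow_one] at this

theorem norm_three : ‖((u3 : ℂˣ) : ℂ)‖ = 3 := by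
  have := norm_u3 1
  rwa [zpow_one, zpow_one] at this

theorem norm_y {V : Type} [Fintype V] [DecidableEq V] (M : Matrix V V ℤ) (j q q' : V) (ζ : ℂˣ)
    (hqj : q ≠ j) (hq'j : q' ≠ j) (hqq : q ≠ q') (hζ : ‖(ζ : ℂ)‖ = 1) (v : V) :
    ‖((pw M (zz j q q' ζ) v : ℂˣ) : ℂ)‖ = (2 : ℝ) ^ M q v * 3 ^ M q' v := by
  rw [norm_pw]
  have h1 : ∀ i, ‖((zz j q q' ζ i : ℂˣ) : ℂ)‖ ^ M i v =
      (if i = q then (2 : ℝ) ^ M i v else 1) * (if i = q' then (3 : ℝ) ^ M i v else 1) := by
    intro i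
    unfold zz
    by_cases h2 : i = j
    · have h3 : i ≠ q := fun h => hqj (h.symm.trans h2)
      have h4 : i ≠ q' := fun h => hq'j (h.symm.trans h2)
      rw [if_pos h2, if_neg h3, if_neg h4, hζ, one_zpow, mul_one]
    · by_cases h3 : i = q
      · have h4 : i ≠ q' := fun h => hqq (h3.symm.trans h)
        rw [if_neg h2, if_pos h3, if_pos h3, if_neg h4, norm_two, mul_one]
      · by_cases h4 : i = q'
        · rw [if_neg h2, if_neg h3, if_pos h4, if_neg h3, if_pos h4, norm_three, one_mul]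
        · rw [if_neg h2, if_neg h3, if_neg h4, if_neg h3, if_neg h4, Units.val_one, norm_one,
            one_zpow, mul_one]
  simp only [h1]
  rw [Finset.prod_mul_distrib, Finset.prod_ite_eq' Finset.univ q (fun i => (2 : ℝ) ^ M i v),
    Finset.prod_ite_eq' Finset.univ q' (fun i => (3 : ℝ) ^ M i v), if_pos (Finset.mem_univ _),
    if_pos (Finset.mem_univ _)]

/-- comparison of exponents, equal norms -/
theorem cmp_eq {a b x x' : ℤ} {r : ℝ} (h1 : (2 : ℝ) ^ a * 3 ^ b * r = 1)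
    (h2 : (2 : ℝ) ^ x * 3 ^ x' * r = 1) : x = a ∧ x' = b := by
  have hr : r ≠ 0 := by
    rintro rfl
    rw [mul_zero] at h1
    exact zero_ne_one h1
  have h3 : (2 : ℝ) ^ a * 3 ^ b = 2 ^ x * 3 ^ x' := mul_right_cancel₀ hr (h1.trans h2.symm)
  have h4 : (2 : ℝ) ^ (x - a) * 3 ^ (x' - b) = 1 := by
    rw [zpow_sub₀ two_ne_zero, zpow_sub₀ three_ne_zero, div_mul_div_comm, ← h3]
    exact div_self (mul_ne_zero (zpow_ne_zero _ two_ne_zero) (zpow_ne_zero _ three_ne_zero))
  have h5 := two_three h4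
  omega

/-- comparison of exponents, inverse norms -/
theorem cmp_neg {a b x x' : ℤ} (h1 : (2 : ℝ) ^ a * 3 ^ b * (2 ^ x * 3 ^ x') = 1) :
    x = -a ∧ x' = -b := by
  have h4 : (2 : ℝ) ^ (a + x) * 3 ^ (b + x') = 1 := by
    rw [zpow_add₀ two_ne_zero, zpow_add₀ three_ne_zero, ← h1]
    ring
  have h5 := two_three h4
  omega

end PrAux

open PrAux in
theorem pPr : S_Con → S_Mv → S_Pr := by
  intro hCon hMv S V _ _ Γ Λ comp M N C j q q' ζ c D hq hq' hqj hq'j hqq hζ hnζ hex1 hex2 hdeg hlast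
  have hzj : zz j q q' ζ j = ζ := if_pos rfl
  -- the representation of `Λ`
  have hNL : NA Λ (fun s => zz j q q' ζ (comp s)) := by
    refine hCon S V Λ comp (zz j q q' ζ) (fun s => comp s = j → c s) D.even_out ?_ ?_ ?_
    · obtain ⟨s, hs, hcs⟩ := hex1
      refine ⟨s, fun _ => hcs, ?_⟩
      rw [hs, hzj]
      exact hζ
    · obtain ⟨s, hs, hcs⟩ := hex2
      refine ⟨s, fun h => hcs (h hs), ?_⟩
      rw [hs, hzj]
      exact hζ
    · intro s t hst hPs hPt hzs hzt
      have htj : comp t = j := by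
        by_contra h
        exact hPt fun h' => absurd h' h
      have hct : ¬ c t := fun h => hPt fun _ => h
      have hsq : comp s ≠ q := fun h => hct (hlast s t hst (Or.inl h) htj)
      have hsq' : comp s ≠ q' := fun h => hct (hlast s t hst (Or.inr h) htj)
      have hsj : comp s = j := by
        by_contra h
        apply hzs
        unfold zz
        rw [if_neg h, if_neg hsq, if_neg hsq']
      rw [hsj, htj, hzj]
      exact hdeg s t hst hsj htj (hPs hsj) hct
  have hz1 : zz j q q' ζ ≠ 1 := by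
    intro h
    apply hζ
    rw [← hzj, h]
    rfl
  obtain ⟨hNG, -⟩ := D.toG hz1 hNL
  have hny := norm_y M j q q' ζ hqj hq'j hqq hnζ
  obtain ⟨y, hy⟩ : ∃ y : V → ℂˣ, y = pw M (zz j q q' ζ) := ⟨_, rfl⟩
  rw [← hy] at hNG hny
  -- a cone with `M q v1 ≠ 0`
  obtain ⟨v1, hv1, ha⟩ : ∃ v1, Cone Γ v1 ∧ M q v1 ≠ 0 := by
    by_contra hcon
    have h1 := D.sumMN q q
    rw [if_pos rfl, Finset.sum_eq_zero] at h1
    · exact zero_ne_one h1
    · intro v _
      by_cases hv : Cone Γ v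
      · have h2 : M q v = 0 := by
          by_contra h3
          exact hcon ⟨v, hv, h3⟩
        rw [h2, zero_mul]
      · rw [D.Noq hv hq, mul_zero]
  have hn1 : ‖(y v1 : ℂ)‖ ≠ 1 := by
    intro h
    rw [hny] at h
    exact ha (two_three h).1
  obtain ⟨P, hP⟩ := hMv V V Γ id y v1 (csG D.even) (coG hv1) hn1 hNG
  obtain ⟨w, hPw, hyw⟩ := hP.ex
  have hPv1 : P v1 := hP.own v1 rfl
  have hwv1 : w ≠ v1 := by
    rintro rfl
    exact hPw hPv1
  have hne : ∀ v, ‖(y v : ℂ)‖ ≠ 1 → y v ≠ 1 := by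
    intro v hv h
    apply hv
    rw [h, Units.val_one, norm_one]
  have h1w := hP.nrm v1 w (hv1 w hwv1) hPv1 hPw (hne v1 hn1) hyw
  simp only [id] at h1w
  rw [hny v1] at h1w
  have key : ∀ v, Cone Γ v → M q' v1 * M q v - M q v1 * M q' v = 0 := by
    intro v hv
    by_cases hnv : ‖(y v : ℂ)‖ = 1
    · rw [hny] at hnv
      obtain ⟨e1, e2⟩ := two_three hnv
      rw [e1, e2]
      ring
    · by_cases hPv : P v
      · have hvw : w ≠ v := by
          rintro rfl
          exact hPw hPv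
        have h2 := hP.nrm v w (hv w hvw) hPv hPw (hne v hnv) hyw
        simp only [id] at h2
        rw [hny v] at h2
        obtain ⟨e1, e2⟩ := cmp_eq h1w h2
        rw [e1, e2]
        ring
      · have hvv : v ≠ v1 := by
          rintro rfl
          exact hPv hPv1
        have h2 := hP.nrm v1 v (hv1 v hvv) hPv1 hPv (hne v1 hn1) (hne v hnv)
        simp only [id] at h2
        rw [hny v, hny v1] at h2
        obtain ⟨e1, e2⟩ := cmp_neg h2
        rw [e1, e2]
        ring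
  -- the final sum
  have hs1 := D.sumMN q q'
  have hs2 := D.sumMN q' q'
  rw [if_neg hqq] at hs1
  rw [if_pos rfl] at hs2
  have hs : ∑ v, (M q' v1 * M q v - M q v1 * M q' v) * N v q' =
      M q' v1 * ∑ v, M q v * N v q' - M q v1 * ∑ v, M q' v * N v q' := by
    rw [Finset.mul_sum, Finset.mul_sum, ← Finset.sum_sub_distrib]
    exact Finset.sum_congr rfl fun v _ => by ring
  have hs0 : ∑ v, (M q' v1 * M q v - M q v1 * M q' v) * N v q' = 0 := by
    refine Finset.sum_eq_zero fun v _ => ?_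
    by_cases hv : Cone Γ v
    · rw [key v hv, zero_mul]
    · rw [D.Noq hv hq', mul_zero]
  rw [hs0, hs1, hs2] at hs
  apply ha
  linarith

end WGOne
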