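import Pool.Agent.Lib.MP_107652_al.One.SpecC

/-!
# The cone theorem: assembly of Step I
-/

set_option autoImplicit false

namespace WGOne

open WGirth

theorem pStA : S_YN → S_YD → S_BCol → S_EndB → S_FourA → S_HDx → S_HAll → S_StA := by
  classical
  intro hYN hYD hBCol hEndB hFourA hHDx hHAll S V _ _ Γ Λ comp M N C q1 p ω c D hΩ hadm hq1 hne hc
  have hN := hYN S V Γ Λ comp M N C q1 p ω c D hΩ hadm hne hc
  obtain ⟨μ, S1, S2, hY⟩ := hYD S V Γ Λ comp M N C q1 p ω D hΩ hq1 hN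
  by_cases h2 : ∃ v, Cone Γ v ∧ S2 v
  · obtain ⟨P1, hP1⟩ : ∃ P1 : Finset V, ∀ v, v ∈ P1 ↔ Cone Γ v ∧ S1 v :=
      ⟨Finset.univ.filter fun v => Cone Γ v ∧ S1 v, fun v => by simp⟩
    obtain ⟨P2, hP2⟩ : ∃ P2 : Finset V, ∀ v, v ∈ P2 ↔ Cone Γ v ∧ S2 v :=
      ⟨Finset.univ.filter fun v => Cone Γ v ∧ S2 v, fun v => by simp⟩
    obtain ⟨I, hI⟩ : ∃ I : Finset V, ∀ v, v ∈ I ↔ Cone Γ v ∧ v ≠ q1 :=
      ⟨Finset.univ.filter fun v => Cone Γ v ∧ v ≠ q1, fun v => by simp⟩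
    have hHD := hHDx S V Γ Λ comp M N C q1 p ω μ S1 S2 P1 P2 I D hΩ hq1 hne hY hP1 hP2 hI
    refine hFourA S V Γ Λ comp M N C q1 p ω μ S1 S2 D hΩ hq1 hne hY h2 ?_
    intro a b ha hb hSa hSb hdvd
    have haP : a ∈ P1 := (hP1 a).2 ⟨ha, hSa⟩
    have hbP : b ∉ P1 := fun h => hY.disj b ((hP1 b).1 h).2 hSb
    have h3 := hHAll V V P1 P2 I C _ _ p hHD a haP b ((hP2 b).2 ⟨hb, hSb⟩)
    apply h3
    simp only [haP, hbP, if_true, if_false]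
    have h4 : M C a - -M C b - (p : ℤ) = M C a + M C b - p := by ring
    rw [h4]
    exact hdvd
  · have h3 : ∀ v, Cone Γ v → ¬ S2 v := fun v hv hS => h2 ⟨v, hv, hS⟩
    exact hEndB S V Γ Λ comp M N C q1 p ω μ S1 S2 D hΩ hq1 hne hY h3
      (hBCol S V Γ Λ comp M N C q1 p ω μ S1 S2 D hΩ hq1 hne hY h3)

end WGOne
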