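import Pool.Agent.Lib.MP_107652_al.One.SpecC

/-! # Step II: a maximal good set -/

set_option autoImplicit false

namespace WGOne

open WGirth

theorem pStB : S_ZB → S_ZC → S_StB := by
  intro hZB hZC S V _ _ Γ Λ comp M N C p ω c D hω hc hII
  classical
  obtain ⟨T, hT⟩ : ∃ T : Finset (Finset V), ∀ A, A ∈ T ↔ GA Γ Λ comp C p c A :=
    ⟨(Finset.univ : Finset (Finset V)).filter (fun A => GA Γ Λ comp C p c A), fun A => by simp⟩
  have hne : T.Nonempty := ⟨∅, (hT ∅).mpr
    ⟨fun a ha => absurd ha (Finset.notMem_empty a), fun a ha => absurd ha (Finset.notMem_empty a)⟩⟩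
  obtain ⟨A, hA, hmax⟩ := Finset.exists_max_image T Finset.card hne
  have hGA := (hT A).mp hA
  have hex : ∀ j, HC Γ Λ comp C p j → j ∉ A → ∃ a ∈ A, Γ.graph.Adj a j := by
    intro j hj hjA
    by_contra hno
    have hno' : ∀ a ∈ A, ¬ Γ.graph.Adj a j := fun a ha h1 => hno ⟨a, ha, h1⟩
    have hG : GA Γ Λ comp C p c (insert j A) := by
      refine ⟨?_, ?_⟩
      · intro a ha
        rcases Finset.mem_insert.mp ha with rfl | ha
        · exact hj
        · exact hGA.hc a ha
      · intro a ha a' ha' hadj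
        rcases Finset.mem_insert.mp ha with h1 | h1
        · rcases Finset.mem_insert.mp ha' with h2 | h2
          · exact absurd (h1.trans h2.symm) hadj.ne
          · exact absurd (h1 ▸ hadj.symm) (hno' a' h2)
        · rcases Finset.mem_insert.mp ha' with h2 | h2
          · exact absurd (h2 ▸ hadj) (hno' a h1)
          · exact hGA.col a h1 a' h2 hadj
    have h1 := hmax (insert j A) ((hT _).mpr hG)
    rw [Finset.card_insert_of_notMem hjA] at h1
    omega
  obtain ⟨d, hq, hna⟩ := hZB S V Γ Λ comp M N C p ω c A D hω hc hGA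
  exact hZC S V Γ Λ comp M N C p ω c A d D hω hc hII (fun a ha => (hGA.hc a ha).1) hex hq hna

end WGOne
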