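import Pool.Agent.Lib.MP_107652_al.One.SpecC

/-!
# MP_107652_al, One, module Sub: integer functions with subset sums `0`, `1`, `-1`
-/

set_option autoImplicit false

namespace WGOne

open WGirth

private theorem sub_one {X : Type} [DecidableEq X] {P : Finset X} {f : X → ℤ}
    (h : ∀ U ⊆ P, T3 (∑ v ∈ U, f v)) {v : X} (hv : v ∈ P) : T3 (f v) := by
  have h1 := h {v} (Finset.singleton_subset_iff.mpr hv)
  rwa [Finset.sum_singleton] at h1

private theorem sub_two {X : Type} [DecidableEq X] {P : Finset X} {f : X → ℤ}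
    (h : ∀ U ⊆ P, T3 (∑ v ∈ U, f v)) {v w : X} (hv : v ∈ P) (hw : w ∈ P) (hne : v ≠ w) :
    T3 (f v + f w) := by
  have h1 := h {v, w} (by
    intro x hx
    rcases Finset.mem_insert.mp hx with rfl | hx
    · exact hv
    · rw [Finset.mem_singleton.mp hx]
      exact hw)
  rwa [Finset.sum_pair hne] at h1

theorem pSub : S_Sub := by
  classical
  intro X _ P f h h0
  by_cases hz : ∀ v ∈ P, f v = 0
  · exact Or.inl hz
  · right
    push Not at hz
    obtain ⟨u, hu, hu0⟩ := hz
    have hpos : ∃ a ∈ P, 0 < f a := by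
      by_contra hcon
      push Not at hcon
      exact hu0 ((Finset.sum_eq_zero_iff_of_nonpos hcon).mp h0 u hu)
    have hneg : ∃ b ∈ P, f b < 0 := by
      by_contra hcon
      push Not at hcon
      exact hu0 ((Finset.sum_eq_zero_iff_of_nonneg hcon).mp h0 u hu)
    obtain ⟨a, ha, ha0⟩ := hpos
    obtain ⟨b, hb, hb0⟩ := hneg
    have ha1 : f a = 1 := by
      have h1 := sub_one h ha
      unfold T3 at h1
      omega
    have hb1 : f b = -1 := by
      have h1 := sub_one h hb
      unfold T3 at h1
      omega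
    refine ⟨a, ha, b, hb, ?_, ha1, hb1, fun v hv hva hvb => ?_⟩
    · rintro rfl
      omega
    · have h1 := sub_one h hv
      have h2 := sub_two h hv ha hva
      have h3 := sub_two h hv hb hvb
      unfold T3 at h1 h2 h3
      omega

end WGOne
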