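import Pool.Agent.Lib.MP_107652_al.One.SpecC

/-!
# The cone theorem: two classes modulo `m`
-/

set_option autoImplicit false

namespace WGOne

open WGirth

namespace TwoAux

theorem sum_two {X : Type} (P : Finset X) (f κ : X → ℤ) {a b : X} (ha : a ∈ P)
    (hb : b ∈ P) (hab : a ≠ b) (h1 : f a = 1) (h2 : f b = -1)
    (h0 : ∀ v ∈ P, v ≠ a → v ≠ b → f v = 0) : ∑ v ∈ P, κ v * f v = κ a - κ b := by
  rw [Finset.sum_eq_add_of_mem a b ha hb hab]
  · rw [h1, h2]
    ring
  · intro c hc hcc
    rw [h0 c hc hcc.1 hcc.2, mul_zero]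

theorem sum_filter_mul {X : Type} (P : Finset X) (f : X → ℤ) (p : X → Prop) [DecidablePred p] :
    ∑ v ∈ P.filter p, f v = ∑ v ∈ P, (if p v then 1 else 0) * f v := by
  rw [Finset.sum_filter]
  refine Finset.sum_congr rfl fun v _ => ?_
  by_cases h : p v
  · rw [if_pos h, if_pos h, one_mul]
  · rw [if_neg h, if_neg h, zero_mul]

/-- the indicator of a class modulo `m` is constant on the classes -/
theorem class_ind (m r x y : ℤ) (h : m ∣ x - y) :
    (if m ∣ x - r then (1 : ℤ) else 0) = if m ∣ y - r then 1 else 0 := by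
  have h1 : m ∣ x - r ↔ m ∣ y - r := by
    constructor
    · intro h2
      have h3 := dvd_sub h2 h
      have h4 : x - r - (x - y) = y - r := by ring
      rwa [h4] at h3
    · intro h2
      have h3 := dvd_add h2 h
      have h4 : y - r + (x - y) = x - r := by ring
      rwa [h4] at h3
  by_cases h2 : m ∣ x - r
  · rw [if_pos h2, if_pos (h1.mp h2)]
  · rw [if_neg h2, if_neg fun h3 => h2 (h1.mpr h3)]

end TwoAux

open TwoAux in
theorem pTwo : S_Sub → S_Two := by
  intro hSub X ι _ P I C f g m hm hC hT hz hgi hgC hgen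
  -- the values of `f C`
  have hfC : ∃ b ∈ P, ∃ a ∈ P, b ≠ a ∧ f C b = 1 ∧ f C a = -1 ∧
      ∀ v ∈ P, v ≠ b → v ≠ a → f C v = 0 := by
    rcases hSub X P (f C) (hT C hC) (hz C hC) with h0 | h1
    · exfalso
      have h2 : ∑ v ∈ P, g v * f C v = 0 :=
        Finset.sum_eq_zero fun v hv => by rw [h0 v hv, mul_zero]
      rw [h2, zero_sub, dvd_neg] at hgC
      have h3 := Int.le_of_dvd one_pos hgC
      omega
    · exact h1
  obtain ⟨b, hb, a, ha, hba, hfb, hfa, hf0⟩ := hfC
  have hsumC : ∀ κ : X → ℤ, ∑ v ∈ P, κ v * f C v = κ b - κ a := fun κ =>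
    sum_two P (f C) κ hb ha hba hfb hfa hf0
  have hone : m ∣ g b - g a - 1 := by
    have h := hgC
    rw [hsumC g] at h
    exact h
  have hnot1 : ¬ m ∣ 1 := by
    intro h
    have h3 := Int.le_of_dvd one_pos h
    omega
  -- sums against class functions vanish
  have hsumI : ∀ i ∈ I, i ≠ C → ∀ κ : X → ℤ, (∀ x y, m ∣ g x - g y → κ x = κ y) →
      ∑ v ∈ P, κ v * f i v = 0 := by
    intro i hi hiC κ hκ
    rcases hSub X P (f i) (hT i hi) (hz i hi) with h0 | ⟨x, hx, y, hy, hxy, h1, h2, h3⟩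
    · exact Finset.sum_eq_zero fun v hv => by rw [h0 v hv, mul_zero]
    · have h4 := hgi i hi hiC
      rw [sum_two P (f i) g hx hy hxy h1 h2 h3] at h4
      rw [sum_two P (f i) κ hx hy hxy h1 h2 h3, hκ x y h4, sub_self]
  have hcls : ∀ r : ℤ, ∀ x y, m ∣ g x - g y →
      (fun v => if m ∣ g v - r then (1 : ℤ) else 0) x =
        (fun v => if m ∣ g v - r then (1 : ℤ) else 0) y := fun r x y h =>
    class_ind m r (g x) (g y) h
  refine ⟨a, ha, b, hb, Ne.symm hba, hone, ?_, ?_, ?_⟩
  · intro v0 hv0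
    by_contra hcon
    rw [not_or] at hcon
    obtain ⟨hna, hnb⟩ := hcon
    have h1 : ∀ i ∈ I, ∑ v ∈ P, (fun v => if m ∣ g v - g v0 then (1 : ℤ) else 0) v * f i v = 0 := by
      intro i hi
      by_cases hiC : i = C
      · subst hiC
        rw [hsumC]
        have h2 : ¬ m ∣ g a - g v0 := fun h3 => hna (by
          rw [← dvd_neg, neg_sub]
          exact h3)
        have h4 : ¬ m ∣ g b - g v0 := fun h3 => hnb (by
          rw [← dvd_neg, neg_sub]
          exact h3)
        simp only [if_neg h2, if_neg h4, sub_self]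
      · exact hsumI i hi hiC _ (hcls (g v0))
    have h2 := hgen _ h1 v0 hv0 a ha
    have h3 : ¬ m ∣ g a - g v0 := fun h3 => hna (by
      rw [← dvd_neg, neg_sub]
      exact h3)
    simp only [sub_self, dvd_zero, if_true, if_neg h3] at h2
    exact absurd h2 one_ne_zero
  · intro i hi hiC
    rw [sum_filter_mul]
    exact hsumI i hi hiC _ (hcls (g a))
  · rw [sum_filter_mul]
    have h1 := hsumC (fun v => if m ∣ g v - g a then (1 : ℤ) else 0)
    have h2 : ¬ m ∣ g b - g a := fun h3 => hnot1 (by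
      have h4 := dvd_sub h3 hone
      have h5 : g b - g a - (g b - g a - 1) = 1 := by ring
      rwa [h5] at h4)
    simp only [sub_self, dvd_zero, if_true, if_neg h2] at h1
    rw [h1]
    norm_num

end WGOne
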