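import Pool.Agent.Lib.MP_107652_al.One.SpecC

set_option autoImplicit false

namespace WGOne

open WGirth

namespace XYAux

theorem u2_ne : (u2 : ℂˣ) ≠ 1 := by
  intro h
  have h1 := congrArg Units.val h
  norm_num [u2] at h1

theorem nu2_ne : (-u2⁻¹ : ℂˣ) ≠ 1 := by
  intro h
  have h1 := congrArg Units.val h
  rw [Units.val_neg, Units.val_inv_eq_inv_val] at h1
  norm_num [u2] at h1

theorem norm_u2' : ‖((u2 : ℂˣ) : ℂ)‖ = 2 := by
  norm_num [u2]

theorem neg_one_ne : (-1 : ℂˣ) ≠ 1 := by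
  intro h
  have h1 := congrArg Units.val h
  norm_num at h1

end XYAux

open XYAux

theorem pXY : S_Con → S_Mv → S_XY := by
  intro hCon hMv S V _ _ Γ Λ comp M N C q1 i p ω μ D hω hq1 hq1C hμ hcols hi hE0 hE1
  classical
  obtain ⟨s0, t0, hadj0, hs0, ht0, hl0⟩ := hE0
  obtain ⟨s1, t1, hadj1, hs1, ht1, hl1⟩ := hE1
  have hp3 := hω.three_le
  have hiC : i ≠ C := fun h => hi (h ▸ D.coneC)
  have hiq : i ≠ q1 := fun h => hi (h ▸ hq1)
  have hbig : ∀ s t, Λ.graph.Adj s t → 4 * p ∣ Λ.label s(s, t) → 3 ≤ Λ.label s(s, t) := by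
    intro s t hst hd
    have h1 : 2 ≤ Λ.label s(s, t) := Λ.two_le _ hst
    have h2 := Nat.le_of_dvd (by omega) hd
    omega
  have hμ0 : μ ≠ 0 := by
    rcases hμ with h | h <;> rw [h] <;> decide
  have hu := u2_ne
  have hnu := nu2_ne
  -- the character
  obtain ⟨z, hz⟩ : ∃ z : V → ℂˣ, z = fun j => if j = C then u2 * ω else if j = q1 then u2 else
      if j = i then -u2⁻¹ else 1 := ⟨_, rfl⟩
  have hzC : z C = u2 * ω := by
    rw [hz]
    simp
  have hzq : z q1 = u2 := by
    rw [hz]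
    simp [hq1C]
  have hzi : z i = -u2⁻¹ := by
    rw [hz]
    simp [hiC, hiq]
  have hzo : ∀ j, j ≠ C → j ≠ q1 → j ≠ i → z j = 1 := by
    intro j h1 h2 h3
    rw [hz]
    simp [h1, h2, h3]
  have hNA : NA Λ (fun s => z (comp s)) := by
    refine hCon S V Λ comp z (fun s => comp s ≠ i) D.even_out ?_ ?_ ?_
    · obtain ⟨s, hs⟩ := D.surj q1
      refine ⟨s, ?_, ?_⟩
      · show comp s ≠ i
        rw [hs]
        exact hiq.symm
      · rw [hs, hzq]
        exact hu
    · refine ⟨t0, ?_, ?_⟩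
      · show ¬ comp t0 ≠ i
        rw [not_not]
        exact ht0
      · rw [ht0, hzi]
        exact hnu
    · intro s t hst hPs hPt hzs hzt
      have hPs' : comp s ≠ i := hPs
      have hPt' : comp t = i := not_not.mp hPt
      have hne : comp s ≠ comp t := by rw [hPt']; exact hPs'
      have heven := D.even_out s t hst hne
      by_cases hsC : comp s = C
      · obtain ⟨e1, e2⟩ := D.heavy s0 t0 s t hadj0 hst (by rw [hs0, ht0]; exact hiC.symm)
          (by rw [hsC, hs0]) (by rw [hPt', ht0]) (hbig s0 t0 hadj0 hl0)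
        have hl : 4 * p ∣ Λ.label s(s, t) := by rw [e1, e2]; exact hl0
        have hprod : z (comp s) * z (comp t) = -ω := by
          rw [hsC, hPt', hzC, hzi, mul_neg, mul_comm u2 ω, mul_assoc, mul_inv_cancel, mul_one]
        left
        refine ⟨heven, ?_, ?_⟩
        · rw [hprod]
          exact hω.neg_ne_one
        · rw [hprod]
          exact (hω.four_dvd heven).mpr hl
      · have hsq : comp s = q1 := by
          by_contra hsq
          exact hzs (hzo _ hsC hsq hPs')
        obtain ⟨e1, e2⟩ := D.heavy s1 t1 s t hadj1 hst (by rw [hs1, ht1]; exact hiq.symm)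
          (by rw [hsq, hs1]) (by rw [hPt', ht1]) (hbig s1 t1 hadj1 hl1)
        have hl : 4 * p ∣ Λ.label s(s, t) := by rw [e1, e2]; exact hl1
        have hprod : z (comp s) * z (comp t) = -1 := by
          rw [hsq, hPt', hzq, hzi, mul_neg, mul_inv_cancel]
        left
        refine ⟨heven, ?_, ?_⟩
        · rw [hprod]
          exact neg_one_ne
        · rw [hprod]
          obtain ⟨c, hc⟩ := hl
          rw [hc]
          have h2 : 4 * p * c / 2 = 2 * (p * c) := by
            have : 4 * p * c = 2 * (2 * (p * c)) := by ring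
            rw [this]
            omega
          rw [h2, pow_mul]
          simp
  have hz1 : z ≠ 1 := by
    intro h
    have := congrFun h q1
    rw [hzq] at this
    exact hu this
  obtain ⟨hNG, -⟩ := D.toG hz1 hNA
  obtain ⟨y, hy⟩ : ∃ y : V → ℂˣ, y = pw M z := ⟨_, rfl⟩
  rw [← hy] at hNG
  have hyv : ∀ v, Cone Γ v → y v = (u2 * ω) ^ M C v * u2 ^ M q1 v := by
    intro v hv
    rw [hy]
    unfold pw
    have h1 : ∀ j, z j ^ M j v = (if j = C then (u2 * ω) ^ M C v else 1) *
        (if j = q1 then u2 ^ M q1 v else 1) := by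
      intro j
      by_cases hjC : j = C
      · have hjq : j ≠ q1 := fun h => hq1C (h.symm.trans hjC)
        rw [if_pos hjC, if_neg hjq, mul_one, hjC, hzC]
      · rw [if_neg hjC, one_mul]
        by_cases hjq : j = q1
        · rw [if_pos hjq, hjq, hzq]
        · rw [if_neg hjq]
          by_cases hji : j = i
          · rw [hji, D.Moq i v hi hv, zpow_zero]
          · rw [hzo j hjC hjq hji, one_zpow]
    rw [Finset.prod_congr rfl fun j _ => h1 j, Finset.prod_mul_distrib, Finset.prod_ite_eq',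
      Finset.prod_ite_eq', if_pos (Finset.mem_univ C), if_pos (Finset.mem_univ q1)]
  -- a cone of the second kind
  obtain ⟨v, hv, hvC, hvq⟩ : ∃ v, Cone Γ v ∧ M C v = 0 ∧ M q1 v = μ := by
    by_contra hcon
    push Not at hcon
    have h1 : ∑ v, (M C v + M q1 v) * N v C = 1 := by
      simp only [add_mul]
      rw [Finset.sum_add_distrib, D.sumMN, D.sumMN, if_pos rfl, if_neg hq1C, add_zero]
    have h2 : ∑ v, (M C v + M q1 v) * N v C = 0 := by
      refine Finset.sum_eq_zero fun v _ => ?_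
      by_cases hv : Cone Γ v
      · rcases hcols v hv with ⟨h3, h4⟩ | ⟨h3, h4⟩ | ⟨h3, h4⟩
        · rw [h3, h4, add_zero, zero_mul]
        · exact absurd h4 (hcon v hv h3)
        · rw [h3, h4, neg_add_cancel, zero_mul]
      · rw [D.Noq hv D.coneC, mul_zero]
    rw [h1] at h2
    exact one_ne_zero h2
  obtain ⟨a, ha, haC, haq⟩ : ∃ a, Cone Γ a ∧ M C a = -μ ∧ M q1 a = μ := by
    by_contra hcon
    push Not at hcon
    have h1 : ∑ v, M C v * N v C = 1 := by
      rw [D.sumMN, if_pos rfl]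
    have h2 : ∑ v, M C v * N v C = 0 := by
      refine Finset.sum_eq_zero fun v _ => ?_
      by_cases hv : Cone Γ v
      · rcases hcols v hv with ⟨h3, h4⟩ | ⟨h3, h4⟩ | ⟨h3, h4⟩
        · rw [h3, zero_mul]
        · rw [h3, zero_mul]
        · exact absurd h4 (hcon v hv h3)
      · rw [D.Noq hv D.coneC, mul_zero]
    rw [h1] at h2
    exact one_ne_zero h2
  have hyv' : y v = u2 ^ μ := by
    rw [hyv v hv, hvC, hvq, zpow_zero, one_mul]
  have hya : y a = ω ^ (-μ) := by
    rw [hyv a ha, haC, haq, mul_zpow, mul_comm (u2 ^ (-μ)) (ω ^ (-μ)), mul_assoc, ← zpow_add,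
      neg_add_cancel, zpow_zero, mul_one]
  have hnv : ‖(y v : ℂ)‖ = (2 : ℝ) ^ μ := by
    rw [hyv', norm_u2]
  have h2μ : (2 : ℝ) ^ μ ≠ 1 := fun h => hμ0 (two_zpow.mp h)
  have hnv1 : ‖(y v : ℂ)‖ ≠ 1 := by rw [hnv]; exact h2μ
  have hyv1 : y v ≠ 1 := by
    intro h
    apply hnv1
    rw [h]
    simp
  have hna : ‖(y a : ℂ)‖ = 1 := by
    rw [hya, Units.val_zpow_eq_zpow_val, norm_zpow, hω.norm, one_zpow]
  have hya1 : y a ≠ 1 := by
    rw [hya]
    rcases hμ with h | h
    · rw [h, zpow_neg, zpow_one]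
      intro h1
      exact hω.ne_one (inv_eq_one.mp h1)
    · rw [h, neg_neg, zpow_one]
      exact hω.ne_one
  obtain ⟨P, hP⟩ := hMv V V Γ id y v (csG D.even) (coG hv) hnv1 hNG
  obtain ⟨w, hw, hw1⟩ := hP.ex
  have hPv : P v := hP.own v rfl
  have hav : a ≠ v := by
    intro h
    rw [h, hvC] at haC
    omega
  have hwv : w ≠ v := by
    intro h
    rw [h] at hw
    exact hw hPv
  have h1 : ‖(y v : ℂ)‖ * ‖(y w : ℂ)‖ = 1 := hP.nrm v w (hv w hwv) hPv hw hyv1 hw1
  have hPa : P a := by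
    by_contra hPa
    have h2 : ‖(y v : ℂ)‖ * ‖(y a : ℂ)‖ = 1 := hP.nrm v a (hv a hav) hPv hPa hyv1 hya1
    rw [hna, mul_one] at h2
    exact hnv1 h2
  have hwa : w ≠ a := by
    intro h
    rw [h] at hw
    exact hw hPa
  have h3 : ‖(y a : ℂ)‖ * ‖(y w : ℂ)‖ = 1 := hP.nrm a w (ha w hwa) hPa hw hya1 hw1
  rw [hna, one_mul] at h3
  rw [h3, mul_one] at h1
  exact hnv1 h1

end WGOne
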