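import Pool.Agent.Lib.MP_107652_al.One.SpecC

/-!
# Step I: the character `C ↦ -ω`, `q1 ↦ 2` and its image in `Γ`
-/

set_option autoImplicit false

namespace WGOne

open WGirth

theorem pYN : S_Con → S_YN := by
  intro hCon S V _ _ Γ Λ comp M N C q1 p ω c D hω hA hq1 h
  obtain ⟨z, hz⟩ : ∃ z : V → ℂˣ, z = ch1 C q1 ω := ⟨_, rfl⟩
  have hzC : z C = -ω := by
    rw [hz]
    unfold ch1
    rw [if_pos rfl]
  have hz0 : ∀ i, i ≠ C → i ≠ q1 → z i = 1 := by
    intro i h1 h2
    rw [hz]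
    unfold ch1
    rw [if_neg h1, if_neg h2]
  have hzC1 : z C ≠ 1 := by
    rw [hzC]
    exact hω.neg_ne_one
  have hNA : NA Λ (fun s => z (comp s)) := by
    apply hCon S V Λ comp z (fun s => comp s = C → c s) D.even_out
    · obtain ⟨s, h1, h2⟩ := hA.ex1
      exact ⟨s, fun _ => h2, by rw [h1]; exact hzC1⟩
    · obtain ⟨s, h1, h2⟩ := hA.ex2
      exact ⟨s, fun h3 => h2 (h3 h1), by rw [h1]; exact hzC1⟩
    · intro s t hst hPs hPt hs ht
      have ht1 : comp t = C ∧ ¬ c t := by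
        by_contra h3
        exact hPt fun h4 => by
          by_contra h5
          exact h3 ⟨h4, h5⟩
      obtain ⟨ht1, ht2⟩ := ht1
      by_cases h3 : comp s = C
      · have h4 : ¬ Even (Λ.label s(s, t)) := D.odd_in s t hst (h3.trans ht1.symm)
        rw [h3, hzC, hω.dg_odd h4]
        exact hA.dvd s t hst h3 ht1 (hPs h3) ht2
      · have h4 : comp s = q1 := by
          by_contra h5
          exact hs (hz0 _ h3 h5)
        exact absurd (h t s hst.symm ht1 h4) ht2
  have hz1 : z ≠ 1 := fun h1 => hzC1 (by rw [h1]; rfl)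
  have h2 := (D.toG hz1 hNA).1
  rw [hz, D.pw_ch1 hq1 ω] at h2
  exact h2

end WGOne
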