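import Pool.Agent.Lib.MP_107652_al.One.SpecC

/-!
# The representations of case A
-/

set_option autoImplicit false

namespace WGOne

open WGirth

namespace ZAAux

variable {V : Type}

theorem chA_ne {C : V} {A : Finset V} {ω : ℂˣ} {i : V} (h : chA C A ω i ≠ 1) : i = C ∨ i ∈ A := by
  unfold chA at h
  by_cases h1 : i = C
  · exact Or.inl h1
  · by_cases h2 : i ∈ A
    · exact Or.inr h2
    · rw [if_neg h1, if_neg h2] at h
      exact absurd rfl h

end ZAAux

theorem pZA : S_Con → S_ZA := by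
  intro hCon S V _ _ Γ Λ comp M N C p ω c A D hO hAdm hGA
  have h3 := hO.three_le
  have hzC : chA C A ω C = -ω := by
    unfold chA
    rw [if_pos rfl]
  have hzCne : chA C A ω C ≠ 1 := by
    rw [hzC]
    exact hO.neg_ne_one
  have hCA : C ∉ A := fun h => (hGA.hc C h).1 D.coneC
  have hH : ∀ a ∈ A, ∃ s1 t1, Λ.graph.Adj s1 t1 ∧ comp s1 = C ∧ comp t1 = a ∧
      3 ≤ Λ.label s(s1, t1) := by
    intro a ha
    obtain ⟨-, s1, t1, hst, hs, ht, hd⟩ := hGA.hc a ha
    refine ⟨s1, t1, hst, hs, ht, ?_⟩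
    have h2 : 2 ≤ Λ.label s(s1, t1) := Λ.two_le _ hst
    have h4 := Nat.le_of_dvd (by omega) hd
    omega
  have hU : ∀ a ∈ A, ∀ s t s' t', Λ.graph.Adj s t → Λ.graph.Adj s' t' → comp s = C →
      comp s' = C → comp t = a → comp t' = a → s' = s ∧ t' = t := by
    intro a ha s t s' t' hst hst' hs hs' ht ht'
    obtain ⟨s1, t1, h11, hs1, ht1, hl⟩ := hH a ha
    have hne : comp s1 ≠ comp t1 := by
      rw [hs1, ht1]
      intro h
      rw [h] at hCA
      exact hCA ha
    have e1 := D.heavy s1 t1 s t h11 hst hne (by rw [hs, hs1]) (by rw [ht, ht1]) hl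
    have e2 := D.heavy s1 t1 s' t' h11 hst' hne (by rw [hs', hs1]) (by rw [ht', ht1]) hl
    exact ⟨e2.1.trans e1.1.symm, e2.2.trans e1.2.symm⟩
  refine hCon S V Λ comp (chA C A ω) (fun s => (comp s = C ∧ c s) ∨
    (comp s ∈ A ∧ ∃ s', Λ.graph.Adj s' s ∧ comp s' = C ∧ c s')) D.even_out ?_ ?_ ?_
  · obtain ⟨s, hs, hc⟩ := hAdm.ex1
    exact ⟨s, Or.inl ⟨hs, hc⟩, by rw [hs]; exact hzCne⟩
  · obtain ⟨s, hs, hc⟩ := hAdm.ex2
    refine ⟨s, ?_, by rw [hs]; exact hzCne⟩
    rintro (⟨_, h⟩ | ⟨h, _⟩)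
    · exact hc h
    · rw [hs] at h
      exact hCA h
  · intro s t hst hPs hPt hzs hzt
    have hcsC : comp s = C → c s := by
      intro hs
      rcases hPs with ⟨_, h⟩ | ⟨h, _⟩
      · exact h
      · rw [hs] at h
        exact absurd h hCA
    rcases ZAAux.chA_ne hzs with hs | hs <;> rcases ZAAux.chA_ne hzt with ht | ht
    · have hct : ¬ c t := fun h => hPt (Or.inl ⟨ht, h⟩)
      have hodd := D.odd_in s t hst (hs.trans ht.symm)
      rw [hs, hzC]
      exact (hO.dg_odd hodd _).mpr (hAdm.dvd s t hst hs ht (hcsC hs) hct)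
    · exact absurd (Or.inr ⟨ht, s, hst, hs, hcsC hs⟩) hPt
    · exfalso
      rcases hPs with ⟨h, _⟩ | ⟨_, s', hs's, hs', hcs'⟩
      · rw [h] at hs
        exact hCA hs
      · have h5 := hU (comp s) hs s' s t s hs's hst.symm hs' ht rfl rfl
        refine hPt (Or.inl ⟨ht, ?_⟩)
        rw [h5.1]
        exact hcs'
    · exfalso
      by_cases hst' : comp s = comp t
      · exact hst.ne (D.single s t hst' (hGA.hc _ hs).1)
      · have hadj := D.adj_out s t hst hst'
        obtain ⟨s', hs's, hs', hcs'⟩ : ∃ s', Λ.graph.Adj s' s ∧ comp s' = C ∧ c s' := by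
          rcases hPs with ⟨h, _⟩ | ⟨_, h⟩
          · rw [h] at hs
            exact absurd hs hCA
          · exact h
        obtain ⟨s1, t1, h11, hs1, ht1, -⟩ := hH (comp t) ht
        have htt : t1 = t := D.single t1 t ht1 (by rw [ht1]; exact (hGA.hc _ ht).1)
        rw [htt] at h11
        have hcol := (hGA.col (comp s) hs (comp t) ht hadj s' s s1 t hs's h11 hs' hs1
          rfl rfl).mp hcs'
        exact hPt (Or.inr ⟨ht, s1, h11, hs1, hcol⟩)

end WGOne
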