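import Pool.Agent.Lib.MP_107652_al.One.SpecC

/-!
# MP_107652_al, One: the perturbation of the character of case A
-/

set_option autoImplicit false

namespace WGOne

open WGirth

namespace ZBAux

theorem norm_chA {V : Type} {C : V} {A : Finset V} {p : ℕ} {ω : ℂˣ} (h : Om p ω) (i : V) :
    ∃ n : ℤ, ‖((chA C A ω i : ℂˣ) : ℂ)‖ = (3 : ℝ) ^ n := by
  unfold chA
  by_cases h1 : i = C
  · exact ⟨0, by rw [if_pos h1, h.norm_neg, zpow_zero]⟩
  · by_cases h2 : i ∈ A
    · refine ⟨1, ?_⟩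
      rw [if_neg h1, if_pos h2, ← norm_u3, zpow_one]
    · refine ⟨0, ?_⟩
      rw [if_neg h1, if_neg h2, zpow_zero, Units.val_one, norm_one]

theorem norm_y {V : Type} [Fintype V] {C : V} {A : Finset V} {p : ℕ} {ω : ℂˣ} (h : Om p ω)
    (M : Matrix V V ℤ) (v : V) :
    ∃ n : ℤ, ‖((pw M (chA C A ω) v : ℂˣ) : ℂ)‖ = (3 : ℝ) ^ n := by
  choose e he using norm_chA (C := C) (A := A) h
  refine ⟨∑ i, e i * M i v, ?_⟩
  rw [norm_pw, rzpow_fsum _ _ three_ne_zero]
  exact Finset.prod_congr rfl fun i _ => by rw [he i, zpow_mul]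

end ZBAux

theorem pZB : S_ZA → S_Pert → S_ZB := by
  intro hZA hPert S V _ _ Γ Λ comp M N C p ω c A D hO hAdm hGA
  have hNAL := hZA S V Γ Λ comp M N C p ω c A D hO hAdm hGA
  obtain ⟨z, hzdef⟩ : ∃ z, z = chA C A ω := ⟨_, rfl⟩
  have hzC : z C = -ω := by
    rw [hzdef]
    unfold chA
    rw [if_pos rfl]
  have hz : z ≠ 1 := by
    intro h
    apply hO.neg_ne_one
    rw [← hzC, h, Pi.one_apply]
  have hy3 : ∀ v, ∃ n : ℤ, ‖((pw M z v : ℂˣ) : ℂ)‖ = (3 : ℝ) ^ n := by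
    rw [hzdef]
    exact ZBAux.norm_y hO M
  rw [← hzdef] at hNAL ⊢
  obtain ⟨hNAG, -⟩ := D.toG hz hNAL
  obtain ⟨v0, hv0, hyv0⟩ : ∃ v0, Cone Γ v0 ∧ pw M z v0 ≠ 1 := by
    by_contra h
    push Not at h
    have h1 : pw N (pw M z) C = pw N 1 C := D.pwN_congr (fun v hv => h v hv) D.coneC
    rw [D.pwNM, pw_one, Pi.one_apply, hzC] at h1
    exact hO.neg_ne_one h1
  obtain ⟨d', hd', hNA'⟩ := hPert V Γ (pw M z) v0 D.even hNAG hv0 hyv0 (by
    intro v
    obtain ⟨n, hn⟩ := hy3 v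
    rw [hn]
    constructor
    · intro h
      have h1 : (2 : ℝ) ^ (1 : ℤ) * 3 ^ n = 1 := by
        rw [zpow_one, mul_comm]
        exact h
      have := (two_three h1).1
      omega
    · intro h
      have h1 : (2 : ℝ) ^ (-1 : ℤ) * 3 ^ n = 1 := by
        rw [h, zpow_neg, zpow_one]
        norm_num
      have := (two_three h1).1
      omega)
  have hy' : (fun v => pw M z v * u2 ^ d' v) ≠ 1 := by
    intro h
    have h1 : pw M z v0 * u2 ^ d' v0 = 1 := congrFun h v0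
    obtain ⟨n, hn⟩ := hy3 v0
    have h2 : (2 : ℝ) ^ d' v0 * 3 ^ n = 1 := by
      have h3 := congrArg (fun u : ℂˣ => ‖(u : ℂ)‖) h1
      simp only [Units.val_mul, norm_mul, Units.val_one, norm_one] at h3
      rw [hn, norm_u2] at h3
      rw [mul_comm]
      exact h3
    exact hd' (two_three h2).1
  obtain ⟨hNAL', -⟩ := D.toL hy' hNA'
  have hpw : ∀ i, pw N (fun v => pw M z v * u2 ^ d' v) i = z i * u2 ^ ∑ v, d' v * N v i := by
    intro i
    rw [pw_mul N (fun v => pw M z v) (fun v => u2 ^ d' v) i, pw_zpow]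
    have h1 : pw N (fun v => pw M z v) = z := D.pwNM z
    rw [h1]
  refine ⟨fun i => ∑ v, d' v * N v i, ?_, ?_⟩
  · by_contra h
    push Not at h
    apply hd'
    rw [D.expand d' v0]
    refine Finset.sum_eq_zero fun i _ => ?_
    by_cases hi : Cone Γ i
    · rw [h i hi, zero_mul]
    · rw [D.Moq i v0 hi hv0, mul_zero]
  · have h1 : (fun s => pw N (fun v => pw M z v * u2 ^ d' v) (comp s)) =
        fun s => z (comp s) * u2 ^ ∑ v, d' v * N v (comp s) := funext fun s => hpw (comp s)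
    rw [← h1]
    exact hNAL'

end WGOne
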