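import Pool.Agent.Lib.MP_107652_al.One.SpecC

/-! # The contradiction of Step II -/

set_option autoImplicit false

namespace WGOne

open WGirth

namespace ZCAux

theorem n3 {a b : ℤ} (h : (2 : ℝ) ^ a * (3 * 2 ^ b) = 1) : False := by
  have h1 : (2 : ℝ) ^ (a + b) * 3 ^ (1 : ℤ) = 1 := by
    rw [zpow_add₀ (by norm_num : (2 : ℝ) ≠ 0), zpow_one, ← h]
    ring
  have h2 := (two_three h1).2
  omega

theorem n3' {b : ℤ} (h : (3 : ℝ) * 2 ^ b = 1) : False := by
  refine n3 (a := 0) (b := b) ?_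
  rw [zpow_zero, one_mul, h]

theorem n2 {a b : ℤ} (h : (2 : ℝ) ^ a * 2 ^ b = 1) : a + b = 0 := by
  rw [← zpow_add₀ (by norm_num : (2 : ℝ) ≠ 0)] at h
  exact two_zpow.mp h

end ZCAux

open ZCAux

theorem pZC : S_Mv → S_ZC := by
  intro hMv S V _ _ Γ Λ comp M N C p ω c A d D hω hc hII hAc hmax hq hna
  classical
  obtain ⟨z, hz⟩ : ∃ z : V → ℂˣ, z = fun i => chA C A ω i * u2 ^ d i := ⟨_, rfl⟩
  have hna' : NA Λ (fun s => z (comp s)) := by
    rw [hz]
    exact hna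
  have hCA : C ∉ A := fun h1 => hAc C h1 D.coneC
  have hzC : z C = -ω * u2 ^ d C := by
    rw [hz]
    simp [chA]
  have hzA : ∀ a ∈ A, z a = u3 * u2 ^ d a := by
    intro a ha
    have h1 : a ≠ C := fun h1 => hCA (h1 ▸ ha)
    rw [hz]
    simp [chA, h1, ha]
  have hzO : ∀ j, j ≠ C → j ∉ A → z j = u2 ^ d j := by
    intro j h1 h2
    rw [hz]
    simp [chA, h1, h2]
  have nC : ‖(z C : ℂ)‖ = (2 : ℝ) ^ d C := by
    rw [hzC, Units.val_mul, norm_mul, hω.norm_neg, one_mul, norm_u2]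
  have nA : ∀ a ∈ A, ‖(z a : ℂ)‖ = 3 * (2 : ℝ) ^ d a := by
    intro a ha
    have h1 : ‖((u3 : ℂˣ) : ℂ)‖ = 3 := by
      have := norm_u3 1
      rwa [zpow_one, zpow_one] at this
    rw [hzA a ha, Units.val_mul, norm_mul, norm_u2, h1]
  have nO : ∀ j, j ≠ C → j ∉ A → ‖(z j : ℂ)‖ = (2 : ℝ) ^ d j := by
    intro j h1 h2
    rw [hzO j h1 h2, norm_u2]
  have star : ∀ j, j ≠ C → z j ≠ 1 → ‖(z j : ℂ)‖ ≠ 1 := by
    intro j h1 h2 h3
    by_cases h4 : j ∈ A
    · rw [nA j h4] at h3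
      exact n3' h3
    · rw [nO j h1 h4] at h3
      rw [hzO j h1 h4, two_zpow.mp h3, zpow_zero] at h2
      exact h2 rfl
  have one_of : ∀ {x : V}, ‖(z x : ℂ)‖ ≠ 1 → z x ≠ 1 := by
    intro x h1 h2
    rw [h2] at h1
    exact h1 (by simp)
  by_cases hd : d C = 0
  · -- the value at `C` is `-ω`
    have hzC' : z C = -ω := by rw [hzC, hd, zpow_zero, mul_one]
    have nC' : ‖(z C : ℂ)‖ = 1 := by rw [nC, hd, zpow_zero]
    have hC1 : z C ≠ 1 := by rw [hzC']; exact hω.neg_ne_one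
    obtain ⟨q, hqc, hdq⟩ := hq
    have hqC : q ≠ C := fun h1 => hdq (h1 ▸ hd)
    have hqA : q ∉ A := fun h1 => hAc q h1 hqc
    have nq : ‖(z q : ℂ)‖ ≠ 1 := by
      rw [nO q hqC hqA]
      exact fun h1 => hdq (two_zpow.mp h1)
    obtain ⟨P, hP⟩ := hMv S V Λ comp z q D.cs (D.coL hqc) nq hna'
    have key : ∀ s t, Λ.graph.Adj s t → comp s = q → comp t = C → P t := by
      intro s t hst hs ht
      by_contra hnt
      have h1 := hP.nrm s t hst (hP.own s hs) hnt (by rw [hs]; exact one_of nq)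
        (by rw [ht]; exact hC1)
      rw [hs, ht, nC', mul_one] at h1
      exact nq h1
    have hfib : ∀ s, comp s = C → P s := by
      intro s0 hs0
      by_contra hn0
      by_cases hall : ∃ s, comp s = C ∧ P s
      · have hadm : Adm Λ comp C p P := by
          refine ⟨hall, ⟨s0, hs0, hn0⟩, ?_⟩
          intro s t hst hs ht h1 h2
          have h3 := hP.deg s t hst h1 h2 (by rw [hs]; exact hC1) (by rw [ht]; exact hC1)
          have h4 := D.odd_in s t hst (hs.trans ht.symm)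
          rw [hs, ht, hzC'] at h3
          exact (hω.dg_odd h4 _).mp h3
        obtain ⟨-, s, t, hst, hs, ht, h1⟩ := hII P hadm q hqc hqC
        exact h1 (key t s hst.symm ht hs)
      · obtain ⟨s, t, hs, ht, hst⟩ := D.coL hqc C (Ne.symm hqC)
        exact hall ⟨t, ht, key s t hst hs ht⟩
    obtain ⟨t0, hn0, hz0⟩ := hP.ex
    have hj : comp t0 ≠ C := fun h1 => hn0 (hfib t0 h1)
    have hst := star _ hj hz0
    obtain ⟨s, t, hs, ht, hadj⟩ := D.coL D.coneC (comp t0) hj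
    have hnt : ¬ P t := fun h1 => hn0 (hP.mono t t0 ht (by rw [ht]; exact hst) h1)
    have h1 := hP.nrm s t hadj (hfib s hs) hnt (by rw [hs]; exact hC1) (by rw [ht]; exact hz0)
    rw [hs, ht, nC', one_mul] at h1
    exact hst h1
  · have nC' : ‖(z C : ℂ)‖ ≠ 1 := by
      rw [nC]
      exact fun h1 => hd (two_zpow.mp h1)
    obtain ⟨P, hP⟩ := hMv S V Λ comp z C D.cs (D.coL D.coneC) nC' hna'
    obtain ⟨t0, hn0, hz0⟩ := hP.ex
    obtain ⟨j, hjt⟩ : ∃ j, comp t0 = j := ⟨_, rfl⟩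
    rw [hjt] at hz0
    have hj : j ≠ C := fun h1 => hn0 (hP.own t0 (hjt.trans h1))
    have hst := star _ hj hz0
    have hfib : ∀ t, comp t = j → ¬ P t := fun t ht h1 =>
      hn0 (hP.mono t t0 (ht.trans hjt.symm) (by rw [ht]; exact hst) h1)
    obtain ⟨s1, t1, hs1, ht1, hadj⟩ := D.coL D.coneC j hj
    have h1 := hP.nrm s1 t1 hadj (hP.own s1 hs1) (hfib t1 ht1) (by rw [hs1]; exact one_of nC')
      (by rw [ht1]; exact hz0)
    have hdg := hP.deg s1 t1 hadj (hP.own s1 hs1) (hfib t1 ht1) (by rw [hs1]; exact one_of nC')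
      (by rw [ht1]; exact hz0)
    rw [hs1, ht1, nC] at h1
    have hjA : j ∉ A := by
      intro h2
      rw [nA j h2] at h1
      exact n3 h1
    rw [nO j hj hjA] at h1
    have hsum := n2 h1
    have hprod : z C * z j = -ω := by
      rw [hzC, hzO j hj hjA, mul_assoc, ← zpow_add, hsum, zpow_zero, mul_one]
    have hne : comp s1 ≠ comp t1 := by rw [hs1, ht1]; exact Ne.symm hj
    have heven := D.even_out s1 t1 hadj hne
    rw [hs1, ht1] at hdg
    have h4p : 4 * p ∣ Λ.label s(s1, t1) := by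
      rcases hdg with ⟨-, -, h2⟩ | ⟨h2, -, -⟩
      · rw [hprod] at h2
        exact (hω.four_dvd heven).mp h2
      · exact absurd heven h2
    have h3 : 3 ≤ Λ.label s(s1, t1) := by
      have h5 := Λ.two_le s(s1, t1) hadj
      have h6 := Nat.le_of_dvd (by omega) h4p
      have h7 := hω.three_le
      omega
    have hncone : ¬ Cone Γ j := by
      intro hjc
      obtain ⟨⟨s, t, hst', hs, ht, h5⟩, s', t', hst'', hs', ht', h6⟩ := hII c hc j hjc hj
      have h7 := D.heavy s1 t1 s t hadj hst' hne (hs.trans hs1.symm) (ht.trans ht1.symm) h3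
      have h8 := D.heavy s1 t1 s' t' hadj hst'' hne (hs'.trans hs1.symm) (ht'.trans ht1.symm) h3
      rw [h7.1] at h5
      rw [h8.1] at h6
      exact h6 h5
    obtain ⟨a, ha, haj⟩ := hmax j ⟨hncone, s1, t1, hadj, hs1, ht1, h4p⟩ hjA
    have haC : a ≠ C := fun h2 => hCA (h2 ▸ ha)
    have na1 : ‖(z a : ℂ)‖ ≠ 1 := by
      rw [nA a ha]
      exact fun h2 => n3' h2
    obtain ⟨s2, t2, hs2, ht2, hadj2⟩ := D.coL D.coneC a haC
    have hPt2 : P t2 := by
      by_contra hn2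
      have h5 := hP.nrm s2 t2 hadj2 (hP.own s2 hs2) hn2 (by rw [hs2]; exact one_of nC')
        (by rw [ht2]; exact one_of na1)
      rw [hs2, ht2, nC, nA a ha] at h5
      exact n3 h5
    obtain ⟨s3, t3, hs3, ht3, hadj3⟩ := D.adj_ex a j haj
    have hPs3 : P s3 := hP.mono t2 s3 (ht2.trans hs3.symm) (by rw [ht2]; exact na1) hPt2
    have h5 := hP.nrm s3 t3 hadj3 hPs3 (hfib t3 ht3) (by rw [hs3]; exact one_of na1)
      (by rw [ht3]; exact hz0)
    rw [hs3, ht3, nA a ha, nO j hj hjA, mul_comm] at h5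
    exact n3 h5

end WGOne
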