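import Pool.Agent.Lib.MP_107652_al.One.AltE
import Pool.Agent.Lib.MP_107652_al.One.AltO
import Pool.Agent.Lib.MP_107652_al.One.ConC
import Pool.Agent.Lib.MP_107652_al.One.Ana
import Pool.Agent.Lib.MP_107652_al.One.Mv
import Pool.Agent.Lib.MP_107652_al.One.Pert
import Pool.Agent.Lib.MP_107652_al.One.ZA
import Pool.Agent.Lib.MP_107652_al.One.ZB
import Pool.Agent.Lib.MP_107652_al.One.ZC
import Pool.Agent.Lib.MP_107652_al.One.StB
import Pool.Agent.Lib.MP_107652_al.One.YN
import Pool.Agent.Lib.MP_107652_al.One.YD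
import Pool.Agent.Lib.MP_107652_al.One.Pr
import Pool.Agent.Lib.MP_107652_al.One.Dc
import Pool.Agent.Lib.MP_107652_al.One.Sub
import Pool.Agent.Lib.MP_107652_al.One.Two
import Pool.Agent.Lib.MP_107652_al.One.BSub
import Pool.Agent.Lib.MP_107652_al.One.Cls
import Pool.Agent.Lib.MP_107652_al.One.BCol
import Pool.Agent.Lib.MP_107652_al.One.XY
import Pool.Agent.Lib.MP_107652_al.One.EndB
import Pool.Agent.Lib.MP_107652_al.One.FourA
import Pool.Agent.Lib.MP_107652_al.One.HDx
import Pool.Agent.Lib.MP_107652_al.One.HBig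
import Pool.Agent.Lib.MP_107652_al.One.Haa
import Pool.Agent.Lib.MP_107652_al.One.Hab
import Pool.Agent.Lib.MP_107652_al.One.Hbb
import Pool.Agent.Lib.MP_107652_al.One.HAll
import Pool.Agent.Lib.MP_107652_al.One.StA
import Pool.Agent.Lib.MP_107652_al.One.FinC

/-!
# The cone theorem
-/

set_option autoImplicit false

namespace WGOne

open WGirth

/-- **The cone theorem.** There is no `ConeData`. -/
theorem cone {S V : Type} [Fintype V] [DecidableEq V] (Γ : LGraph V) (Λ : LGraph S)
    (comp : S → V) (M N : Matrix V V ℤ) (C : V) : ConeData Γ Λ comp M N C → False := by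
  have con : S_Con := pCon pAltE pAltO
  have ana : S_Ana := pAna pAltE pAltO
  have mv : S_Mv := pMv ana
  have stB : S_StB := pStB (pZB (pZA con) (pPert con ana)) (pZC mv)
  have dc : S_Dc := pDc mv (pPr con mv)
  have two : S_Two := pTwo pSub
  have bCol : S_BCol := pBCol (pBSub con dc) two (pCls con mv)
  have endB : S_EndB := pEndB con mv (pXY con mv)
  have hAll : S_HAll := pHAll two pHBig pHaa pHab pHbb
  have stA : S_StA := pStA (pYN con) (pYD mv) bCol endB (pFourA con mv) (pHDx con dc) hAll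
  exact pFinC stA stB S V Γ Λ comp M N C

end WGOne
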