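import Pool.Agent.Lib.MP_107652_al.One.SpecB

/-!
# MP_107652_al, One: the data of the cone over an odd component
-/

set_option autoImplicit false

open Finset

namespace WGOne

open WGirth WGTwin

/-- a property which changes along a walk changes along an edge of the walk -/
private theorem ConeEx_walk {S : Type} (G : SimpleGraph S) (Q : S → Prop) {x y : S}
    (p : G.Walk x y) : Q x → ¬ Q y →
      ∃ a b, G.Adj a b ∧ G.Reachable x a ∧ Q a ∧ ¬ Q b := by
  induction p with
  | nil => exact fun h1 h2 => absurd h1 h2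
  | @cons u v w h p ih =>
    intro h1 h2
    by_cases h3 : Q v
    · obtain ⟨a, b, hab, hr, ha, hb⟩ := ih h3 h2
      exact ⟨a, b, hab, h.reachable.trans hr, ha, hb⟩
    · exact ⟨u, v, h, SimpleGraph.Reachable.refl u, h1, h3⟩

/-- the first edge of a path -/
private theorem ConeEx_first {S : Type} (G : SimpleGraph S) {x y : S} (h : G.Reachable x y)
    (hxy : x ≠ y) : ∃ b, G.Adj x b := by
  obtain ⟨p⟩ := h
  cases p with
  | nil => exact absurd rfl hxy
  | @cons u v w h p => exact ⟨v, h⟩

private theorem ConeEx_zs {ι : Type} (s : Finset ι) (f : ι → ℤ) (z : ℂˣ) :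
    ∏ v ∈ s, z ^ f v = z ^ ∑ v ∈ s, f v := by
  classical
  induction s using Finset.induction_on with
  | empty => simp
  | insert a s ha ih => rw [Finset.prod_insert ha, Finset.sum_insert ha, zpow_add, ih]

private theorem ConeEx_prod {V : Type} [Fintype V] [DecidableEq V] (M N : Matrix V V ℤ)
    (h : M * N = 1) (z : V → ℂˣ) (hz : pw M z = 1) : z = 1 := by
  funext i
  have h1 : ∏ v, (pw M z v) ^ N v i = z i := by
    have h2 : ∀ v, (pw M z v) ^ N v i = ∏ j, z j ^ (M j v * N v i) := by
      intro v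
      rw [pw, ← Finset.prod_zpow]
      exact Finset.prod_congr rfl fun j _ => (zpow_mul _ _ _).symm
    rw [Finset.prod_congr rfl fun v _ => h2 v, Finset.prod_comm]
    have h3 : ∀ j, ∏ v, z j ^ (M j v * N v i) = z j ^ (M * N) j i := by
      intro j
      rw [Matrix.mul_apply]
      exact ConeEx_zs Finset.univ (fun v => M j v * N v i) (z j)
    rw [Finset.prod_congr rfl fun j _ => h3 j, h, Finset.prod_eq_single i]
    · rw [Matrix.one_apply_eq, zpow_one]
    · intro j _ hj
      rw [Matrix.one_apply_ne hj, zpow_zero]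
    · intro hi
      exact absurd (Finset.mem_univ _) hi
  rw [← h1, hz]
  simp

/-- The data of the cone over an odd component. -/
theorem coneEx : Red → SolTwo → NoK → ConeEx := by
  intro hRed hTwo hNoK V S _ _ _ _ Γ Λ comp M N hD s0 t0 hst hMin _
  obtain ⟨hMN, hNM, hfin⟩ := hRed V S Γ Λ comp M N hD (comp s0) (hNoK V S Γ Λ comp M N hD s0 t0 hst)
  have hodd : ∀ s t, (oddGraph Λ).Adj s t → comp s = comp t := fun s t h =>
    (hD.cmap.iff s t).2 h.reachable
  have hsame : ∀ s t, comp s = comp t → SameC Λ s t := fun s t h => (hD.cmap.iff s t).1 h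
  have hsurj : Function.Surjective (fun s : {s // InU Γ (comp s0) (comp s)} =>
      (⟨comp s.1, s.2⟩ : {v // InU Γ (comp s0) v})) := by
    rintro ⟨v, hv⟩
    obtain ⟨s, hs⟩ := hD.cmap.surj v
    subst hs
    exact ⟨⟨s, hv⟩, rfl⟩
  have hev' : ∀ s t, (sub Γ (InU Γ (comp s0))).graph.Adj s t →
      Even ((sub Γ (InU Γ (comp s0))).label s(s, t)) := fun s t h => hD.even s.1 t.1 h
  have hst0 : comp s0 = comp t0 := hodd s0 t0 hst
  have ht0 : InU Γ (comp s0) (comp t0) := by
    rw [← hst0]
    exact inU_self Γ (comp s0)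
  refine ⟨fun s => ⟨comp s.1, s.2⟩, M.submatrix Subtype.val Subtype.val,
    N.submatrix Subtype.val Subtype.val, ⟨comp s0, inU_self Γ (comp s0)⟩, ?_⟩
  refine
    { even := hev'
      surj := hsurj
      odd_in := ?_
      even_out := ?_
      adj_out := ?_
      adj_ex := ?_
      heavy := ?_
      conn := ?_
      single := ?_
      coneC := ?_
      bridge := ?_
      MN := hMN
      NM := hNM
      Moq := ?_
      na := ?_ }
  · -- odd_in
    intro s t hadj hc hev
    have hc' : comp s.1 = comp t.1 := congrArg Subtype.val hc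
    exact hD.nice.ev s.1 t.1 hadj hev (hsame _ _ hc')
  · -- even_out
    intro s t hadj hc
    by_contra hev
    exact hc (Subtype.ext (hodd s.1 t.1 ⟨hadj, hev⟩))
  · -- adj_out
    intro s t hadj hc
    exact (hD.adj (comp s.1) (comp t.1)).2 ⟨fun h => hc (Subtype.ext h), s.1, t.1, rfl, rfl, hadj⟩
  · -- adj_ex
    rintro ⟨i, hi⟩ ⟨j, hj⟩ hadj
    obtain ⟨-, s, t, h1, h2, h3⟩ := (hD.adj i j).1 hadj
    subst h1
    subst h2
    exact ⟨⟨s, hi⟩, ⟨t, hj⟩, rfl, rfl, h3⟩
  · -- heavy
    intro s t s' t' hadj hadj' hc hs ht hl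
    have hs' : comp s'.1 = comp s.1 := congrArg Subtype.val hs
    have ht' : comp t'.1 = comp t.1 := congrArg Subtype.val ht
    have h1 := hD.nice.un s.1 t.1 s'.1 t'.1 hadj hadj' (hsame _ _ hs'.symm) (hsame _ _ ht'.symm)
      (fun h => hc (Subtype.ext ((hD.cmap.iff _ _).2 h)))
      (by
        have h2 : 3 ≤ Λ.label s(s.1, t.1) := hl
        omega)
    exact ⟨Subtype.ext h1.1, Subtype.ext h1.2⟩
  · -- conn
    intro P s t hc hs ht
    have hc' : comp s.1 = comp t.1 := congrArg Subtype.val hc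
    obtain ⟨p⟩ := hsame _ _ hc'
    obtain ⟨a, b, hab, hr, ⟨ha, hPa⟩, hb⟩ := ConeEx_walk (oddGraph Λ)
      (fun x => ∃ h : InU Γ (comp s0) (comp x), P ⟨x, h⟩) p ⟨s.2, hs⟩ (fun h => ht h.2)
    have h1 : comp a = comp s.1 := ((hD.cmap.iff _ _).2 hr).symm
    have h2 : comp b = comp s.1 := (hodd a b hab).symm.trans h1
    have hb' : InU Γ (comp s0) (comp b) := by
      rw [h2]
      exact s.2
    exact ⟨⟨a, ha⟩, ⟨b, hb'⟩, hab.1, Subtype.ext h1, Subtype.ext h2, hPa, fun h => hb ⟨hb', h⟩⟩
  · -- single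
    intro s t hc hcone
    by_contra hne
    have hc' : comp s.1 = comp t.1 := congrArg Subtype.val hc
    obtain ⟨b, hb⟩ := ConeEx_first (oddGraph Λ) (hsame _ _ hc') (fun h => hne (Subtype.ext h))
    have h1 := hMin s.1 b hb
    unfold Cone at hcone
    push Not at hcone
    obtain ⟨w, hw1, hw2⟩ := hcone
    have hw1' : w.1 ≠ comp s.1 := fun h => hw1 (Subtype.ext h)
    have hw2' : ¬ Γ.graph.Adj (comp s.1) w.1 := hw2
    have hu : Γ.graph.Adj (comp s.1) (comp s0) := by
      rcases s.2.1 with h | h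
      · exfalso
        rcases w.2.1 with h3 | h3
        · exact hw1' (h3.trans h.symm)
        · exact hw2' (by rw [h]; exact h3.symm)
      · exact h
    have hwC : Γ.graph.Adj w.1 (comp s0) := by
      rcases w.2.1 with h | h
      · exact absurd (by rw [h]; exact hu) hw2'
      · exact h
    have hlt : Nat.card {x // x = comp s.1 ∨ Γ.graph.Adj (comp s.1) x} <
        Nat.card {x // x = comp s0 ∨ Γ.graph.Adj (comp s0) x} := by
      change Nat.card ↥{x | x = comp s.1 ∨ Γ.graph.Adj (comp s.1) x} <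
        Nat.card ↥{x | x = comp s0 ∨ Γ.graph.Adj (comp s0) x}
      rw [Nat.card_coe_set_eq, Nat.card_coe_set_eq]
      refine Set.ncard_lt_ncard ?_ (Set.toFinite _)
      refine ⟨?_, fun h => ?_⟩
      · rintro x (hx | hx)
        · rw [hx]
          exact Or.inr hu.symm
        · rcases s.2.2 x hx with h | h
          · exact Or.inl h
          · exact Or.inr h.symm
      · rcases h (show w.1 ∈ {x | x = comp s0 ∨ Γ.graph.Adj (comp s0) x} from
          Or.inr hwC.symm) with h3 | h3
        · exact hw1' h3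
        · exact hw2' h3
    omega
  · -- coneC
    intro v hv
    rcases v.2.1 with h | h
    · exact absurd (Subtype.ext h) hv
    · exact h.symm
  · -- bridge
    obtain ⟨c, hc0, hc⟩ := hD.nice.br s0 t0 hst
    refine ⟨fun s => c s.1 = c s0, ⟨s0, inU_self Γ (comp s0)⟩, ⟨t0, ht0⟩, hst.1, rfl,
      Subtype.ext hst0.symm, rfl, fun h => hc0 h.symm, ?_⟩
    intro a b hab ha hb hPa hPb
    have ha' : comp a.1 = comp s0 := congrArg Subtype.val ha
    have hb' : comp b.1 = comp s0 := congrArg Subtype.val hb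
    have hoab : (oddGraph Λ).Adj a.1 b.1 := by
      refine ⟨hab, fun hev => ?_⟩
      exact hD.nice.ev a.1 b.1 hab hev (hsame _ _ (ha'.trans hb'.symm))
    have h1 : s(a.1, b.1) = s(s0, t0) := by
      by_contra h
      have h2 := hc a.1 b.1 hoab h
      exact hPb (h2.symm.trans hPa)
    rcases Sym2.eq_iff.1 h1 with h2 | h2
    · exact ⟨Subtype.ext h2.1, Subtype.ext h2.2⟩
    · exfalso
      have h3 : c a.1 = c s0 := hPa
      rw [h2.1] at h3
      exact hc0 h3.symm
  · -- Moq
    intro o q ho hq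
    by_contra h
    apply ho
    have hdom : Dom Γ q.1 o.1 := hD.domM q.1 o.1 h
    have hoq : o ≠ q := fun h1 => ho (by rw [h1]; exact hq)
    intro v hv
    by_cases hvq : v = q
    · rw [hvq]
      have h1 : Γ.graph.Adj q.1 o.1 := hq o hoq
      exact h1.symm
    · have h1 : Γ.graph.Adj q.1 v.1 := hq v hvq
      rcases hdom v.1 h1 with h2 | h2
      · exact absurd (Subtype.ext h2) hv
      · exact h2.symm
  · -- na
    intro z hz
    have h1 := hTwo {s // InU Γ (comp s0) (comp s)}
      (sub Λ (fun s => InU Γ (comp s0) (comp s)))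
      (fun s => z ⟨comp s.1, s.2⟩) (fun s t h => by
        have h2 : (oddGraph Λ).Adj s.1 t.1 := ⟨h.1, h.2⟩
        have h3 : (⟨comp s.1, s.2⟩ : {v // InU Γ (comp s0) v}) = ⟨comp t.1, t.2⟩ :=
          Subtype.ext (hodd _ _ h2)
        change z ⟨comp s.1, s.2⟩ = z ⟨comp t.1, t.2⟩
        rw [h3]) (fun h => hz (by
        funext v
        obtain ⟨s, hs⟩ := hsurj v
        rw [← hs]
        exact congrFun h s))
    have h2 := hTwo {v // InU Γ (comp s0) v} (sub Γ (InU Γ (comp s0)))
      (pw (M.submatrix Subtype.val Subtype.val) z) (fun s t h => absurd (hev' s t h.1) h.2)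
      (fun h => hz (ConeEx_prod _ _ hMN z h))
    rw [h1, h2, hfin z]

end WGOne
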