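import Pool.Agent.Lib.MP_107652_al.One.SpecB
import Pool.Agent.Lib.MP_107652_al.Twin.PermEx
import Pool.Agent.Lib.MP_107652_al.Twin.DomTr
import Pool.Agent.Lib.MP_107652_al.Twin.DomN

/-!
# MP_107652_al, THEOREM E, part B: existence of the data on one vertex set
-/

set_option autoImplicit false

open Finset

namespace WGOne

open WGirth

/-- In a commutative group the relations hold if the values agree along the odd edges. -/
private theorem DatEx_rel {A : Type} [CommGroup A] (m : ℕ) (a b : A) (h : ¬ Even m → a = b) :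
    alt m a b = alt m b a := by
  by_cases hm : Even m
  · obtain ⟨k, rfl⟩ := hm
    rw [← two_mul, alt_two_mul, alt_two_mul, mul_comm]
  · rw [h hm]

theorem datEx : NiceEx → PreEx0 → DomM0 → AdjIso0 → SolEq → OddEq → DatEx := by
  intro hNice hPre hDomM hAdj hSol _ V S _ _ _ _ Γ Λ hΓ φ
  have nice : Nice Λ := hNice V S Γ Λ hΓ φ
  have hsur : Function.Surjective (oddGraph Λ).connectedComponentMk := fun c => Quot.exists_rep c
  have : Finite (oddGraph Λ).ConnectedComponent := Finite.of_surjective _ hsur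
  let _ : Fintype (oddGraph Λ).ConnectedComponent := Fintype.ofFinite _
  let _ : DecidableEq (oddGraph Λ).ConnectedComponent := Classical.decEq _
  have cm0 : CMap Λ (oddGraph Λ).connectedComponentMk :=
    ⟨hsur, fun s t => SimpleGraph.ConnectedComponent.eq⟩
  obtain ⟨M0, N0, pre, hchar⟩ := hPre V S (oddGraph Λ).ConnectedComponent Γ Λ
    (oddGraph Λ).connectedComponentMk hΓ nice cm0 φ
  obtain ⟨σ, hσ⟩ := WGTwin.permEx V (oddGraph Λ).ConnectedComponent M0 N0 pre.nm pre.mn
  obtain ⟨hcard, hdM⟩ := hDomM V (oddGraph Λ).ConnectedComponent Γ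
    (cg Λ (oddGraph Λ).connectedComponentMk) M0 N0 pre σ hσ
  have hdN := WGTwin.domN WGTwin.domTr V (oddGraph Λ).ConnectedComponent
    (cg Λ (oddGraph Λ).connectedComponentMk) M0 N0 pre.nm σ hdM
  have hadj := hAdj V (oddGraph Λ).ConnectedComponent Γ
    (cg Λ (oddGraph Λ).connectedComponentMk) M0 N0 pre σ hσ hcard hdM hdN
  have hdom : ∀ c r, WGTwin.Dom (cg Λ (oddGraph Λ).connectedComponentMk) (σ c) (σ r) →
      WGTwin.Dom Γ c r := by
    intro c r h j hj
    rcases h (σ j) ((hadj c j).1 hj) with h1 | h1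
    · exact Or.inl (σ.injective h1)
    · exact Or.inr ((hadj j r).2 h1)
  have cm : CMap Λ (fun s => σ.symm ((oddGraph Λ).connectedComponentMk s)) := by
    refine ⟨σ.symm.surjective.comp hsur, fun s t => ?_⟩
    rw [σ.symm.injective.eq_iff]
    exact cm0.iff s t
  refine ⟨fun s => σ.symm ((oddGraph Λ).connectedComponentMk s),
    Matrix.of fun v w => M0 (σ v) w, Matrix.of fun v w => N0 v (σ w), ?_⟩
  refine ⟨hΓ, nice, cm, ?_, ?_, ?_, ?_, ?_, ?_⟩
  · intro v w
    rw [hadj v w]
    constructor
    · rintro ⟨h1, s, t, hs, ht, hst⟩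
      refine ⟨fun h => h1 (by rw [h]), s, t, ?_, ?_, hst⟩
      · simp only [hs, Equiv.symm_apply_apply]
      · simp only [ht, Equiv.symm_apply_apply]
    · rintro ⟨h1, s, t, hs, ht, hst⟩
      refine ⟨fun h => h1 (σ.injective h), s, t, ?_, ?_, hst⟩
      · exact (Equiv.symm_apply_eq σ).1 hs
      · exact (Equiv.symm_apply_eq σ).1 ht
  · ext i j
    rw [Matrix.mul_apply]
    simp only [Matrix.of_apply]
    rw [pre.mn (σ i) (σ j), Matrix.one_apply]
    by_cases hij : i = j
    · rw [if_pos hij, if_pos (by rw [hij])]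
    · rw [if_neg hij, if_neg (fun h => hij (σ.injective h))]
  · ext v w
    rw [Matrix.mul_apply]
    simp only [Matrix.of_apply]
    rw [Equiv.sum_comp σ (fun i => N0 v i * M0 i w), pre.nm v w, Matrix.one_apply]
  · intro c r h
    exact hdom c r (hdM c (σ r) h)
  · intro c r h
    exact hdom c r (hdN r (σ c) h)
  · intro z
    obtain ⟨χ, hχ⟩ := exists_homO Λ
      (fun s => z (σ.symm ((oddGraph Λ).connectedComponentMk s))) (by
        intro s t hst
        refine DatEx_rel _ _ _ (fun hodd => ?_)
        have h1 : (oddGraph Λ).Adj s t := ⟨hst, hodd⟩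
        have h2 : (oddGraph Λ).connectedComponentMk s = (oddGraph Λ).connectedComponentMk t :=
          SimpleGraph.ConnectedComponent.eq.2 h1.reachable
        rw [h2])
    have h1 := hSol V S Γ Λ φ χ
    have h2 : (fun v => χ (φ (gen Γ v))) = pw (Matrix.of fun v w => M0 (σ v) w) z := by
      funext v
      rw [hchar ℂˣ χ (fun i => z (σ.symm i)) hχ v]
      unfold pw
      rw [← Equiv.prod_comp σ (fun i => z (σ.symm i) ^ M0 i v)]
      refine Finset.prod_congr rfl fun i _ => ?_
      rw [Equiv.symm_apply_apply, Matrix.of_apply]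
    have h3 : (fun s => χ (gen Λ s)) =
        fun s => z (σ.symm ((oddGraph Λ).connectedComponentMk s)) := funext hχ
    rw [h2, h3] at h1
    exact h1

end WGOne
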