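import Pool.Agent.Lib.MP_107652_al.One.SpecB
import Pool.Agent.Lib.MP_107652_al.Twin.DegLe
import Pool.Agent.Lib.MP_107652_al.Twin.PermEx
import Pool.Agent.Lib.MP_107652_al.Twin.DomM

/-!
# MP_107652_al, One: (DomM0) the matrix is triangular for domination, with `Pre0`
-/

set_option autoImplicit false

open Finset

namespace WGOne

open WGirth WGTwin

open WGTwin.DomMAux in
theorem domM0 : DomM0 := by
  classical
  intro V W _ _ _ _ Γ Λ M N hpre σ hσ
  obtain ⟨τ, hτ⟩ := WGTwin.permEx W V N M hpre.mn hpre.nm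
  have hM := WGTwin.degLe V W Γ Λ M N hpre.nm hpre.heisM0
  have hN := WGTwin.degLe W V Λ Γ N M hpre.mn hpre.heisN0
  have hle : ∀ v, Nat.card {w // w = v ∨ Γ.graph.Adj v w} ≤
      Nat.card {j // j = σ v ∨ Λ.graph.Adj (σ v) j} := fun v => hM v (σ v) (hσ v)
  have hle' : ∀ i, Nat.card {j // j = i ∨ Λ.graph.Adj i j} ≤
      Nat.card {w // w = τ i ∨ Γ.graph.Adj (τ i) w} := fun i => hN i (τ i) (hτ i)
  have hsum1 : ∑ v, Nat.card {j // j = σ v ∨ Λ.graph.Adj (σ v) j} =
      ∑ i, Nat.card {j // j = i ∨ Λ.graph.Adj i j} :=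
    Equiv.sum_comp σ fun i => Nat.card {j // j = i ∨ Λ.graph.Adj i j}
  have hsum2 : ∑ i, Nat.card {w // w = τ i ∨ Γ.graph.Adj (τ i) w} =
      ∑ v, Nat.card {w // w = v ∨ Γ.graph.Adj v w} :=
    Equiv.sum_comp τ fun v => Nat.card {w // w = v ∨ Γ.graph.Adj v w}
  have hcard : ∀ v, Nat.card {w // w = v ∨ Γ.graph.Adj v w} =
      Nat.card {j // j = σ v ∨ Λ.graph.Adj (σ v) j} := by
    have hs : ∑ v, Nat.card {w // w = v ∨ Γ.graph.Adj v w} =
        ∑ v, Nat.card {j // j = σ v ∨ Λ.graph.Adj (σ v) j} := by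
      refine le_antisymm (Finset.sum_le_sum fun v _ => hle v) ?_
      rw [hsum1, ← hsum2]
      exact Finset.sum_le_sum fun i _ => hle' i
    intro v
    exact (Finset.sum_eq_sum_iff_of_le fun v _ => hle v).mp hs v (Finset.mem_univ v)
  refine ⟨hcard, fun v l hl j hj => ?_⟩
  by_contra hcon
  push Not at hcon
  have hinj := inj Γ Λ M N hpre.nm hpre.heisM0 v (σ v) (hσ v)
  have hsurj : Function.Surjective (Matrix.mulVecLin (Matrix.of
      fun (j : {j // j = σ v ∨ Λ.graph.Adj (σ v) j}) (w : {w // w = v ∨ Γ.graph.Adj v w}) =>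
        (M j.1 w.1 : ℚ))) := by
    rw [← LinearMap.injective_iff_surjective_of_finrank_eq_finrank]
    · exact hinj
    · rw [Module.finrank_fintype_fun_eq_card, Module.finrank_fintype_fun_eq_card]
      have := hcard v
      rwa [Nat.card_eq_fintype_card, Nat.card_eq_fintype_card] at this
  obtain ⟨c, hc⟩ := hsurj (Pi.single ⟨j, Or.inr hj⟩ 1)
  have hin : ∀ k (hk : k = σ v ∨ Λ.graph.Adj (σ v) k),
      ∑ w, (M k w.1 : ℚ) * c w = if k = j then 1 else 0 := by
    intro k hk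
    have h3 := congrFun hc ⟨k, hk⟩
    rw [Pi.single_apply] at h3
    simpa [Matrix.mulVec, dotProduct] using h3
  have hne : σ v ≠ j := hj.ne
  have hyi : ∑ w, (M (σ v) w.1 : ℚ) * c w = 0 := by
    rw [hin (σ v) (Or.inl rfl), if_neg hne]
  have hyj : ∑ w, (M j w.1 : ℚ) * c w = 1 := by
    rw [hin j (Or.inr hj), if_pos rfl]
  have hyl : ∑ w, (M l w.1 : ℚ) * c w = 0 := by
    by_cases hlk : l = σ v ∨ Λ.graph.Adj (σ v) l
    · rw [hin l hlk, if_neg hcon.1.symm]
    · push Not at hlk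
      have h3 := key Γ Λ M hpre.heisM0 v c (σ v) l hlk.1.symm hlk.2
      rw [hyi, mul_zero, mul_eq_zero] at h3
      rcases h3 with h3 | h3
      · exact absurd (by exact_mod_cast h3) (hσ v)
      · exact h3
  have h4 := key Γ Λ M hpre.heisM0 v c l j hcon.1.symm (fun h => hcon.2 h.symm)
  rw [hyl, hyj, mul_zero, mul_one] at h4
  exact hl (by exact_mod_cast h4)

end WGOne
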