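import Pool.Agent.Lib.MP_107652_al.One.SpecA

/-!
# THEOREM E, part A: odd components are trees, heavy edges are unique
-/

set_option autoImplicit false

open Finset

namespace WGOne

open WGirth

private theorem NiceEx_ne : (-1 : ℂˣ) ≠ 1 := by
  intro h
  have h1 := congrArg (fun z : ℂˣ => (z : ℂ)) h
  simp only [Units.val_neg, Units.val_one] at h1
  norm_num at h1

private theorem NiceEx_neg (z : ℂˣ) : -z ≠ z := by
  intro h
  have h1 := congrArg (fun w : ℂˣ => (w : ℂ)) h
  simp only [Units.val_neg] at h1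
  exact z.ne_zero (self_eq_neg.1 h1.symm)

/-- The conclusion of `SignCor` for one labelled graph. -/
private def NiceEx_H {S : Type} (Λ : LGraph S) : Prop := ∀ ε : Sym2 S → ℂˣ,
  (∀ e ∈ Λ.graph.edgeSet, ε e = 1 ∨ ε e = -1) →
  (∀ e ∈ Λ.graph.edgeSet, Λ.label e = 2 → ε e = -1) →
  ∃ (lam : S → ℂˣ) (q : S → S → ℂˣ),
    (∀ s t, (oddGraph Λ).Adj s t → lam t = ε s(s, t) * lam s) ∧
    (∀ s t, Λ.graph.Adj s t → Even (Λ.label s(s, t)) →
      ε s(s, t) * q s t ^ (Λ.label s(s, t) / 2) = 1) ∧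
    (∀ s t, SameC Λ s t → q s t = 1) ∧
    (∀ s s' t t', SameC Λ s s' → SameC Λ t t' → q s t = q s' t')

private theorem NiceEx_ev {S : Type} {Λ : LGraph S} (H : NiceEx_H Λ) (s t : S)
    (hst : Λ.graph.Adj s t) (he : Even (Λ.label s(s, t))) : ¬ SameC Λ s t := by
  intro hc
  obtain ⟨lam, q, _, h2, h3, _⟩ := H (fun _ => -1) (fun _ _ => Or.inr rfl) (fun _ _ _ => rfl)
  have h4 := h2 s t hst he
  rw [h3 s t hc, one_pow, mul_one] at h4
  exact NiceEx_ne h4

private theorem NiceEx_br {S : Type} {Λ : LGraph S} (H : NiceEx_H Λ) (s0 t0 : S)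
    (h0 : (oddGraph Λ).Adj s0 t0) : ∃ c : S → Bool, c s0 ≠ c t0 ∧
    ∀ s t, (oddGraph Λ).Adj s t → s(s, t) ≠ s(s0, t0) → c s = c t := by
  classical
  obtain ⟨lam, q, h1, _, _, _⟩ := H
    (fun e => if e = s(s0, t0) then -1 else if Even (Λ.label e) then -1 else 1)
    (fun e _ => by
      split_ifs
      · exact Or.inr rfl
      · exact Or.inr rfl
      · exact Or.inl rfl)
    (fun e _ h2 => by
      split_ifs with h3 h4
      · rfl
      · rfl
      · exact absurd (by rw [h2]; exact even_two) h4)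
  refine ⟨fun s => decide (lam s = lam s0), ?_, ?_⟩
  · have h2 := h1 s0 t0 h0
    rw [if_pos rfl, neg_one_mul] at h2
    intro h3
    dsimp only at h3
    rw [decide_eq_decide] at h3
    exact NiceEx_neg (lam s0) (h2.symm.trans (h3.1 rfl))
  · intro s t hst hne
    have h2 := h1 s t hst
    rw [if_neg hne, if_neg hst.2, one_mul] at h2
    dsimp only
    rw [h2]

/-- The arithmetic at the end. -/
private theorem NiceEx_arith (k k' : ℕ) (hk : 2 ≤ k) (hk' : 1 ≤ k')
    (h : ∀ x y : ℂˣ, (x = 1 ∨ x = -1) → (y = 1 ∨ y = -1) → (k' = 1 → y = -1) →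
      ∃ Q : ℂˣ, x * Q ^ k = 1 ∧ y * Q ^ k' = 1) : False := by
  rcases Nat.lt_or_ge k' 2 with h1 | h1
  · have h2 : k' = 1 := by omega
    obtain ⟨Q, h3, h4⟩ := h (-(-1) ^ k) (-1) (by
      rcases neg_one_pow_eq_or ℂˣ k with h5 | h5
      · rw [h5]; exact Or.inr rfl
      · rw [h5, neg_neg]; exact Or.inl rfl) (Or.inr rfl) (fun _ => rfl)
    rw [h2, pow_one, neg_one_mul] at h4
    have h5 : Q = -1 := by rw [← h4, neg_neg]
    rw [h5, neg_mul, ← mul_pow, neg_one_mul, neg_neg, one_pow] at h3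
    exact NiceEx_ne h3
  · have hd : 0 < Nat.gcd k k' := Nat.gcd_pos_of_pos_left _ (by omega)
    obtain ⟨a, ha⟩ := Nat.gcd_dvd_left k k'
    obtain ⟨a', ha'⟩ := Nat.gcd_dvd_right k k'
    have hco : Nat.Coprime a a' := by
      have h2 := Nat.coprime_div_gcd_div_gcd hd
      have h3 : k / Nat.gcd k k' = a := Nat.div_eq_of_eq_mul_right hd ha
      have h4 : k' / Nat.gcd k k' = a' := Nat.div_eq_of_eq_mul_right hd ha'
      rwa [h3, h4] at h2
    have key : ∀ Q : ℂˣ, (Q ^ k) ^ a' = (Q ^ k') ^ a := by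
      intro Q
      rw [← pow_mul, ← pow_mul]
      have h2 : k * a' = k' * a := by
        calc k * a' = Nat.gcd k k' * a * a' := by rw [← ha]
          _ = Nat.gcd k k' * a' * a := by ring
          _ = k' * a := by rw [← ha']
      rw [h2]
    rcases Nat.even_or_odd a with h2 | h2
    · have h3 : Odd a' := by
        rcases Nat.even_or_odd a' with h4 | h4
        · exfalso
          have h5 := Nat.dvd_gcd h2.two_dvd h4.two_dvd
          rw [hco] at h5
          omega
        · exact h4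
      obtain ⟨Q, h4, h5⟩ := h (-1) 1 (Or.inr rfl) (Or.inl rfl) (fun h6 => by omega)
      rw [one_mul] at h5
      rw [neg_one_mul] at h4
      have h6 : Q ^ k = -1 := by rw [← h4, neg_neg]
      have h7 := key Q
      rw [h6, h5, one_pow, h3.neg_one_pow] at h7
      exact NiceEx_ne h7
    · obtain ⟨Q, h4, h5⟩ := h 1 (-1) (Or.inl rfl) (Or.inr rfl) (fun h6 => by omega)
      rw [one_mul] at h4
      rw [neg_one_mul] at h5
      have h6 : Q ^ k' = -1 := by rw [← h5, neg_neg]
      have h7 := key Q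
      rw [h4, h6, one_pow, h2.neg_one_pow] at h7
      exact NiceEx_ne h7.symm

private theorem NiceEx_un {S : Type} {Λ : LGraph S} (H : NiceEx_H Λ) (s t s' t' : S)
    (hst : Λ.graph.Adj s t) (hst' : Λ.graph.Adj s' t') (hs : SameC Λ s s') (ht : SameC Λ t t')
    (hn : ¬ SameC Λ s t) (h2 : Λ.label s(s, t) ≠ 2) : s' = s ∧ t' = t := by
  classical
  by_contra hne
  have hee : s(s', t') ≠ s(s, t) := by
    intro h
    rcases Sym2.eq_iff.1 h with h | h
    · exact hne h
    · rw [h.1] at hs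
      exact hn hs
  have hev : Even (Λ.label s(s, t)) := by
    by_contra h
    exact hn (SimpleGraph.Adj.reachable (G := oddGraph Λ) ⟨hst, h⟩)
  have hev' : Even (Λ.label s(s', t')) := by
    by_contra h
    have h3 : SameC Λ s' t' := SimpleGraph.Adj.reachable (G := oddGraph Λ) ⟨hst', h⟩
    exact hn ((SimpleGraph.Reachable.trans hs h3).trans (SimpleGraph.Reachable.symm ht))
  have hl := Λ.two_le _ ((SimpleGraph.mem_edgeSet Λ.graph).2 hst)
  have hl' := Λ.two_le _ ((SimpleGraph.mem_edgeSet Λ.graph).2 hst')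
  obtain ⟨k, hk⟩ := hev
  obtain ⟨k', hk'⟩ := hev'
  refine NiceEx_arith k k' (by omega) (by omega) ?_
  intro x y hx hy hy1
  obtain ⟨lam, q, _, h3, _, h4⟩ := H
    (fun e => if e = s(s, t) then x else if e = s(s', t') then y else -1)
    (fun e _ => by
      split_ifs
      · exact hx
      · exact hy
      · exact Or.inr rfl)
    (fun e _ h5 => by
      split_ifs with h6 h7
      · exact absurd (h6 ▸ h5) h2
      · refine hy1 ?_
        rw [h7] at h5
        omega
      · rfl)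
  refine ⟨q s t, ?_, ?_⟩
  · have h5 := h3 s t hst ⟨k, hk⟩
    rw [if_pos rfl] at h5
    have h6 : Λ.label s(s, t) / 2 = k := by omega
    rwa [h6] at h5
  · have h5 := h3 s' t' hst' ⟨k', hk'⟩
    rw [if_neg hee, if_pos rfl, ← h4 s s' t t' hs ht] at h5
    have h6 : Λ.label s(s', t') / 2 = k' := by omega
    rwa [h6] at h5

theorem niceEx : SignCor → NiceEx := by
  intro hSC V S _ _ _ _ Γ Λ hΓ φ
  have H : NiceEx_H Λ := fun ε h1 h2 => hSC V S Γ Λ hΓ φ ε h1 h2
  exact ⟨NiceEx_ev H, NiceEx_br H, NiceEx_un H⟩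

end WGOne
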