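import Pool.Agent.Lib.MP_107652_al.One.SpecB

/-!
# MP_107652_al, THEOREM E, module NoK: an odd component has a dominated neighbour
-/

set_option autoImplicit false

open Finset

namespace WGOne

open WGirth WGTwin

private theorem NoK_gen (hGN : GenNum) (ι J : Type) [Fintype ι] [Finite J] (a : J → ι → ℤ) :
    ∃ t : ι → ℝ, ∀ j, a j ≠ 0 → ∑ i, (a j i : ℝ) * t i ≠ 0 := by
  obtain ⟨t, ht⟩ := hGN ι {j : J // a j ≠ 0} (fun j => a j.1) (fun _ => 0) (fun j => j.2)
  refine ⟨t, fun j hj => ?_⟩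
  have := ht ⟨j, hj⟩
  simpa using this

/-- the character -/
private noncomputable def NoK_z {V : Type} (Γ : LGraph V) (C : V) (c₀ : ℂˣ) (t : V → ℝ) : V → ℂˣ :=
  open Classical in fun i => if i = C then c₀ else
    if InG Γ C i then Units.mk0 ((Real.exp (t i) : ℝ) : ℂ)
      (by exact_mod_cast (Real.exp_pos (t i)).ne') else 1

open Classical in
private theorem NoK_norm_z {V : Type} (Γ : LGraph V) (C : V) (c₀ : ℂˣ) (hc : ‖(c₀ : ℂ)‖ = 1)
    (t : V → ℝ) (i : V) : ‖(NoK_z Γ C c₀ t i : ℂ)‖ = Real.exp (if InG Γ C i then t i else 0) := by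
  unfold NoK_z
  by_cases h1 : i = C
  · rw [if_pos h1, if_neg (fun h => h.1 h1), Real.exp_zero, hc]
  · rw [if_neg h1]
    by_cases h2 : InG Γ C i
    · rw [if_pos h2, if_pos h2, Units.val_mk0, Complex.norm_real, Real.norm_eq_abs,
        abs_of_pos (Real.exp_pos _)]
    · rw [if_neg h2, if_neg h2, Units.val_one, norm_one, Real.exp_zero]

/-- the coefficients of the logarithms of the norms -/
private noncomputable def NoK_a {V : Type} (Γ : LGraph V) (C : V) (M : Matrix V V ℤ) (v l : V) : ℤ :=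
  open Classical in if InG Γ C l then M l v else 0

private theorem NoK_norm_y {V : Type} [Fintype V] (Γ : LGraph V) (C : V) (c₀ : ℂˣ)
    (hc : ‖(c₀ : ℂ)‖ = 1) (t : V → ℝ) (M : Matrix V V ℤ) (v : V) :
    ‖(pw M (NoK_z Γ C c₀ t) v : ℂ)‖ = Real.exp (∑ l, (NoK_a Γ C M v l : ℝ) * t l) := by
  classical
  unfold pw
  rw [Units.coe_prod, norm_prod, Real.exp_sum]
  refine Finset.prod_congr rfl fun l _ => ?_
  rw [Units.val_zpow_eq_zpow_val, norm_zpow, NoK_norm_z Γ C c₀ hc, ← Real.rpow_intCast,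
    ← Real.exp_mul]
  congr 1
  unfold NoK_a
  by_cases h : InG Γ C l
  · rw [if_pos h, if_pos h, mul_comm]
  · rw [if_neg h, if_neg h]
    simp

theorem noK : Piece2 → SolSplit → SolGen → CstEq → Kill → GenNum → Blk → NoK := by
  intro hP2 hSS hSG hCE hK hGN hBlk V S _ _ _ _ Γ Λ comp M N hD s0 t0 hst
  classical
  by_contra hno
  push Not at hno
  obtain ⟨C, hC⟩ : ∃ C, C = comp s0 := ⟨_, rfl⟩
  rw [← hC] at hno
  obtain ⟨hM1, -, hR3, hUG⟩ := hBlk V Γ C M hD.domM
  obtain ⟨hN1, -, -, -⟩ := hBlk V Γ C N hD.domN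
  have hU : ∀ u, InU Γ C u → u = C := by
    intro u hu
    rcases hu.1 with h | h
    · exact h
    · exact absurd hu (hno u h)
  have hGC : ¬ InG Γ C C := fun h => h.1 rfl
  -- (0)
  have h0M : ∀ v, v ≠ C → ¬ InG Γ C v → ∀ i, (i = C ∨ InG Γ C i) → M i v = 0 := by
    intro v hv hvG i hi
    refine hM1 v i (fun h => hv (hU v h)) hvG ?_
    rcases hi with rfl | hi
    · exact Or.inl (inU_self Γ _)
    · exact Or.inr hi
  have h0N : ∀ v, v ≠ C → ¬ InG Γ C v → ∀ i, (i = C ∨ InG Γ C i) → N i v = 0 := by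
    intro v hv hvG i hi
    refine hN1 v i (fun h => hv (hU v h)) hvG ?_
    rcases hi with rfl | hi
    · exact Or.inl (inU_self Γ _)
    · exact Or.inr hi
  have hNM : ∀ v w, ∑ i, N v i * M i w = if v = w then 1 else 0 := by
    intro v w
    have := congrFun (congrFun hD.NM v) w
    rw [Matrix.mul_apply, Matrix.one_apply] at this
    exact this
  -- (i)
  have hi : ∀ v w, InG Γ C v → InG Γ C w → Γ.graph.Adj v w →
      ∃ i, InG Γ C i ∧ M i v + M i w ≠ 0 := by
    intro v w hv hw hvw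
    by_contra hcon
    push Not at hcon
    have hsum : ∑ i, N v i * (M i v + M i w) = 1 := by
      simp only [mul_add, Finset.sum_add_distrib]
      rw [hNM, hNM, if_pos rfl, if_neg hvw.ne, add_zero]
    obtain ⟨i, -, hi⟩ : ∃ i ∈ Finset.univ, N v i * (M i v + M i w) ≠ 0 := by
      apply Finset.exists_ne_zero_of_sum_ne_zero
      rw [hsum]
      exact one_ne_zero
    have hi1 : N v i ≠ 0 := fun h => hi (by rw [h, zero_mul])
    have hi2 : M i v + M i w ≠ 0 := fun h => hi (by rw [h, mul_zero])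
    have hiG : ¬ InG Γ C i := fun h => hi2 (hcon i h)
    have hiC : i = C := by
      by_contra h
      exact hi1 (h0N i h hiG v (Or.inr hv))
    subst hiC
    by_cases h1 : M i v = 0
    · have h2 : M i w ≠ 0 := by
        intro h
        exact hi2 (by rw [h1, h, add_zero])
      rcases hD.domM w i h2 v hvw.symm with h | h
      · exact hv.1 h
      · exact hv.2 h
    · rcases hD.domM v i h1 w hvw with h | h
      · exact hw.1 h
      · exact hw.2 h
  -- (ii)
  have hii : ∀ v, InG Γ C v → (∀ i, InG Γ C i → M i v = 0) → N v C * M C v = 1 := by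
    intro v hv h
    have h1 := hNM v v
    rw [if_pos rfl, Finset.sum_eq_single C] at h1
    · exact h1
    · intro i _ hi
      by_cases hiG : InG Γ C i
      · rw [h i hiG, mul_zero]
      · rw [h0N i hi hiG v (Or.inr hv), zero_mul]
    · intro h'
      exact absurd (Finset.mem_univ C) h'
  -- (iii)
  have hiii : ∀ r, r ≠ C → ¬ InG Γ C r → ∃ x, Γ.graph.Adj r x ∧ ∃ i, InG Γ C i ∧ M i x ≠ 0 := by
    intro r hr hrG
    obtain ⟨hrC, g, hrg, hg⟩ := hR3 r (fun h => hr (hU r h)) hrG
    by_cases h1 : ∃ i, InG Γ C i ∧ M i g ≠ 0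
    · exact ⟨g, hrg, h1⟩
    push Not at h1
    refine ⟨C, hrC, ?_⟩
    by_contra h2
    push Not at h2
    have h3 := hii g hg h1
    have h4 : N g C ≠ 0 := by
      intro h
      rw [h, zero_mul] at h3
      exact zero_ne_one h3
    have h5 := hNM g C
    rw [if_neg hg.1, Finset.sum_eq_single C] at h5
    · have h6 : M C C = 0 := (mul_eq_zero.mp h5).resolve_left h4
      have h7 := hNM C C
      rw [if_pos rfl] at h7
      obtain ⟨i, -, hi'⟩ : ∃ i ∈ Finset.univ, N C i * M i C ≠ 0 := by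
        apply Finset.exists_ne_zero_of_sum_ne_zero
        rw [h7]
        exact one_ne_zero
      by_cases hiC : i = C
      · rw [hiC] at hi'
        exact hi' (by rw [h6, mul_zero])
      by_cases hiG : InG Γ C i
      · exact hi' (by rw [h2 i hiG, mul_zero])
      · exact hi' (by rw [h0N i hiC hiG C (Or.inl rfl), zero_mul])
    · intro i _ hi'
      by_cases hiG : InG Γ C i
      · rw [h2 i hiG, mul_zero]
      · rw [h0N i hi' hiG g (Or.inr hg), zero_mul]
    · intro h'
      exact absurd (Finset.mem_univ C) h'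
  -- the generic numbers
  obtain ⟨c₀, hc1, hcn, hc2⟩ := hP2 V S Λ comp hD.nice hD.cmap s0 t0 hst
  rw [← hC] at hc2
  obtain ⟨t, ht⟩ := NoK_gen hGN V ((V × V) ⊕ ((V × V) ⊕ V))
    (Sum.elim (fun p l => (if l = p.1 then 1 else 0) + (if l = p.2 then 1 else 0))
      (Sum.elim (fun p l => NoK_a Γ C M p.1 l + NoK_a Γ C M p.2 l) (fun v l => NoK_a Γ C M v l)))
  have htA : ∀ i j, t i + t j ≠ 0 := by
    intro i j
    have h := ht (Sum.inl (i, j))
    simp only [Sum.elim_inl] at h
    have h1 : (fun l => (if l = i then (1 : ℤ) else 0) + (if l = j then 1 else 0)) ≠ 0 := by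
      intro h'
      have h2 := congrFun h' i
      simp only [if_true, Pi.zero_apply] at h2
      split_ifs at h2 <;> omega
    have h3 := h h1
    intro h4
    apply h3
    have h5 : ∀ l, (((if l = i then (1 : ℤ) else 0) + (if l = j then 1 else 0) : ℤ) : ℝ) * t l =
        (if l = i then t l else 0) + (if l = j then t l else 0) := by
      intro l
      push_cast
      split_ifs <;> ring
    rw [Finset.sum_congr rfl fun l _ => h5 l, Finset.sum_add_distrib, Finset.sum_ite_eq',
      Finset.sum_ite_eq', if_pos (Finset.mem_univ _), if_pos (Finset.mem_univ _)]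
    exact h4
  have htB : ∀ v w, InG Γ C v → InG Γ C w → Γ.graph.Adj v w →
      ∑ l, (NoK_a Γ C M v l : ℝ) * t l + ∑ l, (NoK_a Γ C M w l : ℝ) * t l ≠ 0 := by
    intro v w hv hw hvw
    obtain ⟨i, hiG, hne⟩ := hi v w hv hw hvw
    have h := ht (Sum.inr (Sum.inl (v, w)))
    simp only [Sum.elim_inr, Sum.elim_inl] at h
    have h1 : (fun l => NoK_a Γ C M v l + NoK_a Γ C M w l) ≠ 0 := by
      intro h'
      have h2 := congrFun h' i
      simp only [NoK_a, if_pos hiG, Pi.zero_apply] at h2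
      exact hne h2
    have h3 := h h1
    intro h4
    apply h3
    rw [← h4, ← Finset.sum_add_distrib]
    refine Finset.sum_congr rfl fun l _ => ?_
    push_cast
    ring
  have htC : ∀ v i, InG Γ C i → M i v ≠ 0 → ∑ l, (NoK_a Γ C M v l : ℝ) * t l ≠ 0 := by
    intro v i hiG hne
    have h := ht (Sum.inr (Sum.inr v))
    simp only [Sum.elim_inr] at h
    apply h
    intro h'
    have h2 := congrFun h' i
    simp only [NoK_a, if_pos hiG, Pi.zero_apply] at h2
    exact hne h2
  obtain ⟨z, hz⟩ : ∃ z, z = NoK_z Γ C c₀ t := ⟨_, rfl⟩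
  have hzn : ∀ i, InG Γ C i → ‖(z i : ℂ)‖ = Real.exp (t i) := by
    intro i hiG
    rw [hz, NoK_norm_z Γ C c₀ hcn, if_pos hiG]
  have hzn1 : ∀ i, InG Γ C i → ‖(z i : ℂ)‖ ≠ 1 := by
    intro i hiG h
    rw [hzn i hiG, Real.exp_eq_one_iff] at h
    exact htA i i (by rw [h, add_zero])
  have hzn2 : ∀ i j, InG Γ C i → InG Γ C j → ‖(z i : ℂ)‖ * ‖(z j : ℂ)‖ ≠ 1 := by
    intro i j hiG hjG h
    rw [hzn i hiG, hzn j hjG, ← Real.exp_add, Real.exp_eq_one_iff] at h
    exact htA i j h
  have hzC : z C = c₀ := by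
    rw [hz]
    unfold NoK_z
    rw [if_pos rfl]
  have hzR : ∀ i, i ≠ C → ¬ InG Γ C i → z i = 1 := by
    intro i hiC hiG
    rw [hz]
    unfold NoK_z
    rw [if_neg hiC, if_neg hiG]
  have hyn : ∀ v, ‖(pw M z v : ℂ)‖ = Real.exp (∑ l, (NoK_a Γ C M v l : ℝ) * t l) := by
    intro v
    rw [hz]
    exact NoK_norm_y Γ C c₀ hcn t M v
  have hyn1 : ∀ v i, InG Γ C i → M i v ≠ 0 → ‖(pw M z v : ℂ)‖ ≠ 1 := by
    intro v i hiG hne h
    rw [hyn v, Real.exp_eq_one_iff] at h
    exact htC v i hiG hne h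
  have hyn2 : ∀ v w, InG Γ C v → InG Γ C w → Γ.graph.Adj v w →
      ‖(pw M z v : ℂ)‖ * ‖(pw M z w : ℂ)‖ ≠ 1 := by
    intro v w hv hw hvw h
    rw [hyn v, hyn w, ← Real.exp_add, Real.exp_eq_one_iff] at h
    exact htB v w hv hw hvw h
  -- the side of `Λ`
  have hcomp : ∀ s t', (oddGraph Λ).Adj s t' → comp s = comp t' := fun s t' h =>
    (hD.cmap.iff s t').mpr (SimpleGraph.Adj.reachable h)
  have hev : ∀ s t', Λ.graph.Adj s t' → comp s ≠ comp t' → Even (Λ.label s(s, t')) := by
    intro s t' h hne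
    by_contra h'
    exact hne (hcomp s t' ⟨h, h'⟩)
  have hΛ := hSS S Λ (fun s => z (comp s)) (fun s => comp s = C) (fun s => InG Γ C (comp s))
    (by
      rintro s ⟨h1, h2⟩
      exact h2.1 h1)
    (by
      intro s t' h1 h2 h3
      refine h2.2 (((hD.adj (comp t') C).mpr ⟨h2.1, t', s, rfl, h1, h3.symm⟩)))
    (by
      intro s t' h
      rw [hcomp s t' h]
      exact ⟨Iff.rfl, Iff.rfl⟩)
    (by
      intro s h1 h2
      exact hzR _ h1 h2)
    (by
      intro b hb s h1 h2
      obtain ⟨-, g, hg1, hg2⟩ := hR3 (comp s) (fun h => h1 (hU _ h)) h2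
      obtain ⟨hne, s', t', hs', ht', hadj⟩ := (hD.adj _ _).mp hg1
      obtain ⟨hk1, hk2⟩ := hK S Λ (fun s => z (comp s)) b hb
      have h3 : b s' = 0 := by
        refine hk1 s' t' hadj (hev s' t' hadj (by rw [hs', ht']; exact hne)) ?_ ?_
        · show z (comp s') = 1
          rw [hs']
          exact hzR _ h1 h2
        · show ‖(z (comp t') : ℂ)‖ ≠ 1
          rw [ht']
          exact hzn1 g hg2
      rw [← h3]
      refine hk2 s s' ((hD.cmap.iff s s').mp hs'.symm) ?_
      intro u hu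
      show z (comp u) = 1
      rw [← (hD.cmap.iff s u).mpr hu]
      exact hzR _ h1 h2)
  have hΛ1 : 2 ≤ Module.finrank ℂ (Sol (sub Λ (fun s => comp s = C))
      (fun s => z (comp s.1))) := by
    have h1 : (fun s : {s // comp s = C} => z (comp s.1)) = fun _ => c₀ := by
      funext s
      rw [s.2, hzC]
    rw [h1]
    exact hc2
  have hΛ2 : Module.finrank ℂ (Sol (sub Λ (fun s => InG Γ C (comp s))) (fun s => z (comp s.1))) =
      Module.finrank ℂ (Cst (sub Λ (fun s => InG Γ C (comp s)))) := by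
    refine hSG _ (sub Λ (fun s => InG Γ C (comp s))) (fun s => z (comp s.1)) ?_ ?_ ?_
    · intro s h
      refine hzn1 (comp s.1) s.2 ?_
      have h' : z (comp s.1) = 1 := h
      rw [h', Units.val_one, norm_one]
    · intro s t' h
      have h1 : comp s.1 = comp t'.1 := hcomp s.1 t'.1 ⟨h.1, h.2⟩
      refine ⟨?_, hzn1 (comp s.1) s.2⟩
      show z (comp s.1) = z (comp t'.1)
      rw [h1]
    · intro s t' _ _
      exact hzn2 (comp s.1) (comp t'.1) s.2 t'.2
  -- the side of `Γ`
  have hno' : ∀ s t', ¬ (oddGraph Γ).Adj s t' := fun s t' h => h.2 (hD.even s t' h.1)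
  have hyR : ∀ v, v ≠ C → ¬ InG Γ C v → pw M z v = 1 := by
    intro v hv hvG
    unfold pw
    refine Finset.prod_eq_one fun i _ => ?_
    by_cases h1 : i = C ∨ InG Γ C i
    · rw [h0M v hv hvG i h1, zpow_zero]
    · push Not at h1
      rw [hzR i h1.1 h1.2, one_zpow]
  have hΓ := hSS V Γ (pw M z) (fun v => v = C) (fun v => InG Γ C v)
    (by
      rintro s ⟨h1, h2⟩
      exact h2.1 h1)
    (by
      intro s t' h1 h2 h3
      refine h2.2 ?_
      rw [← h1]
      exact h3.symm)
    (by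
      intro s t' h
      exact absurd h (hno' s t'))
    (by
      intro v h1 h2
      exact hyR v h1 h2)
    (by
      intro b hb v h1 h2
      obtain ⟨x, hx, i, hiG, hne⟩ := hiii v h1 h2
      exact (hK V Γ (pw M z) b hb).1 v x hx (hD.even v x hx) (hyR v h1 h2)
        (hyn1 x i hiG hne))
  have hΓ1 : Module.finrank ℂ (Sol (sub Γ (fun v => v = C)) (fun v => pw M z v.1)) ≤ 1 := by
    refine (Submodule.finrank_le _).trans ?_
    rw [Module.finrank_fintype_fun_eq_card]
    exact (Fintype.card_subtype_eq C).le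
  have hΓ2 : Module.finrank ℂ (Sol (sub Γ (fun v => InG Γ C v)) (fun v => pw M z v.1)) =
      Module.finrank ℂ (Cst (sub Γ (fun v => InG Γ C v))) := by
    refine hSG _ (sub Γ (fun v => InG Γ C v)) (fun v => pw M z v.1) ?_ ?_ ?_
    · intro v h
      have h' : pw M z v.1 = 1 := h
      by_cases h1 : ∃ i, InG Γ C i ∧ M i v.1 ≠ 0
      · obtain ⟨i, hiG, hne⟩ := h1
        refine hyn1 v.1 i hiG hne ?_
        rw [h', Units.val_one, norm_one]
      · push Not at h1
        have h2 := hii v.1 v.2 h1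
        have h3 : pw M z v.1 = c₀ ^ M C v.1 := by
          unfold pw
          rw [Finset.prod_eq_single C, hzC]
          · intro i _ hiC
            by_cases hiG : InG Γ C i
            · rw [h1 i hiG, zpow_zero]
            · rw [hzR i hiC hiG, one_zpow]
          · intro h''
            exact absurd (Finset.mem_univ C) h''
        rw [h3] at h'
        have h4 : IsUnit (M C v.1) := IsUnit.of_mul_eq_one _ (by rw [mul_comm]; exact h2)
        rcases Int.isUnit_iff.mp h4 with h5 | h5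
        · rw [h5, zpow_one] at h'
          exact hc1 h'
        · rw [h5, zpow_neg_one, inv_eq_one] at h'
          exact hc1 h'
    · intro s t' h
      exact absurd (⟨h.1, h.2⟩ : (oddGraph Γ).Adj s.1 t'.1) (hno' s.1 t'.1)
    · intro v w hvw _
      exact hyn2 v.1 w.1 v.2 w.2 hvw
  have hCst := hCE V S Γ Λ comp hD.cmap hD.adj (fun v => InG Γ C v)
  have hchr := hD.chr z
  rw [hΓ, hΛ, hΓ2, hΛ2, hCst] at hchr
  omega

end WGOne
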