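import Pool.Agent.Lib.MP_107652_al.One.SpecB

/-!
# MP_107652_al, One: two independent cocycles on a component with an odd edge
-/

set_option autoImplicit false

open Finset

namespace WGOne

open WGirth

theorem piece2 : Piece2 := by
  intro V S _ Λ comp hN hC s0 t0 h0
  obtain ⟨c, hc0, hc⟩ := hN.br s0 t0 h0
  have hodd : ¬ Even (Λ.label s(s0, t0)) := h0.2
  have hm2 : 2 ≤ Λ.label s(s0, t0) := Λ.two_le _ ((SimpleGraph.mem_edgeSet _).mpr h0.1)
  have hct : comp t0 = comp s0 := ((hC.iff s0 t0).2 h0.reachable).symm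
  obtain ⟨m, hm⟩ : ∃ m, m = Λ.label s(s0, t0) := ⟨_, rfl⟩
  rw [← hm] at hodd hm2
  have hprim : IsPrimitiveRoot (Complex.exp (2 * Real.pi * Complex.I / m)) m :=
    Complex.isPrimitiveRoot_exp m (by omega)
  obtain ⟨ω, hω⟩ : ∃ ω, ω = Complex.exp (2 * Real.pi * Complex.I / m) := ⟨_, rfl⟩
  rw [← hω] at hprim
  have hω0 : ω ≠ 0 := hprim.ne_zero (by omega)
  have hω1 : -ω ≠ 1 := by
    intro h
    have h1 : ω = -1 := by rw [← h, neg_neg]
    have h2 : ω ^ m = -1 := by rw [h1, (Nat.not_even_iff_odd.1 hodd).neg_one_pow]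
    rw [hprim.pow_eq_one] at h2
    norm_num at h2
  have hnorm : ‖-ω‖ = 1 := by
    rw [norm_neg]
    exact Complex.norm_eq_one_of_pow_eq_one hprim.pow_eq_one (by omega)
  have hgeom : ∑ i ∈ range m, (-(-ω)) ^ i = 0 := by
    rw [neg_neg]
    exact hprim.geom_sum_eq_zero (by omega)
  refine ⟨Units.mk0 (-ω) (neg_ne_zero.2 hω0), ?_, ?_, ?_⟩
  · intro h
    apply hω1
    have := congrArg Units.val h
    rwa [Units.val_mk0, Units.val_one] at this
  · rw [Units.val_mk0]
    exact hnorm
  · have hne : ∀ s t : {s // comp s = comp s0},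
        (sub Λ (fun s => comp s = comp s0)).graph.Adj s t → ¬ Even (Λ.label s(s.1, t.1)) :=
      fun s t hst he => hN.ev s.1 t.1 hst he ((hC.iff s.1 t.1).1 (s.2.trans t.2.symm))
    have h1 : (fun _ => (1 : ℂ)) ∈ Sol (sub Λ (fun s => comp s = comp s0))
        (fun _ => Units.mk0 (-ω) (neg_ne_zero.2 hω0)) := by
      rw [mem_Sol]
      intro s t hst
      unfold RelE
      rw [sub_label, if_neg (hne s t hst), sub_self, mul_zero]
    have h2 : (fun s : {s // comp s = comp s0} => if c s.1 then (1 : ℂ) else 0) ∈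
        Sol (sub Λ (fun s => comp s = comp s0))
        (fun _ => Units.mk0 (-ω) (neg_ne_zero.2 hω0)) := by
      rw [mem_Sol]
      intro s t hst
      unfold RelE
      rw [sub_label, if_neg (hne s t hst)]
      by_cases he : s(s.1, t.1) = s(s0, t0)
      · rw [he, ← hm, Units.val_mk0, hgeom, zero_mul]
      · have h3 : c s.1 = c t.1 := hc s.1 t.1 ⟨hst, hne s t hst⟩ he
        rw [h3, sub_self, mul_zero]
    have hli : LinearIndependent ℂ ![(⟨_, h2⟩ : Sol (sub Λ (fun s => comp s = comp s0))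
        (fun _ => Units.mk0 (-ω) (neg_ne_zero.2 hω0))), ⟨_, h1⟩] := by
      rw [LinearIndependent.pair_iff]
      intro x y hxy
      have h3 := congrFun (congrArg Subtype.val hxy) ⟨s0, rfl⟩
      have h4 := congrFun (congrArg Subtype.val hxy) ⟨t0, hct⟩
      have h5 : x * (if c s0 then (1 : ℂ) else 0) + y * 1 = 0 := h3
      have h6 : x * (if c t0 then (1 : ℂ) else 0) + y * 1 = 0 := h4
      cases hcs : c s0 <;> cases hct' : c t0
      · rw [hcs, hct'] at hc0
        exact absurd rfl hc0
      · rw [hcs] at h5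
        rw [hct'] at h6
        simp at h5 h6
        rw [h5, add_zero] at h6
        exact ⟨h6, h5⟩
      · rw [hcs] at h5
        rw [hct'] at h6
        simp at h5 h6
        rw [h6, add_zero] at h5
        exact ⟨h5, h6⟩
      · rw [hcs, hct'] at hc0
        exact absurd rfl hc0
    have h := hli.fintype_card_le_finrank
    rwa [Fintype.card_fin] at h

end WGOne
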