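import Pool.Agent.Lib.MP_107652_al.One.SpecB
import Pool.Agent.Lib.MP_107652_al.ExpHom
import Pool.Agent.Lib.MP_107652_al.Twin.HeisGen

/-!
# MP_107652_al, One, module PreEx0: the matrices of the isomorphism and their Heisenberg relations
-/

set_option autoImplicit false

open Finset

namespace WGOne

open WGirth

private theorem PreEx0_ite (c : Prop) [Decidable c] :
    Multiplicative.toAdd (if c then Multiplicative.ofAdd (1 : ℤ) else 1) =
      if c then 1 else 0 := by
  split_ifs <;> simp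

theorem preEx0 : CgHom → OddEq → CgLab → PreEx0 := by
  intro hH hO hL V S W _ _ _ _ Γ Λ comp hΓ hN hC φ
  obtain ⟨hev, p, hp⟩ := hH S W Λ comp hN hC
  obtain ⟨x, hx1, hx2⟩ := expHom V Γ hΓ
  obtain ⟨y, hy1, hy2⟩ := expHom W (cg Λ comp) hev
  obtain ⟨r, hr⟩ : ∃ r : W → S, ∀ i, comp (r i) = i :=
    ⟨Function.surjInv hC.surj, Function.surjInv_eq hC.surj⟩
  obtain ⟨M, hM⟩ : ∃ M : W → V → ℤ, ∀ i v, M i v =
      Multiplicative.toAdd (y i (p (φ (gen Γ v)))) := ⟨_, fun _ _ => rfl⟩
  obtain ⟨N, hNd⟩ : ∃ N : V → W → ℤ, ∀ v i, N v i =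
      Multiplicative.toAdd (x v (φ.symm (gen Λ (r i)))) := ⟨_, fun _ _ => rfl⟩
  have hNs : ∀ v s, N v (comp s) = Multiplicative.toAdd (x v (φ.symm (gen Λ s))) := by
    intro v s
    have hs : SameC Λ (r (comp s)) s := (hC.iff _ _).1 (hr _)
    have h1 := hO.2 (Multiplicative ℤ) S Λ ((x v).comp φ.symm.toMonoidHom) (r (comp s)) s hs
    rw [hNd]
    exact congrArg Multiplicative.toAdd h1
  have hE1 : ∀ (A : Type) [CommGroup A] (f : Artin Λ →* A) (z : W → A),
      (∀ s, f (gen Λ s) = z (comp s)) → ∀ v, f (φ (gen Γ v)) = ∏ i, z i ^ M i v := by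
    intro A _ f z hz v
    obtain ⟨f', hf'⟩ := exists_hom hev z (fun s t _ => by rw [mul_comm])
    have h1 : f = f'.comp p := hom_ext (fun s => by rw [MonoidHom.comp_apply, hp, hf', hz])
    rw [h1, MonoidHom.comp_apply, hy2 A f' (p (φ (gen Γ v)))]
    exact Finset.prod_congr rfl fun i _ => by rw [hf', hM]
  refine ⟨M, N, ⟨?_, ?_, ?_, ?_⟩, hE1⟩
  · intro v w
    have h1 := hE1 (Multiplicative ℤ) ((x v).comp φ.symm.toMonoidHom)
      (fun i => Multiplicative.ofAdd (N v i)) (fun s => by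
        show x v (φ.symm (gen Λ s)) = Multiplicative.ofAdd (N v (comp s))
        rw [hNs]
        rfl) w
    have h2 : ((x v).comp φ.symm.toMonoidHom) (φ (gen Γ w)) = x v (gen Γ w) := by
      show x v (φ.symm (φ (gen Γ w))) = x v (gen Γ w)
      rw [MulEquiv.symm_apply_apply]
    rw [h2, hx1] at h1
    have h3 := congrArg Multiplicative.toAdd h1
    rw [toAdd_prod, PreEx0_ite] at h3
    rw [h3]
    refine Finset.sum_congr rfl fun i _ => ?_
    rw [toAdd_zpow, smul_eq_mul, mul_comm]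
    rfl
  · intro i j
    have h1 := hx2 (Multiplicative ℤ) ((y i).comp (p.comp φ.toMonoidHom))
      (φ.symm (gen Λ (r j)))
    have h2 : ((y i).comp (p.comp φ.toMonoidHom)) (φ.symm (gen Λ (r j))) =
        y i (gen (cg Λ comp) j) := by
      show y i (p (φ (φ.symm (gen Λ (r j))))) = y i (gen (cg Λ comp) j)
      rw [MulEquiv.apply_symm_apply, hp, hr]
    rw [h2, hy1] at h1
    have h3 := congrArg Multiplicative.toAdd h1
    rw [toAdd_prod, PreEx0_ite] at h3
    rw [h3]
    refine Finset.sum_congr rfl fun v _ => ?_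
    rw [toAdd_zpow, smul_eq_mul, mul_comm, hM, hNd]
    rfl
  · intro a b hab i j hne hij
    have h1 : (p (φ (gen Γ a)) * p (φ (gen Γ b))) ^ half Γ a b =
        (p (φ (gen Γ b)) * p (φ (gen Γ a))) ^ half Γ a b := by
      have h := congrArg (fun g => p (φ g)) (gen_rel hΓ hab)
      simpa only [map_pow, map_mul] using h
    have h2 := WGTwin.heisGen W (cg Λ comp) hev y hy1 i j 0 hne (fun h => absurd h hij)
      (p (φ (gen Γ a))) (p (φ (gen Γ b))) (half Γ a b) h1
    rw [Nat.cast_zero, zero_dvd_iff] at h2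
    have h3 : (half Γ a b : ℤ) ≠ 0 := by
      have := hΓ.half_pos hab
      positivity
    rw [hM, hM, hM, hM]
    exact (mul_eq_zero.1 h2).resolve_left h3
  · rintro i j ⟨hne, s, t, hs, ht, hst⟩ a b hab hnab
    subst hs ht
    obtain ⟨k, hk⟩ := (hL S W Λ comp hN hC s t hst hne).1
    have hk1 : Λ.label s(s, t) = 2 * k := by omega
    have hk2 : 2 ≤ Λ.label s(s, t) := Λ.two_le _ ((SimpleGraph.mem_edgeSet _).mpr hst)
    have h0 := gen_relO Λ hst
    rw [hk1, alt_two_mul, alt_two_mul] at h0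
    have h1 : (φ.symm (gen Λ s) * φ.symm (gen Λ t)) ^ k =
        (φ.symm (gen Λ t) * φ.symm (gen Λ s)) ^ k := by
      have h := congrArg (fun g => φ.symm g) h0
      simpa only [map_pow, map_mul] using h
    have h2 := WGTwin.heisGen V Γ hΓ x hx1 a b 0 hab (fun h => absurd h hnab)
      (φ.symm (gen Λ s)) (φ.symm (gen Λ t)) k h1
    rw [Nat.cast_zero, zero_dvd_iff] at h2
    have h3 : (k : ℤ) ≠ 0 := by
      have : k ≠ 0 := by omega
      exact_mod_cast this
    rw [hNs, hNs, hNs, hNs]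
    exact (mul_eq_zero.1 h2).resolve_left h3

end WGOne
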