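import Pool.Agent.Lib.MP_107652_al.One.SpecB

/-! MP_107652_al, One/Red: reduction to the star of `C`. -/

set_option autoImplicit false

open Finset

namespace WGOne

open WGirth

private theorem Red_sum {V : Type} [Fintype V] (p : V → Prop) [Fintype {v // p v}] (f : V → ℤ)
    (h : ∀ v, ¬ p v → f v = 0) : ∑ v : {v // p v}, f v.1 = ∑ v, f v := by
  classical
  rw [← Finset.sum_subset (Finset.subset_univ (univ.filter p)) (by
    intro v _ hv
    exact h v fun hp => hv (mem_filter.2 ⟨mem_univ v, hp⟩))]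
  exact (Finset.sum_subtype _ (by simp) f).symm

private theorem Red_prod {V : Type} [Fintype V] (p : V → Prop) [Fintype {v // p v}] (f : V → ℂˣ)
    (h : ∀ v, ¬ p v → f v = 1) : ∏ v : {v // p v}, f v.1 = ∏ v, f v := by
  classical
  rw [← Finset.prod_subset (Finset.subset_univ (univ.filter p)) (by
    intro v _ hv
    exact h v fun hp => hv (mem_filter.2 ⟨mem_univ v, hp⟩))]
  exact (Finset.prod_subtype _ (by simp) f).symm

/-- the real number `exp r` as a unit -/
private noncomputable def Red_e (r : ℝ) : ℂˣ := Units.mk0 (Complex.exp r) (Complex.exp_ne_zero _)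

private theorem Red_e_norm (r : ℝ) : ‖(Red_e r : ℂ)‖ = Real.exp r := by
  show ‖Complex.exp r‖ = _
  rw [Complex.norm_exp, Complex.ofReal_re]

private theorem Red_log {V : Type} [Fintype V] (M : Matrix V V ℤ) (z : V → ℂˣ) (v : V) :
    Real.log ‖(pw M z v : ℂ)‖ = ∑ i, (M i v : ℝ) * Real.log ‖(z i : ℂ)‖ := by
  unfold pw
  rw [Units.coe_prod, norm_prod, Real.log_prod]
  · refine Finset.sum_congr rfl fun i _ => ?_
    rw [Units.val_zpow_eq_zpow_val, norm_zpow, Real.log_zpow]
  · intro i _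
    rw [norm_ne_zero_iff]
    exact Units.ne_zero _

private theorem Red_norm_ne {x : ℂˣ} (h : Real.log ‖(x : ℂ)‖ ≠ 0) : ‖(x : ℂ)‖ ≠ 1 := by
  intro h1
  rw [h1, Real.log_one] at h
  exact h rfl

private theorem Red_norm_mul {x y : ℂˣ} (h : Real.log ‖(x : ℂ)‖ + Real.log ‖(y : ℂ)‖ ≠ 0) :
    ‖(x : ℂ)‖ * ‖(y : ℂ)‖ ≠ 1 := by
  intro h1
  apply h
  rw [← Real.log_mul (norm_ne_zero_iff.2 (Units.ne_zero x)) (norm_ne_zero_iff.2 (Units.ne_zero y)),
    h1, Real.log_one]

theorem red : SolSplit → SolGen → CstEq → Kill → GenNum → Blk → Red := by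
  intro hSplit hGen hCst hKill hNum hBlk V S _ _ _ _ Γ Λ comp M N hD C hy _
  classical
  obtain ⟨bM1, bM2, b3, b4⟩ := hBlk V Γ C M hD.domM
  obtain ⟨bN1, bN2, -, -⟩ := hBlk V Γ C N hD.domN
  replace bM2 := bM2 hy
  replace bN2 := bN2 hy
  have hUG : ∀ v, InU Γ C v → ¬ InG Γ C v := fun v h1 h2 => not_UG Γ C v ⟨h1, h2⟩
  have hMN : ∀ i j, ∑ v, M i v * N v j = if i = j then 1 else 0 := by
    intro i j
    have h := congrFun (congrFun hD.MN i) j
    rw [Matrix.mul_apply, Matrix.one_apply] at h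
    exact h
  have hNM : ∀ i j, ∑ v, N i v * M v j = if i = j then 1 else 0 := by
    intro i j
    have h := congrFun (congrFun hD.NM i) j
    rw [Matrix.mul_apply, Matrix.one_apply] at h
    exact h
  refine ⟨?_, ?_, fun z => ?_⟩
  · ext i j
    rw [Matrix.mul_apply, Matrix.one_apply]
    simp only [Matrix.submatrix_apply]
    rw [Red_sum (InU Γ C) (fun v => M i.1 v * N v j.1), hMN]
    · simp only [Subtype.ext_iff]
    · intro v hv
      by_cases hg : InG Γ C v
      · rw [bN2 j.1 v j.2 hg, mul_zero]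
      · rw [bM1 v i.1 hv hg (Or.inl i.2), zero_mul]
  · ext i j
    rw [Matrix.mul_apply, Matrix.one_apply]
    simp only [Matrix.submatrix_apply]
    rw [Red_sum (InU Γ C) (fun v => N i.1 v * M v j.1), hNM]
    · simp only [Subtype.ext_iff]
    · intro v hv
      by_cases hg : InG Γ C v
      · rw [bM2 j.1 v j.2 hg, mul_zero]
      · rw [bN1 v i.1 hv hg (Or.inl i.2), zero_mul]
  -- generic numbers
  let κ : V → ℝ := fun v =>
    ∑ i, if h : InU Γ C i then (M i v : ℝ) * Real.log ‖(z ⟨i, h⟩ : ℂ)‖ else 0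
  let J := {p : V × V // InG Γ C p.1 ∧ InG Γ C p.2}
  obtain ⟨t, ht⟩ := hNum V (J ⊕ J)
    (Sum.elim (fun p i => (if i = p.1.1 then 1 else 0) + (if i = p.1.2 then 1 else 0))
      (fun p i => if InG Γ C i then M i p.1.1 + M i p.1.2 else 0))
    (Sum.elim (fun _ => 0) (fun p => κ p.1.1 + κ p.1.2)) (by
      rintro (p | p)
      · intro h
        have h1 := congrFun h p.1.1
        simp only [Sum.elim_inl, Pi.zero_apply, if_true] at h1
        split_ifs at h1 <;> norm_num at h1
      · intro h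
        have h1 : ∑ i, N p.1.1 i * (M i p.1.1 + M i p.1.2) = 0 := by
          refine Finset.sum_eq_zero fun i _ => ?_
          by_cases hg : InG Γ C i
          · have h2 := congrFun h i
            simp only [Sum.elim_inr, Pi.zero_apply, if_pos hg] at h2
            rw [h2, mul_zero]
          · by_cases hu : InU Γ C i
            · rw [bN2 i p.1.1 hu p.2.1, zero_mul]
            · rw [bN1 i p.1.1 hu hg (Or.inr p.2.1), zero_mul]
        simp only [mul_add, Finset.sum_add_distrib] at h1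
        rw [hNM, hNM, if_pos rfl] at h1
        split_ifs at h1 <;> norm_num at h1)
  have ht1 : ∀ i j, InG Γ C i → InG Γ C j → t i + t j ≠ 0 := by
    intro i j hi hj
    have h := ht (Sum.inl ⟨(i, j), hi, hj⟩)
    simp only [Sum.elim_inl, Int.cast_add, Int.cast_ite, Int.cast_one, Int.cast_zero, add_mul,
      ite_mul, one_mul, zero_mul, Finset.sum_add_distrib, Finset.sum_ite_eq', Finset.mem_univ,
      if_true, add_zero] at h
    exact h
  have ht0 : ∀ i, InG Γ C i → t i ≠ 0 := by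
    intro i hi h
    exact ht1 i i hi hi (by rw [h, add_zero])
  -- the character
  let z' : V → ℂˣ := fun i =>
    if h : InU Γ C i then z ⟨i, h⟩ else if InG Γ C i then Red_e (t i) else 1
  have zU : ∀ i (h : InU Γ C i), z' i = z ⟨i, h⟩ := fun i h => dif_pos h
  have zG : ∀ i, InG Γ C i → z' i = Red_e (t i) := by
    intro i h
    have h1 : ¬ InU Γ C i := fun h2 => hUG i h2 h
    show (if h : InU Γ C i then z ⟨i, h⟩ else if InG Γ C i then Red_e (t i) else 1) = _
    rw [dif_neg h1, if_pos h]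
  have zR : ∀ i, ¬ InU Γ C i → ¬ InG Γ C i → z' i = 1 := by
    intro i h1 h2
    show (if h : InU Γ C i then z ⟨i, h⟩ else if InG Γ C i then Red_e (t i) else 1) = _
    rw [dif_neg h1, if_neg h2]
  have lG : ∀ i, InG Γ C i → Real.log ‖(z' i : ℂ)‖ = t i := by
    intro i h
    rw [zG i h, Red_e_norm, Real.log_exp]
  have hlog : ∀ v, Real.log ‖(pw M z' v : ℂ)‖ =
      ∑ i, ((if InG Γ C i then M i v else 0 : ℤ) : ℝ) * t i + κ v := by
    intro v
    rw [Red_log, ← Finset.sum_add_distrib]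
    refine Finset.sum_congr rfl fun i _ => ?_
    by_cases hu : InU Γ C i
    · rw [if_neg (hUG i hu), dif_pos hu, zU i hu]
      simp
    · rw [dif_neg hu]
      by_cases hg : InG Γ C i
      · rw [if_pos hg, lG i hg, add_zero]
      · rw [if_neg hg, zR i hu hg]
        simp
  have hyy : ∀ v w, InG Γ C v → InG Γ C w →
      Real.log ‖(pw M z' v : ℂ)‖ + Real.log ‖(pw M z' w : ℂ)‖ ≠ 0 := by
    intro v w hv hw
    have h := ht (Sum.inr ⟨(v, w), hv, hw⟩)
    simp only [Sum.elim_inr] at h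
    rw [hlog, hlog]
    intro h1
    apply h
    rw [← h1]
    have h2 : ∀ i, (((if InG Γ C i then M i v + M i w else 0 : ℤ)) : ℝ) * t i =
        ((if InG Γ C i then M i v else 0 : ℤ) : ℝ) * t i +
          ((if InG Γ C i then M i w else 0 : ℤ) : ℝ) * t i := by
      intro i
      split_ifs
      · push_cast
        ring
      · simp
    simp only [h2, Finset.sum_add_distrib]
    ring
  have hy1 : ∀ v, InG Γ C v → Real.log ‖(pw M z' v : ℂ)‖ ≠ 0 := by
    intro v hv h
    exact hyy v v hv hv (by rw [h, add_zero])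
  have hyR : ∀ v, ¬ InU Γ C v → ¬ InG Γ C v → pw M z' v = 1 := by
    intro v h1 h2
    unfold pw
    refine Finset.prod_eq_one fun i _ => ?_
    by_cases hu : InU Γ C i
    · rw [bM1 v i h1 h2 (Or.inl hu), zpow_zero]
    · by_cases hg : InG Γ C i
      · rw [bM1 v i h1 h2 (Or.inr hg), zpow_zero]
      · rw [zR i hu hg, one_zpow]
  have hodd : ∀ s t, (oddGraph Λ).Adj s t → comp s = comp t := fun s t h =>
    (hD.cmap.iff s t).2 h.reachable
  have hΓev : ∀ s t, Γ.graph.Adj s t → Even (Γ.label s(s, t)) := fun s t h => hD.even s t h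
  have hΓodd : ∀ s t, ¬ (oddGraph Γ).Adj s t := fun s t h => h.2 (hΓev s t h.1)
  -- the side of Λ
  have hL : Module.finrank ℂ (Sol Λ (fun s => z' (comp s))) =
      Module.finrank ℂ (Sol (sub Λ (fun s => InU Γ C (comp s))) (fun s => z' (comp s.1))) +
      Module.finrank ℂ (Sol (sub Λ (fun s => InG Γ C (comp s))) (fun s => z' (comp s.1))) := by
    refine hSplit S Λ (fun s => z' (comp s)) (fun s => InU Γ C (comp s))
      (fun s => InG Γ C (comp s)) ?_ ?_ ?_ ?_ ?_
    · intro s h
      exact not_UG Γ C _ h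
    · intro s t h1 h2 h3
      refine b4 _ _ h1 h2 ((hD.adj _ _).2 ⟨?_, s, t, rfl, rfl, h3⟩)
      intro h4
      rw [h4] at h1
      exact hUG _ h1 h2
    · intro s t h
      rw [hodd s t h]
      exact ⟨Iff.rfl, Iff.rfl⟩
    · intro s h1 h2
      exact zR _ h1 h2
    · intro b hb s h1 h2
      obtain ⟨-, g, hg1, hg2⟩ := b3 _ h1 h2
      obtain ⟨hne, s1, t1, hs1, ht1', hst⟩ := (hD.adj _ _).1 hg1
      obtain ⟨k1, k2⟩ := hKill S Λ (fun s => z' (comp s)) b hb
      have hev : Even (Λ.label s(s1, t1)) := by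
        by_contra hev
        exact hne (by rw [← hs1, ← ht1']; exact hodd s1 t1 ⟨hst, hev⟩)
      have h3 : b s1 = 0 := by
        refine k1 s1 t1 hst hev ?_ ?_
        · show z' (comp s1) = 1
          rw [hs1]
          exact zR _ h1 h2
        · show ‖(z' (comp t1) : ℂ)‖ ≠ 1
          rw [ht1']
          exact Red_norm_ne (by rw [lG g hg2]; exact ht0 g hg2)
      rw [← h3]
      refine (k2 s1 s ((hD.cmap.iff s1 s).1 hs1) ?_).symm
      intro t' ht'
      show z' (comp t') = 1
      rw [← (hD.cmap.iff s1 t').2 ht', hs1]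
      exact zR _ h1 h2
  have hL2 : Module.finrank ℂ (Sol (sub Λ (fun s => InG Γ C (comp s))) (fun s => z' (comp s.1))) =
      Module.finrank ℂ (Cst (sub Λ (fun s => InG Γ C (comp s)))) := by
    have hn : ∀ s : {s // InG Γ C (comp s)}, ‖(z' (comp s.1) : ℂ)‖ ≠ 1 := fun s =>
      Red_norm_ne (by rw [lG _ s.2]; exact ht0 _ s.2)
    refine hGen {s // InG Γ C (comp s)} (sub Λ (fun s => InG Γ C (comp s)))
      (fun s => z' (comp s.1)) ?_ ?_ ?_
    · intro s h
      apply hn s
      rw [h]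
      simp
    · intro s t h
      have h1 : (oddGraph Λ).Adj s.1 t.1 := ⟨h.1, h.2⟩
      exact ⟨by show z' (comp s.1) = z' (comp t.1); rw [hodd _ _ h1], hn s⟩
    · intro s t _ _
      exact Red_norm_mul (by rw [lG _ s.2, lG _ t.2]; exact ht1 _ _ s.2 t.2)
  -- the side of Γ
  have hR : Module.finrank ℂ (Sol Γ (pw M z')) =
      Module.finrank ℂ (Sol (sub Γ (InU Γ C)) (fun s => pw M z' s.1)) +
      Module.finrank ℂ (Sol (sub Γ (InG Γ C)) (fun s => pw M z' s.1)) := by
    refine hSplit V Γ (pw M z') (InU Γ C) (InG Γ C) ?_ ?_ ?_ ?_ ?_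
    · intro s h
      exact not_UG Γ C _ h
    · intro s t h1 h2 h3
      exact b4 _ _ h1 h2 h3
    · intro s t h
      exact absurd h (hΓodd s t)
    · intro s h1 h2
      exact hyR s h1 h2
    · intro b hb s h1 h2
      obtain ⟨-, g, hg1, hg2⟩ := b3 _ h1 h2
      obtain ⟨k1, -⟩ := hKill V Γ (pw M z') b hb
      exact k1 s g hg1 (hΓev s g hg1) (hyR s h1 h2) (Red_norm_ne (hy1 g hg2))
  have hR2 : Module.finrank ℂ (Sol (sub Γ (InG Γ C)) (fun s => pw M z' s.1)) =
      Module.finrank ℂ (Cst (sub Γ (InG Γ C))) := by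
    refine hGen {s // InG Γ C s} (sub Γ (InG Γ C)) (fun s => pw M z' s.1) ?_ ?_ ?_
    · intro s h
      apply Red_norm_ne (hy1 s.1 s.2)
      rw [h]
      simp
    · intro s t h
      exact absurd (⟨h.1, h.2⟩ : (oddGraph Γ).Adj s.1 t.1) (hΓodd _ _)
    · intro s t _ _
      exact Red_norm_mul (hyy _ _ s.2 t.2)
  have hC := hCst V S Γ Λ comp hD.cmap hD.adj (InG Γ C)
  have hchr := hD.chr z'
  rw [hL, hR, hL2, hR2, hC] at hchr
  have e1 : (fun s : {s // InU Γ C (comp s)} => z' (comp s.1)) = fun s => z ⟨comp s.1, s.2⟩ := by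
    funext s
    exact zU _ s.2
  have e2 : (fun s : {s // InU Γ C s} => pw M z' s.1) =
      pw (M.submatrix Subtype.val Subtype.val) z := by
    funext v
    unfold pw
    rw [← Red_prod (InU Γ C) (fun i => z' i ^ M i v.1)]
    · refine Finset.prod_congr rfl fun i _ => ?_
      rw [zU i.1 i.2, Matrix.submatrix_apply]
    · intro i hu
      by_cases hg : InG Γ C i
      · rw [bM2 v.1 i v.2 hg, zpow_zero]
      · rw [zR i hu hg, one_zpow]
  rw [e1, e2] at hchr
  omega

end WGOne
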