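import Pool.Agent.Lib.MP_107652_al.One.SpecA

/-!
# MP_107652_al, THEOREM E, part A: signs are coboundaries (module SignCor)
-/

set_option autoImplicit false

open Finset

namespace WGOne

open WGirth

/-- cancel an element of the group -/
private theorem SignCor_cancel (X : CExt) (A B : X.E) (e c d : ℂˣ)
    (h : A * X.ζ c = B * X.ζ d) (hA : A = X.ζ e * B) : e * c = d := by
  rw [hA, X.cen, mul_assoc, ← map_mul] at h
  exact X.inj (mul_left_cancel h)

/-- the equation of an odd edge -/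
private theorem SignCor_odd (e a c : ℂˣ) (l : ℕ)
    (h : e * (a ^ (l + 1) * c ^ l) = c ^ (l + 1) * a ^ l) : c = e * a := by
  have h1 : (e * a) * (a ^ l * c ^ l) = c * (a ^ l * c ^ l) := by
    calc (e * a) * (a ^ l * c ^ l) = e * (a ^ (l + 1) * c ^ l) := by
          rw [pow_succ' a, mul_assoc, mul_assoc]
      _ = c ^ (l + 1) * a ^ l := h
      _ = c * (a ^ l * c ^ l) := by
          rw [pow_succ' c, mul_assoc, mul_comm (c ^ l)]
  exact (mul_right_cancel h1).symm

/-- the equation of an even edge -/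
private theorem SignCor_even (e a c y z : ℂˣ) (k : ℕ)
    (h : e * (a ^ k * c ^ k * y ^ k) = c ^ k * a ^ k * z ^ k) : e * (y / z) ^ k = 1 := by
  have h1 : (a ^ k * c ^ k) * (e * y ^ k) = (a ^ k * c ^ k) * z ^ k := by
    calc (a ^ k * c ^ k) * (e * y ^ k) = e * (a ^ k * c ^ k * y ^ k) := by
          rw [mul_left_comm]
      _ = c ^ k * a ^ k * z ^ k := h
      _ = (a ^ k * c ^ k) * z ^ k := by rw [mul_comm (c ^ k)]
  rw [div_pow, ← mul_div_assoc, mul_left_cancel h1, div_self']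

theorem signCor : CliffEx → TwistCor → TwPow → TwAlt → AltScal → SignCor := by
  intro hCl hTC hTP hTA hAS V S _ _ _ _ Γ Λ hΓ φ ε hε hε2
  obtain ⟨X, u, hu⟩ := hCl S Λ ε hε hε2
  obtain ⟨b, lam, x, ψ, hψ, hx⟩ := hTC V S Γ Λ hΓ φ X u (fun s t => ε s(s, t)) hu
  refine ⟨lam, fun s t => bb b (x s) (x t) / bb b (x t) (x s), ?_, ?_, ?_, ?_⟩
  · -- odd edges
    intro s t hst
    have hadj : Λ.graph.Adj s t := hst.1
    have hxx : x s = x t := hx s t hst.reachable
    obtain ⟨l, hl⟩ := Nat.not_even_iff_odd.1 hst.2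
    have h1 := congrArg ψ (gen_relO Λ hadj)
    rw [map_alt, map_alt, hψ, hψ] at h1
    have h2 := (hTA X V b ⟨u s * X.ζ (lam s), x s⟩ ⟨u t * X.ζ (lam t), x t⟩ hxx _).1 h1
    have h3 : alt (Λ.label s(s, t)) (u s * X.ζ (lam s)) (u t * X.ζ (lam t)) =
        alt (Λ.label s(s, t)) (u t * X.ζ (lam t)) (u s * X.ζ (lam s)) := h2
    have h4 := hu s t hadj
    rw [hl] at h3 h4
    rw [(hAS X (u s) (u t) (lam s) (lam t) l).2, (hAS X (u t) (u s) (lam t) (lam s) l).2] at h3
    exact SignCor_odd _ _ _ l (SignCor_cancel X _ _ _ _ _ h3 h4)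
  · -- even edges
    intro s t hadj heven
    obtain ⟨k, hk⟩ := heven
    have hk2 : Λ.label s(s, t) = 2 * k := by omega
    have h1 := congrArg ψ (gen_relO Λ hadj)
    rw [map_alt, map_alt, hψ, hψ, hk2, alt_two_mul, alt_two_mul] at h1
    have h2 : (u s * X.ζ (lam s) * (u t * X.ζ (lam t))) ^ k *
          X.ζ (bb b (x s) (x t) ^ k) =
        (u t * X.ζ (lam t) * (u s * X.ζ (lam s))) ^ k * X.ζ (bb b (x t) (x s) ^ k) :=
      (hTP X V b ⟨u s * X.ζ (lam s), x s⟩ ⟨u t * X.ζ (lam t), x t⟩ k).1 h1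
    have h4 := hu s t hadj
    rw [hk2] at h4
    rw [← alt_two_mul, ← alt_two_mul, (hAS X (u s) (u t) (lam s) (lam t) k).1,
      (hAS X (u t) (u s) (lam t) (lam s) k).1, mul_assoc, mul_assoc, ← map_mul, ← map_mul] at h2
    have h5 := SignCor_cancel X _ _ _ _ _ h2 h4
    have h6 : Λ.label s(s, t) / 2 = k := by omega
    rw [h6]
    exact SignCor_even _ _ _ _ _ k h5
  · intro s t hst
    have hxx : x s = x t := hx s t hst
    change bb b (x s) (x t) / bb b (x t) (x s) = 1
    rw [hxx, div_self']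
  · intro s s' t t' hs ht
    change bb b (x s) (x t) / bb b (x t) (x s) = bb b (x s') (x t') / bb b (x t') (x s')
    rw [hx s s' hs, hx t t' ht]

end WGOne
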