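import Pool.Agent.Lib.MP_107652_al.One.SpecB

/-!
# MP_107652_al, One: the dimension of the space of cocycles is an isomorphism invariant
-/

set_option autoImplicit false

open Finset

namespace WGOne

open WGirth

/-- the space of cocycles of a group with values in a one dimensional representation -/
private def SolEq_Z (G : Type) [Group G] (χ : G →* ℂˣ) : Submodule ℂ (G → ℂ) where
  carrier := {β | ∀ g h, β (g * h) = β g + (χ g : ℂ) * β h}
  add_mem' := by
    intro β β' h h' g k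
    simp only [Pi.add_apply, h g k, h' g k]
    ring
  zero_mem' := by
    intro g k
    simp
  smul_mem' := by
    intro c β h g k
    simp only [Pi.smul_apply, smul_eq_mul, h g k]
    ring

/-- the homomorphism to the affine group given by a cocycle -/
private def SolEq_F {G : Type} [Group G] {χ : G →* ℂˣ} {β : G → ℂ} (h : β ∈ SolEq_Z G χ) :
    G →* Aff where
  toFun g := ⟨χ g, β g⟩
  map_one' := by
    have h1 : β (1 * 1) = β 1 + ((χ 1 : ℂˣ) : ℂ) * β 1 := h 1 1
    rw [mul_one, map_one, Units.val_one, one_mul] at h1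
    have h2 : β 1 = 0 := by linear_combination -h1
    ext
    · simp
    · exact h2
  map_mul' g k := by
    ext
    · simp
    · exact h g k

private theorem SolEq_zodd (h2 : OddEq) {S : Type} (Λ : LGraph S) (χ : Artin Λ →* ℂˣ) (s t : S)
    (hst : (oddGraph Λ).Adj s t) : χ (gen Λ s) = χ (gen Λ t) :=
  h2.2 ℂˣ S Λ χ s t hst.reachable

private theorem SolEq_mem (h1 : RepSol) (h2 : OddEq) {S : Type} (Λ : LGraph S)
    (χ : Artin Λ →* ℂˣ) {β : Artin Λ → ℂ} (h : β ∈ SolEq_Z (Artin Λ) χ) :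
    (fun s => β (gen Λ s)) ∈ Sol Λ (fun s => χ (gen Λ s)) := by
  refine (h1 S Λ (fun s => χ (gen Λ s)) (SolEq_zodd h2 Λ χ) (fun s => β (gen Λ s))).1 ?_
  intro s t hst
  have h3 := congrArg (SolEq_F h) (gen_relO Λ hst)
  rw [map_alt, map_alt] at h3
  exact h3

/-- the values of a cocycle on the generators -/
private def SolEq_ev (h1 : RepSol) (h2 : OddEq) {S : Type} (Λ : LGraph S) (χ : Artin Λ →* ℂˣ) :
    SolEq_Z (Artin Λ) χ →ₗ[ℂ] Sol Λ (fun s => χ (gen Λ s)) where
  toFun β := ⟨fun s => β.1 (gen Λ s), SolEq_mem h1 h2 Λ χ β.2⟩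
  map_add' β β' := rfl
  map_smul' c β := rfl

private theorem SolEq_inj (h1 : RepSol) (h2 : OddEq) {S : Type} (Λ : LGraph S)
    (χ : Artin Λ →* ℂˣ) : Function.Injective (SolEq_ev h1 h2 Λ χ) := by
  intro β β' h
  have h3 : SolEq_F β.2 = SolEq_F β'.2 := by
    refine hom_ext fun s => ?_
    have h4 : β.1 (gen Λ s) = β'.1 (gen Λ s) := congrFun (congrArg Subtype.val h) s
    ext
    · rfl
    · exact h4
  refine Subtype.ext (funext fun g => ?_)
  exact congrArg Aff.b (DFunLike.congr_fun h3 g)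

private theorem SolEq_surj (h1 : RepSol) (h2 : OddEq) {S : Type} (Λ : LGraph S)
    (χ : Artin Λ →* ℂˣ) : Function.Surjective (SolEq_ev h1 h2 Λ χ) := by
  rintro ⟨b, hb⟩
  have h3 := (h1 S Λ (fun s => χ (gen Λ s)) (SolEq_zodd h2 Λ χ) b).2 hb
  obtain ⟨f, hf⟩ := exists_homO Λ (af (fun s => χ (gen Λ s)) b) h3
  have h4 : Aff.lin.comp f = χ := by
    refine hom_ext fun s => ?_
    rw [MonoidHom.comp_apply, hf]
    rfl
  have h5 : ∀ g, (f g).a = χ g := fun g => DFunLike.congr_fun h4 g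
  have h6 : (fun g => (f g).b) ∈ SolEq_Z (Artin Λ) χ := by
    intro g k
    change (f (g * k)).b = (f g).b + (χ g : ℂ) * (f k).b
    rw [map_mul, Aff.mul_b, h5]
  refine ⟨⟨fun g => (f g).b, h6⟩, Subtype.ext (funext fun s => ?_)⟩
  change (f (gen Λ s)).b = b s
  rw [hf]
  rfl

private theorem SolEq_dim (h1 : RepSol) (h2 : OddEq) {S : Type} (Λ : LGraph S)
    (χ : Artin Λ →* ℂˣ) : Module.finrank ℂ (SolEq_Z (Artin Λ) χ) =
      Module.finrank ℂ (Sol Λ (fun s => χ (gen Λ s))) :=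
  (LinearEquiv.ofBijective (SolEq_ev h1 h2 Λ χ)
    ⟨SolEq_inj h1 h2 Λ χ, SolEq_surj h1 h2 Λ χ⟩).finrank_eq

/-- the transport of cocycles along an isomorphism -/
private def SolEq_tr {G H : Type} [Group G] [Group H] (φ : G ≃* H) (χ : H →* ℂˣ) :
    SolEq_Z H χ ≃ₗ[ℂ] SolEq_Z G (χ.comp φ.toMonoidHom) where
  toFun β := ⟨fun g => β.1 (φ g), fun g k => by
    change β.1 (φ (g * k)) = β.1 (φ g) + ((χ (φ g) : ℂˣ) : ℂ) * β.1 (φ k)
    rw [map_mul]
    exact β.2 (φ g) (φ k)⟩
  map_add' β β' := rfl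
  map_smul' c β := rfl
  invFun β := ⟨fun g => β.1 (φ.symm g), fun g k => by
    change β.1 (φ.symm (g * k)) = β.1 (φ.symm g) + ((χ g : ℂˣ) : ℂ) * β.1 (φ.symm k)
    rw [map_mul]
    have h1 := β.2 (φ.symm g) (φ.symm k)
    have h2 : (χ.comp φ.toMonoidHom) (φ.symm g) = χ g := by
      change χ (φ (φ.symm g)) = χ g
      rw [MulEquiv.apply_symm_apply]
    rw [h2] at h1
    exact h1⟩
  left_inv β := by
    refine Subtype.ext (funext fun g => ?_)
    change β.1 (φ (φ.symm g)) = β.1 g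
    rw [MulEquiv.apply_symm_apply]
  right_inv β := by
    refine Subtype.ext (funext fun g => ?_)
    change β.1 (φ.symm (φ g)) = β.1 g
    rw [MulEquiv.symm_apply_apply]

/-- The dimension of the space of cocycles is an isomorphism invariant. -/
theorem solEq : RepSol → OddEq → SolEq := by
  intro h1 h2 V S Γ Λ φ χ
  have e1 := SolEq_dim h1 h2 Γ (χ.comp φ.toMonoidHom)
  have e2 := SolEq_dim h1 h2 Λ χ
  have e3 := (SolEq_tr φ χ).finrank_eq
  exact e1.symm.trans (e3.symm.trans e2)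

end WGOne
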