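import Pool.Agent.Lib.MP_107652_al.One.SpecB

/-!
# MP_107652_al, One: a non coboundary exists iff the dimension is at least two
-/

set_option autoImplicit false

open Finset

namespace WGOne

open WGirth

theorem solTwo : RepSol → SolTwo := by
  intro hR S _ Λ z hz hz1
  have hw : (fun s => (1 - (z s : ℂ))) ∈ Sol Λ z := by
    rw [mem_Sol]
    intro s t hst
    unfold RelE
    by_cases hm : Even (Λ.label s(s, t))
    · rw [if_pos hm]
      have h : (1 - (z t : ℂ)) * (1 - (z s : ℂ)) - (1 - (z s : ℂ)) * (1 - (z t : ℂ)) = 0 := by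
        ring
      rw [h, mul_zero]
    · rw [if_neg hm]
      have h : z s = z t := hz s t ⟨hst, hm⟩
      rw [h, sub_self, mul_zero]
  have hw0 : (⟨fun s => (1 - (z s : ℂ)), hw⟩ : Sol Λ z) ≠ 0 := by
    intro h
    apply hz1
    ext s
    have h1 := congrFun (congrArg Subtype.val h) s
    have h2 : (1 : ℂ) - (z s : ℂ) = 0 := h1
    have h3 : (z s : ℂ) = 1 := (sub_eq_zero.1 h2).symm
    rw [h3]
    rfl
  have hCob : ∀ b : S → ℂ, ∀ hb : b ∈ Sol Λ z, Cob z b ↔
      ∃ c : ℂ, c • (⟨fun s => (1 - (z s : ℂ)), hw⟩ : Sol Λ z) = ⟨b, hb⟩ := by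
    intro b hb
    constructor
    · rintro ⟨c, hc⟩
      refine ⟨c, Subtype.ext (funext fun s => ?_)⟩
      change c * (1 - (z s : ℂ)) = b s
      rw [hc s, mul_comm]
    · rintro ⟨c, hc⟩
      refine ⟨c, fun s => ?_⟩
      have h1 := congrFun (congrArg Subtype.val hc) s
      have h2 : c * (1 - (z s : ℂ)) = b s := h1
      rw [← h2, mul_comm]
  constructor
  · rintro ⟨b, hb, hn⟩
    have hb' : b ∈ Sol Λ z := (hR S Λ z hz b).1 hb
    have hli : LinearIndependent ℂ
        ![(⟨fun s => (1 - (z s : ℂ)), hw⟩ : Sol Λ z), ⟨b, hb'⟩] := by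
      rw [LinearIndependent.pair_iff' hw0]
      intro c hc
      exact hn ((hCob b hb').2 ⟨c, hc⟩)
    have h := hli.fintype_card_le_finrank
    rwa [Fintype.card_fin] at h
  · intro h2
    by_contra hN
    have hall : ∀ v : Sol Λ z, ∃ c : ℂ, c • (⟨fun s => (1 - (z s : ℂ)), hw⟩ : Sol Λ z) = v := by
      rintro ⟨b, hb⟩
      by_contra hc
      exact hN ⟨b, (hR S Λ z hz b).2 hb, fun h => hc ((hCob b hb).1 h)⟩
    have h1 := finrank_le_one _ hall
    omega

end WGOne
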