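import Pool.Agent.Lib.MP_107652_al.One.SpecA

/-!
# MP_107652_al, One: alternating words in a twisted product
-/

set_option autoImplicit false

open Finset

namespace WGOne

open WGirth

private theorem TwAlt_key (X : CExt) (V : Type) [Fintype V] (b : V → V → ℂˣ) (x : V → ℤ) :
    ∀ m : ℕ, ∃ c : ℂˣ, ∀ p q : Tw X V b, p.x = x → q.x = x →
      alt m p q = ⟨alt m p.g q.g * X.ζ c, m • x⟩ := by
  intro m
  induction m with
  | zero =>
    refine ⟨1, fun p q _ _ => ?_⟩
    ext1
    · change (1 : X.E) = 1 * X.ζ 1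
      rw [map_one, mul_one]
    · change (0 : V → ℤ) = 0 • x
      rw [zero_smul]
  | succ m ih =>
    obtain ⟨c, hc⟩ := ih
    refine ⟨c * bb b x (m • x), fun p q hp hq => ?_⟩
    have h1 : alt (m + 1) p q = p * alt m q p := rfl
    have h2 : alt (m + 1) p.g q.g = p.g * alt m q.g p.g := rfl
    rw [h1, hc q p hq hp, h2]
    ext1
    · rw [Tw.mul_g, hp, map_mul]
      simp only [mul_assoc]
    · rw [Tw.mul_x, hp, succ_nsmul']

theorem twAlt : TwAlt := by
  intro X V _ b p q hpq m
  obtain ⟨c, hc⟩ := TwAlt_key X V b p.x m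
  rw [hc p q rfl hpq.symm, hc q p hpq.symm rfl]
  constructor
  · intro h
    have h1 := congrArg Tw.g h
    exact mul_right_cancel h1
  · intro h
    rw [h]

end WGOne
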