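import Pool.Agent.Lib.MP_107652_al.One.SpecA

/-!
# MP_107652_al, THEOREM E, part A: powers in a twisted product
-/

set_option autoImplicit false

open Finset

namespace WGOne

open WGirth

/-- the scalar of the `k`-th power -/
private def TwPow_c {V : Type} [Fintype V] (b : V → V → ℂˣ) (x : V → ℤ) : ℕ → ℂˣ
  | 0 => 1
  | k + 1 => TwPow_c b x k * bb b (k • x) x

private theorem TwPow_pow {X : CExt} {V : Type} [Fintype V] {b : V → V → ℂˣ} (r : Tw X V b)
    (k : ℕ) : (r ^ k).x = k • r.x ∧ (r ^ k).g = r.g ^ k * X.ζ (TwPow_c b r.x k) := by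
  induction k with
  | zero => simp [TwPow_c]
  | succ k ih =>
    obtain ⟨h1, h2⟩ := ih
    rw [pow_succ]
    refine ⟨?_, ?_⟩
    · rw [Tw.mul_x, h1, succ_nsmul]
    · rw [Tw.mul_g, h1, h2, TwPow_c, map_mul, pow_succ, mul_assoc (r.g ^ k) (X.ζ _) r.g, X.cen]
      simp only [mul_assoc]

private theorem TwPow_mul {X : CExt} (g : X.E) (c : ℂˣ) (k : ℕ) :
    (g * X.ζ c) ^ k = g ^ k * X.ζ (c ^ k) := by
  have h : Commute g (X.ζ c) := (X.cen c g).symm
  rw [h.mul_pow, map_pow]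

theorem twPow : TwPow := by
  intro X V _ b p q k
  obtain ⟨h1, h2⟩ := TwPow_pow (p * q) k
  obtain ⟨h3, h4⟩ := TwPow_pow (q * p) k
  have hx : (q * p).x = (p * q).x := by
    rw [Tw.mul_x, Tw.mul_x, add_comm]
  rw [Tw.ext_iff, h1, h2, h3, h4, hx, Tw.mul_g, Tw.mul_g, TwPow_mul, TwPow_mul]
  simp only [and_true, mul_left_inj]

end WGOne
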