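import Pool.Agent.Lib.MP_107652_al.One.SpecA

/-!
# MP_107652_al, THEOREM E, part A: correction of projective relations
-/

set_option autoImplicit false

open Finset

namespace WGOne

open WGirth

private theorem TwistCor_normal (X : CExt) : (X.ζ.range).Normal := by
  refine ⟨?_⟩
  rintro _ ⟨c, rfl⟩ g
  refine ⟨c, ?_⟩
  rw [← X.cen c g, mul_assoc, mul_inv_cancel, mul_one]

private theorem TwistCor_one (X : CExt) [(X.ζ.range).Normal] (c : ℂˣ) :
    QuotientGroup.mk' X.ζ.range (X.ζ c) = 1 :=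
  (QuotientGroup.eq_one_iff _).2 ⟨c, rfl⟩

private theorem TwistCor_eq (X : CExt) [(X.ζ.range).Normal] (a b : X.E)
    (h : QuotientGroup.mk' X.ζ.range a = QuotientGroup.mk' X.ζ.range b) :
    ∃ c : ℂˣ, a = b * X.ζ c := by
  have h1 : b⁻¹ * a ∈ X.ζ.range := QuotientGroup.eq.1 h.symm
  obtain ⟨c, hc⟩ := h1
  exact ⟨c, by rw [hc, mul_inv_cancel_left]⟩

theorem twistCor : TwistHom → OddEq → TwistCor := by
  intro hTH hOdd V S _ _ Γ Λ hev φ X u c hu
  have := TwistCor_normal X
  obtain ⟨ρ, hρ⟩ := exists_homO Λ (fun s => QuotientGroup.mk' X.ζ.range (u s)) (by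
    intro s t hst
    rw [← map_alt, ← map_alt, hu s t hst, map_mul, TwistCor_one, one_mul])
  have hsurj : ∀ v : V, ∃ a : X.E, QuotientGroup.mk' X.ζ.range a = ρ (φ (gen Γ v)) := fun v =>
    QuotientGroup.mk'_surjective _ _
  choose g hg using hsurj
  have hrel : ∀ v w : V, ∃ c' : ℂˣ, Γ.graph.Adj v w →
      (g v * g w) ^ half Γ v w = X.ζ c' * (g w * g v) ^ half Γ v w := by
    intro v w
    by_cases hvw : Γ.graph.Adj v w
    · have h1 := congrArg (fun y => ρ (φ y)) (gen_rel hev hvw)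
      simp only [map_pow, map_mul, ← hg] at h1
      rw [← map_mul, ← map_mul, ← map_pow, ← map_pow] at h1
      obtain ⟨c', hc'⟩ := TwistCor_eq X _ _ h1
      exact ⟨c', fun _ => by rw [hc', X.cen]⟩
    · exact ⟨1, fun h => absurd h hvw⟩
  choose c' hc' using hrel
  obtain ⟨b, F, hF⟩ := hTH V Γ hev X g c' hc'
  let pg : Tw X V b →* X.E ⧸ X.ζ.range :=
    { toFun := fun p => QuotientGroup.mk' X.ζ.range p.g
      map_one' := by rw [Tw.one_g, map_one]
      map_mul' := by
        intro p q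
        rw [Tw.mul_g, map_mul, TwistCor_one, mul_one, map_mul] }
  have hpg : ∀ p : Tw X V b, pg p = QuotientGroup.mk' X.ζ.range p.g := fun _ => rfl
  have hcomp : pg.comp F = ρ.comp φ.toMonoidHom := by
    apply hom_ext
    intro v
    rw [MonoidHom.comp_apply, hF, hpg, hg]
    rfl
  have hψ : ∀ s : S, QuotientGroup.mk' X.ζ.range (F (φ.symm (gen Λ s))).g =
      QuotientGroup.mk' X.ζ.range (u s) := by
    intro s
    have h1 := DFunLike.congr_fun hcomp (φ.symm (gen Λ s))
    rw [MonoidHom.comp_apply, hpg] at h1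
    rw [h1, ← hρ]
    change ρ (φ (φ.symm (gen Λ s))) = _
    rw [MulEquiv.apply_symm_apply]
  have hlam : ∀ s : S, ∃ l : ℂˣ, (F (φ.symm (gen Λ s))).g = u s * X.ζ l := fun s =>
    TwistCor_eq X _ _ (hψ s)
  choose lam hlam using hlam
  refine ⟨b, lam, fun s => (F (φ.symm (gen Λ s))).x, F.comp φ.symm.toMonoidHom, ?_, ?_⟩
  · intro s
    apply Tw.ext
    · exact hlam s
    · rfl
  · intro s t hst
    have h1 := hOdd.2 (Multiplicative (V → ℤ)) S Λ
      (Tw.px.comp (F.comp φ.symm.toMonoidHom)) s t hst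
    exact Multiplicative.ofAdd.injective h1

end WGOne
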