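import Pool.Agent.Lib.MP_107652_al.One.SpecA

/-!
# MP_107652_al, THEOREM E, module TwistHom
-/

set_option autoImplicit false

open Finset

namespace WGOne

open WGirth

private theorem TwistHom_root (k : ℕ) (hk : 1 ≤ k) (c : ℂˣ) : ∃ b : ℂˣ, b ^ k = c⁻¹ := by
  obtain ⟨z, hz⟩ := IsAlgClosed.exists_pow_nat_eq (((c⁻¹ : ℂˣ)) : ℂ) (n := k) (by omega)
  have hz0 : z ≠ 0 := by
    rintro rfl
    rw [zero_pow (by omega)] at hz
    exact (c⁻¹).ne_zero hz.symm
  refine ⟨Units.mk0 z hz0, ?_⟩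
  ext1
  rw [Units.val_pow_eq_pow_val, Units.val_mk0, hz]

theorem twistHom : TwPow → TwistHom := by
  intro hP V _ _ Γ hΓ X g c hc
  have hroot : ∀ v w, ∃ b : ℂˣ, (Γ.graph.Adj v w → b ^ half Γ v w = (c v w)⁻¹) := by
    intro v w
    by_cases h : Γ.graph.Adj v w
    · obtain ⟨b, hb⟩ := TwistHom_root (half Γ v w) (hΓ.half_pos h) (c v w)
      exact ⟨b, fun _ => hb⟩
    · exact ⟨1, fun h' => absurd h' h⟩
  choose r hr using hroot
  let o : V → ℕ := fun v => (Fintype.equivFin V v : ℕ)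
  have ho : Function.Injective o := fun v w h => (Fintype.equivFin V).injective (Fin.ext h)
  let b : V → V → ℂˣ := fun v w => if o v < o w then r v w else 1
  -- the relation in one direction
  have hrel : ∀ v w, Γ.graph.Adj v w → o v < o w →
      (((⟨g v, Pi.single v 1⟩ : Tw X V b) * ⟨g w, Pi.single w 1⟩) ^ half Γ v w =
        ((⟨g w, Pi.single w 1⟩ : Tw X V b) * ⟨g v, Pi.single v 1⟩) ^ half Γ v w) := by
    intro v w h hlt
    rw [hP X V b]
    show (g v * g w) ^ half Γ v w * X.ζ (bb b (Pi.single v 1) (Pi.single w 1) ^ half Γ v w) =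
      (g w * g v) ^ half Γ v w * X.ζ (bb b (Pi.single w 1) (Pi.single v 1) ^ half Γ v w)
    rw [bb_single, bb_single]
    have e1 : b v w = r v w := if_pos hlt
    have e2 : b w v = 1 := if_neg (by omega)
    rw [e1, e2, hr v w h, one_pow, map_one, mul_one, hc v w h, X.cen, mul_assoc, ← map_mul,
      mul_inv_cancel, map_one, mul_one]
  obtain ⟨F, hF⟩ := exists_hom hΓ (fun v => (⟨g v, Pi.single v 1⟩ : Tw X V b)) (by
    intro v w h
    have hne : v ≠ w := h.ne
    rcases lt_trichotomy (o v) (o w) with hlt | heq | hgt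
    · exact hrel v w h hlt
    · exact absurd (ho heq) hne
    · have h1 := hrel w v h.symm hgt
      rw [half_comm] at h1
      exact h1.symm)
  exact ⟨b, F, hF⟩

end WGOne
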