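import Pool.Agent.Lib.MP_107652_al.One.CliffRel
import Pool.Agent.Lib.MP_107652_al.One.AltInv
import Pool.Agent.Lib.MP_107652_al.One.CliffEx
import Pool.Agent.Lib.MP_107652_al.One.TwPow
import Pool.Agent.Lib.MP_107652_al.One.TwAlt
import Pool.Agent.Lib.MP_107652_al.One.AltScal
import Pool.Agent.Lib.MP_107652_al.One.TwistHom
import Pool.Agent.Lib.MP_107652_al.One.OddEq
import Pool.Agent.Lib.MP_107652_al.One.TwistCor
import Pool.Agent.Lib.MP_107652_al.One.SignCor
import Pool.Agent.Lib.MP_107652_al.One.NiceEx
import Pool.Agent.Lib.MP_107652_al.One.CgLab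
import Pool.Agent.Lib.MP_107652_al.One.CgHom
import Pool.Agent.Lib.MP_107652_al.One.PreEx0
import Pool.Agent.Lib.MP_107652_al.One.DomM0
import Pool.Agent.Lib.MP_107652_al.One.AdjIso0
import Pool.Agent.Lib.MP_107652_al.One.AltRel
import Pool.Agent.Lib.MP_107652_al.One.RepSol
import Pool.Agent.Lib.MP_107652_al.One.SolEq
import Pool.Agent.Lib.MP_107652_al.One.SolTwo
import Pool.Agent.Lib.MP_107652_al.One.SolSplit
import Pool.Agent.Lib.MP_107652_al.One.NrmE
import Pool.Agent.Lib.MP_107652_al.One.SolGen
import Pool.Agent.Lib.MP_107652_al.One.CstEq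
import Pool.Agent.Lib.MP_107652_al.One.Piece2
import Pool.Agent.Lib.MP_107652_al.One.Kill
import Pool.Agent.Lib.MP_107652_al.One.GenNum
import Pool.Agent.Lib.MP_107652_al.One.Blk
import Pool.Agent.Lib.MP_107652_al.One.DatEx
import Pool.Agent.Lib.MP_107652_al.One.NoK
import Pool.Agent.Lib.MP_107652_al.One.Red
import Pool.Agent.Lib.MP_107652_al.One.ConeEx
import Pool.Agent.Lib.MP_107652_al.One.EvenInv
import Pool.Agent.Lib.MP_107652_al.One.Cone

/-!
# MP_107652_al: evenness is an isomorphism invariant of Artin groups (assembly)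
-/

set_option autoImplicit false

namespace WGOne

open WGirth

/-- **Theorem E.** If the Artin group of an even labelled graph is isomorphic to the Artin group of an
arbitrary labelled graph `Λ`, then `Λ` is even. -/
theorem evenInvariant (V W : Type) [Finite V] [Finite W] (Γ : LGraph V) (Λ : LGraph W)
    (hΓ : IsEven Γ) (e : Artin Γ ≃* Artin Λ) : IsEven Λ := by
  classical
  haveI := Fintype.ofFinite V
  haveI := Fintype.ofFinite W
  have hNice : NiceEx := partA cliffRel altInv cliffEx twPow twAlt altScal twistHom oddEq twistCor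
    signCor niceEx
  have hHom : CgHom := cgHom cgLab
  have hPre : PreEx0 := preEx0 hHom oddEq cgLab
  have hRep : RepSol := repSol altRel
  have hEq : SolEq := solEq hRep oddEq
  have hTwo : SolTwo := solTwo hRep
  have hGen : SolGen := solGen nrmE
  have hKill : Kill := kill nrmE
  have hDat : DatEx := datEx hNice hPre domM0 adjIso0 hEq oddEq
  have hNoK : NoK := noK piece2 solSplit hGen cstEq hKill genNum blk
  have hRed : Red := red solSplit hGen cstEq hKill genNum blk
  have hCone : ConeEx := coneEx hRed hTwo hNoK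
  have hThm : ConeThm := fun S V _ _ Γ Λ comp M N C h => cone Γ Λ comp M N C h
  exact evenInv hDat hCone hThm V W Γ Λ hΓ e

end WGOne
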