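import Pool.Agent.Lib.MP_107652_al.One.SpecC

/-!
# The cone theorem: (AltE) powers of affine maps, even labels
-/

set_option autoImplicit false

open Finset

namespace WGOne

open WGirth

theorem pAltE : S_AltE := by
  intro k g h hk
  rw [alt_two_mul, alt_two_mul, Aff.pow_eq, Aff.pow_eq]
  have ha : (g * h).a = (h * g).a := mul_comm _ _
  have ha2 : (g * h).a = g.a * h.a := rfl
  rw [← ha, ha2]
  set x : ℂˣ := g.a * h.a with hx
  have h1 : ∀ b b' : ℂ, ((⟨x ^ k, (∑ i ∈ range k, (x : ℂ) ^ i) * b⟩ : Aff) =
      ⟨x ^ k, (∑ i ∈ range k, (x : ℂ) ^ i) * b'⟩ ↔ b = b' ∨ ∑ i ∈ range k, (x : ℂ) ^ i = 0) := by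
    intro b b'
    rw [Aff.ext_iff]
    simp only [true_and]
    constructor
    · intro hh
      rcases mul_eq_mul_left_iff.mp hh with h2 | h2
      · exact Or.inl h2
      · exact Or.inr h2
    · rintro (h2 | h2)
      · rw [h2]
      · rw [h2, zero_mul, zero_mul]
  rw [h1]
  have h2 : (g * h).b = (h * g).b ↔ g * h = h * g := by
    constructor
    · intro hh
      exact Aff.ext ha hh
    · intro hh
      rw [hh]
  rw [h2]
  have h3 : ∑ i ∈ range k, (x : ℂ) ^ i = 0 ↔ x ≠ 1 ∧ x ^ k = 1 := by
    constructor
    · intro h0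
      have hx1 : x ≠ 1 := by
        intro hh
        rw [hh] at h0
        simp at h0
        omega
      refine ⟨hx1, ?_⟩
      have h4 := geom_sum_mul (x : ℂ) k
      rw [h0, zero_mul] at h4
      ext
      push_cast
      linear_combination -h4
    · rintro ⟨hx1, hxk⟩
      have h4 := geom_sum_mul (x : ℂ) k
      have h5 : (x : ℂ) ^ k = 1 := by
        have := congrArg Units.val hxk
        simpa using this
      rw [h5, sub_self] at h4
      rcases mul_eq_zero.mp h4 with h6 | h6
      · exact h6
      · exfalso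
        apply hx1
        ext
        rw [Units.val_one]
        exact sub_eq_zero.mp h6
  rw [h3]

end WGOne
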