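import Pool.Agent.Lib.MP_107652_al.Defs

/-!
# MP_107652_al, One: arbitrary labelled graphs, twisted groups. Definitions and first lemmas
-/

set_option autoImplicit false
set_option linter.unusedSectionVars false

open Finset

namespace WGOne

open WGirth

/-! ## Homomorphisms from arbitrary Artin groups -/

theorem exists_homO {S : Type} (Λ : LGraph S) {G : Type} [Group G] (g : S → G)
    (hg : ∀ s t, Λ.graph.Adj s t →
      alt (Λ.label s(s, t)) (g s) (g t) = alt (Λ.label s(s, t)) (g t) (g s)) :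
    ∃ f : Artin Λ →* G, ∀ s, f (gen Λ s) = g s := by
  refine ⟨PresentedGroup.toGroup (f := g) ?_, fun v => PresentedGroup.toGroup.of _⟩
  rintro r ⟨s, t, hst, rfl⟩
  rw [map_mul, map_inv, map_alt, map_alt, FreeGroup.lift_apply_of, FreeGroup.lift_apply_of,
    hg s t hst, mul_inv_cancel]

theorem gen_relO {S : Type} (Λ : LGraph S) {s t : S} (hst : Λ.graph.Adj s t) :
    alt (Λ.label s(s, t)) (gen Λ s) (gen Λ t) =
      alt (Λ.label s(s, t)) (gen Λ t) (gen Λ s) := by
  have h1 : (PresentedGroup.mk (rels Λ)) (alt (Λ.label s(s, t)) (FreeGroup.of s)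
      (FreeGroup.of t) * (alt (Λ.label s(s, t)) (FreeGroup.of t) (FreeGroup.of s))⁻¹) = 1 :=
    PresentedGroup.one_of_mem ⟨s, t, hst, rfl⟩
  rw [map_mul, map_inv, map_alt, map_alt, mul_inv_eq_one] at h1
  exact h1

/-- the graph of the odd edges -/
def oddGraph {S : Type} (Λ : LGraph S) : SimpleGraph S where
  Adj s t := Λ.graph.Adj s t ∧ ¬ Even (Λ.label s(s, t))
  symm := ⟨fun s t h => ⟨h.1.symm, by rw [Sym2.eq_swap]; exact h.2⟩⟩
  loopless := ⟨fun s h => Λ.graph.loopless.irrefl s h.1⟩

/-- `s` and `t` are in the same odd component -/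
def SameC {S : Type} (Λ : LGraph S) (s t : S) : Prop := (oddGraph Λ).Reachable s t

/-! ## Twisted products -/

/-- A group with a central copy of `ℂˣ`. -/
structure CExt where
  E : Type
  [grp : Group E]
  ζ : ℂˣ →* E
  cen : ∀ c g, ζ c * g = g * ζ c
  inj : Function.Injective ζ

attribute [instance] CExt.grp

section tw

variable {V : Type} [Fintype V]

/-- the bimultiplicative form with the values `b v w` on the basis vectors -/
def bb (b : V → V → ℂˣ) (x y : V → ℤ) : ℂˣ := ∏ v, ∏ w, b v w ^ (x v * y w)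

theorem bb_add_left (b : V → V → ℂˣ) (x x' y : V → ℤ) :
    bb b (x + x') y = bb b x y * bb b x' y := by
  unfold bb
  simp only [Pi.add_apply, add_mul, zpow_add, Finset.prod_mul_distrib]

theorem bb_add_right (b : V → V → ℂˣ) (x y y' : V → ℤ) :
    bb b x (y + y') = bb b x y * bb b x y' := by
  unfold bb
  simp only [Pi.add_apply, mul_add, zpow_add, Finset.prod_mul_distrib]

theorem bb_zero_left (b : V → V → ℂˣ) (y : V → ℤ) : bb b 0 y = 1 := by
  unfold bb
  simp

theorem bb_zero_right (b : V → V → ℂˣ) (y : V → ℤ) : bb b y 0 = 1 := by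
  unfold bb
  simp

theorem bb_neg_left (b : V → V → ℂˣ) (x y : V → ℤ) : bb b (-x) y = (bb b x y)⁻¹ := by
  rw [eq_inv_iff_mul_eq_one, ← bb_add_left, neg_add_cancel, bb_zero_left]

theorem bb_single [DecidableEq V] (b : V → V → ℂˣ) (v w : V) :
    bb b (Pi.single v 1) (Pi.single w 1) = b v w := by
  unfold bb
  rw [Finset.prod_eq_single v, Finset.prod_eq_single w]
  · simp
  · intro w' _ h
    simp [Pi.single_apply, h]
  · intro h
    exact absurd (Finset.mem_univ w) h
  · intro v' _ h
    simp [Pi.single_apply, h]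
  · intro h
    exact absurd (Finset.mem_univ v) h

/-- The twisted product of a central extension with `ℤ^V`. -/
@[ext] structure Tw (X : CExt) (V : Type) [Fintype V] (b : V → V → ℂˣ) where
  g : X.E
  x : V → ℤ

namespace Tw

variable {X : CExt} {b : V → V → ℂˣ}

instance : Mul (Tw X V b) := ⟨fun p q => ⟨p.g * q.g * X.ζ (bb b p.x q.x), p.x + q.x⟩⟩
instance : One (Tw X V b) := ⟨⟨1, 0⟩⟩
instance : Inv (Tw X V b) := ⟨fun p => ⟨p.g⁻¹ * X.ζ (bb b p.x p.x), -p.x⟩⟩

@[simp] theorem mul_g (p q : Tw X V b) : (p * q).g = p.g * q.g * X.ζ (bb b p.x q.x) := rfl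
@[simp] theorem mul_x (p q : Tw X V b) : (p * q).x = p.x + q.x := rfl
@[simp] theorem one_g : (1 : Tw X V b).g = 1 := rfl
@[simp] theorem one_x : (1 : Tw X V b).x = 0 := rfl
@[simp] theorem inv_g (p : Tw X V b) : (p⁻¹).g = p.g⁻¹ * X.ζ (bb b p.x p.x) := rfl
@[simp] theorem inv_x (p : Tw X V b) : (p⁻¹).x = -p.x := rfl

instance : Group (Tw X V b) :=
  Group.ofLeftAxioms
    (fun p q r => by
      ext1
      · simp only [mul_g, mul_x, bb_add_left, bb_add_right, map_mul]
        have h1 := X.cen (bb b p.x q.x) r.g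
        have h2 : p.g * q.g * X.ζ (bb b p.x q.x) * r.g = p.g * q.g * r.g * X.ζ (bb b p.x q.x) := by
          rw [mul_assoc, h1, ← mul_assoc]
        rw [h2]
        have h3 : X.ζ (bb b p.x q.x) * (X.ζ (bb b p.x r.x) * X.ζ (bb b q.x r.x)) =
            X.ζ (bb b q.x r.x) * (X.ζ (bb b p.x q.x) * X.ζ (bb b p.x r.x)) := by
          rw [← map_mul, ← map_mul, ← map_mul, ← map_mul]
          congr 1
          rw [mul_comm (bb b q.x r.x), mul_assoc]
        simp only [mul_assoc] at h3 ⊢
        rw [h3]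
      · simp only [mul_x, add_assoc])
    (fun p => by
      ext1
      · simp [bb_zero_left]
      · simp)
    (fun p => by
      ext1
      · simp only [mul_g, inv_g, inv_x, one_g, bb_neg_left, map_inv]
        rw [mul_assoc (p.g⁻¹), X.cen, ← mul_assoc, inv_mul_cancel, one_mul, mul_inv_cancel]
      · simp)

/-- the second coordinate -/
def px : Tw X V b →* Multiplicative (V → ℤ) where
  toFun p := Multiplicative.ofAdd p.x
  map_one' := rfl
  map_mul' _ _ := rfl

@[simp] theorem px_apply (p : Tw X V b) : px p = Multiplicative.ofAdd p.x := rfl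

end Tw

end tw

end WGOne
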