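import Pool.Agent.Lib.MP_107652_al.One.SpecA
import Pool.Agent.Lib.MP_107652_al.Twin.Spec

/-!
# MP_107652_al, One: component graph, spaces of cocycles, subgraphs. Definitions
-/

set_option autoImplicit false
set_option linter.unusedSectionVars false

open Finset

namespace WGOne

open WGirth WGTwin

/-! ## The component graph -/

/-- `comp` is the map to the odd components. -/
structure CMap {S I : Type} (Λ : LGraph S) (comp : S → I) : Prop where
  surj : Function.Surjective comp
  iff : ∀ s t, comp s = comp t ↔ SameC Λ s t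

open Classical in
/-- the label of some edge between the two components -/
noncomputable def cgLabel {S I : Type} (Λ : LGraph S) (comp : S → I) (e : Sym2 I) : ℕ :=
  if h : ∃ p : S × S, Λ.graph.Adj p.1 p.2 ∧ s(comp p.1, comp p.2) = e then
    Λ.label s(h.choose.1, h.choose.2) else 2

/-- the component graph -/
noncomputable def cg {S I : Type} (Λ : LGraph S) (comp : S → I) : LGraph I where
  graph :=
    { Adj := fun i j => i ≠ j ∧ ∃ s t, comp s = i ∧ comp t = j ∧ Λ.graph.Adj s t
      symm := ⟨fun i j h => ⟨h.1.symm, by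
        obtain ⟨s, t, h1, h2, h3⟩ := h.2
        exact ⟨t, s, h2, h1, h3.symm⟩⟩⟩
      loopless := ⟨fun i h => h.1 rfl⟩ }
  label := cgLabel Λ comp
  two_le := by
    intro e _
    unfold cgLabel
    split_ifs with h
    · exact Λ.two_le _ ((SimpleGraph.mem_edgeSet _).mpr h.choose_spec.1)
    · exact le_refl 2

/-- The part of `WGTwin.Pre` used here. -/
structure Pre0 {V W : Type} [Fintype V] [Fintype W] [DecidableEq V] [DecidableEq W]
    (Γ : LGraph V) (Λ : LGraph W) (M : W → V → ℤ) (N : V → W → ℤ) : Prop where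
  nm : ∀ v w, ∑ i, N v i * M i w = if v = w then 1 else 0
  mn : ∀ i j, ∑ v, M i v * N v j = if i = j then 1 else 0
  heisM0 : ∀ a b, Γ.graph.Adj a b → ∀ i j, i ≠ j → ¬ Λ.graph.Adj i j →
    M i a * M j b - M j a * M i b = 0
  heisN0 : ∀ i j, Λ.graph.Adj i j → ∀ a b, a ≠ b → ¬ Γ.graph.Adj a b →
    N a i * N b j - N b i * N a j = 0

/-! ## Cocycles -/

/-- The condition on the translation parts `x`, `y` of two affine maps with linear parts `a`, `c` given
by a relation of length `m` (for odd `m` only used if `a = c`). -/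
def RelE (m : ℕ) (a c x y : ℂ) : Prop :=
  if Even m then (∑ i ∈ range (m / 2), (a * c) ^ i) * ((1 - c) * x - (1 - a) * y) = 0
  else (∑ i ∈ range m, (-a) ^ i) * (x - y) = 0

/-- the space of cocycles (values on the generators) -/
def Sol {S : Type} (Λ : LGraph S) (z : S → ℂˣ) : Submodule ℂ (S → ℂ) where
  carrier := {b | ∀ s t, Λ.graph.Adj s t → RelE (Λ.label s(s, t)) (z s) (z t) (b s) (b t)}
  add_mem' := by
    intro b b' h h' s t hst
    have h1 := h s t hst
    have h2 := h' s t hst
    unfold RelE at h1 h2 ⊢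
    split_ifs with hm
    · rw [if_pos hm] at h1 h2
      simp only [Pi.add_apply]
      linear_combination h1 + h2
    · rw [if_neg hm] at h1 h2
      simp only [Pi.add_apply]
      linear_combination h1 + h2
  zero_mem' := by
    intro s t _
    unfold RelE
    split_ifs <;> simp
  smul_mem' := by
    intro c b h s t hst
    have h1 := h s t hst
    unfold RelE at h1 ⊢
    split_ifs with hm
    · rw [if_pos hm] at h1
      simp only [Pi.smul_apply, smul_eq_mul]
      linear_combination c * h1
    · rw [if_neg hm] at h1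
      simp only [Pi.smul_apply, smul_eq_mul]
      linear_combination c * h1

theorem mem_Sol {S : Type} {Λ : LGraph S} {z : S → ℂˣ} {b : S → ℂ} : b ∈ Sol Λ z ↔
    ∀ s t, Λ.graph.Adj s t → RelE (Λ.label s(s, t)) (z s) (z t) (b s) (b t) := Iff.rfl

/-- functions which are constant along the edges -/
def Cst {S : Type} (Λ : LGraph S) : Submodule ℂ (S → ℂ) where
  carrier := {b | ∀ s t, Λ.graph.Adj s t → b s = b t}
  add_mem' := by
    intro b b' h h' s t hst
    rw [Pi.add_apply, Pi.add_apply, h s t hst, h' s t hst]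
  zero_mem' := by
    intro s t _
    rfl
  smul_mem' := by
    intro c b h s t hst
    rw [Pi.smul_apply, Pi.smul_apply, h s t hst]

theorem mem_Cst {S : Type} {Λ : LGraph S} {b : S → ℂ} :
    b ∈ Cst Λ ↔ ∀ s t, Λ.graph.Adj s t → b s = b t := Iff.rfl

/-- the full labelled subgraph on the vertices with the property `P` -/
def sub {S : Type} (Λ : LGraph S) (P : S → Prop) : LGraph {s // P s} where
  graph := Λ.graph.comap Subtype.val
  label := fun e => Λ.label (e.map Subtype.val)
  two_le := by
    intro e
    induction e using Sym2.ind with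
    | _ x y =>
      intro h
      rw [SimpleGraph.mem_edgeSet, SimpleGraph.comap_adj] at h
      rw [Sym2.map_mk]
      exact Λ.two_le _ ((SimpleGraph.mem_edgeSet _).mpr h)

theorem sub_adj {S : Type} (Λ : LGraph S) (P : S → Prop) (s t : {s // P s}) :
    (sub Λ P).graph.Adj s t ↔ Λ.graph.Adj s.1 t.1 := Iff.rfl

theorem sub_label {S : Type} (Λ : LGraph S) (P : S → Prop) (s t : {s // P s}) :
    (sub Λ P).label s(s, t) = Λ.label s(s.1, t.1) := rfl

/-! ## The data of an isomorphism -/

/-- `Γ` is even, `comp` maps the vertices of `Λ` to their odd components, identified with the vertices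
of `Γ` such that the graph of `Γ` is the component graph; `M`, `N` are the matrices of the isomorphism
and its inverse, triangular for domination; `chr`: characters with equal dimensions of cocycles. -/
structure Dat {V S : Type} [Fintype V] [DecidableEq V] (Γ : LGraph V) (Λ : LGraph S)
    (comp : S → V) (M N : Matrix V V ℤ) : Prop where
  even : IsEven Γ
  nice : Nice Λ
  cmap : CMap Λ comp
  adj : ∀ v w, Γ.graph.Adj v w ↔ v ≠ w ∧ ∃ s t, comp s = v ∧ comp t = w ∧ Λ.graph.Adj s t
  MN : M * N = 1
  NM : N * M = 1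
  domM : ∀ c r, M r c ≠ 0 → Dom Γ c r
  domN : ∀ c r, N r c ≠ 0 → Dom Γ c r
  chr : ∀ z : V → ℂˣ, Module.finrank ℂ (Sol Γ (pw M z)) =
    Module.finrank ℂ (Sol Λ (fun s => z (comp s)))

/-- `u` is `C` or a neighbour of `C`, and all neighbours of `u` are `C` or neighbours of `C`. -/
def InU {V : Type} (Γ : LGraph V) (C u : V) : Prop :=
  (u = C ∨ Γ.graph.Adj u C) ∧ ∀ w, Γ.graph.Adj u w → w = C ∨ Γ.graph.Adj w C

/-- `u` is not `C` and not adjacent to `C` -/
def InG {V : Type} (Γ : LGraph V) (C u : V) : Prop := u ≠ C ∧ ¬ Γ.graph.Adj u C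

theorem inU_self {V : Type} (Γ : LGraph V) (C : V) : InU Γ C C :=
  ⟨Or.inl rfl, fun _ h => Or.inr h.symm⟩

theorem not_UG {V : Type} (Γ : LGraph V) (C u : V) : ¬ (InU Γ C u ∧ InG Γ C u) := by
  rintro ⟨h1, h2⟩
  rcases h1.1 with h | h
  · exact h2.1 h
  · exact h2.2 h

end WGOne
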