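import Pool.Agent.Lib.MP_107652_al.One.SpecB

/-!
# MP_107652_al, One, module CgLab: labels of the component graph
-/

set_option autoImplicit false

open Finset

namespace WGOne

open WGirth

theorem cgLab : CgLab := by
  intro S I Λ comp hN hC s t hst hne
  have hns : ¬ SameC Λ s t := fun h => hne ((hC.iff s t).2 h)
  have key : ∀ a b, Λ.graph.Adj a b → comp a = comp s → comp b = comp t →
      Λ.label s(a, b) = Λ.label s(s, t) := by
    intro a b hab ha hb
    by_cases h2 : Λ.label s(s, t) = 2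
    · by_cases h3 : Λ.label s(a, b) = 2
      · rw [h2, h3]
      · have hnab : ¬ SameC Λ a b := fun h => hne (by
          rw [← ha, ← hb]
          exact (hC.iff a b).2 h)
        obtain ⟨h4, h5⟩ := hN.un a b s t hab hst ((hC.iff a s).1 ha) ((hC.iff b t).1 hb) hnab h3
        rw [h4, h5]
    · obtain ⟨h4, h5⟩ := hN.un s t a b hst hab ((hC.iff s a).1 ha.symm)
        ((hC.iff t b).1 hb.symm) hns h2
      rw [h4, h5]
  refine ⟨?_, ?_⟩
  · by_contra hodd
    exact hns (SimpleGraph.Adj.reachable (show (oddGraph Λ).Adj s t from ⟨hst, hodd⟩))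
  · show cgLabel Λ comp s(comp s, comp t) = Λ.label s(s, t)
    have hex : ∃ p : S × S, Λ.graph.Adj p.1 p.2 ∧ s(comp p.1, comp p.2) = s(comp s, comp t) :=
      ⟨(s, t), hst, rfl⟩
    unfold cgLabel
    rw [dif_pos hex]
    obtain ⟨h1, h2⟩ := hex.choose_spec
    rcases Sym2.eq_iff.1 h2 with h3 | h3
    · exact key _ _ h1 h3.1 h3.2
    · rw [Sym2.eq_swap]
      exact key _ _ h1.symm h3.2 h3.1

end WGOne
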