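import Pool.Agent.Lib.MP_107652_al.Aff

/-!
# Evenness is an isomorphism invariant: definitions shared by the parts of the proof

`NA Λ z`: there is a homomorphism from the Artin group of `Λ` to the affine group of `ℂ` with the
linear parts `z s` whose translation part is not a coboundary. `ConeData`: the situation after the
reduction to the cone (output of Steps 1 to 3, input of Part C, which derives `False`).
-/

set_option autoImplicit false

namespace WGOne

open WGirth

variable {S V : Type}

/-- The affine map with the linear part `z s` and the translation part `b s`. -/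
def af (z : S → ℂˣ) (b : S → ℂ) (s : S) : Aff := ⟨z s, b s⟩

/-- The affine maps `x ↦ z s x + b s` satisfy the relations of the Artin group of `Λ`. -/
def Rep (Λ : LGraph S) (z : S → ℂˣ) (b : S → ℂ) : Prop :=
  ∀ s t, Λ.graph.Adj s t →
    alt (Λ.label s(s, t)) (af z b s) (af z b t) = alt (Λ.label s(s, t)) (af z b t) (af z b s)

/-- The affine maps `x ↦ z s x + b s` have a common fixed point `c` (a coboundary). -/
def Cob (z : S → ℂˣ) (b : S → ℂ) : Prop := ∃ c : ℂ, ∀ s, b s = (1 - (z s : ℂ)) * c

/-- There is a representation with linear part `z` which is not a coboundary. -/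
def NA (Λ : LGraph S) (z : S → ℂˣ) : Prop := ∃ b : S → ℂ, Rep Λ z b ∧ ¬ Cob z b

/-- The character `z ^ M`: `(z ^ M) v = ∏ i, z i ^ M i v`. -/
def pw [Fintype V] (M : Matrix V V ℤ) (z : V → ℂˣ) : V → ℂˣ := fun v => ∏ i, z i ^ M i v

/-- `q` is adjacent to all other vertices. -/
def Cone (Γ : LGraph V) (q : V) : Prop := ∀ v, v ≠ q → Γ.graph.Adj q v

/-- The situation after the reduction to the cone: `Γ` is an even labelled graph, `comp` maps the
vertices of the labelled graph `Λ` to their odd components, which are the vertices of `Γ`. -/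
structure ConeData [Fintype V] [DecidableEq V] (Γ : LGraph V) (Λ : LGraph S) (comp : S → V)
    (M N : Matrix V V ℤ) (C : V) : Prop where
  even : IsEven Γ
  surj : Function.Surjective comp
  /-- edges inside a component are odd -/
  odd_in : ∀ s t, Λ.graph.Adj s t → comp s = comp t → ¬ Even (Λ.label s(s, t))
  /-- edges between different components are even -/
  even_out : ∀ s t, Λ.graph.Adj s t → comp s ≠ comp t → Even (Λ.label s(s, t))
  /-- the component graph is the graph of `Γ` -/
  adj_out : ∀ s t, Λ.graph.Adj s t → comp s ≠ comp t → Γ.graph.Adj (comp s) (comp t)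
  adj_ex : ∀ i j, Γ.graph.Adj i j → ∃ s t, comp s = i ∧ comp t = j ∧ Λ.graph.Adj s t
  /-- a heavy edge between two components is the only edge between them -/
  heavy : ∀ s t s' t', Λ.graph.Adj s t → Λ.graph.Adj s' t' → comp s ≠ comp t → comp s' = comp s →
    comp t' = comp t → 3 ≤ Λ.label s(s, t) → s' = s ∧ t' = t
  /-- the components are connected -/
  conn : ∀ (P : S → Prop) (s t : S), comp s = comp t → P s → ¬ P t →
    ∃ a b, Λ.graph.Adj a b ∧ comp a = comp s ∧ comp b = comp s ∧ P a ∧ ¬ P b
  /-- the components which are not cones are vertices -/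
  single : ∀ s t, comp s = comp t → ¬ Cone Γ (comp s) → s = t
  coneC : Cone Γ C
  /-- the component of `C` has a colouring with exactly one bichromatic edge -/
  bridge : ∃ (P : S → Prop) (s0 t0 : S), Λ.graph.Adj s0 t0 ∧ comp s0 = C ∧ comp t0 = C ∧ P s0 ∧
    ¬ P t0 ∧ ∀ a b, Λ.graph.Adj a b → comp a = C → comp b = C → P a → ¬ P b → a = s0 ∧ b = t0
  MN : M * N = 1
  NM : N * M = 1
  Moq : ∀ o q, ¬ Cone Γ o → Cone Γ q → M o q = 0
  /-- the isomorphism preserves the characters with representations -/
  na : ∀ z : V → ℂˣ, z ≠ 1 → (NA Λ (fun s => z (comp s)) ↔ NA Γ (pw M z))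

end WGOne
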