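import Pool.Agent.Lib.MP_107652_al.Even.BlkGen
import Pool.Agent.Lib.MP_107652_al.Even.BlkS
import Pool.Agent.Lib.MP_107652_al.Even.CoreEx
import Pool.Agent.Lib.MP_107652_al.Even.CycLow
import Pool.Agent.Lib.MP_107652_al.Even.CycUp
import Pool.Agent.Lib.MP_107652_al.Even.EFour
import Pool.Agent.Lib.MP_107652_al.Even.EOne
import Pool.Agent.Lib.MP_107652_al.Even.EThree
import Pool.Agent.Lib.MP_107652_al.Even.ETwo
import Pool.Agent.Lib.MP_107652_al.Even.Final
import Pool.Agent.Lib.MP_107652_al.Even.FiveA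
import Pool.Agent.Lib.MP_107652_al.Even.FiveB
import Pool.Agent.Lib.MP_107652_al.Even.FiveL
import Pool.Agent.Lib.MP_107652_al.Even.FiveThree
import Pool.Agent.Lib.MP_107652_al.Even.FiveTwo
import Pool.Agent.Lib.MP_107652_al.Even.Four
import Pool.Agent.Lib.MP_107652_al.Even.FourD
import Pool.Agent.Lib.MP_107652_al.Even.FourDOne
import Pool.Agent.Lib.MP_107652_al.Even.FourDTwo
import Pool.Agent.Lib.MP_107652_al.Even.FourDTwoA
import Pool.Agent.Lib.MP_107652_al.Even.FourIOne
import Pool.Agent.Lib.MP_107652_al.Even.FourIThree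
import Pool.Agent.Lib.MP_107652_al.Even.FourIThreeA
import Pool.Agent.Lib.MP_107652_al.Even.FourITwo
import Pool.Agent.Lib.MP_107652_al.Even.FourITwoA
import Pool.Agent.Lib.MP_107652_al.Even.FourITwoB
import Pool.Agent.Lib.MP_107652_al.Even.GenEx
import Pool.Agent.Lib.MP_107652_al.Even.GirthC
import Pool.Agent.Lib.MP_107652_al.Even.LocS
import Pool.Agent.Lib.MP_107652_al.Even.Minor
import Pool.Agent.Lib.MP_107652_al.Even.PairK
import Pool.Agent.Lib.MP_107652_al.Even.PiExG
import Pool.Agent.Lib.MP_107652_al.Even.SixA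
import Pool.Agent.Lib.MP_107652_al.Even.SixB
import Pool.Agent.Lib.MP_107652_al.Even.StarBG
import Pool.Agent.Lib.MP_107652_al.Even.StarQEx
import Pool.Agent.Lib.MP_107652_al.Even.StarSt
import Pool.Agent.Lib.MP_107652_al.Even.TDESymm
import Pool.Agent.Lib.MP_107652_al.Even.TK
import Pool.Agent.Lib.MP_107652_al.Even.Trans2
import Pool.Agent.Lib.MP_107652_al.Even.UnitColG
import Pool.Agent.Lib.MP_107652_al.Even.UpInv

/-!
# The weighted girth is an isomorphism invariant of even Artin groups

Let `Γ` and `Λ` be finite labelled graphs all of whose labels are even. If the Artin groups of `Γ`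
and `Λ` are isomorphic, then `Γ` and `Λ` have the same weighted girth. The definitions (`LGraph`,
`Artin`, `wgirth`, `IsEven`) are in `Pool/Agent/Lib/MP_107652_al/Defs.lean`.
-/

set_option autoImplicit false

namespace WGOne

open WGirth WGTwin WGEven

/-- **Main theorem.** -/
theorem evenEven (V W : Type) [Finite V] [Finite W] (Γ : LGraph V) (Λ : LGraph W)
    (hΓ : IsEven Γ) (hΛ : IsEven Λ) (e : Artin Γ ≃* Artin Λ) : wgirth Γ = wgirth Λ := by
  haveI := Fintype.ofFinite V
  haveI := Fintype.ofFinite W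
  have sB : StarBG := starBG
  have e1 : EOne := eOne
  have e2 : ETwo := eTwo sB
  have e3 : EThree := eThree sB e2
  have e4 : EFour := eFour sB minor
  have hLocS : LocS := locS genEx blkOut (blkGen blkOut) blkS upInv
  have hSt : StarSt := starSt hLocS starQEx
  have hCore : CoreEx := coreEx hSt tDESymm (piExG unitColG)
  have hD2 : FourDTwo := fourDTwo (fourDTwoA e1 e2) e2 sB rowDvd
  have hD : FourD := fourD e1 (fourDOne e1 e2) hD2
  have hI2 : FourITwo := fourITwo (fourITwoB (fourITwoA e4 e2) sB minor e3) sB rowDvd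
  have hI3 : FourIThree := fourIThree (fourIThreeA e4 e2 e3 minor sB) rowDvd sB
  have hTK : TK := tK pairK
  have h4 : Four := four hD (fourIOne e1 e4) hI2 hI3 hTK
  have hL : FiveL := fiveL e1 e2 e3
  have hM : FiveM := fiveM hL e2
  have h5 : FiveA := fiveA (fiveOne hM) (fiveTwo hL e2 minor rowDvd) (fiveThree hM sB minor) hTK
  exact final trans2 hCore h4 h5 (fiveB e1) (sixA e1 e2 e4) (sixB e1) (sixC e1)
    (girthC cycUp cycLow) V W Γ Λ hΓ hΛ ⟨e⟩

end WGOne
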