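import Pool.Agent.Lib.MP_107652_al.One.SpecC

/-!
# MP_107652_al, THEOREM E, part C: the subset sums are `0`, `1` or `-1` if one set has three elements
-/

set_option autoImplicit false

namespace WGOne

open WGirth

namespace HBigAux

theorem neg {n : ℤ} (h : T3 n) : T3 (-n) := by
  unfold T3 at h ⊢
  omega

/-- A set with three elements all of whose proper parts have a sum in `{0, 1, -1}`. -/
theorem core {X : Type} [DecidableEq X] (Q : Finset X) (f : X → ℤ)
    (hT : ∀ U ⊆ Q, U.Nonempty → (Q \ U).Nonempty → T3 (∑ v ∈ U, f v)) (hQ : 3 ≤ Q.card) :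
    T3 (∑ v ∈ Q, f v) := by
  have h1 : ∀ a ∈ Q, T3 (f a) := by
    intro a ha
    have hne : (Q \ {a}).Nonempty := by
      rw [← Finset.card_pos, Finset.card_sdiff_of_subset (Finset.singleton_subset_iff.mpr ha),
        Finset.card_singleton]
      omega
    have := hT {a} (Finset.singleton_subset_iff.mpr ha) (Finset.singleton_nonempty a) hne
    rwa [Finset.sum_singleton] at this
  have h2 : ∀ a ∈ Q, T3 (∑ v ∈ Q, f v - f a) := by
    intro a ha
    have hne : (Q.erase a).Nonempty := by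
      rw [← Finset.card_pos, Finset.card_erase_of_mem ha]
      omega
    have hne2 : (Q \ Q.erase a).Nonempty := by
      refine ⟨a, Finset.mem_sdiff.mpr ⟨ha, Finset.notMem_erase a Q⟩⟩
    have h3 := hT (Q.erase a) (Finset.erase_subset a Q) hne hne2
    have h4 := Finset.add_sum_erase Q f ha
    have h5 : ∑ v ∈ Q.erase a, f v = ∑ v ∈ Q, f v - f a := by omega
    rwa [h5] at h3
  obtain ⟨a0, ha0⟩ : Q.Nonempty := by
    rw [← Finset.card_pos]
    omega
  by_contra hcon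
  have h3 : ∑ v ∈ Q, f v = 2 ∨ ∑ v ∈ Q, f v = -2 := by
    have h4 := h1 a0 ha0
    have h5 := h2 a0 ha0
    unfold T3 at h4 h5 hcon
    omega
  rcases h3 with h3 | h3
  · have h4 : ∀ a ∈ Q, f a = 1 := by
      intro a ha
      have h5 := h1 a ha
      have h6 := h2 a ha
      unfold T3 at h5 h6
      omega
    rw [Finset.sum_congr rfl h4, Finset.sum_const, nsmul_eq_mul, mul_one] at h3
    omega
  · have h4 : ∀ a ∈ Q, f a = -1 := by
      intro a ha
      have h5 := h1 a ha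
      have h6 := h2 a ha
      unfold T3 at h5 h6
      omega
    rw [Finset.sum_congr rfl h4, Finset.sum_const, nsmul_eq_mul, mul_neg, mul_one] at h3
    omega

/-- The union of two disjoint sets. -/
theorem main {X : Type} [DecidableEq X] (P1 P2 : Finset X) (f : X → ℤ) (hd : Disjoint P1 P2)
    (h0 : ∑ v ∈ P1 ∪ P2, f v = 0)
    (hs : ∀ U1 ⊆ P1, ∀ U2 ⊆ P2, U1.Nonempty → U2.Nonempty → T3 (∑ v ∈ U1, f v + ∑ v ∈ U2, f v))
    (h1 : P1.Nonempty) (h2 : P2.Nonempty) (h3 : 3 ≤ P1.card ∨ 3 ≤ P2.card) :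
    ∀ U ⊆ P1 ∪ P2, T3 (∑ v ∈ U, f v) := by
  have hA : ∀ U ⊆ P1 ∪ P2, (∃ a ∈ U, a ∈ P1) → (∃ b ∈ U, b ∈ P2) → T3 (∑ v ∈ U, f v) := by
    intro U hU ⟨a, ha, ha1⟩ ⟨b, hb, hb2⟩
    have hU2 : U = (U ∩ P1) ∪ (U ∩ P2) := by
      rw [← Finset.inter_union_distrib_left]
      exact (Finset.inter_eq_left.mpr hU).symm
    have hdis : Disjoint (U ∩ P1) (U ∩ P2) :=
      Finset.disjoint_of_subset_left Finset.inter_subset_right
        (Finset.disjoint_of_subset_right Finset.inter_subset_right hd)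
    rw [hU2, Finset.sum_union hdis]
    exact hs _ Finset.inter_subset_right _ Finset.inter_subset_right
      ⟨a, Finset.mem_inter.mpr ⟨ha, ha1⟩⟩ ⟨b, Finset.mem_inter.mpr ⟨hb, hb2⟩⟩
  have hC : ∀ U ⊆ P1 ∪ P2, ∑ v ∈ U, f v = - ∑ v ∈ (P1 ∪ P2) \ U, f v := by
    intro U hU
    have := Finset.sum_sdiff (f := f) hU
    omega
  have hB : ∀ U ⊆ P1 ∪ P2, (∃ a, a ∉ U ∧ a ∈ P1) → (∃ b, b ∉ U ∧ b ∈ P2) →
      T3 (∑ v ∈ U, f v) := by
    intro U hU ⟨a, ha, ha1⟩ ⟨b, hb, hb2⟩
    rw [hC U hU]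
    apply neg
    exact hA _ Finset.sdiff_subset
      ⟨a, Finset.mem_sdiff.mpr ⟨Finset.mem_union_left _ ha1, ha⟩, ha1⟩
      ⟨b, Finset.mem_sdiff.mpr ⟨Finset.mem_union_right _ hb2, hb⟩, hb2⟩
  have hsum : ∑ v ∈ P1, f v + ∑ v ∈ P2, f v = 0 := by
    rw [← Finset.sum_union hd]
    exact h0
  -- the two sets themselves
  have hP : T3 (∑ v ∈ P1, f v) ∧ T3 (∑ v ∈ P2, f v) := by
    rcases h3 with h3 | h3
    · have h4 : T3 (∑ v ∈ P1, f v) := by
        apply core P1 f _ h3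
        intro U hU _ hne
        obtain ⟨a, ha⟩ := hne
        rw [Finset.mem_sdiff] at ha
        obtain ⟨b, hb⟩ := h2
        exact hB U (hU.trans Finset.subset_union_left) ⟨a, ha.2, ha.1⟩
          ⟨b, fun h => (Finset.disjoint_left.mp hd (hU h)) hb, hb⟩
      refine ⟨h4, ?_⟩
      have h5 : ∑ v ∈ P2, f v = - ∑ v ∈ P1, f v := by omega
      rw [h5]
      exact neg h4
    · have h4 : T3 (∑ v ∈ P2, f v) := by
        apply core P2 f _ h3
        intro U hU _ hne
        obtain ⟨b, hb⟩ := hne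
        rw [Finset.mem_sdiff] at hb
        obtain ⟨a, ha⟩ := h1
        exact hB U (hU.trans Finset.subset_union_right)
          ⟨a, fun h => (Finset.disjoint_left.mp hd ha) (hU h), ha⟩ ⟨b, hb.2, hb.1⟩
      refine ⟨?_, h4⟩
      have h5 : ∑ v ∈ P1, f v = - ∑ v ∈ P2, f v := by omega
      rw [h5]
      exact neg h4
  intro U hU
  by_cases hm1 : ∃ a ∈ U, a ∈ P1
  · by_cases hm2 : ∃ b ∈ U, b ∈ P2
    · exact hA U hU hm1 hm2
    · -- `U ⊆ P1`
      have hU1 : U ⊆ P1 := by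
        intro v hv
        rcases Finset.mem_union.mp (hU hv) with h | h
        · exact h
        · exact absurd ⟨v, hv, h⟩ hm2
      by_cases hn1 : ∃ a, a ∉ U ∧ a ∈ P1
      · obtain ⟨b, hb⟩ := h2
        exact hB U hU hn1 ⟨b, fun h => hm2 ⟨b, h, hb⟩, hb⟩
      · have : U = P1 := by
          apply Finset.Subset.antisymm hU1
          intro v hv
          by_contra hvU
          exact hn1 ⟨v, hvU, hv⟩
        rw [this]
        exact hP.1
  · have hU2 : U ⊆ P2 := by
      intro v hv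
      rcases Finset.mem_union.mp (hU hv) with h | h
      · exact absurd ⟨v, hv, h⟩ hm1
      · exact h
    by_cases hn2 : ∃ b, b ∉ U ∧ b ∈ P2
    · obtain ⟨a, ha⟩ := h1
      exact hB U hU ⟨a, fun h => hm1 ⟨a, h, ha⟩, ha⟩ hn2
    · have : U = P2 := by
        apply Finset.Subset.antisymm hU2
        intro v hv
        by_contra hvU
        exact hn2 ⟨v, hvU, hv⟩
      rw [this]
      exact hP.2

end HBigAux

theorem pHBig : S_HBig := by
  intro X ι _ P1 P2 I C f g p h h1 h2 h3 i hi U hU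
  exact HBigAux.main P1 P2 (f i) h.disj (h.zero i hi) (h.sub i hi) h1 h2 h3 U hU

end WGOne
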