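import Pool.Agent.Lib.MP_107652_al.One.BaseA
import Pool.Agent.Lib.MP_107652_al.One.Defs

/-!
# MP_107652_al, THEOREM E (evenness is an isomorphism invariant of Artin groups), part A: Clifford
algebras and twisted products. Statements with complete proofs in the docstrings

`Γ` is an even labelled graph, `Λ` an arbitrary labelled graph, `Artin Γ ≃* Artin Λ`. Part A shows:
(NiceEx) no even edge of `Λ` joins two vertices of an odd component, every odd edge is a bridge of the
graph of the odd edges, and a heavy edge (even label, not `2`) between two odd components is the only edge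
between them. The file BaseA.lean contains `exists_homO`, `gen_relO`, `oddGraph`, `SameC`, `CExt`, `bb`,
`Tw` (with its group structure).
-/

set_option autoImplicit false

open Finset

namespace WGOne

open WGirth

/-! ## Clifford algebras -/

/-- **CliffRel.** Proof. Let `α = π j / m`, `0 < α < π`, `r₁ = -exp(iα)`, `r₂ = -exp(-iα)` (complex numbers).
`r₁ ≠ r₂`: otherwise `exp(2iα) = 1`, so `sin α = 0`, but `Real.sin_pos_of_pos_of_lt_pi`. `r₁ + r₂ = -2 cos α`,
`r₁ r₂ = 1` (`Complex.exp_add`, `Complex.cos`), so the hypothesis says that the polynomial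
`(T - r₁) * (T - r₂)` vanishes at `X` (`Polynomial.aeval`). `r₁ ^ m = (-1)^m * exp(iπj) = (-1)^(m + j)`, and
also `r₂ ^ m = (-1)^(m+j)`. So `T - r₁` and `T - r₂` divide `T ^ m - C ((-1)^(m+j))` in `ℂ[T]`
(`Polynomial.dvd_iff_isRoot`), they are coprime (`Polynomial.isCoprime_X_sub_C_of_isUnit_sub`), so the
product divides it (`IsCoprime.mul_dvd`). Apply `aeval X`. -/
def CliffRel : Prop := ∀ (R : Type) [Ring R] [Algebra ℂ R] (X : R) (m j : ℕ), 0 < j → j < m →
  X * X + ((2 * Real.cos (Real.pi * j / m) : ℝ) : ℂ) • X + 1 = 0 → X ^ m = (-1) ^ (m + j)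

/-- **AltInv.** Proof. Induction on `m` for all `u v`: `alt (m+1) u v = u * alt m v u` and
`(u v)^(m+1) * alt (m+1) v u = (u v)^(m+1) * v * alt m u v = (u v)^(m+1) * v * (u v)^m * alt m v u`; finally
`v * (u v)^m = (v u)^m * v` (`mul_pow_mul` or induction), `(u v)^m * (v u)^m = 1` because
`(u v) * (v u) = 1` and they commute (`v u = (u v)⁻¹`), so `(u v)^(m+1) * v * (u v)^m = u v v = u`. -/
def AltInv : Prop := ∀ (G : Type) [Group G] (u v : G), u * u = 1 → v * v = 1 →
  ∀ m : ℕ, alt m u v = (u * v) ^ m * alt m v u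

/-- **CliffEx.** For every sign function `ε` on the edges which is `-1` on the light edges (label `2`)
there are elements of a central extension which satisfy the relations of `Λ` up to the signs `ε`.
Proof (from CliffRel, AltInv). Choose `j : Sym2 S → ℕ`: for an edge `e` with label `m` put
`j e = 1` or `j e = 2` such that `0 < j e < m` and `(-1)^(m + j e) = ε e`. (`m = 2`: `ε e = -1`, `j e = 1`. For
`m ≥ 3` one of the two values gives the right sign.) Let `B : Matrix S S ℂ`, `B s t = 1` if `s = t`,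
`B s t = -cos(π (j e) / m)` for an edge `e = s(s, t)` with label `m`, `0` otherwise (symmetric). Let `Q` be
the quadratic form on `S → ℂ` of `B`, e.g.
`(Matrix.toLinearMap₂' ℂ B).toQuadraticMap` (`LinearMap.BilinMap.toQuadraticMap`), so
`Q (Pi.single s 1) = 1` and `QuadraticMap.polar Q (Pi.single s 1) (Pi.single t 1) = 2 * B s t`. Let
`A = CliffordAlgebra Q` (`Nontrivial`: instance in `Mathlib.LinearAlgebra.CliffordAlgebra.Contraction`,
needs `Invertible (2 : ℂ)`), `a s = CliffordAlgebra.ι Q (Pi.single s 1)`. `a s * a s = 1`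
(`CliffordAlgebra.ι_sq_scalar`), so `a s` is a unit `u s` with `u s * u s = 1`.
`a s * a t + a t * a s = algebraMap (2 * B s t)` (`CliffordAlgebra.ι_mul_ι_add_swap`). For an edge put
`X = a s * a t`; multiplying the last equation on the left by `X` and using `X * (a t * a s) = 1` gives
`X * X + 1 = (2 * B s t) • X`, i.e. `X * X + (2 cos(π j / m)) • X + 1 = 0`. CliffRel: `X ^ m = (-1)^(m + j) = ε`.
AltInv: `alt m (u s) (u t) = X ^ m * alt m (u t) (u s)`. The central extension: `E = Aˣ`,
`ζ = Units.map (algebraMap ℂ A)` (injective: `A` is nontrivial, `FaithfulSMul.algebraMap_injective` or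
`(algebraMap ℂ A).injective`; central: `Algebra.commutes`). -/
def CliffEx : Prop := ∀ (S : Type) [Fintype S] [DecidableEq S] (Λ : LGraph S) (ε : Sym2 S → ℂˣ),
  (∀ e ∈ Λ.graph.edgeSet, ε e = 1 ∨ ε e = -1) →
  (∀ e ∈ Λ.graph.edgeSet, Λ.label e = 2 → ε e = -1) →
  ∃ (X : CExt) (u : S → X.E), ∀ s t, Λ.graph.Adj s t →
    alt (Λ.label s(s, t)) (u s) (u t) = X.ζ (ε s(s, t)) * alt (Λ.label s(s, t)) (u t) (u s)

/-! ## Twisted products -/

/-- **TwPow.** Proof. For `r : Tw X V b` and `k : ℕ` there is a number `c k` (a unit of `ℂ`, depending only on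
`r.x`: `c k = bb b r.x r.x ^ (k * (k - 1) / 2)`; it is enough to use the recursively defined function
`c 0 = 1`, `c (k+1) = c k * bb b (k • r.x) r.x`) with `r ^ k = ⟨r.g ^ k * X.ζ (c k), k • r.x⟩`. Since
`(p * q).x = (q * p).x`, the two sides have the same second coordinate and the same `c k`; cancel it.
`(p * q).g ^ k = (p.g * q.g) ^ k * X.ζ (bb b p.x q.x) ^ k` because `ζ` is central (`Commute.mul_pow`). -/
def TwPow : Prop := ∀ (X : CExt) (V : Type) [Fintype V] (b : V → V → ℂˣ) (p q : Tw X V b) (k : ℕ),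
  (p * q) ^ k = (q * p) ^ k ↔
    (p.g * q.g) ^ k * X.ζ (bb b p.x q.x ^ k) = (q.g * p.g) ^ k * X.ζ (bb b q.x p.x ^ k)

/-- **TwAlt.** Proof. With `x = p.x = q.x` there is a unit `c m` depending only on `x` and `m` such that
`alt m p q = ⟨alt m p.g q.g * X.ζ (c m), m • x⟩` (induction on `m` for all pairs with second coordinates `x`:
`c 0 = 1`, `c (m+1) = c m * bb b x (m • x)`). The same `c m` for `alt m q p`; cancel. -/
def TwAlt : Prop := ∀ (X : CExt) (V : Type) [Fintype V] (b : V → V → ℂˣ) (p q : Tw X V b),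
  p.x = q.x → ∀ m : ℕ, (alt m p q = alt m q p ↔ alt m p.g q.g = alt m q.g p.g)

/-- **AltScal.** Proof. Induction on `l` for the pair of statements (both for all `g h a c`), using
`alt (n+1) g h = g * alt n h g` and centrality. -/
def AltScal : Prop := ∀ (X : CExt) (g h : X.E) (a c : ℂˣ) (l : ℕ),
  alt (2 * l) (g * X.ζ a) (h * X.ζ c) = alt (2 * l) g h * X.ζ (a ^ l * c ^ l) ∧
  alt (2 * l + 1) (g * X.ζ a) (h * X.ζ c) = alt (2 * l + 1) g h * X.ζ (a ^ (l + 1) * c ^ l)

/-- **TwistHom.** Proof (from TwPow). Choose an injective function `o : V → ℕ` (`Fintype.equivFin`). For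
`o v < o w` and `v`, `w` adjacent let `b v w` be a number with `b v w ^ half Γ v w = (c v w)⁻¹`
(`IsAlgClosed.exists_pow_nat_eq`, `half ≥ 1` by `IsEven.half_pos`; it is not zero), in all other cases
`b v w = 1`. Define `F` by `exists_hom` (Defs.lean of WGirth) with the elements `⟨g v, Pi.single v 1⟩`. The
relation for an edge `v, w` with `o v < o w`: by TwPow and `bb_single` it reads
`(g v * g w)^k * ζ ((b v w)^k) = (g w * g v)^k * ζ ((b w v)^k)`, where `(b v w)^k = (c v w)⁻¹`, `b w v = 1`: true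
by hypothesis. For `o w < o v` it is the same equation with the sides exchanged (`half_comm`). -/
def TwistHom : Prop := ∀ (V : Type) [Fintype V] [DecidableEq V] (Γ : LGraph V), IsEven Γ →
  ∀ (X : CExt) (g : V → X.E) (c : V → V → ℂˣ),
  (∀ v w, Γ.graph.Adj v w →
    (g v * g w) ^ half Γ v w = X.ζ (c v w) * (g w * g v) ^ half Γ v w) →
  ∃ (b : V → V → ℂˣ) (F : Artin Γ →* Tw X V b), ∀ v, F (gen Γ v) = ⟨g v, Pi.single v 1⟩

/-- **OddEq.** In a commutative group an odd relation is an equality. Proof. `m = 2 l + 1`; in a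
commutative group `alt (2 l + 1) a b = a ^ (l+1) * b ^ l` (induction, or `alt_two_mul`), so
`a^(l+1) b^l = b^(l+1) a^l`, cancel `a^l b^l`. The second part by induction along the path
(`SimpleGraph.Reachable`, `Walk` induction), with `gen_relO` mapped by `f` (`map_alt`). -/
def OddEq : Prop := (∀ (A : Type) [CommGroup A] (a b : A) (m : ℕ), ¬ Even m →
    alt m a b = alt m b a → a = b) ∧
  ∀ (A : Type) [CommGroup A] (S : Type) (Λ : LGraph S) (f : Artin Λ →* A) (s t : S),
    SameC Λ s t → f (gen Λ s) = f (gen Λ t)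

/-- **TwistCor.** Elements of a central extension satisfying the relations of `Λ` up to scalars can be
corrected by scalars and a twisted product. Proof (from TwistHom, OddEq). Let `Z = X.ζ.range`, normal by
`X.cen`, `Ē = X.E ⧸ Z`, `π : X.E →* Ē`. By `exists_homO` there is `ρ : Artin Λ →* Ē` with
`ρ (gen s) = π (u s)` (relations: `map_alt`, `π (ζ c) = 1`). For `v : V` choose `g v` with
`π (g v) = ρ (φ (gen Γ v))`. For adjacent `v, w` the relation `gen_rel` of `Γ` gives
`π ((g v * g w)^k) = π ((g w * g v)^k)`, so `(g v g w)^k = ζ (c' v w) * (g w g v)^k` for some `c' v w`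
(`QuotientGroup.eq`, centrality). TwistHom: `b`, `F`. Put `ψ = F.comp φ.symm`, `x s = (ψ (gen s)).x`. The map
`Tw X V b →* Ē`, `p ↦ π p.g`, is a homomorphism; composed with `F` it agrees with `ρ ∘ φ` on the
generators, so everywhere (`hom_ext`), so `π (ψ (gen s)).g = ρ (gen s) = π (u s)` and
`(ψ (gen s)).g = u s * ζ (lam s)`. The last claim: OddEq for `Tw.px.comp ψ`. -/
def TwistCor : Prop := ∀ (V S : Type) [Fintype V] [DecidableEq V] (Γ : LGraph V) (Λ : LGraph S),
  IsEven Γ → ∀ (_ : Artin Γ ≃* Artin Λ) (X : CExt) (u : S → X.E) (c : S → S → ℂˣ),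
  (∀ s t, Λ.graph.Adj s t →
    alt (Λ.label s(s, t)) (u s) (u t) = X.ζ (c s t) * alt (Λ.label s(s, t)) (u t) (u s)) →
  ∃ (b : V → V → ℂˣ) (lam : S → ℂˣ) (x : S → V → ℤ) (ψ : Artin Λ →* Tw X V b),
    (∀ s, ψ (gen Λ s) = ⟨u s * X.ζ (lam s), x s⟩) ∧ ∀ s t, SameC Λ s t → x s = x t

/-- **SignCor.** Proof (from CliffEx, TwistCor, TwPow, TwAlt, AltScal). Take `X`, `u` from CliffEx and
`b`, `lam`, `x`, `ψ` from TwistCor (with `c s t = ε s(s, t)`); put `q s t = bb b (x s) (x t) / bb b (x t) (x s)`,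
which is `1` if `x s = x t` and only depends on the components. Let `s ~ t`, label `m`, `p = ψ (gen s)`,
`r = ψ (gen t)`; `alt m p r = alt m r p` (`gen_relO`, `map_alt`). If `m = 2 l + 1` is odd then `x s = x t`, and
TwAlt, AltScal give
`alt m (u s) (u t) * ζ (lam s ^ (l+1) * lam t ^ l) = alt m (u t) (u s) * ζ (lam t ^ (l+1) * lam s ^ l)`;
replace `alt m (u s) (u t)` by `ζ ε * alt m (u t) (u s)`, cancel `alt m (u t) (u s)` (centrality), use
injectivity of `ζ`: `ε * lam s = lam t`. If `m = 2 k`, then `alt (2 k) p r = (p * r)^k` (`alt_two_mul`) and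
TwPow gives `(p.g r.g)^k * ζ (bb b (x s) (x t) ^ k) = (r.g p.g)^k * ζ (bb b (x t) (x s) ^ k)`, where by AltScal
`(p.g r.g)^k = (u s u t)^k * ζ ((lam s lam t)^k)` and the same number for `(r.g p.g)^k`; with
`(u s u t)^k = ζ ε * (u t u s)^k` cancel and get `ε * q s t ^ k = 1`. -/
def SignCor : Prop := ∀ (V S : Type) [Fintype V] [DecidableEq V] [Fintype S] [DecidableEq S]
  (Γ : LGraph V) (Λ : LGraph S), IsEven Γ → ∀ (_ : Artin Γ ≃* Artin Λ) (ε : Sym2 S → ℂˣ),
  (∀ e ∈ Λ.graph.edgeSet, ε e = 1 ∨ ε e = -1) →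
  (∀ e ∈ Λ.graph.edgeSet, Λ.label e = 2 → ε e = -1) →
  ∃ (lam : S → ℂˣ) (q : S → S → ℂˣ),
    (∀ s t, (oddGraph Λ).Adj s t → lam t = ε s(s, t) * lam s) ∧
    (∀ s t, Λ.graph.Adj s t → Even (Λ.label s(s, t)) →
      ε s(s, t) * q s t ^ (Λ.label s(s, t) / 2) = 1) ∧
    (∀ s t, SameC Λ s t → q s t = 1) ∧
    (∀ s s' t t', SameC Λ s s' → SameC Λ t t' → q s t = q s' t')

/-- The properties of `Λ` obtained from the Clifford algebra. -/
structure Nice {S : Type} (Λ : LGraph S) : Prop where
  /-- no even edge inside an odd component -/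
  ev : ∀ s t, Λ.graph.Adj s t → Even (Λ.label s(s, t)) → ¬ SameC Λ s t
  /-- every odd edge is a bridge of the odd graph -/
  br : ∀ s0 t0, (oddGraph Λ).Adj s0 t0 → ∃ c : S → Bool, c s0 ≠ c t0 ∧
    ∀ s t, (oddGraph Λ).Adj s t → s(s, t) ≠ s(s0, t0) → c s = c t
  /-- a heavy edge between two odd components is the only edge between them -/
  un : ∀ s t s' t', Λ.graph.Adj s t → Λ.graph.Adj s' t' → SameC Λ s s' → SameC Λ t t' →
    ¬ SameC Λ s t → Λ.label s(s, t) ≠ 2 → s' = s ∧ t' = t

/-- **NiceEx.** Proof (from SignCor). `ev`: take `ε = -1` on all edges. For an even edge `s, t` with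
`SameC s t`: `q s t = 1`, so `ε = 1`: contradiction (`-1 ≠ 1` in `ℂˣ`). `br`: take `ε = 1` on all edges with odd
label except `s(s0, t0)`, `ε = -1` on `s(s0, t0)` and on all even edges. Then `lam s = lam t` for all odd edges
different from `s(s0, t0)` and `lam t0 = - lam s0 ≠ lam s0`. Let `c s = decide (lam s = lam s0)`.
`un`: suppose that `s' = s ∧ t' = t` is false; then `s(s', t') ≠ s(s, t)` (if `s' = t` and `t' = s` then
`SameC s t`: excluded). Both labels are even (an odd edge joins elements of one component; use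
`SameC s' t'` would give `SameC s t`). Write `2 k`, `2 k'` for the labels, `k ≥ 2`, `k' ≥ 1`, `q = q s t = q s' t'`.
If `k' = 1`: take `ε = -1` on `s(s', t')` and on all other edges except `ε (s(s, t)) = -(-1)^k`. Then
`-q = 1`, and `-(-1)^k * q^k = 1` gives `-1 = 1`: contradiction. If `k' ≥ 2`: let `d = gcd k k'`, `k = d a`,
`k' = d a'`; `a` or `a'` is odd. Note `(q^k)^a' = (q^k')^a`. If `a` is odd take `ε (s(s, t)) = 1`,
`ε (s(s', t')) = -1` (and `-1` elsewhere): `q^k = 1`, `q^k' = -1`, so `1 = (-1)^a = -1`: contradiction. If `a'` is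
odd take `ε (s(s, t)) = -1`, `ε (s(s', t')) = 1`: `(-1)^a' = 1`: contradiction. -/
def NiceEx : Prop := ∀ (V S : Type) [Fintype V] [DecidableEq V] [Fintype S] [DecidableEq S]
  (Γ : LGraph V) (Λ : LGraph S), IsEven Γ → ∀ (_ : Artin Γ ≃* Artin Λ), Nice Λ

/-- the assembly of part A -/
theorem partA (h1 : CliffRel) (h2 : AltInv) (h3 : CliffRel → AltInv → CliffEx) (h4 : TwPow)
    (h5 : TwAlt) (h6 : AltScal) (h7 : TwPow → TwistHom) (h8 : OddEq)
    (h9 : TwistHom → OddEq → TwistCor)
    (h10 : CliffEx → TwistCor → TwPow → TwAlt → AltScal → SignCor) (h11 : SignCor → NiceEx) :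
    NiceEx :=
  h11 (h10 (h3 h1 h2) (h9 (h7 h4) h8) h4 h5 h6)

end WGOne
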