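import Pool.Agent.Lib.MP_107652_al.One.BaseC

/-!
# The cone theorem (Part C of the proof that evenness is an isomorphism invariant): statements

THEOREM.  `ConeData Γ Λ comp M N C → False`.

Notation of the proofs: `V` = vertices of `Γ` = components of `Λ`; FIBRE of `i` = `{s | comp s = i}`;
cone = vertex of `Γ` adjacent to all others (`Cone Γ`); NAL(z) = `NA Λ (fun s => z (comp s))`;
NAG(y) = `NA Γ y`; MOVING at `i`: `‖z i‖ ≠ 1`.  A fibre over a non-cone has one element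
(`ConeData.single`), every two fibres over `i`, `q` with `q` a cone are joined by an edge
(`ConeData.coL`).  `D : ConeData …`.  `M o q = 0` and `N o q = 0` for `o` not a cone, `q` a cone
(`D.Moq`, `D.Noq`); `D.sumMN`, `D.sumNM`, `D.expand`, `D.orth`, `D.dvd_of`: integer identities;
`D.toG`, `D.toL`: NAL(z) → NAG(pw M z), NAG(y) → NAL(pw N y); `D.pwNM`, `D.pwMN`: inverse maps;
`D.pwM_congr`, `D.pwN_congr`: on the cones they depend on the cones only; `D.norm_pwN`, `norm_pw`,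
`pw_mul`, `pw_zpow`, `D.pw_ch1`.  For `Γ` itself `comp = id` (`csG`, `coG`).  All in `BaseC.lean`.

All modules are independent: the statements used are hypotheses.  Module `X` is the file
`Pool/Agent/Lib/MP_107652_al/One/X.lean` (first line: import of this file), namespace `WGOne`,
`theorem pX : S_Y → S_Z → … → S_X`; the statements used are listed as (from …), in this order.
-/

set_option autoImplicit false

namespace WGOne

open WGirth

/-! ## Representations and colourings -/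

/-- **AltE.**  Proof: `alt_two_mul`: `(g h)^k = (h g)^k`; `Aff.pow_eq`: with `x = g.a * h.a` both sides
have the linear part `x^k`, the translation parts are `(∑_(j<k) x^j) (g h).b` and
`(∑_(j<k) x^j) (h g).b`.  Equal iff `(g h).b = (h g).b` (i.e. `g h = h g`) or `∑_(j<k) x^j = 0`; the
latter iff `x ≠ 1` and `x^k = 1` (`geom_sum_mul`; for `x = 1` the sum is `k ≠ 0`). -/
def S_AltE : Prop := ∀ (k : ℕ) (g h : Aff), 1 ≤ k →
  (alt (2 * k) g h = alt (2 * k) h g ↔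
    g * h = h * g ∨ (g.a * h.a ≠ 1 ∧ (g.a * h.a) ^ k = 1))

/-- **AltO.**  Proof: `alt (2 r + 1) g h = g * alt (2 r) h g = g (h g)^r`.  With `a = g.a = h.a` the
translation part is `g.b + a (∑_(j<r) a^(2j)) (h.b + a g.b)` (`Aff.pow_eq`), so the two sides are equal
iff `(g.b - h.b) (1 + (a² - a) ∑_(j<r) a^(2j)) = 0`, and the second factor is
`∑_(j < 2r+1) (-a)^j` (induction on `r`), which is `0` iff `-a ≠ 1` and `(-a)^(2r+1) = 1`. -/
def S_AltO : Prop := ∀ (r : ℕ) (g h : Aff), g.a = h.a →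
  (alt (2 * r + 1) g h = alt (2 * r + 1) h g ↔
    g = h ∨ (g.a ≠ -1 ∧ (-g.a) ^ (2 * r + 1) = 1))

/-- **Con** (from `AltE`, `AltO`).  Construction of representations.  Proof: `b s = 0` if `P s`,
`b s = 1 - z (comp s)` otherwise (fixed points `0` and `1`).  Relation of an edge `s - t`: odd label:
`comp s = comp t`, so the linear parts are equal.  If `z (comp s) = 1` or `z (comp t) = 1` the map is
the identity (`b = 0`): even label: they commute; odd label: both are the identity.  Same colour: same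
fixed point, they commute, and for an odd label they are equal.  `P s`, `¬ P t`, both `z ≠ 1`: `Dg`
gives the second alternative of `AltE` (`k = label / 2 ≥ 1` by `two_le`) or `AltO`; `¬ P s`, `P t`: the
same for the edge `t - s` (`Sym2.eq_swap`, `mul_comm`; in the odd case the linear parts are equal).
Not a coboundary: `b s = (1 - z s) c` for `P s`, `z ≠ 1` gives `c = 0`, for `¬ P t`, `z ≠ 1` gives
`c = 1`. -/
def S_Con : Prop := ∀ (S V : Type) (Λ : LGraph S) (comp : S → V) (z : V → ℂˣ) (P : S → Prop),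
  (∀ s t, Λ.graph.Adj s t → comp s ≠ comp t → Even (Λ.label s(s, t))) →
  (∃ s, P s ∧ z (comp s) ≠ 1) → (∃ t, ¬ P t ∧ z (comp t) ≠ 1) →
  (∀ s t, Λ.graph.Adj s t → P s → ¬ P t → z (comp s) ≠ 1 → z (comp t) ≠ 1 →
    Dg (Λ.label s(s, t)) (z (comp s)) (z (comp t))) →
  NA Λ (fun s => z (comp s))

/-- **Ana** (from `AltE`, `AltO`).  Analysis of representations.  Proof: let `b` be a representation,
not a coboundary; `z ≠ 1` and `surj`: `s0` with `z (comp s0) ≠ 1`.  For `z (comp s) ≠ 1` the fixed point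
is `fx s = b s / (1 - z (comp s))`; `P s := fx s = fx s0`.  Case 1: some `t` with `z (comp t) ≠ 1`,
`¬ P t`: first alternative; for a bichromatic edge the fixed points are different, so the maps do not
commute (even label; `Aff.commute_iff`) and are different (odd label; there `comp s = comp t` by
`even_out`, so the linear parts are equal), and `AltE` (`k = label / 2`, `label = 2 k`), `AltO`
(`label = 2 r + 1`) give `Dg`.  Case 2: all fixed points are equal to `c`.  As `b` is not the coboundary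
of `c`, there is `u` with `z (comp u) = 1`, `b u ≠ 0`.  All `u'` with `comp u' = comp u` have
`b u' = b u`: otherwise `conn` (for `b · = b u`) gives an edge `x - y` in the fibre with `b x = b u`,
`b y ≠ b u`; its label is odd (`odd_in`), the linear parts are `1`, and `AltO` says that the maps are
equal (`(-1)^(2r+1) ≠ 1`).  For an edge `s - t` with `comp s = comp u`, `z (comp t) ≠ 1`: the label is
even (`even_out`), the translation `(1, b s)`, `b s ≠ 0`, and the map of `t` do not commute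
(`Aff.commute_iff`), so `AltE` gives `(z (comp t))^k = 1`. -/
def S_Ana : Prop := ∀ (S V : Type) (Λ : LGraph S) (comp : S → V) (z : V → ℂˣ), Cs Λ comp → z ≠ 1 →
  NA Λ (fun s => z (comp s)) →
  (∃ P : S → Prop, (∃ s, P s ∧ z (comp s) ≠ 1) ∧ (∃ t, ¬ P t ∧ z (comp t) ≠ 1) ∧
    ∀ s t, Λ.graph.Adj s t → P s → ¬ P t → z (comp s) ≠ 1 → z (comp t) ≠ 1 →
      Dg (Λ.label s(s, t)) (z (comp s)) (z (comp t))) ∨
  ∃ u : S, z (comp u) = 1 ∧ ∀ s t, Λ.graph.Adj s t → comp s = comp u → z (comp t) ≠ 1 →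
    z (comp t) ^ (Λ.label s(s, t) / 2) = 1

/-- **Mv** (from `Ana`).  A moving cone.  Proof: `Ana` (`z ≠ 1`).  Second alternative: `comp u ≠ q`
(`z q ≠ 1`), `CoL` gives an edge `s - t`, `comp s = q`, `comp t = comp u`; for `t - s`:
`(z q)^(label / 2) = 1`, `label / 2 ≥ 1`, so `‖z q‖ = 1` (`Complex.norm_eq_one_of_pow_eq_one`),
contradiction.  First alternative, `P`: `nrm` is `Dg.norm` (if the label is not even, `comp s = comp t`).
`mono` for `P` and also for `¬ P`: if `comp s = comp t`, `‖z‖ ≠ 1` there, and the colours differ, `conn`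
gives a bichromatic edge in the fibre, `nrm` says `‖z‖ * ‖z‖ = 1`, so `‖z‖ = 1`.  Let `comp s0 = q`.
If `P s0` take `P`; otherwise take `¬ P` (`Dg` for the edge `t - s` gives `Dg` for `s - t`:
`Sym2.eq_swap`, `mul_comm`, in the odd case the numbers are equal). -/
def S_Mv : Prop := ∀ (S V : Type) (Λ : LGraph S) (comp : S → V) (z : V → ℂˣ) (q : V),
  Cs Λ comp → CoL Λ comp q → ‖(z q : ℂ)‖ ≠ 1 → NA Λ (fun s => z (comp s)) →
  ∃ P : S → Prop, Col Λ comp z q P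

/-- **Pert** (from `Con`, `Ana`).  Proof: `Ana` for `Γ` (`comp = id`, `csG`).  First alternative, `P`;
`S1 = {P v, y v ≠ 1}`, `S2 = {¬ P v, y v ≠ 1}`; `d v = 1` for `v ∈ S1` with a neighbour in `S2`,
`d v = -1` for `v ∈ S2`, `0` otherwise.  `y' = y * 2^d` satisfies `y' v ≠ 1 ↔ y v ≠ 1` (if `d v ≠ 0`
then `y v ≠ 1`, and `‖y v‖ * 2^(±1) ≠ 1` by hypothesis).  A bichromatic edge `s - t` has `s ∈ S1`,
`t ∈ S2`, `d s = 1`, `d t = -1`: the product `y' s * y' t = y s * y t`, so `Dg` still holds (the label is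
even); `Con`.  `d v0 ≠ 0`: if `v0 ∈ S1`, it is adjacent to an element of `S2` (cone, `S2` nonempty).
Second alternative, `u`: `y u = 1`, `(y v)^(half) = 1` for all neighbours `v` of `u` with `y v ≠ 1`.
`d u = 1`, `d v = -1` for the neighbours `v` of `u` with `y v ≠ 1`, `0` otherwise; colour `P v := v = u`;
`y' u = 2`, bichromatic edges `u - v` have `y' u * y' v = y v ≠ 1`; again `y' v ≠ 1` for
`y v ≠ 1`; `Con` (`y' v0 ≠ 1`, `v0 ≠ u`).  `d v0 = -1`. -/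
def S_Pert : Prop := ∀ (V : Type) (Γ : LGraph V) (y : V → ℂˣ) (v0 : V), IsEven Γ → NA Γ y →
  Cone Γ v0 → y v0 ≠ 1 → (∀ v, ‖(y v : ℂ)‖ * 2 ≠ 1 ∧ ‖(y v : ℂ)‖ ≠ 2) →
  ∃ d : V → ℤ, d v0 ≠ 0 ∧ NA Γ (fun v => y v * u2 ^ d v)

/-! ## Step II -/

/-- **ZA** (from `Con`).  Proof: `C ∉ A` (`D.coneC`, the elements of `A` are not cones).  Colouring:
`P s := (comp s = C ∧ c s) ∨ (comp s ∈ A ∧ ∃ s', Adj s' s ∧ comp s' = C ∧ c s')`.  Both colours occur in the
fibre of `C` (`Om.neg_ne_one`).  Let `s - t` be an edge, `P s`, `¬ P t`, both `z ≠ 1`, so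
`comp s, comp t ∈ {C} ∪ A`.  Both over `C`: the label is odd (`odd_in`), divisible by `p` (`Adm.dvd`):
`Om.dg_odd`.  One over `C`, one over `a ∈ A`: `HC a` gives an edge `s1 - t1` between the fibres of `C` and
`a` with label `≥ 4 p ≥ 3`, the only one (`D.heavy`), so it is our edge, and the colour of the vertex
over `a` is the colour `c` of its only neighbour over `C`: not bichromatic.  Both over `A`: if
`comp s = comp t`, then `s = t` (`D.single`); otherwise `comp s`, `comp t` are adjacent (`D.adj_out`) and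
`GA.col` says that the colours are equal (both have exactly one neighbour over `C`). -/
def S_ZA : Prop := ∀ (S V : Type) [Fintype V] [DecidableEq V] (Γ : LGraph V) (Λ : LGraph S)
  (comp : S → V) (M N : Matrix V V ℤ) (C : V) (p : ℕ) (ω : ℂˣ) (c : S → Prop) (A : Finset V),
  ConeData Γ Λ comp M N C → Om p ω → Adm Λ comp C p c → GA Γ Λ comp C p c A →
  NA Λ (fun s => chA C A ω (comp s))

/-- **ZB** (from `ZA`, `Pert`).  Proof: `z = chA C A ω ≠ 1` (`Om.neg_ne_one`), `y = pw M z`, NAG(y)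
(`D.toG`).  Norms: `‖z C‖ = 1` (`Om.norm_neg`), `‖z a‖ = 3` on `A`, so `‖y v‖ = 3^n` for an integer `n`
(`norm_pw`), and `3^n * 2 ≠ 1`, `3^n ≠ 2` (`two_three`).  There is a cone `v0` with `y v0 ≠ 1`: otherwise
`z C = pw N y C = 1` (`D.pwNM`, `D.pwN_congr` with `y' = 1`, `pw_one`).  `Pert`: `d'`, `d' v0 ≠ 0`, NAG(y'),
`y' = y * 2^d'`, `y' ≠ 1` (`‖y v0‖ = 1`: `D.pwM_congr`, the elements of `A` are no cones; or: `y' = 1`
at `v0` would give `3^n 2^(d' v0) = 1`).  `z' = pw N y' = z * 2^d`, `d i = ∑ v, d' v * N v i` (`pw_mul`,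
`pw_zpow`, `D.pwNM`), NAL(z') (`D.toL`).  If `d q = 0` for all cones `q` then `d' v0 = 0` (`D.expand`,
`D.Moq`). -/
def S_ZB : Prop := ∀ (S V : Type) [Fintype V] [DecidableEq V] (Γ : LGraph V) (Λ : LGraph S)
  (comp : S → V) (M N : Matrix V V ℤ) (C : V) (p : ℕ) (ω : ℂˣ) (c : S → Prop) (A : Finset V),
  ConeData Γ Λ comp M N C → Om p ω → Adm Λ comp C p c → GA Γ Λ comp C p c A →
  ∃ d : V → ℤ, (∃ q, Cone Γ q ∧ d q ≠ 0) ∧
    NA Λ (fun s => chA C A ω (comp s) * u2 ^ d (comp s))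

/-- **ZC** (from `Mv`).  Proof: `z' = chA C A ω * 2^d`.  Norms: `‖z' C‖ = 2^(d C)`, `‖z' a‖ = 3 * 2^(d a)`
for `a ∈ A`, `z' j = 2^(d j)` for the other `j`; so (*) `j ≠ C`, `z' j ≠ 1` imply `‖z' j‖ ≠ 1`
(`two_three`).  `C ∉ A`.
CASE `d C ≠ 0`.  `Mv` at the cone `C`: `P`, `t0` with `¬ P t0`, `z' (comp t0) ≠ 1`, `j = comp t0 ≠ C`
(`own`).  By (*) and `mono` the whole fibre of `j` has `¬ P`.  Edge `s1 - t1` between the fibres of `C` and
`j` (`D.coL`): `P s1`, `¬ P t1`, `nrm`: `‖z' C‖ * ‖z' j‖ = 1`, so `j ∉ A` (`two_three`), `d j = - d C`, and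
`z' C * z' j = -ω`; `deg` (even label, `even_out`): `(-ω)^(label / 2) = 1`, so `4 p ∣ label`
(`Om.four_dvd`), and `s1 - t1` is the only edge between the two fibres (`D.heavy`; `label ≥ 3`).  If `j`
is a cone: `HII` for `c` and `q = j` gives two edges with `c s` and `¬ c s`, contradiction.  So `HC j`
holds, and by the maximality of `A` there is `a ∈ A` adjacent to `j`.  The fibre of `a` has the colour
`P`: otherwise it has `¬ P` (`mono`) and `nrm` for an edge between `C` and `a` gives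
`2^(d C) * (3 * 2^(d a)) = 1`.  Edge between `a` and `j` (`D.adj_ex`): `nrm`:
`3 * 2^(d a) * 2^(d j) = 1`: contradiction.
CASE `d C = 0`.  A cone `q` with `d q ≠ 0`, `q ≠ C`, `q ∉ A`, `‖z' q‖ ≠ 1`; `z' C = -ω`.  `Mv` at `q`: `P`.
The fibre of `C` has the colour `P`: otherwise let `comp s0 = C`, `¬ P s0`.  If all of the fibre of `C` has
`¬ P`, an edge between `q` and `C` gives `‖z' q‖ * 1 = 1`.  If not, `P` is admissible (`Adm`; `dvd`: `deg`,
`odd_in`, `Om.dg_odd`), and `HII` gives an edge `s - t`, `comp s = C`, `comp t = q`, `¬ P s`; `nrm` for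
`t - s`: `‖z' q‖ * 1 = 1`, contradiction.  Now `t0` with `¬ P t0`, `z' (comp t0) ≠ 1`,
`j = comp t0 ≠ C`; (*), `mono`: the fibre of `j` has `¬ P`; an edge between `C` and `j`: `nrm`:
`1 * ‖z' j‖ = 1`, contradiction to (*). -/
def S_ZC : Prop := ∀ (S V : Type) [Fintype V] [DecidableEq V] (Γ : LGraph V) (Λ : LGraph S)
  (comp : S → V) (M N : Matrix V V ℤ) (C : V) (p : ℕ) (ω : ℂˣ) (c : S → Prop) (A : Finset V)
  (d : V → ℤ), ConeData Γ Λ comp M N C → Om p ω → Adm Λ comp C p c → HII Γ Λ comp C p →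
  (∀ a ∈ A, ¬ Cone Γ a) → (∀ j, HC Γ Λ comp C p j → j ∉ A → ∃ a ∈ A, Γ.graph.Adj a j) →
  (∃ q, Cone Γ q ∧ d q ≠ 0) → ¬ NA Λ (fun s => chA C A ω (comp s) * u2 ^ d (comp s))

/-- **StB** (from `ZB`, `ZC`).  Step II.  Proof: let `A` be a set with `GA` of maximal cardinality
(finitely many, `∅` is one: `Finset.exists_max_image` on a filter of `univ`).  If `HC j`, `j ∉ A`, then
`insert j A` is not `GA`, so there are adjacent `a, a' ∈ insert j A` violating `col`; not both are in `A`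
and not both are `j` (irreflexive), so `j` is adjacent to an element of `A`.  `ZB`, `ZC`. -/
def S_StB : Prop := ∀ (S V : Type) [Fintype V] [DecidableEq V] (Γ : LGraph V) (Λ : LGraph S)
  (comp : S → V) (M N : Matrix V V ℤ) (C : V) (p : ℕ) (ω : ℂˣ) (c : S → Prop),
  ConeData Γ Λ comp M N C → Om p ω → Adm Λ comp C p c → ¬ HII Γ Λ comp C p

/-! ## Step I: the character `C ↦ -ω`, `q1 ↦ 2` and its image in `Γ` -/

/-- **YN** (from `Con`).  Proof: `z = ch1 C q1 ω`; colouring `P s := comp s = C → c s`.  `z (comp s) ≠ 1`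
only over `C` and `q1`.  `¬ P t` means `comp t = C`, `¬ c t`.  A bichromatic edge `s - t`: if
`comp s = C`, `c s`: label odd and divisible by `p`: `Om.dg_odd`.  If `comp s = q1`: the hypothesis for
the edge `t - s` says `c t`, contradiction.  So NAL(z), and NAG(pw M z), `pw M z = yc M C q1 ω`
(`D.toG`, `D.pw_ch1`). -/
def S_YN : Prop := ∀ (S V : Type) [Fintype V] [DecidableEq V] (Γ : LGraph V) (Λ : LGraph S)
  (comp : S → V) (M N : Matrix V V ℤ) (C q1 : V) (p : ℕ) (ω : ℂˣ) (c : S → Prop),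
  ConeData Γ Λ comp M N C → Om p ω → Adm Λ comp C p c → q1 ≠ C →
  (∀ s t, Λ.graph.Adj s t → comp s = C → comp t = q1 → c s) → NA Γ (yc M C q1 ω)

/-- **YD** (from `Mv`).  Proof: `y = yc M C q1 ω`, `‖y v‖ = 2^(M q1 v)` (`Om.norm_neg`, `norm_u2`).  Some
cone `v1` has `M q1 v1 ≠ 0`: otherwise `1 = ∑ v, M q1 v * N v q1 = 0` (`D.sumMN`, `D.Noq`).  `Mv` for `Γ`
(`csG`, `coG`) at `v1`: `P`.  `S1 v := P v ∧ y v ≠ 1`, `S2 v := ¬ P v ∧ y v ≠ 1`, `μ = M q1 v1`.  `e2`: `w ∈ S2`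
is different from `v1`, so adjacent to it: `nrm`: `2^μ * 2^(M q1 w) = 1`.  `e1`: `v ∈ S1` a cone, `w` with
`S2 w`: adjacent, `2^(M q1 v) * 2^(-μ) = 1`.  `e0`: `y v = 1`: the norm gives `M q1 v = 0`, then
`(-ω)^(M C v) = 1`: `Om.neg_zpow`.  `mu`: in `∑ v, M q1 v * N v q1 = 1` all terms are divisible by `μ` (for a
cone `v`: `M q1 v ∈ {μ, -μ, 0}`; otherwise `N v q1 = 0`), so `μ` is a unit.  `deg`: `Col.deg` with
`IsEven` (`half Γ v w = label / 2`). -/
def S_YD : Prop := ∀ (S V : Type) [Fintype V] [DecidableEq V] (Γ : LGraph V) (Λ : LGraph S)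
  (comp : S → V) (M N : Matrix V V ℤ) (C q1 : V) (p : ℕ) (ω : ℂˣ),
  ConeData Γ Λ comp M N C → Om p ω → Cone Γ q1 → NA Γ (yc M C q1 ω) →
  ∃ (μ : ℤ) (S1 S2 : V → Prop), YData Γ M C q1 p ω μ S1 S2

/-! ## Claim D -/

/-- **Pr** (from `Con`, `Mv`).  Proof: `z = (j ↦ ζ, q ↦ 2, q' ↦ 3, else 1)`, colouring
`P s := comp s = j → c s`: a bichromatic edge `s - t` has `comp t = j`, `¬ c t`, so `comp s` is neither `q`
nor `q'` (last hypothesis), `comp s = j`, `c s`, and `Dg` holds.  NAL(z), `y = pw M z`, NAG(y); for every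
`v`: `‖y v‖ = 2^(M q v) * 3^(M q' v)` (`norm_pw`, or `y v = ζ^.. * 2^.. * 3^..`).  Some cone `v1` has
`a := M q v1 ≠ 0` (`1 = ∑ v, M q v * N v q`, `D.Noq`), `‖y v1‖ ≠ 1` (`two_three`).  `b := M q' v1`.  `Mv` for
`Γ` at `v1`: `P'`, `w` with `¬ P' w`, `y w ≠ 1`, `w ≠ v1`.  For every cone `v`: `(M q v, M q' v)` is `(0,0)`,
`(a,b)` or `(-a,-b)`: if `‖y v‖ = 1`: `(0,0)` (`two_three`); if `‖y v‖ ≠ 1`, `P' v`: `nrm` for `v - w` and
`v1 - w`: `‖y v‖ = ‖y v1‖`; if `¬ P' v`: `nrm` for `v1 - v`: `‖y v‖ * ‖y v1‖ = 1`; then `two_three`.  So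
`κ v = b * M q v - a * M q' v` vanishes at all cones, and `0 = ∑ v, κ v * N v q' = b * 0 - a * 1`
(`D.sumMN`, `D.Noq`): contradiction. -/
def S_Pr : Prop := ∀ (S V : Type) [Fintype V] [DecidableEq V] (Γ : LGraph V) (Λ : LGraph S)
  (comp : S → V) (M N : Matrix V V ℤ) (C j q q' : V) (ζ : ℂˣ) (c : S → Prop),
  ConeData Γ Λ comp M N C → Cone Γ q → Cone Γ q' → q ≠ j → q' ≠ j → q ≠ q' → ζ ≠ 1 →
  ‖(ζ : ℂ)‖ = 1 → (∃ s, comp s = j ∧ c s) → (∃ s, comp s = j ∧ ¬ c s) →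
  (∀ s t, Λ.graph.Adj s t → comp s = j → comp t = j → c s → ¬ c t → Dg (Λ.label s(s, t)) ζ ζ) →
  (∀ s t, Λ.graph.Adj s t → (comp s = q ∨ comp s = q') → comp t = j → c t) → False

/-- **Dc** (from `Mv`, `Pr`).  CLAIM D.  Proof: `d i = ∑ v, e v * N v i`.  If `e v = 0` for all cones `v`,
then `d i = 0` for all cones `i` (`D.Noq`).  Otherwise `y ≠ 1`, `z = pw N y`, NAL(z) (`D.toL`),
`‖z i‖ = 2^(d i)` for cones `i` (`D.norm_pwN`).  Some cone `w` has `e w = ±1`; (**) if `g ∣ d i` for all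
cones `i`, then `g ∣ e w` (`D.dvd_of`), so `g = ±1`.  Hence (`g = 0`) some cone `q` has `d q ≠ 0`.  `Mv` at
`q`: `P`.
(i) Suppose there is `t0` with `¬ P t0`, `z (comp t0) ≠ 1` and (`comp t0` is not a cone or
`‖z (comp t0)‖ ≠ 1`).  `j = comp t0`; the whole fibre of `j` has `¬ P` (`D.single` or `mono`).  For a cone
`q'` with `‖z q'‖ ≠ 1`: if one, hence (`mono`) every element of its fibre has `P`: `q' ≠ j`, an edge
between `q'` and `j` (`D.coL`): `‖z q'‖ * ‖z j‖ = 1`; the same for `q`, so `d q' = d q`.  Otherwise all have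
`¬ P`: an edge between `q` and `q'`: `d q' = - d q`.  So `d q` divides all `d i`, and (**): `d q = ±1`, all
`d i ∈ {0, d q, - d q}`.
(ii) Otherwise take `t0` of `ex`: `j = comp t0` is a cone and `‖z j‖ = 1`, `z j ≠ 1`.  For a cone `q'` with
`‖z q'‖ ≠ 1` every element of its fibre has `P` (otherwise (i)), `q' ≠ j`, and an edge `s - t` with
`comp s = q'`, `comp t = j` has `P t` (otherwise `nrm`: `‖z q'‖ * 1 = 1`).  Such an edge exists (`D.coL`),
so both colours occur in the fibre of `j`.  If there is a cone `q' ≠ q` with `d q' ≠ 0`: `Pr` with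
`ζ = z j`, `c = P` (the edges inside the fibre: `deg`): contradiction.  So `d i = 0` for all cones
`i ≠ q`, `d q` divides all, `d q = ±1` by (**). -/
def S_Dc : Prop := ∀ (S V : Type) [Fintype V] [DecidableEq V] (Γ : LGraph V) (Λ : LGraph S)
  (comp : S → V) (M N : Matrix V V ℤ) (C : V) (y : V → ℂˣ) (e : V → ℤ),
  ConeData Γ Λ comp M N C → NA Γ y → (∀ v, Cone Γ v → ‖(y v : ℂ)‖ = (2 : ℝ) ^ e v) →
  (∀ v, Cone Γ v → T3 (e v)) → ∀ i, Cone Γ i → T3 (∑ v, e v * N v i)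

/-! ## Case B: no cone in `S2` -/

/-- **Sub.**  Proof: `U = {v}`: all `f v` are `0, 1, -1`.  `U = {v, w}`: at most one `v` has `f v = 1` and
at most one has `f v = -1`.  If all are `0`: first alternative.  Otherwise, as the sum is `0`, there are
an `a` with `1` and a `b` with `-1`. -/
def S_Sub : Prop := ∀ (X : Type) [DecidableEq X] (P : Finset X) (f : X → ℤ),
  (∀ U ⊆ P, T3 (∑ v ∈ U, f v)) → ∑ v ∈ P, f v = 0 →
  (∀ v ∈ P, f v = 0) ∨ ∃ a ∈ P, ∃ b ∈ P, a ≠ b ∧ f a = 1 ∧ f b = -1 ∧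
    ∀ v ∈ P, v ≠ a → v ≠ b → f v = 0

/-- **Two** (from `Sub`).  Proof: `Sub` for `f C`: it is not `0` (otherwise `m ∣ -1`), so there are `b`
(value `1`) and `a` (value `-1`), and `∑ g * f C = g b - g a`.  For `i ≠ C`: `f i` is `0` or has values
`1`, `-1` at two elements `x`, `y` and `m ∣ g x - g y`; so the sum of `f i` over a union of classes
modulo `m` (sets `{v ∈ P | m ∣ g v - r}`) is `0`.  Suppose `v0 ∈ P` has neither `m ∣ g v0 - g a` nor
`m ∣ g v0 - g b`; `κ v = 1` if `m ∣ g v - g v0`, otherwise `0`: `∑ κ v * f i v = 0` for all `i ∈ I` (for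
`i = C`: `κ a = κ b = 0`), so `κ v0 = κ a`, contradiction.  The last two: for `i = C` the class of `a`
contains `a` and not `b` (`m ∣ g b - g a - 1`, `m ≥ 2`). -/
def S_Two : Prop := ∀ (X ι : Type) [DecidableEq X] (P : Finset X) (I : Finset ι) (C : ι)
  (f : ι → X → ℤ) (g : X → ℤ) (m : ℤ), 2 ≤ m → C ∈ I →
  (∀ i ∈ I, ∀ U ⊆ P, T3 (∑ v ∈ U, f i v)) → (∀ i ∈ I, ∑ v ∈ P, f i v = 0) →
  (∀ i ∈ I, i ≠ C → m ∣ ∑ v ∈ P, g v * f i v) → m ∣ ∑ v ∈ P, g v * f C v - 1 →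
  (∀ κ : X → ℤ, (∀ i ∈ I, ∑ v ∈ P, κ v * f i v = 0) → ∀ a ∈ P, ∀ b ∈ P, κ a = κ b) →
  ∃ a ∈ P, ∃ b ∈ P, a ≠ b ∧ m ∣ g b - g a - 1 ∧ (∀ v ∈ P, m ∣ g v - g a ∨ m ∣ g v - g b) ∧
    (∀ i ∈ I, i ≠ C → ∑ v ∈ P.filter (fun v => m ∣ g v - g a), f i v = 0) ∧
    ∑ v ∈ P.filter (fun v => m ∣ g v - g a), f C v = -1

/-- **BSub** (from `Con`, `Dc`).  Proof: `U = ∅`: `0`.  Otherwise `y' v = y v` if `v ∈ U` or `S2 v`, `1`
elsewhere (`y = yc M C q1 ω`); `Con` for `Γ` (`comp = id`) with the colouring `P v := ¬ S2 v`: a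
bichromatic edge `s - t` has `s ∈ U` (so `S1 s`), `S2 t`: `YData.deg` and `IsEven` give `Dg`; both colours
occur (`U` nonempty, `ex2`, `cov`; the elements of `U` are cones, so `¬ S2`).  `Dc` for `y'`,
`e v = μ` if `v ∈ U`, `0` otherwise (cones are not in `S2`; `‖y v‖ = 2^(M q1 v) = 2^μ` on `U` by `e1`):
`∑ v, e v * N v i = μ * ∑ v ∈ U, N v i`, and `μ = ±1`. -/
def S_BSub : Prop := ∀ (S V : Type) [Fintype V] [DecidableEq V] (Γ : LGraph V) (Λ : LGraph S)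
  (comp : S → V) (M N : Matrix V V ℤ) (C q1 : V) (p : ℕ) (ω : ℂˣ) (μ : ℤ) (S1 S2 : V → Prop),
  ConeData Γ Λ comp M N C → Om p ω → YData Γ M C q1 p ω μ S1 S2 → (∀ v, Cone Γ v → ¬ S2 v) →
  ∀ U : Finset V, (∀ v ∈ U, Cone Γ v ∧ S1 v) → ∀ i, Cone Γ i → T3 (∑ v ∈ U, N v i)

/-- **Cls** (from `Con`, `Mv`).  Proof: `y' v = y v` if `v ∈ σ` or `S2 v`, `1` elsewhere; NAG(y') as in
`BSub`; `z = pw N y'`, NAL(z) (`D.toL`).  `η := (-ω)^τ * 2^μ`; for `v ∈ σ`: `y v = η` (`e1`;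
`(-ω)^(M C v) = (-ω)^τ` by `Om.neg_zpow`).  For a cone `i`: `z i = η^(∑ v ∈ σ, N v i)` (`N v i = 0` for
`v` with `S2 v`), so `z C = η^ε`, `z q1 = η^(-ε)`, `z i = 1` for the other cones.  `‖η‖ = 2^μ`, so
`‖z C‖ ≠ 1`, `‖z q1‖ ≠ 1`, `z C * z q1 = 1`.  `Mv` at `C`: `P`, `t0` with `¬ P t0`, `z (comp t0) ≠ 1`,
`j = comp t0 ≠ C`.  The fibre of `q1` has `P`: otherwise (`mono`) `¬ P`, and `deg` for an edge between `C`
and `q1` (even label) says `z C * z q1 ≠ 1`.  So `j ≠ q1`, `j` is not a cone, its fibre is `{t0}`; edges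
between `C` and `j`, and between `q1` and `j`: `‖z C‖ * ‖z j‖ = 1 = ‖z q1‖ * ‖z j‖`, so `‖z C‖ = ‖z q1‖`,
but `‖z C‖ * ‖z q1‖ = 1`, `‖z C‖ ≠ 1`: contradiction. -/
def S_Cls : Prop := ∀ (S V : Type) [Fintype V] [DecidableEq V] (Γ : LGraph V) (Λ : LGraph S)
  (comp : S → V) (M N : Matrix V V ℤ) (C q1 : V) (p : ℕ) (ω : ℂˣ) (μ : ℤ) (S1 S2 : V → Prop)
  (σ : Finset V) (τ ε : ℤ), ConeData Γ Λ comp M N C → Om p ω → Cone Γ q1 → q1 ≠ C →
  YData Γ M C q1 p ω μ S1 S2 → (∀ v, Cone Γ v → ¬ S2 v) → σ.Nonempty →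
  (∀ v ∈ σ, Cone Γ v ∧ S1 v) → (∀ v ∈ σ, (2 * p : ℤ) ∣ M C v - τ) → (ε = 1 ∨ ε = -1) →
  (∀ i, Cone Γ i → ∑ v ∈ σ, N v i =
    ε * ((if i = C then 1 else 0) - (if i = q1 then 1 else 0))) → False

/-- **BCol** (from `BSub`, `Two`, `Cls`).  Proof: `P1 = {v | Cone v, S1 v}`, `I` = the cones `≠ q1`,
`f i v = N v i`, `g v = M C v`, `m = 2 p`.  For a cone `v`: `M q1 v = μ` if `v ∈ P1`, `0` otherwise, and
`2 p ∣ M C v` for `v ∉ P1` (`e1`, `e0`).  `∑_(P1) N v i = μ [i = q1]` (`D.sumMN`, `D.Noq`), modulo `2 p`: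
`∑_(P1) M C v * N v i = [i = C]`.  Last hypothesis of `Two`: `κ' v = κ v` on `P1`, `0` elsewhere, `D.orth`:
`κ' w = K * M q1 w = K μ` for `w ∈ P1`.  `Two`: `a, b ∈ P1`; `α = {v ∈ P1 | 2 p ∣ M C v - M C a}`,
`β = P1 \ α` (its elements have `2 p ∣ M C v - M C b`; `b ∈ β`).  `∑_α N v i = 0` for cones
`i ≠ C, q1`, `= -1` for `i = C`; `c := ∑_α N v q1`, `c` and `μ - c = ∑_β N v q1` are in `{0, 1, -1}`
(`BSub`); `∑_β N v C = 1`, `∑_β N v i = 0` otherwise.  `Cls` for `α`, `ε = -1`: `c ≠ 1`; for `β`, `ε = 1`: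
`μ - c ≠ -1`.  So `(μ, c)` is `(1, 0)` or `(-1, -1)`.  First case: `κ = 1_α`: `D.expand`, `D.Moq`:
`1_α w = - M C w` for all cones `w`.  Second case: `1_β w = M C w`.  In both cases the claim follows. -/
def S_BCol : Prop := ∀ (S V : Type) [Fintype V] [DecidableEq V] (Γ : LGraph V) (Λ : LGraph S)
  (comp : S → V) (M N : Matrix V V ℤ) (C q1 : V) (p : ℕ) (ω : ℂˣ) (μ : ℤ) (S1 S2 : V → Prop),
  ConeData Γ Λ comp M N C → Om p ω → Cone Γ q1 → q1 ≠ C → YData Γ M C q1 p ω μ S1 S2 →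
  (∀ v, Cone Γ v → ¬ S2 v) → ∀ v, Cone Γ v →
    (M C v = 0 ∧ M q1 v = 0) ∨ (M C v = 0 ∧ M q1 v = μ) ∨ (M C v = -μ ∧ M q1 v = μ)

/-- **XY** (from `Con`, `Mv`).  Proof: `z = (C ↦ 2 ω, q1 ↦ 2, i ↦ -1/2, else 1)`, colouring
`P s := comp s ≠ i`.  A bichromatic edge `s - t` with `z ≠ 1` has `comp t = i`, `comp s ∈ {C, q1}`; it is
the given edge (`D.heavy`, `label ≥ 4 p ≥ 3`), the label is even (`D.even_out`), the product is `-ω` or
`-1`, its power `label / 2` is `1` (`Om.four_dvd`; `label / 2` is even).  NAL(z), `y = pw M z`, NAG(y).  For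
a cone `v`: `y v = (2 ω)^(M C v) * 2^(M q1 v)` (`M i v = 0`): `1`, `2^μ` or `ω^(-μ)` in the three cases.
There is a cone `v` of the second kind: otherwise `M C v + M q1 v = 0` for all cones, but
`∑ v, (M C v + M q1 v) * N v C = 1`; and one, `a`, of the third kind: otherwise
`1 = ∑ v, M C v * N v C = 0`.  `Mv` for `Γ` at `v` (`‖y v‖ = 2^μ ≠ 1`): `P`, `w` with `¬ P w`, `y w ≠ 1`:
`‖y w‖ = 2^(-μ)` (`nrm` for `v - w`), so `w ≠ a`.  `y a ≠ 1`, `‖y a‖ = 1`.  `P a`: otherwise `nrm` for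
`v - a`.  Then `nrm` for `a - w`: `1 * 2^(-μ) = 1`: contradiction. -/
def S_XY : Prop := ∀ (S V : Type) [Fintype V] [DecidableEq V] (Γ : LGraph V) (Λ : LGraph S)
  (comp : S → V) (M N : Matrix V V ℤ) (C q1 i : V) (p : ℕ) (ω : ℂˣ) (μ : ℤ),
  ConeData Γ Λ comp M N C → Om p ω → Cone Γ q1 → q1 ≠ C → (μ = 1 ∨ μ = -1) →
  (∀ v, Cone Γ v →
    (M C v = 0 ∧ M q1 v = 0) ∨ (M C v = 0 ∧ M q1 v = μ) ∨ (M C v = -μ ∧ M q1 v = μ)) →
  ¬ Cone Γ i → (∃ s t, Λ.graph.Adj s t ∧ comp s = C ∧ comp t = i ∧ 4 * p ∣ Λ.label s(s, t)) →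
  (∃ s t, Λ.graph.Adj s t ∧ comp s = q1 ∧ comp t = i ∧ 4 * p ∣ Λ.label s(s, t)) → False

/-- **EndB** (from `Con`, `Mv`, `XY`).  Proof: `y = yc M C q1 ω`, `τ` = cones with `M C v = -μ`,
`M q1 v = μ`; `y' v = 1` for `v ∈ τ`, `y v` otherwise.  NAG(y'): `Con` with `P v := ¬ S2 v`; a bichromatic
edge `s - t` has `S1 s`, `S2 t`: `YData.deg`; `¬ P`: `ex2` (not in `τ`: cones are not in `S2`); `P`: a cone
`v` with `M C v = 0`, `M q1 v = μ` (exists, see `XY`).  `z = pw N y'`, NAL(z).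
`η := (-ω)^(-μ) * 2^μ` is the value of `y` on `τ`; `D i = ∑ v ∈ τ, N v i`; `z i = ch1 C q1 ω i * η^(-D i)`
(`y' = y * η^(-1_τ)`, `pw_mul`, `pw_zpow`, `D.pwNM`, `D.pw_ch1`).  For a cone `i`:
`[i = C] = ∑ v, M C v * N v i = -μ * D i`.  So `z C = (-ω) * η^μ = 2`, `z q1 = 2`, `z i = 1` for the other
cones, `z i = η^(-D i)`, `‖z i‖ = 2^(-μ D i)` for non-cones.  `Mv` at `C`: `P`.  The fibre of `q1` has `P`
(otherwise `nrm` for an edge between `C` and `q1`: `2 * 2 = 1`).  `t0` with `¬ P t0`,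
`z (comp t0) ≠ 1`: `j = comp t0` is not a cone, its fibre is `{t0}`.  Edge `s - t0` with `comp s = C`
(`D.coL`, `D.single`): `2 * ‖z j‖ = 1`, so `μ * D j = 1`, `z j = η^(-μ) = (-ω) * 2^(-1)`, `z C * z j = -ω`,
`deg`: `(-ω)^(label / 2) = 1`: `4 p ∣ label` (`Om.four_dvd`).  The same for `q1`.  `XY`. -/
def S_EndB : Prop := ∀ (S V : Type) [Fintype V] [DecidableEq V] (Γ : LGraph V) (Λ : LGraph S)
  (comp : S → V) (M N : Matrix V V ℤ) (C q1 : V) (p : ℕ) (ω : ℂˣ) (μ : ℤ) (S1 S2 : V → Prop),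
  ConeData Γ Λ comp M N C → Om p ω → Cone Γ q1 → q1 ≠ C → YData Γ M C q1 p ω μ S1 S2 →
  (∀ v, Cone Γ v → ¬ S2 v) → (∀ v, Cone Γ v →
    (M C v = 0 ∧ M q1 v = 0) ∨ (M C v = 0 ∧ M q1 v = μ) ∨ (M C v = -μ ∧ M q1 v = μ)) → False

/-! ## Case A: cones in `S1` and in `S2` -/

/-- **FourA** (from `Con`, `Mv`).  Proof: `y' v = (-ω)^(2 * M C v) * 2^(M q1 v)` for the cones `v` with `S1 v`
or `S2 v`, `1` elsewhere; colouring `P v := S1 v`.  `‖y' v‖ = 2^(±1)` at these cones, so `y' v ≠ 1`.  A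
bichromatic edge `s - t`: `S1 s`, `S2 t`; `y s * y t = (-ω)^n`, `n = M C s + M C t`
(`y = yc M C q1 ω`; `M q1 s = μ`, `M q1 t = -μ`), `YData.deg`: `2 p ∤ n`, `(-ω)^(n * half) = 1`;
`y' s * y' t = (-ω)^(2 n)`: its `half`-th power is `1`, and it is not `1`: `2 p ∣ 2 n` would give `p ∣ n`,
so `2 p ∣ n` or `2 p ∣ n - p`, excluded.  So NAG(y'), `z = pw N y'`, NAL(z).  For a cone `i`:
`z i = (-ω)^(2 [i = C]) * 2^([i = q1])`: `z i` only depends on `y'` at the cones (`D.pwN_congr`), where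
`y' v = (-ω)^(2 * M C v) * 2^(M q1 v)` (for the others by `e0`), and `D.sumMN`.  So `z C = ω²`, `z q1 = 2`,
`z i = 1` for the other cones.  `Mv` at `q1`: `P`.  `ω² ≠ 1`, `‖ω²‖ = 1`.  The fibre of `C` has one colour:
a bichromatic edge has an odd label `m` (`conn`, `odd_in`), `(-ω²)^m = 1`, so `(ω²)^m = -1`, and the
`p`-th power gives `1 = (-1)^p = -1` (`p` odd).  It is `P`: otherwise an edge between `q1` and `C`: `2 * 1
= 1`.  `t0` with `¬ P t0`, `z (comp t0) ≠ 1`: `j = comp t0` is not a cone, its fibre is `{t0}`; edges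
between `C` and `j`, `q1` and `j`: `1 * ‖z j‖ = 1 = 2 * ‖z j‖`: contradiction. -/
def S_FourA : Prop := ∀ (S V : Type) [Fintype V] [DecidableEq V] (Γ : LGraph V) (Λ : LGraph S)
  (comp : S → V) (M N : Matrix V V ℤ) (C q1 : V) (p : ℕ) (ω : ℂˣ) (μ : ℤ) (S1 S2 : V → Prop),
  ConeData Γ Λ comp M N C → Om p ω → Cone Γ q1 → q1 ≠ C → YData Γ M C q1 p ω μ S1 S2 →
  (∃ v, Cone Γ v ∧ S2 v) →
  (∀ a b, Cone Γ a → Cone Γ b → S1 a → S2 b → ¬ (2 * p : ℤ) ∣ M C a + M C b - p) → False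

/-- **HDx** (from `Con`, `Dc`).  Proof: for a cone `v`: `M q1 v = μ` on `P1`, `-μ` on `P2`, `0` elsewhere,
and `2 p ∣ M C v` elsewhere.  `zero`: `∑_(P1) N v i - ∑_(P2) N v i = μ ∑ v, M q1 v * N v i = 0`
(`D.Noq`, `D.sumMN`).  `sub`: `y' v = y v` for `v ∈ U1 ∪ U2`, `1` elsewhere; `Con` with `P v := S1 v`
(bichromatic edges: `YData.deg`); `Dc` with `e v = μ` on `U1`, `-μ` on `U2`, `0` elsewhere:
`∑ v, e v * N v i = μ (∑_(U1) N v i - ∑_(U2) N v i)`.  `gi`, `gC`: the signs cancel: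
`∑_(P1 ∪ P2) M C v * N v i`, modulo `2 p` equal to `∑ v, M C v * N v i = [C = i]`.  `gen`: `κ' v = κ v` on
`P1`, `- κ v` on `P2`, `0` elsewhere; `D.orth`: `κ' w = K * M q1 w` for cones, so `κ w = K μ` on
`P1 ∪ P2`.  `ne`: `a ∈ P1`, `b ∈ P2` are adjacent (cones, `a ≠ b` by `disj`), `YData.deg`:
`y a * y b = (-ω)^(M C a + M C b) ≠ 1` (`Om.neg_zpow`). -/
def S_HDx : Prop := ∀ (S V : Type) [Fintype V] [DecidableEq V] (Γ : LGraph V) (Λ : LGraph S)
  (comp : S → V) (M N : Matrix V V ℤ) (C q1 : V) (p : ℕ) (ω : ℂˣ) (μ : ℤ) (S1 S2 : V → Prop)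
  (P1 P2 I : Finset V),
  ConeData Γ Λ comp M N C → Om p ω → Cone Γ q1 → q1 ≠ C → YData Γ M C q1 p ω μ S1 S2 →
  (∀ v, v ∈ P1 ↔ Cone Γ v ∧ S1 v) → (∀ v, v ∈ P2 ↔ Cone Γ v ∧ S2 v) →
  (∀ i, i ∈ I ↔ Cone Γ i ∧ i ≠ q1) →
  HD P1 P2 I C (fun i v => if v ∈ P1 then N v i else -N v i)
    (fun v => if v ∈ P1 then M C v else -M C v) p

/-- **HBig.**  Proof: let `f = f i`, `F U = ∑ v ∈ U, f v`, `P = P1 ∪ P2`, `F P = 0`, so
`F U = - F (P \ U)`.  If `U` meets `P1` and `P2`, or `P \ U` does, `T3 (F U)` by `sub`.  Otherwise `U` is `∅`,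
`P`, `P1` or `P2`; `F P2 = - F P1`, so let `U = P1`, and (symmetry `F P1 = - F P2`) `3 ≤ |P1|`.  For `a ∈ P1`
both `{a}` and `P1 \ {a}` are proper nonempty subsets of `P1`, so (their complements meet `P1` and
`P2`) `f a` and `F P1 - f a` are in `{0, 1, -1}`.  If `F P1 = 2`, then `f a = 1` for all `a ∈ P1`, so
`F P1 = |P1| ≥ 3`; similarly for `-2`; and `|F P1| ≤ 2`. -/
def S_HBig : Prop := ∀ (X ι : Type) [DecidableEq X] (P1 P2 : Finset X) (I : Finset ι) (C : ι)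
  (f : ι → X → ℤ) (g : X → ℤ) (p : ℕ), HD P1 P2 I C f g p → P1.Nonempty → P2.Nonempty →
  (3 ≤ P1.card ∨ 3 ≤ P2.card) → ∀ i ∈ I, ∀ U ⊆ P1 ∪ P2, T3 (∑ v ∈ U, f i v)

/-- **Haa.**  Proof: `f C b = - f C a` (`zero`), `2 p ∣ f C a (g a - g b) - 1`; with
`2 p ∣ g a - g b - p` this gives `p ∣ 1`. -/
def S_Haa : Prop := ∀ (X ι : Type) [DecidableEq X] (a b : X) (I : Finset ι) (C : ι)
  (f : ι → X → ℤ) (g : X → ℤ) (p : ℕ), HD {a} {b} I C f g p → ¬ (2 * p : ℤ) ∣ g a - g b - p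

/-- **Hab.**  Proof: suppose `2 p ∣ g a - g b - p`.  For `i ∈ I`, `f = f i`: `f a + f b + f b' = 0`, and
`sub` with `U1 = {a}`, `U2 = {b}`, `{b'}`: `f b'`, `f b` are in `{0, 1, -1}`.
`∑ g * f = f b (g b - g a) + f b' (g b' - g a)`.  For `i = C`, modulo `p`: `f C b' (g b' - g a) = 1`, so
`p ∤ g b' - g a` and `f C b' ≠ 0`.  For `i ≠ C`, modulo `p`: `p ∣ f b' (g b' - g a)`, so `p ∣ f b'`,
`f b' = 0`; then `2 p ∣ f b (g b - g a)`, and `g b - g a` is `p` modulo `2 p`, so `f b` is even,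
`f b = 0`, `f a = 0`.  `κ a = 0`, `κ b = f C b'`, `κ b' = - f C b`: orthogonal to all `f i`, so
`κ a = κ b`, contradiction.  (`a ∉ {b, b'}` by `disj`.) -/
def S_Hab : Prop := ∀ (X ι : Type) [DecidableEq X] (a b b' : X) (I : Finset ι) (C : ι)
  (f : ι → X → ℤ) (g : X → ℤ) (p : ℕ), b ≠ b' → HD {a} {b, b'} I C f g p →
  ¬ (2 * p : ℤ) ∣ g a - g b - p

/-- **Hbb.**  Proof: suppose `2 p ∣ g a - g b - p`.  For `i ∈ I` let `(x1, x2, x3, x4)` be the values of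
`f i` at `a, a', b, b'`: the sum is `0`, all are in `{0, 1, -1}` (`sub` for `U1 = {a'}`, `U2 = {b, b'}` gives
`x1`, and so on), and `x1 + x3`, `x1 + x4`, `x2 + x3`, `x2 + x4` are in `{0, 1, -1}`.  So it is `0`,
`e_v - e_w` or `±(1, 1, -1, -1)`.  For `i ≠ C`: `e_v - e_w` with `v`, `w` on different sides is excluded by
`ne`, so it is `0` or `±` one of the types (A) `(1, -1, 0, 0)`: `2 p ∣ g a - g a'`; (B) `(0, 0, 1, -1)`:
`2 p ∣ g b - g b'`; (D) `(1, 1, -1, -1)`: `2 p ∣ g a + g a' - g b - g b'`.  If two different types occur,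
then (with `p ∣ g a - g b`) all of `g a, g a', g b, g b'` are equal modulo `p`, so `p ∣ ∑ g * f C`
(sum of `f C` is `0`), contradiction to `gC`.  Hence at most one type occurs; let `x` be the values of
`f C`.  Only (A) (or nothing): `κ = (0, 0, x4, -x3)` is orthogonal to all, so constant: `x3 = x4 = 0`;
then `κ = (0, 0, 1, 0)` too: contradiction.  Only (B): `κ = (x2, -x1, 0, 0)`, then `(1, 0, 0, 0)`.  Only
(D): `κ = (x3 - x4, x4 - x3, x2 - x1, x1 - x2)`: `x3 = x4`, `x1 = x2`, then `κ = (1, -1, 0, 0)`. -/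
def S_Hbb : Prop := ∀ (X ι : Type) [DecidableEq X] (a a' b b' : X) (I : Finset ι) (C : ι)
  (f : ι → X → ℤ) (g : X → ℤ) (p : ℕ), a ≠ a' → b ≠ b' → HD {a, a'} {b, b'} I C f g p →
  ¬ (2 * p : ℤ) ∣ g a - g b - p

/-- **HAll** (from `Two`, `HBig`, `Haa`, `Hab`, `Hbb`).  Proof: if `|P1| ≥ 3` or `|P2| ≥ 3`: `HBig`, `Two` with
`m = 2 p`: `g a` and `g b` are each congruent to one of two numbers which differ by `1`, and not
congruent to each other (`ne`), so `2 p` divides `g a - g b - 1` or `g a - g b + 1`, and `2 p ∤ p - 1`,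
`2 p ∤ p + 1` (`3 ≤ p`).  Otherwise `P1 = {a}` or `{a, a'}`, `P2 = {b}` or `{b, b'}`
(`Finset.card_eq_one`, `Finset.card_eq_two`, `Finset.pair_comm`).  For `P1 = {a, a'}`, `P2 = {b}`:
`HD` is symmetric in `P1`, `P2` (`Finset.union_comm`, `add_comm`, `dvd_neg`), `Hab` gives
`¬ 2 p ∣ g b - g a - p`. -/
def S_HAll : Prop := ∀ (X ι : Type) [DecidableEq X] (P1 P2 : Finset X) (I : Finset ι) (C : ι)
  (f : ι → X → ℤ) (g : X → ℤ) (p : ℕ), HD P1 P2 I C f g p → ∀ a ∈ P1, ∀ b ∈ P2,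
  ¬ (2 * p : ℤ) ∣ g a - g b - p

/-! ## Assembly -/

/-- **StA** (from `YN`, `YD`, `BCol`, `EndB`, `FourA`, `HDx`, `HAll`).  Step I.  Proof: `YN`, `YD`: `μ`, `S1`,
`S2`.  No cone in `S2`: `BCol`, `EndB`.  Otherwise `HDx`, `HAll` for `P1`, `P2`, `I` = the filters of `univ`
(classical): for `a ∈ P1`, `b ∈ P2` (`b ∉ P1`) `g a - g b - p = M C a + M C b - p`; `FourA`. -/
def S_StA : Prop := ∀ (S V : Type) [Fintype V] [DecidableEq V] (Γ : LGraph V) (Λ : LGraph S)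
  (comp : S → V) (M N : Matrix V V ℤ) (C q1 : V) (p : ℕ) (ω : ℂˣ) (c : S → Prop),
  ConeData Γ Λ comp M N C → Om p ω → Adm Λ comp C p c → Cone Γ q1 → q1 ≠ C →
  (∀ s t, Λ.graph.Adj s t → comp s = C → comp t = q1 → c s) → False

/-- **FinC** (from `StA`, `StB`).  Proof: `D.bridge`: `P`, `s0`, `t0`; the label `m` of `s0 - t0` is odd
(`D.odd_in`) and `≥ 2`; `p = m.minFac` is an odd prime, `ω` = a primitive `p`-th root of unity
(`Complex.isPrimitiveRoot_exp`, as a unit; `Om`).  `P` is admissible (`s0 - t0` is the only bichromatic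
edge).  `StB`: `¬ HII`: an admissible `c` and a cone `q ≠ C` such that there is no edge `s - t` with
`comp s = C`, `comp t = q`, `c s`, or none with `¬ c s`.  In the second case `StA` for `c`; in the first
case `StA` for `¬ c`, which is admissible too (the edge `t - s`, `Sym2.eq_swap`). -/
def S_FinC : Prop := ∀ (S V : Type) [Fintype V] [DecidableEq V] (Γ : LGraph V) (Λ : LGraph S)
  (comp : S → V) (M N : Matrix V V ℤ) (C : V), ConeData Γ Λ comp M N C → False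

end WGOne
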