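import Pool.Agent.Lib.MP_107652_al.One.SpecC

/-!
# Step I: the shape of the colouring of the character `yc M C q1 ω`
-/

set_option autoImplicit false

namespace WGOne

open WGirth

theorem pYD : S_Mv → S_YD := by
  intro hMv S V _ _ Γ Λ comp M N C q1 p ω D hω hq1 hNA
  obtain ⟨y, hy⟩ : ∃ y : V → ℂˣ, y = yc M C q1 ω := ⟨_, rfl⟩
  have hny : ∀ v, ‖(y v : ℂ)‖ = (2 : ℝ) ^ M q1 v := by
    intro v
    rw [hy]
    unfold yc
    rw [Units.val_mul, norm_mul, norm_u2, Units.val_zpow_eq_zpow_val, norm_zpow, hω.norm_neg,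
      one_zpow, one_mul]
  have hsum := D.sumMN q1 q1
  rw [if_pos rfl] at hsum
  obtain ⟨v1, hv1, hμ0⟩ : ∃ v1, Cone Γ v1 ∧ M q1 v1 ≠ 0 := by
    by_contra hc
    push Not at hc
    have h0 : ∑ v, M q1 v * N v q1 = 0 := by
      refine Finset.sum_eq_zero fun v _ => ?_
      by_cases h1 : Cone Γ v
      · rw [hc v h1, zero_mul]
      · rw [D.Noq h1 hq1, mul_zero]
    rw [h0] at hsum
    exact absurd hsum (by norm_num)
  have hn1 : ‖(y v1 : ℂ)‖ ≠ 1 := by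
    rw [hny]
    intro h1
    exact hμ0 (two_zpow.mp h1)
  obtain ⟨P, hP⟩ := hMv V V Γ id y v1 (csG D.even) (coG hv1) hn1 (by rw [hy]; exact hNA)
  have hy1 : y v1 ≠ 1 := by
    intro h1
    apply hn1
    rw [h1, Units.val_one, norm_one]
  have hP1 : P v1 := hP.own v1 rfl
  have nrm : ∀ v w, Γ.graph.Adj v w → P v → ¬ P w → y v ≠ 1 → y w ≠ 1 →
      M q1 v + M q1 w = 0 := by
    intro v w hvw h1 h2 h3 h4
    have h5 : ‖(y v : ℂ)‖ * ‖(y w : ℂ)‖ = 1 := hP.nrm v w hvw h1 h2 h3 h4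
    rw [hny, hny, ← zpow_add₀ two_ne_zero] at h5
    exact two_zpow.mp h5
  have e2 : ∀ w, ¬ P w → y w ≠ 1 → M q1 w = -M q1 v1 := by
    intro w hw hyw
    have hne : w ≠ v1 := fun h1 => hw (h1 ▸ hP1)
    have h2 := nrm v1 w (hv1 w hne) hP1 hw hy1 hyw
    omega
  obtain ⟨w0, hw0, hyw0⟩ := hP.ex
  have hyw0' : y w0 ≠ 1 := hyw0
  have e1 : ∀ v, Cone Γ v → P v → y v ≠ 1 → M q1 v = M q1 v1 := by
    intro v hv hPv hyv
    have hne : w0 ≠ v := fun h1 => hw0 (h1 ▸ hPv)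
    have h2 := nrm v w0 (hv w0 hne) hPv hw0 hyv hyw0'
    have h3 := e2 w0 hw0 hyw0'
    omega
  have e0 : ∀ v, y v = 1 → M q1 v = 0 ∧ (2 * p : ℤ) ∣ M C v := by
    intro v hv
    have h1 : M q1 v = 0 := by
      have h2 := hny v
      rw [hv, Units.val_one, norm_one] at h2
      exact two_zpow.mp h2.symm
    refine ⟨h1, ?_⟩
    rw [hy] at hv
    unfold yc at hv
    rw [h1, zpow_zero, mul_one] at hv
    exact hω.neg_zpow.mp hv
  have hμ : M q1 v1 ∣ 1 := by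
    rw [← hsum]
    refine Finset.dvd_sum fun v _ => ?_
    by_cases h1 : Cone Γ v
    · refine Dvd.dvd.mul_right ?_ _
      by_cases h2 : y v = 1
      · rw [(e0 v h2).1]
        exact dvd_zero _
      · by_cases h3 : P v
        · rw [e1 v h1 h3 h2]
        · rw [e2 v h3 h2]
          exact dvd_neg.mpr dvd_rfl
    · rw [D.Noq h1 hq1, mul_zero]
      exact dvd_zero _
  have hμ' : M q1 v1 = 1 ∨ M q1 v1 = -1 := Int.isUnit_iff.mp (isUnit_of_dvd_one hμ)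
  refine ⟨M q1 v1, fun v => P v ∧ y v ≠ 1, fun v => ¬ P v ∧ y v ≠ 1, hμ', ?_, ?_, ?_, ?_, ?_, ?_,
    ?_, ?_⟩
  · intro v
    rw [← hy]
    by_cases h1 : P v
    · exact ⟨fun h2 => Or.inl ⟨h1, h2⟩, fun h2 => h2.elim (fun h3 => h3.2) fun h3 => h3.2⟩
    · exact ⟨fun h2 => Or.inr ⟨h1, h2⟩, fun h2 => h2.elim (fun h3 => h3.2) fun h3 => h3.2⟩
  · intro v h1 h2
    exact h2.1 h1.1
  · exact ⟨v1, hv1, hP1, hy1⟩
  · exact ⟨w0, hw0, hyw0'⟩
  · intro v hv h1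
    exact e1 v hv h1.1 h1.2
  · intro v h1
    exact e2 v h1.1 h1.2
  · intro v h1 h2
    refine e0 v ?_
    by_contra h3
    by_cases h4 : P v
    · exact h1 ⟨h4, h3⟩
    · exact h2 ⟨h4, h3⟩
  · intro v w hvw h1 h2
    rw [← hy]
    have h3 : Dg (Γ.label s(v, w)) (y v) (y w) := hP.deg v w hvw h1.1 h2.1 h1.2 h2.2
    rcases h3 with ⟨-, h4, h5⟩ | ⟨h4, -, -⟩
    · exact ⟨h4, h5⟩
    · exact absurd (D.even v w hvw) h4

end WGOne
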